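import Mathlib

set_option autoImplicit false

/-!
# The lopsided local lemma (symmetric form)

* `lll_abstract`: for a monotone, subadditive-on-splittings set function.
* `lll_resample`: for a finite set of configurations `V → α`, with resampling sets `R i`.
-/

namespace Pool.Agent.MP_e50225_co

section Abstract

variable {Ω ι : Type*}

/-- Configurations avoiding all bad events of `S`. -/
def avoid (A : ι → Set Ω) (S : Finset ι) : Set Ω := {ω | ∀ j ∈ S, ω ∉ A j}

theorem avoid_mono (A : ι → Set Ω) {S T : Finset ι} (h : S ⊆ T) : avoid A T ⊆ avoid A S :=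
  fun _ hω j hj => hω j (h hj)

theorem le_avoid_add_sum [DecidableEq ι] (m : Set Ω → ℝ)
    (A : ι → Set Ω) (hsplit : ∀ i s, m s ≤ m (s ∩ A i) + m (s \ A i))
    (hmono : ∀ s t, s ⊆ t → m s ≤ m t)
    (s : Set Ω) (T : Finset ι) :
    m s ≤ m (s ∩ avoid A T) + ∑ j ∈ T, m (A j ∩ s) := by
  induction T using Finset.induction_on with
  | empty => simp [avoid]
  | insert a T ha ih =>
    rw [Finset.sum_insert ha]
    have h1 := hsplit a (s ∩ avoid A T)
    have h2 : m (s ∩ avoid A T ∩ A a) ≤ m (A a ∩ s) :=
      hmono _ _ (fun ω hω => ⟨hω.2, hω.1.1⟩)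
    have h3 : m ((s ∩ avoid A T) \ A a) ≤ m (s ∩ avoid A (insert a T)) := by
      apply hmono
      rintro ω ⟨⟨h4, h5⟩, h6⟩
      refine ⟨h4, fun j hj => ?_⟩
      rcases Finset.mem_insert.mp hj with rfl | hj
      · exact h6
      · exact h5 j hj
    linarith

/-- Symmetric lopsided local lemma, abstract form. -/
theorem lll_abstract [DecidableEq ι] (m : Set Ω → ℝ)
    (hmono : ∀ s t, s ⊆ t → m s ≤ m t) (hnonneg : ∀ s, 0 ≤ m s)
    (A : ι → Set Ω) (hsplit : ∀ i s, m s ≤ m (s ∩ A i) + m (s \ A i))
    (Γ : ι → Finset ι) (d : ℕ) (hΓ : ∀ i, (Γ i).card ≤ d)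
    (p : ℝ) (hp : 0 ≤ p) (hp4 : p ≤ 1 / 4) (hpd : 4 * p * d ≤ 1)
    (hlop : ∀ i (S : Finset ι), i ∉ S → (∀ j ∈ S, j ∉ Γ i) →
      m (A i ∩ avoid A S) ≤ p * m (avoid A S))
    (huniv : 0 < m Set.univ) (S : Finset ι) : 0 < m (avoid A S) := by
  have key : ∀ n : ℕ, ∀ S : Finset ι, S.card = n → ∀ i, i ∉ S →
      m (A i ∩ avoid A S) ≤ 2 * p * m (avoid A S) := by
    intro n
    induction n using Nat.strong_induction_on with
    | _ n ih =>
      intro S hS i hi
      have h1 : m (A i ∩ avoid A S) ≤ m (A i ∩ avoid A (S \ Γ i)) :=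
        hmono _ _ (Set.inter_subset_inter_right _ (avoid_mono A Finset.sdiff_subset))
      have h2 : m (A i ∩ avoid A (S \ Γ i)) ≤ p * m (avoid A (S \ Γ i)) := by
        apply hlop
        · intro h; exact hi (Finset.mem_sdiff.mp h).1
        · intro j hj; exact (Finset.mem_sdiff.mp hj).2
      have h3 : m (avoid A (S \ Γ i)) ≤ 2 * m (avoid A S) := by
        by_cases hne : S ∩ Γ i = ∅
        · have : S \ Γ i = S := by
            rw [Finset.sdiff_eq_self_iff_disjoint, Finset.disjoint_iff_inter_eq_empty]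
            exact hne
          rw [this]
          have := hnonneg (avoid A S)
          linarith
        · have hlt : (S \ Γ i).card < n := by
            rw [← hS]
            apply Finset.card_lt_card
            rw [Finset.ssubset_iff_subset_ne]
            refine ⟨Finset.sdiff_subset, fun h => hne ?_⟩
            rw [Finset.sdiff_eq_self_iff_disjoint, Finset.disjoint_iff_inter_eq_empty] at h
            exact h
          have h4 := le_avoid_add_sum m A hsplit hmono (avoid A (S \ Γ i)) (S ∩ Γ i)
          have h5 : avoid A (S \ Γ i) ∩ avoid A (S ∩ Γ i) ⊆ avoid A S := by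
            rintro ω ⟨h6, h7⟩ j hj
            by_cases hjΓ : j ∈ Γ i
            · exact h7 j (Finset.mem_inter.mpr ⟨hj, hjΓ⟩)
            · exact h6 j (Finset.mem_sdiff.mpr ⟨hj, hjΓ⟩)
          have h6 := hmono _ _ h5
          have h7 : ∑ j ∈ S ∩ Γ i, m (A j ∩ avoid A (S \ Γ i)) ≤
              ∑ _j ∈ S ∩ Γ i, 2 * p * m (avoid A (S \ Γ i)) := by
            apply Finset.sum_le_sum
            intro j hj
            refine ih _ hlt _ rfl j ?_
            intro h
            exact (Finset.mem_sdiff.mp h).2 (Finset.mem_inter.mp hj).2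
          rw [Finset.sum_const, nsmul_eq_mul] at h7
          have h8 : ((S ∩ Γ i).card : ℝ) ≤ d := by
            have : (S ∩ Γ i).card ≤ d :=
              (Finset.card_le_card Finset.inter_subset_right).trans (hΓ i)
            exact_mod_cast this
          have h9 := hnonneg (avoid A (S \ Γ i))
          have h10 : ((S ∩ Γ i).card : ℝ) * (2 * p * m (avoid A (S \ Γ i))) ≤
              (1 / 2) * m (avoid A (S \ Γ i)) := by
            have h11 : ((S ∩ Γ i).card : ℝ) * (2 * p) ≤ 1 / 2 := by
              have : ((S ∩ Γ i).card : ℝ) * (2 * p) ≤ d * (2 * p) :=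
                mul_le_mul_of_nonneg_right h8 (by linarith)
              nlinarith
            calc ((S ∩ Γ i).card : ℝ) * (2 * p * m (avoid A (S \ Γ i)))
                = (((S ∩ Γ i).card : ℝ) * (2 * p)) * m (avoid A (S \ Γ i)) := by ring
              _ ≤ (1 / 2) * m (avoid A (S \ Γ i)) := mul_le_mul_of_nonneg_right h11 h9
          linarith
      calc m (A i ∩ avoid A S) ≤ p * m (avoid A (S \ Γ i)) := h1.trans h2
        _ ≤ p * (2 * m (avoid A S)) := mul_le_mul_of_nonneg_left h3 hp
        _ = 2 * p * m (avoid A S) := by ring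
  induction S using Finset.induction_on with
  | empty => simpa [avoid] using huniv
  | insert a S ha ih =>
    have h1 := key _ S rfl a ha
    have h2 := hsplit a (avoid A S)
    have h3 : m (avoid A S ∩ A a) ≤ m (A a ∩ avoid A S) := hmono _ _ (fun ω hω => ⟨hω.2, hω.1⟩)
    have h4 : m (avoid A S \ A a) ≤ m (avoid A (insert a S)) := by
      apply hmono
      rintro ω ⟨h5, h6⟩ j hj
      rcases Finset.mem_insert.mp hj with rfl | hj
      · exact h6
      · exact h5 j hj
    nlinarith

end Abstract

section Resample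

variable {V α ι : Type*}

open Classical in
/-- Symmetric lopsided local lemma for the uniform distribution on a finite nonempty set `W` of
configurations `V → α`. `R i` is a set of vertices which is resampled for the event `A i`; every
event `A j` with `j ∉ Γ i`, `j ≠ i` must not depend on the values on `R i`, and given the values
off `R i` the proportion of configurations in `A i` is at most `p`. -/
theorem lll_resample [Finite ι] (W : Finset (V → α)) (hW : W.Nonempty)
    (A : ι → (V → α) → Prop) (R : ι → Set V) (Γ : ι → Finset ι)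
    (d : ℕ) (hΓ : ∀ i, (Γ i).card ≤ d)
    (p : ℝ) (hp : 0 ≤ p) (hp4 : p ≤ 1 / 4) (hpd : 4 * p * d ≤ 1)
    (hdet : ∀ i j, j ≠ i → j ∉ Γ i → ∀ f ∈ W, ∀ f' ∈ W, (∀ x ∉ R i, f x = f' x) →
      (A j f → A j f'))
    (hbad : ∀ i, ∀ f₀ ∈ W,
      ((W.filter (fun f => (∀ x ∉ R i, f x = f₀ x) ∧ A i f)).card : ℝ) ≤
        p * ((W.filter (fun f => ∀ x ∉ R i, f x = f₀ x)).card : ℝ)) :
    ∃ f ∈ W, ∀ i, ¬ A i f := by
  have hfin := Fintype.ofFinite ι
  set m : Set (V → α) → ℝ := fun s => ((W.filter (fun f => f ∈ s)).card : ℝ) with hm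
  have hmono : ∀ s t, s ⊆ t → m s ≤ m t := by
    intro s t hst
    simp only [hm]
    exact_mod_cast Finset.card_le_card
      (Finset.monotone_filter_right _ (fun f hf h => hst h))
  have hpos := lll_abstract m hmono (fun s => by simp only [hm]; positivity)
    (fun i => {f | A i f}) ?_ Γ d hΓ p hp hp4 hpd ?_ ?_ Finset.univ
  · simp only [hm, Nat.cast_pos, Finset.card_pos] at hpos
    obtain ⟨f, hf⟩ := hpos
    rw [Finset.mem_filter] at hf
    exact ⟨f, hf.1, fun i => hf.2 i (Finset.mem_univ i)⟩
  · intro i s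
    simp only [hm]
    have : W.filter (fun f => f ∈ s) ⊆ W.filter (fun f => f ∈ s ∩ {f | A i f}) ∪
        W.filter (fun f => f ∈ s \ {f | A i f}) := by
      intro f hf
      rw [Finset.mem_filter] at hf
      rw [Finset.mem_union, Finset.mem_filter, Finset.mem_filter]
      by_cases h : A i f
      · exact Or.inl ⟨hf.1, hf.2, h⟩
      · exact Or.inr ⟨hf.1, hf.2, h⟩
    have h1 := (Finset.card_le_card this).trans (Finset.card_union_le _ _)
    have h2 : ((W.filter (fun f => f ∈ s)).card : ℝ) ≤
        ((W.filter (fun f => f ∈ s ∩ {f | A i f})).card : ℝ) +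
        ((W.filter (fun f => f ∈ s \ {f | A i f})).card : ℝ) := by exact_mod_cast h1
    convert h2
  · intro i S hiS hS
    -- fibre map
    set ρ : (V → α) → (V → Option α) := fun f x => if x ∈ R i then none else some (f x) with hρ
    have hρiff : ∀ f f' : V → α, ρ f = ρ f' ↔ ∀ x ∉ R i, f x = f' x := by
      intro f f'
      constructor
      · intro h x hx
        have := congrFun h x
        simp only [hρ, if_neg hx, Option.some.injEq] at this
        exact this
      · intro h
        funext x
        by_cases hx : x ∈ R i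
        · simp only [hρ, if_pos hx]
        · simp only [hρ, if_neg hx, h x hx]
    set N : Finset (V → α) := W.filter (fun f => f ∈ avoid (fun i => {f | A i f}) S) with hN
    have hsub : m ({f | A i f} ∩ avoid (fun i => {f | A i f}) S) =
        ((N.filter (fun f => A i f)).card : ℝ) := by
      simp only [hm, Nat.cast_inj]
      apply congrArg Finset.card
      ext f
      simp only [hN, Finset.mem_filter, Set.mem_inter_iff, Set.mem_ofPred_eq]
      tauto
    have hsub' : m (avoid (fun i => {f | A i f}) S) = (N.card : ℝ) := by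
      simp only [hm, hN]
    rw [hsub, hsub']
    have h1 : (N.filter (fun f => A i f)).card =
        ∑ g ∈ N.image ρ, ((N.filter (fun f => A i f)).filter (fun f => ρ f = g)).card := by
      apply Finset.card_eq_sum_card_fiberwise
      intro f hf
      exact Finset.mem_coe.mpr (Finset.mem_image_of_mem ρ (Finset.mem_filter.mp hf).1)
    have h2 : N.card = ∑ g ∈ N.image ρ, (N.filter (fun f => ρ f = g)).card := by
      apply Finset.card_eq_sum_card_fiberwise
      intro f hf
      exact Finset.mem_coe.mpr (Finset.mem_image_of_mem ρ hf)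
    rw [h1, h2]
    push_cast
    rw [Finset.mul_sum]
    apply Finset.sum_le_sum
    intro g hg
    obtain ⟨f₀, hf₀, rfl⟩ := Finset.mem_image.mp hg
    have hf₀' := Finset.mem_filter.mp hf₀
    have e1 : N.filter (fun f => ρ f = ρ f₀) = W.filter (fun f => ∀ x ∉ R i, f x = f₀ x) := by
      ext f
      simp only [hN, Finset.mem_filter, hρiff]
      constructor
      · rintro ⟨⟨a1, -⟩, a3⟩
        exact ⟨a1, a3⟩
      · rintro ⟨a1, a3⟩
        refine ⟨⟨a1, fun j hj hAj => ?_⟩, a3⟩
        refine hf₀'.2 j hj ?_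
        have hji : j ≠ i := fun h => hiS (h ▸ hj)
        exact hdet i j hji (hS j hj) f a1 f₀ hf₀'.1 a3 hAj
    have e2 : (N.filter (fun f => A i f)).filter (fun f => ρ f = ρ f₀) =
        W.filter (fun f => (∀ x ∉ R i, f x = f₀ x) ∧ A i f) := by
      ext f
      have := Finset.ext_iff.mp e1 f
      simp only [Finset.mem_filter] at this ⊢
      tauto
    rw [e1, e2]
    exact hbad i f₀ hf₀'.1
  · simp only [hm, Set.mem_univ, Finset.filter_true, Nat.cast_pos, Finset.card_pos]
    exact hW

end Resample

open Classical in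
/-- Lopsided local lemma, counting form. -/
theorem lll {Ω ι : Type*} [Fintype ι] (W : Finset Ω) (hW : W.Nonempty) (A : ι → Ω → Prop)
    (Γ : ι → Finset ι) (p : ℝ) (m : ℕ) (hm1 : 1 ≤ m) (hm : ∀ i, (Γ i).card ≤ m)
    (hp0 : 0 ≤ p) (hp : 4 * p * (m : ℝ) ≤ 1)
    (h : ∀ i, ∀ S : Finset ι, i ∉ S → Disjoint S (Γ i) →
      ((W.filter (fun ω => A i ω ∧ ∀ j ∈ S, ¬ A j ω)).card : ℝ) ≤
        p * ((W.filter (fun ω => ∀ j ∈ S, ¬ A j ω)).card : ℝ)) :
    ∃ ω ∈ W, ∀ i, ¬ A i ω := by
  set M : Set Ω → ℝ := fun s => ((W.filter (fun f => f ∈ s)).card : ℝ) with hM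
  have hp4 : p ≤ 1 / 4 := by
    have : (1 : ℝ) ≤ m := by exact_mod_cast hm1
    nlinarith
  have hmono : ∀ s t, s ⊆ t → M s ≤ M t := by
    intro s t hst
    simp only [hM]
    exact_mod_cast Finset.card_le_card
      (Finset.monotone_filter_right _ (fun f hf h => hst h))
  have hpos := lll_abstract M hmono (fun s => by simp only [hM]; positivity)
    (fun i => {f | A i f}) ?_ Γ m hm p hp0 hp4 hp ?_ ?_ Finset.univ
  · simp only [hM, Nat.cast_pos, Finset.card_pos] at hpos
    obtain ⟨f, hf⟩ := hpos
    rw [Finset.mem_filter] at hf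
    exact ⟨f, hf.1, fun i => hf.2 i (Finset.mem_univ i)⟩
  · intro i s
    simp only [hM]
    have : W.filter (fun f => f ∈ s) ⊆ W.filter (fun f => f ∈ s ∩ {f | A i f}) ∪
        W.filter (fun f => f ∈ s \ {f | A i f}) := by
      intro f hf
      rw [Finset.mem_filter] at hf
      rw [Finset.mem_union, Finset.mem_filter, Finset.mem_filter]
      by_cases h : A i f
      · exact Or.inl ⟨hf.1, hf.2, h⟩
      · exact Or.inr ⟨hf.1, hf.2, h⟩
    have h1 := (Finset.card_le_card this).trans (Finset.card_union_le _ _)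
    have h2 : ((W.filter (fun f => f ∈ s)).card : ℝ) ≤
        ((W.filter (fun f => f ∈ s ∩ {f | A i f})).card : ℝ) +
        ((W.filter (fun f => f ∈ s \ {f | A i f})).card : ℝ) := by exact_mod_cast h1
    convert h2
  · intro i S hiS hS
    have hdisj : Disjoint S (Γ i) := Finset.disjoint_left.mpr (fun j hj hj' => hS j hj hj')
    have e1 : M ({f | A i f} ∩ avoid (fun i => {f | A i f}) S) =
        ((W.filter (fun ω => A i ω ∧ ∀ j ∈ S, ¬ A j ω)).card : ℝ) := by
      simp only [hM, Nat.cast_inj]
      apply congrArg Finset.card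
      ext f
      simp only [Finset.mem_filter, Set.mem_inter_iff, Set.mem_ofPred_eq, avoid]
    have e2 : M (avoid (fun i => {f | A i f}) S) =
        ((W.filter (fun ω => ∀ j ∈ S, ¬ A j ω)).card : ℝ) := by
      simp only [hM, Nat.cast_inj]
      apply congrArg Finset.card
      ext f
      (simp only [Finset.mem_filter, Set.mem_ofPred_eq, avoid]) <;>
        exact @Finset.mem_filter _ _ (_) _ _
    rw [e1, e2]
    exact h i S hiS hdisj
  · simp only [hM, Set.mem_univ, Finset.filter_true, Nat.cast_pos, Finset.card_pos]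
    exact hW

end Pool.Agent.MP_e50225_co
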