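import Pool.Agent.MP_e50225_co.Defs
import Pool.Agent.MP_e50225_co.LLL

set_option autoImplicit false

namespace Pool.Agent.MP_e50225_co

open Finset

namespace LLLProduct

open Classical in
/-- Independence of events depending on complementary sets of coordinates (counting form). -/
theorem card_and_mul_card {κ α : Type*} [Fintype κ] [DecidableEq κ] [Fintype α]
    (T : Finset κ) (A B : (κ → α) → Prop)
    (hA : ∀ ω ω', (∀ k ∈ T, ω k = ω' k) → (A ω ↔ A ω'))
    (hB : ∀ ω ω', (∀ k ∉ T, ω k = ω' k) → (B ω ↔ B ω')) :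
    ((univ.filter (fun ω : κ → α => A ω ∧ B ω)).card) * Fintype.card (κ → α) =
      (univ.filter (fun ω : κ → α => A ω)).card * (univ.filter (fun ω : κ → α => B ω)).card := by
  rw [← Finset.card_univ, ← Finset.card_product, ← Finset.card_product]
  set σ : (κ → α) × (κ → α) → (κ → α) × (κ → α) := fun q =>
    (fun k => if k ∈ T then q.1 k else q.2 k, fun k => if k ∈ T then q.2 k else q.1 k) with hσ
  have hinv : ∀ q, σ (σ q) = q := by
    intro q
    simp only [hσ]
    ext k
    · by_cases hk : k ∈ T <;> simp [hk]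
    · by_cases hk : k ∈ T <;> simp [hk]
  have h1 : ∀ q, (A (σ q).1 ↔ A q.1) := fun q => hA _ _ (fun k hk => by simp [hσ, hk])
  have h2 : ∀ q, (B (σ q).2 ↔ B q.1) := fun q => hB _ _ (fun k hk => by simp [hσ, hk])
  refine Finset.card_nbij' σ σ ?_ ?_ (fun q _ => hinv q) (fun q _ => hinv q)
  · intro q hq
    simp only [Finset.coe_product, Finset.coe_filter, Finset.mem_univ, true_and, Set.mem_prod,
      Set.mem_ofPred_eq, Finset.coe_univ, Set.mem_univ, and_true] at hq ⊢
    exact ⟨(h1 q).2 hq.1, (h2 q).2 hq.2⟩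
  · intro q hq
    simp only [Finset.coe_product, Finset.coe_filter, Finset.mem_univ, true_and, Set.mem_prod,
      Set.mem_ofPred_eq, Finset.coe_univ, Set.mem_univ, and_true] at hq ⊢
    refine ⟨(h1 q).2 hq.1, ?_⟩
    have h3 := h2 (σ q)
    rw [hinv q] at h3
    exact h3.1 hq.2

open Classical in
/-- `pr` as a quotient of cardinalities. -/
theorem pr_eq_card {Ω : Type*} [Fintype Ω] (A : Ω → Prop) :
    pr A = ((univ.filter (fun ω : Ω => A ω)).card : ℝ) / (Fintype.card Ω : ℝ) := by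
  unfold pr avg
  congr 1
  rw [Finset.sum_boole]

end LLLProduct

open Classical in
theorem lll_product {ι κ α : Type*} [Fintype ι] [Fintype κ] [DecidableEq κ] [Fintype α] [Nonempty α]
    (A : ι → (κ → α) → Prop) (S : ι → Finset κ)
    (hA : ∀ i ω ω', (∀ k ∈ S i, ω k = ω' k) → (A i ω ↔ A i ω')) (p : ℝ) (m : ℕ) (hm1 : 1 ≤ m)
    (hm : ∀ i, (Finset.univ.filter (fun j => ¬ Disjoint (S i) (S j))).card ≤ m)
    (hp0 : 0 ≤ p) (hp : ∀ i, pr (A i) ≤ p) (h4 : 4 * p * (m : ℝ) ≤ 1) :
    ∃ ω, ∀ i, ¬ A i ω := by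
  have hne : (Finset.univ : Finset (κ → α)).Nonempty := Finset.univ_nonempty
  suffices hmain : ∀ i, ∀ T : Finset ι, i ∉ T →
      Disjoint T (Finset.univ.filter (fun j => ¬ Disjoint (S i) (S j))) →
      (((Finset.univ : Finset (κ → α)).filter (fun ω => A i ω ∧ ∀ j ∈ T, ¬ A j ω)).card : ℝ) ≤
        p * (((Finset.univ : Finset (κ → α)).filter (fun ω => ∀ j ∈ T, ¬ A j ω)).card : ℝ) by
    obtain ⟨ω, -, hω⟩ := lll (Finset.univ : Finset (κ → α)) hne A
      (fun i => Finset.univ.filter (fun j => ¬ Disjoint (S i) (S j))) p m hm1 hm hp0 h4 hmain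
    exact ⟨ω, hω⟩
  intro i T _ hT
  have hdisj : ∀ j ∈ T, Disjoint (S i) (S j) := by
    intro j hj
    by_contra hcon
    exact (Finset.disjoint_left.mp hT hj) (by simp [hcon])
  have key := LLLProduct.card_and_mul_card (S i) (A i) (fun ω => ∀ j ∈ T, ¬ A j ω) (hA i) (by
    intro ω ω' h
    refine forall₂_congr fun j hj => not_congr (hA j ω ω' fun k hk => h k ?_)
    exact Finset.disjoint_right.mp (hdisj j hj) hk)
  have hN : (0 : ℝ) < Fintype.card (κ → α) := by exact_mod_cast Fintype.card_pos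
  have hpi := hp i
  rw [LLLProduct.pr_eq_card, div_le_iff₀ hN] at hpi
  have key' : ((univ.filter (fun ω : κ → α => A i ω ∧ ∀ j ∈ T, ¬ A j ω)).card : ℝ)
      * Fintype.card (κ → α) = ((univ.filter (fun ω : κ → α => A i ω)).card : ℝ)
        * ((univ.filter (fun ω : κ → α => ∀ j ∈ T, ¬ A j ω)).card : ℝ) := by
    have key2 : ((univ.filter (fun ω : κ → α => A i ω ∧ ∀ j ∈ T, ¬ A j ω)).card)
        * Fintype.card (κ → α) = ((univ.filter (fun ω : κ → α => A i ω)).card)
          * ((univ.filter (fun ω : κ → α => ∀ j ∈ T, ¬ A j ω)).card) := by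
      convert key
    exact_mod_cast key2
  have hB : (0 : ℝ) ≤ ((univ.filter (fun ω : κ → α => ∀ j ∈ T, ¬ A j ω)).card : ℝ) := by
    positivity
  have h5 := mul_le_mul_of_nonneg_right hpi hB
  refine le_of_mul_le_mul_right ?_ hN
  rw [key']
  linarith [h5, mul_right_comm p (Fintype.card (κ → α) : ℝ)
    ((univ.filter (fun ω : κ → α => ∀ j ∈ T, ¬ A j ω)).card : ℝ)]

end Pool.Agent.MP_e50225_co
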