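/-
MP_e50225_co : common definitions (helper87).
-/
import Mathlib

set_option autoImplicit false

namespace Pool.Agent.MP_e50225_co

open Finset

/-- Average of a real function over a finite type. -/
noncomputable def avg {Ω : Type*} [Fintype Ω] (f : Ω → ℝ) : ℝ :=
  (∑ ω, f ω) / (Fintype.card Ω : ℝ)

open Classical in
/-- Uniform probability of a predicate on a finite type. -/
noncomputable def pr {Ω : Type*} [Fintype Ω] (A : Ω → Prop) : ℝ :=
  avg (fun ω => if A ω then (1 : ℝ) else 0)

/-- Underlying graph of a relation. -/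
def und {V : Type*} (D : V → V → Prop) : SimpleGraph V where
  Adj u v := u ≠ v ∧ (D u v ∨ D v u)
  symm := ⟨fun _ _ h => ⟨h.1.symm, h.2.symm⟩⟩
  loopless := ⟨fun _ h => h.1 rfl⟩

/-- Conflict graph: arcs which do not strictly increase the label. -/
def bg {V : Type*} (D : V → V → Prop) (x : V → ℕ) : SimpleGraph V where
  Adj u v := u ≠ v ∧ ((D u v ∧ x v ≤ x u) ∨ (D v u ∧ x u ≤ x v))
  symm := ⟨fun _ _ h => ⟨h.1.symm, h.2.symm⟩⟩
  loopless := ⟨fun _ h => h.1 rfl⟩

open Classical in
/-- Neighbourhood as a finset. -/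
noncomputable def nbr {V : Type*} [Fintype V] (G : SimpleGraph V) (v : V) : Finset V :=
  Finset.univ.filter (fun u => G.Adj v u)

/-- Balls. -/
noncomputable def ball {V : Type*} [Fintype V] [DecidableEq V] (G : SimpleGraph V) :
    ℕ → V → Finset V
  | 0, v => {v}
  | (r + 1), v => ball G r v ∪ (ball G r v).biUnion (nbr G)

end Pool.Agent.MP_e50225_co
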