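/-
MP_e50225_co : balls in a graph (helper87).
-/
import Pool.Agent.MP_e50225_co.Defs

set_option autoImplicit false

namespace Pool.Agent.MP_e50225_co

open Finset

variable {V : Type*} [Fintype V]

lemma mem_nbr {G : SimpleGraph V} {u v : V} : u ∈ nbr G v ↔ G.Adj v u := by
  classical
  simp [nbr]

lemma mem_nbr_comm {G : SimpleGraph V} {u v : V} : u ∈ nbr G v ↔ v ∈ nbr G u := by
  rw [mem_nbr, mem_nbr]
  exact G.adj_comm v u

variable [DecidableEq V] {G : SimpleGraph V}

lemma mem_ball_self (r : ℕ) (v : V) : v ∈ ball G r v := by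
  induction r with
  | zero => simp [ball]
  | succ r ih => exact Finset.mem_union_left _ ih

lemma ball_subset_succ (r : ℕ) (v : V) : ball G r v ⊆ ball G (r + 1) v :=
  Finset.subset_union_left

lemma ball_mono {r s : ℕ} (h : r ≤ s) (v : V) : ball G r v ⊆ ball G s v := by
  induction s, h using Nat.le_induction with
  | base => exact Finset.Subset.refl _
  | succ s _ ih => exact ih.trans (ball_subset_succ s v)

lemma mem_ball_step {r : ℕ} {u v w : V} (hu : u ∈ ball G r v) (hw : w ∈ nbr G u) :
    w ∈ ball G (r + 1) v :=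
  Finset.mem_union_right _ (Finset.mem_biUnion.2 ⟨u, hu, hw⟩)

lemma mem_ball_succ {r : ℕ} {v w : V} :
    w ∈ ball G (r + 1) v ↔ w ∈ ball G r v ∨ ∃ u ∈ ball G r v, w ∈ nbr G u := by
  simp only [ball, Finset.mem_union, Finset.mem_biUnion]

lemma mem_ball_zero {v w : V} : w ∈ ball G 0 v ↔ w = v := by
  simp [ball]

lemma ball_trans {r s : ℕ} {u v w : V} (hw : w ∈ ball G r v) (hu : u ∈ ball G s w) :
    u ∈ ball G (r + s) v := by
  induction s generalizing u with
  | zero =>
    rw [mem_ball_zero] at hu
    subst hu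
    exact hw
  | succ s ih =>
    rcases mem_ball_succ.1 hu with h | ⟨u', hu', h⟩
    · exact ball_mono (by omega) _ (ih h)
    · exact mem_ball_step (ih hu') h

lemma ball_symm {r : ℕ} {u v : V} (h : u ∈ ball G r v) : v ∈ ball G r u := by
  induction r generalizing u with
  | zero =>
    rw [mem_ball_zero] at h ⊢
    exact h.symm
  | succ r ih =>
    rcases mem_ball_succ.1 h with h | ⟨u', hu', h⟩
    · exact ball_mono (by omega) _ (ih h)
    · have h1 : u' ∈ ball G 1 u := mem_ball_step (mem_ball_self 0 u) (mem_nbr_comm.1 h)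
      have h2 := ball_trans h1 (ih hu')
      rwa [Nat.add_comm] at h2

lemma card_ball_le {Δ : ℕ} (hdeg : ∀ v, (nbr G v).card ≤ Δ) (r : ℕ) (v : V) :
    (ball G r v).card ≤ (Δ + 1) ^ r := by
  induction r with
  | zero => simp [ball]
  | succ r ih =>
    calc (ball G (r + 1) v).card ≤ (ball G r v).card + ((ball G r v).biUnion (nbr G)).card :=
          Finset.card_union_le _ _
      _ ≤ (ball G r v).card + (ball G r v).card * Δ := by
          gcongr
          exact Finset.card_biUnion_le_card_mul _ _ _ (fun u _ => hdeg u)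
      _ = (ball G r v).card * (Δ + 1) := by ring
      _ ≤ (Δ + 1) ^ r * (Δ + 1) := Nat.mul_le_mul_right _ ih
      _ = (Δ + 1) ^ (r + 1) := by ring

end Pool.Agent.MP_e50225_co
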