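/-
MP_e50225_co : the state of the random selection after `i` levels (helper87).
-/
import Pool.Agent.MP_e50225_co.Defs

set_option autoImplicit false

namespace Pool.Agent.MP_e50225_co

open Finset

/-! ### The state after `i` levels -/

open Classical in
structure St {V : Type} [Fintype V] [DecidableEq V] (D : V → V → Prop) (Δ b L : ℕ) (δ c : ℝ)
    (i : ℕ) (p : ℝ) where
  Λ : Type
  [fin : Fintype Λ]
  [ne : Nonempty Λ]
  x : Λ → Fin L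
  J : (V → Λ) → V → Prop
  R : (V → Λ) → V → V → Prop
  symmR : ∀ ω u v, R ω u v → R ω v u
  loc : ∀ v ω ω', (∀ u ∈ ball (und D) (2 * i + 2) v, ω u = ω' u) → (J ω v ↔ J ω' v)
  notR : ∀ ω u v, J ω u → J ω v → (bg D (fun w => (x (ω w) : ℕ))).Adj u v → ¬ R ω u v
  mates : ∀ ω v, ∃ col : V → Fin (i + 1), ∀ u u', J ω u → J ω u' → (u = v ∨ R ω u v) →
    (u' = v ∨ R ω u' v) → col u = col u' → ¬ (bg D (fun w => (x (ω w) : ℕ))).Adj u u'
  upper : ∀ (Q : Finset V) (F : (V → Fin L) → Prop),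
    pr (fun ω : V → Λ => (∀ q ∈ Q, J ω q) ∧ (∀ q ∈ Q, ∀ q' ∈ Q, q ≠ q' → ¬ R ω q q') ∧
      F (fun v => x (ω v))) ≤ p ^ Q.card * pr F
  upper_dense : ∀ (Q : Finset V) (F : (V → Fin L) → Prop),
    (∃ u ∈ Q, ∃ v ∈ Q, u ≠ v ∧ c * Δ ≤ ((nbr (und D) u ∩ nbr (und D) v).card : ℝ)) →
    pr (fun ω : V → Λ => (∀ q ∈ Q, J ω q) ∧ (∀ q ∈ Q, ∀ q' ∈ Q, q ≠ q' → ¬ R ω q q') ∧
      F (fun v => x (ω v))) ≤ (1 - c / 16) ^ i * p ^ Q.card * pr F
  lower : ∀ v, (1 - (i + 1) * δ) * p ≤ pr (fun ω : V → Λ => J ω v)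
  cap : ∀ ω w, ((nbr (und D) w).filter (fun u => J ω u)).card ≤ b

attribute [instance] St.fin St.ne

end Pool.Agent.MP_e50225_co
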