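import Pool.Agent.MP_e50225_co.Prob
import Pool.Agent.MP_e50225_co.State

/-!
# Module Init: the state after level 0.
-/

set_option autoImplicit false

namespace Pool.Agent.MP_e50225_co

open Finset

namespace Init

/-- The random set of level 0. -/
def U {V : Type} {Δ L : ℕ} (d₀ : ℕ) (ω : V → Fin Δ × Fin L) (v : V) : Prop :=
  ((ω v).1 : ℕ) < d₀

open Classical in
/-- Level-0 survivors: neighbours see at most `b` selected vertices. -/
def J0 {V : Type} [Fintype V] (D : V → V → Prop) {Δ L : ℕ} (d₀ b : ℕ)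
    (ω : V → Fin Δ × Fin L) (v : V) : Prop :=
  U d₀ ω v ∧ ∀ w ∈ nbr (und D) v, ((nbr (und D) w).filter (fun u => U d₀ ω u)).card ≤ b

lemma pr_all {V : Type} [Fintype V] [DecidableEq V] (Δ d₀ : ℕ) (hΔ : 0 < Δ) (hd : d₀ ≤ Δ)
    (Q : Finset V) :
    pr (fun ω : V → Fin Δ => ∀ q ∈ Q, (ω q : ℕ) < d₀) = ((d₀ : ℝ) / Δ) ^ Q.card := by
  classical
  let t : V → Finset (Fin Δ) := fun v =>
    if v ∈ Q then Finset.univ.filter (fun a => (a : ℕ) < d₀) else Finset.univ
  have h1 : (Finset.univ.filter (fun ω : V → Fin Δ => ∀ q ∈ Q, (ω q : ℕ) < d₀)) =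
      Fintype.piFinset t := by
    ext ω
    simp only [Finset.mem_filter, Finset.mem_univ, true_and, Fintype.mem_piFinset, t]
    constructor
    · intro h v
      by_cases hv : v ∈ Q
      · simp [hv, h v hv]
      · simp [hv]
    · intro h q hq
      have := h q
      simpa [hq] using this
  have hcardU : (Finset.univ.filter (fun a : Fin Δ => (a : ℕ) < d₀)).card = d₀ := by
    have h2 : (Finset.univ.filter (fun a : Fin Δ => (a : ℕ) < d₀)).map Fin.valEmbedding =
        Finset.range d₀ := by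
      ext a
      simp only [Finset.mem_map, Finset.mem_filter, Finset.mem_univ, true_and,
        Fin.valEmbedding_apply, Finset.mem_range]
      constructor
      · rintro ⟨x, hx, rfl⟩
        exact hx
      · intro ha
        exact ⟨⟨a, lt_of_lt_of_le ha hd⟩, ha, rfl⟩
    rw [← Finset.card_map Fin.valEmbedding, h2, Finset.card_range]
  have hcard : ∀ v, ((t v).card : ℝ) = if v ∈ Q then (d₀ : ℝ) else (Δ : ℝ) := by
    intro v
    by_cases hv : v ∈ Q
    · simp only [t, hv, if_true, hcardU]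
    · simp only [t, hv, if_false, Finset.card_univ, Fintype.card_fin]
  rw [pr_eq_card, h1, Fintype.card_piFinset]
  push_cast
  simp only [hcard]
  rw [Finset.prod_ite]
  simp only [Finset.prod_const]
  have h2 : (Finset.univ.filter (fun v => v ∈ Q)).card = Q.card := by
    congr 1
    ext v; simp
  have h3 : (Finset.univ.filter (fun v => v ∉ Q)).card = Fintype.card V - Q.card := by
    rw [Finset.filter_not, Finset.card_sdiff_of_subset (Finset.filter_subset _ _), h2,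
      Finset.card_univ]
  have h4 : Q.card ≤ Fintype.card V := Finset.card_le_univ _
  rw [h2, h3]
  rw [show (Fintype.card (V → Fin Δ) : ℝ) = (Δ : ℝ) ^ (Fintype.card V) by
    rw [Fintype.card_fun, Fintype.card_fin]; push_cast; rfl]
  have hΔ' : (Δ : ℝ) ≠ 0 := by exact_mod_cast hΔ.ne'
  rw [div_pow, div_eq_div_iff (pow_ne_zero _ hΔ') (pow_ne_zero _ hΔ'), mul_assoc, ← pow_add]
  congr 2
  omega

lemma pr_all_and {V : Type} [Fintype V] [DecidableEq V] (Δ L d₀ : ℕ) (hΔ : 0 < Δ) (hd : d₀ ≤ Δ)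
    (Q : Finset V) (F : (V → Fin L) → Prop) :
    pr (fun ω : V → Fin Δ × Fin L => (∀ q ∈ Q, U d₀ ω q) ∧ F (fun v => (ω v).2)) =
      ((d₀ : ℝ) / Δ) ^ Q.card * pr F := by
  rw [← pr_all Δ d₀ hΔ hd Q, ← pr_prod_indep]
  exact pr_equiv (Equiv.arrowProdEquivProdArrow V (fun _ => Fin Δ) (fun _ => Fin L))
    (fun x : (V → Fin Δ) × (V → Fin L) => (∀ q ∈ Q, (x.1 q : ℕ) < d₀) ∧ F x.2)

lemma pr_all' {V : Type} [Fintype V] [DecidableEq V] (Δ L d₀ : ℕ) (hΔ : 0 < Δ) (hL : 0 < L)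
    (hd : d₀ ≤ Δ) (Q : Finset V) :
    pr (fun ω : V → Fin Δ × Fin L => ∀ q ∈ Q, U d₀ ω q) = ((d₀ : ℝ) / Δ) ^ Q.card := by
  have : Nonempty (Fin L) := ⟨⟨0, hL⟩⟩
  have h := pr_all_and Δ L d₀ hΔ hd Q (fun _ => True)
  rw [pr_true, mul_one] at h
  rw [← h]
  exact pr_congr (fun ω => by simp)

/-- The main estimate for the lower bound. -/
lemma lower_aux {V : Type} [Fintype V] [DecidableEq V] (D : V → V → Prop) (Δ L d₀ b : ℕ)
    (hΔ : 0 < Δ) (hL : 0 < L) (hd : d₀ ≤ Δ) (hdeg : ∀ v, (nbr (und D) v).card ≤ Δ) (v : V) :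
    (d₀ : ℝ) / Δ - Δ * ((Δ : ℝ) ^ b / b.factorial * ((d₀ : ℝ) / Δ) ^ (b + 1)) ≤
      pr (fun ω : V → Fin Δ × Fin L => J0 D d₀ b ω v) := by
  classical
  set p : ℝ := (d₀ : ℝ) / Δ with hp
  have hp0 : 0 ≤ p := by positivity
  have hU : pr (fun ω : V → Fin Δ × Fin L => U d₀ ω v) = p := by
    have h := pr_all' Δ L d₀ hΔ hL hd ({v} : Finset V)
    rw [Finset.card_singleton, pow_one] at h
    rw [hp, ← h]
    exact pr_congr (fun ω => by simp)
  -- the bad event
  have hbad : pr (fun ω : V → Fin Δ × Fin L => U d₀ ω v ∧ ¬ ∀ w ∈ nbr (und D) v,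
      ((nbr (und D) w).filter (fun u => U d₀ ω u)).card ≤ b) ≤
      Δ * ((Δ : ℝ) ^ b / b.factorial * p ^ (b + 1)) := by
    have h1 : pr (fun ω : V → Fin Δ × Fin L => U d₀ ω v ∧ ¬ ∀ w ∈ nbr (und D) v,
        ((nbr (und D) w).filter (fun u => U d₀ ω u)).card ≤ b) ≤
        pr (fun ω : V → Fin Δ × Fin L => ∃ w ∈ nbr (und D) v,
          ∃ S ∈ ((nbr (und D) w).erase v).powersetCard b, ∀ q ∈ insert v S, U d₀ ω q) := by
      apply pr_mono
      intro ω hω
      obtain ⟨hv, hω2⟩ := hω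
      push Not at hω2
      obtain ⟨w, hw, hcard⟩ := hω2
      refine ⟨w, hw, ?_⟩
      have h2 : b ≤ (((nbr (und D) w).erase v).filter (fun u => U d₀ ω u)).card := by
        have h3 : ((nbr (und D) w).erase v).filter (fun u => U d₀ ω u) =
            ((nbr (und D) w).filter (fun u => U d₀ ω u)).erase v := by
          rw [Finset.filter_erase]
        rw [h3]
        have := Finset.pred_card_le_card_erase
          (s := (nbr (und D) w).filter (fun u => U d₀ ω u)) (a := v)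
        omega
      obtain ⟨S, hS, hScard⟩ := Finset.exists_subset_card_eq h2
      refine ⟨S, ?_, ?_⟩
      · rw [Finset.mem_powersetCard]
        exact ⟨hS.trans (Finset.filter_subset _ _), hScard⟩
      · intro q hq
        rcases Finset.mem_insert.mp hq with rfl | hq
        · exact hv
        · exact (Finset.mem_filter.mp (hS hq)).2
    refine h1.trans ((pr_exists_le _ _).trans ?_)
    have h4 : ∀ w ∈ nbr (und D) v, pr (fun ω : V → Fin Δ × Fin L =>
        ∃ S ∈ ((nbr (und D) w).erase v).powersetCard b, ∀ q ∈ insert v S, U d₀ ω q) ≤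
        (Δ : ℝ) ^ b / b.factorial * p ^ (b + 1) := by
      intro w _
      refine (pr_exists_le _ _).trans ?_
      have h5 : ∀ S ∈ ((nbr (und D) w).erase v).powersetCard b,
          pr (fun ω : V → Fin Δ × Fin L => ∀ q ∈ insert v S, U d₀ ω q) = p ^ (b + 1) := by
        intro S hS
        rw [Finset.mem_powersetCard] at hS
        rw [pr_all' Δ L d₀ hΔ hL hd, Finset.card_insert_of_notMem, hS.2]
        intro hvS
        exact Finset.notMem_erase v _ (hS.1 hvS)
      rw [Finset.sum_congr rfl h5, Finset.sum_const, nsmul_eq_mul, Finset.card_powersetCard]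
      apply mul_le_mul_of_nonneg_right _ (by positivity)
      calc ((((nbr (und D) w).erase v).card.choose b : ℕ) : ℝ) ≤ ((Δ.choose b : ℕ) : ℝ) := by
            exact_mod_cast Nat.choose_le_choose b
              ((Finset.card_le_card (Finset.erase_subset _ _)).trans (hdeg w))
        _ ≤ (Δ : ℝ) ^ b / b.factorial := Nat.choose_le_pow_div b Δ
    refine (Finset.sum_le_card_nsmul _ _ _ h4).trans ?_
    rw [nsmul_eq_mul]
    apply mul_le_mul_of_nonneg_right _ (by positivity)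
    exact_mod_cast hdeg v
  have hsplit := pr_and_add_and_not (fun ω : V → Fin Δ × Fin L => U d₀ ω v)
    (fun ω => ∀ w ∈ nbr (und D) v, ((nbr (und D) w).filter (fun u => U d₀ ω u)).card ≤ b)
  rw [hU] at hsplit
  have hJ : pr (fun ω : V → Fin Δ × Fin L => J0 D d₀ b ω v) =
      pr (fun ω : V → Fin Δ × Fin L => U d₀ ω v ∧
        ∀ w ∈ nbr (und D) v, ((nbr (und D) w).filter (fun u => U d₀ ω u)).card ≤ b) := by
    apply pr_congr
    intro ω
    unfold J0
    constructor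
    · intro h
      refine ⟨h.1, fun w hw => ?_⟩
      convert h.2 w hw
    · intro h
      refine ⟨h.1, fun w hw => ?_⟩
      convert h.2 w hw
  rw [hJ]
  linarith

lemma exists_b0 (δ : ℝ) (hδ : 0 < δ) (d₀ : ℕ) : ∃ b₀ : ℕ, ∀ b : ℕ, b₀ ≤ b →
    ((b : ℝ) + 1) ^ 4 * (d₀ : ℝ) ^ b / b.factorial ≤ δ := by
  have hlim := FloorSemiring.tendsto_pow_div_factorial_atTop (Real.exp 1 * d₀)
  have h24 : (0 : ℝ) < δ / (24 * Real.exp 1) := by positivity
  have hev := hlim.eventually_lt_const h24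
  obtain ⟨b₀, hb₀⟩ := Filter.eventually_atTop.mp hev
  refine ⟨b₀, fun b hb => ?_⟩
  have h1 := hb₀ b hb
  have h2 : ((b : ℝ) + 1) ^ 4 ≤ 24 * Real.exp ((b : ℝ) + 1) := by
    have := Real.pow_div_factorial_le_exp ((b : ℝ) + 1) (by positivity) 4
    rw [div_le_iff₀ (by positivity)] at this
    calc ((b : ℝ) + 1) ^ 4 ≤ Real.exp ((b : ℝ) + 1) * ((4 : ℕ).factorial : ℝ) := this
      _ = 24 * Real.exp ((b : ℝ) + 1) := by
        norm_num [Nat.factorial]; ring
  have h3 : Real.exp ((b : ℝ) + 1) = Real.exp 1 ^ b * Real.exp 1 := by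
    rw [Real.exp_add, ← Real.exp_nat_mul, mul_one]
  rw [h3] at h2
  rw [lt_div_iff₀ (by positivity)] at h1
  calc ((b : ℝ) + 1) ^ 4 * (d₀ : ℝ) ^ b / b.factorial
      ≤ (24 * (Real.exp 1 ^ b * Real.exp 1)) * (d₀ : ℝ) ^ b / b.factorial := by
        apply div_le_div_of_nonneg_right _ (by positivity)
        exact mul_le_mul_of_nonneg_right h2 (by positivity)
    _ = (Real.exp 1 * d₀) ^ b / b.factorial * (24 * Real.exp 1) := by
        rw [mul_pow]; ring
    _ ≤ δ := h1.le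

end Init

open Init in
theorem init_state (δ : ℝ) (hδ : 0 < δ) (d₀ : ℕ) : ∃ Δ₀ : ℕ, ∀ (Δ b L : ℕ) (c : ℝ)
    (V : Type) [Fintype V] [DecidableEq V] (D : V → V → Prop), Δ₀ ≤ Δ → 0 < L → 0 ≤ c →
    b = Nat.sqrt (Nat.sqrt Δ) → (∀ u v, D u v → ¬ D v u) → (∀ v, (nbr (und D) v).card ≤ Δ) →
    Nonempty (St D Δ b L δ c 0 ((d₀ : ℝ) / Δ)) := by
  classical
  obtain ⟨b₀, hb₀⟩ := exists_b0 δ hδ d₀
  refine ⟨max d₀ ((b₀ * b₀) * (b₀ * b₀)) + 1, ?_⟩
  intro Δ b L c V _ _ D hΔ hL hc hb hor hdeg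
  have hΔ0 : 0 < Δ := by omega
  have hd : d₀ ≤ Δ := (le_max_left d₀ ((b₀ * b₀) * (b₀ * b₀))).trans (by omega)
  have hΔb : (b₀ * b₀) * (b₀ * b₀) ≤ Δ :=
    (le_max_right d₀ ((b₀ * b₀) * (b₀ * b₀))).trans (by omega)
  have hbb : b₀ ≤ b := by
    rw [hb, Nat.le_sqrt, Nat.le_sqrt]
    exact hΔb
  have hΔb4 : (Δ : ℝ) ≤ ((b : ℝ) + 1) ^ 4 := by
    have h1 : Δ < (Nat.sqrt Δ + 1) * (Nat.sqrt Δ + 1) := Nat.lt_succ_sqrt Δ
    have h2 : Nat.sqrt Δ < (b + 1) * (b + 1) := by rw [hb]; exact Nat.lt_succ_sqrt _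
    have h3 : Nat.sqrt Δ + 1 ≤ (b + 1) * (b + 1) := h2
    have h4 : Δ ≤ ((b + 1) * (b + 1)) * ((b + 1) * (b + 1)) :=
      h1.le.trans (Nat.mul_le_mul h3 h3)
    have h5 : (Δ : ℝ) ≤ (((b : ℝ) + 1) * ((b : ℝ) + 1)) * (((b : ℝ) + 1) * ((b : ℝ) + 1)) := by
      exact_mod_cast h4
    linarith [h5, show (((b : ℝ) + 1) * ((b : ℝ) + 1)) * (((b : ℝ) + 1) * ((b : ℝ) + 1)) =
      ((b : ℝ) + 1) ^ 4 by ring]
  have hp0 : (0 : ℝ) ≤ (d₀ : ℝ) / Δ := by positivity
  have : Nonempty (Fin Δ) := ⟨⟨0, hΔ0⟩⟩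
  have : Nonempty (Fin L) := ⟨⟨0, hL⟩⟩
  have hirr : ∀ u, ¬ D u u := fun u h => hor u u h h
  have hupper : ∀ (Q : Finset V) (F : (V → Fin L) → Prop),
      pr (fun ω : V → Fin Δ × Fin L => (∀ q ∈ Q, J0 D d₀ b ω q) ∧
        (∀ q ∈ Q, ∀ q' ∈ Q, q ≠ q' → ¬ False) ∧ F (fun v => (ω v).2)) ≤
        ((d₀ : ℝ) / Δ) ^ Q.card * pr F := by
    intro Q F
    rw [← pr_all_and Δ L d₀ hΔ0 hd Q F]
    apply pr_mono
    intro ω hω
    exact ⟨fun q hq => (hω.1 q hq).1, hω.2.2⟩
  refine ⟨{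
    Λ := Fin Δ × Fin L
    x := Prod.snd
    J := J0 D d₀ b
    R := fun _ _ _ => False
    symmR := fun _ _ _ h => h
    loc := ?_
    notR := fun _ _ _ _ _ _ h => h
    mates := ?_
    upper := hupper
    upper_dense := ?_
    lower := ?_
    cap := ?_ }⟩
  · -- locality
    intro v ω ω' h
    have hself : ∀ (r : ℕ) (w : V), w ∈ ball (und D) r w := by
      intro r w
      induction r with
      | zero => simp [ball]
      | succ r ih => rw [ball]; exact Finset.mem_union_left _ ih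
    have hv0 : v ∈ ball (und D) (2 * 0 + 2) v := hself _ v
    have hw2 : ∀ w ∈ nbr (und D) v, ∀ u ∈ nbr (und D) w, u ∈ ball (und D) (2 * 0 + 2) v := by
      intro w hw u hu
      show u ∈ ball (und D) 2 v
      rw [ball]
      apply Finset.mem_union_right
      rw [Finset.mem_biUnion]
      refine ⟨w, ?_, hu⟩
      rw [ball]
      apply Finset.mem_union_right
      rw [Finset.mem_biUnion]
      exact ⟨v, by simp [ball], hw⟩
    have hUeq : ∀ u ∈ ball (und D) (2 * 0 + 2) v, (U d₀ ω u ↔ U d₀ ω' u) := by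
      intro u hu
      unfold U
      rw [h u hu]
    unfold J0
    rw [hUeq v hv0]
    apply and_congr Iff.rfl
    apply forall_congr'
    intro w
    apply forall_congr'
    intro hw
    have : (nbr (und D) w).filter (fun u => U d₀ ω u) =
        (nbr (und D) w).filter (fun u => U d₀ ω' u) := by
      apply Finset.filter_congr
      intro u hu
      exact hUeq u (hw2 w hw u hu)
    rw [this]
  · -- mates
    intro ω v
    refine ⟨fun _ => 0, ?_⟩
    intro u u' _ _ hu hu' _ hadj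
    have h1 : u = v := by simpa using hu
    have h2 : u' = v := by simpa using hu'
    rw [h1, h2] at hadj
    exact hadj.1 rfl
  · intro Q F _
    rw [pow_zero, one_mul]
    exact hupper Q F
  · -- lower bound
    intro v
    have h1 := lower_aux D Δ L d₀ b hΔ0 hL hd hdeg v
    refine le_trans ?_ h1
    have h2 := hb₀ b hbb
    have hΔr : (0 : ℝ) < Δ := by exact_mod_cast hΔ0
    have h3 : (Δ : ℝ) * ((Δ : ℝ) ^ b / b.factorial * ((d₀ : ℝ) / Δ) ^ (b + 1)) =
        (Δ * (d₀ : ℝ) ^ b / b.factorial) * ((d₀ : ℝ) / Δ) := by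
      rw [pow_succ, div_pow]
      field_simp
    have h4 : (Δ : ℝ) * (d₀ : ℝ) ^ b / b.factorial ≤ δ := by
      refine le_trans ?_ h2
      apply div_le_div_of_nonneg_right _ (by positivity)
      exact mul_le_mul_of_nonneg_right hΔb4 (by positivity)
    rw [h3]
    have h5 := mul_le_mul_of_nonneg_right h4 hp0
    push_cast
    linarith
  · -- cap
    intro ω w
    by_cases hne : ∃ u ∈ nbr (und D) w, J0 D d₀ b ω u
    · obtain ⟨u, hu, hJ⟩ := hne
      have hw : w ∈ nbr (und D) u := by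
        unfold nbr at hu ⊢
        rw [Finset.mem_filter] at hu ⊢
        exact ⟨Finset.mem_univ _, hu.2.symm⟩
      have h1 := hJ.2 w hw
      refine le_trans (Finset.card_le_card ?_) h1
      intro u' hu'
      rw [Finset.mem_filter] at hu' ⊢
      exact ⟨hu'.1, hu'.2.1⟩
    · push Not at hne
      have : (nbr (und D) w).filter (fun u => J0 D d₀ b ω u) = ∅ := by
        rw [Finset.filter_eq_empty_iff]
        intro u hu
        exact hne u hu
      rw [this]
      simp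

end Pool.Agent.MP_e50225_co
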