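import Mathlib

/-!
# Lemma R (near-clique dichotomy) for MP_e50225_co

Few `r`-cliques for finitely many suitable `r` imply that every large vertex set contains an
independent `s`-set, and hence that the graph can be coloured with few colours.
-/

set_option autoImplicit false

open Finset

namespace Pool.Agent.MP_e50225_co.NearClique

universe u

open scoped Classical in
/-- The `r`-cliques of `H` inside `Y`. -/
noncomputable def cl {V : Type u} (H : SimpleGraph V) (Y : Finset V) (r : ℕ) :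
    Finset (Finset V) :=
  (Y.powersetCard r).filter (fun Q => H.IsClique (Q : Set V))

lemma mem_cl {V : Type u} {H : SimpleGraph V} {Y : Finset V} {r : ℕ} {Q : Finset V} :
    Q ∈ cl H Y r ↔ Q ⊆ Y ∧ Q.card = r ∧ H.IsClique (Q : Set V) := by
  classical
  simp [cl, Finset.mem_powersetCard, and_assoc]

lemma cl_mono {V : Type u} (H : SimpleGraph V) {Y Z : Finset V} (h : Y ⊆ Z) (r : ℕ) :
    (cl H Y r).card ≤ (cl H Z r).card := by
  apply Finset.card_le_card
  intro Q hQ
  rw [mem_cl] at hQ ⊢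
  exact ⟨hQ.1.trans h, hQ.2⟩

open scoped Classical in
/-- Non-neighbours of `v` in `Y`, `v` excluded. -/
noncomputable def nn {V : Type u} (H : SimpleGraph V) (Y : Finset V) (v : V) : Finset V :=
  Y.filter (fun u => u ≠ v ∧ ¬ H.Adj v u)

lemma cl_step {V : Type u} (H : SimpleGraph V) (Y : Finset V) (r m : ℕ)
    (hm : ∀ v ∈ Y, (nn H Y v).card ≤ m) :
    (cl H Y r).card * (Y.card - r * (m + 1)) ≤ (r + 1) * (cl H Y (r + 1)).card := by
  classical
  set P : Finset (Finset V × V) :=
    (cl H Y r ×ˢ Y).filter (fun p => p.2 ∉ p.1 ∧ ∀ u ∈ p.1, H.Adj u p.2) with hP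
  have h1 : (cl H Y r).card * (Y.card - r * (m + 1)) ≤ P.card := by
    have hf : P.card = ∑ Q ∈ cl H Y r, (P.filter (fun p => p.1 = Q)).card := by
      apply Finset.card_eq_sum_card_fiberwise
      intro p hp
      have hp' : p ∈ P := hp
      rw [hP, Finset.mem_filter, Finset.mem_product] at hp'
      exact hp'.1.1
    rw [hf, ← smul_eq_mul]
    apply Finset.card_nsmul_le_sum
    intro Q hQ
    obtain ⟨hQY, hQr, hQc⟩ := mem_cl.mp hQ
    have hsub : Y \ Q.biUnion (fun u => insert u (nn H Y u)) ⊆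
        (P.filter (fun p => p.1 = Q)).image Prod.snd := by
      intro v hv
      rw [Finset.mem_sdiff, Finset.mem_biUnion] at hv
      obtain ⟨hvY, hv2⟩ := hv
      push Not at hv2
      rw [Finset.mem_image]
      refine ⟨(Q, v), ?_, rfl⟩
      rw [Finset.mem_filter, hP, Finset.mem_filter, Finset.mem_product]
      refine ⟨⟨⟨hQ, hvY⟩, ?_, ?_⟩, rfl⟩
      · intro hvQ
        exact hv2 v hvQ (Finset.mem_insert_self _ _)
      · intro u hu
        by_contra hadj
        have := hv2 u hu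
        rw [Finset.mem_insert, not_or] at this
        apply this.2
        rw [nn, Finset.mem_filter]
        exact ⟨hvY, this.1, hadj⟩
    have hcard : (Q.biUnion (fun u => insert u (nn H Y u))).card ≤ r * (m + 1) := by
      refine (Finset.card_biUnion_le_card_mul Q _ (m + 1) ?_).trans_eq (by rw [hQr])
      intro u hu
      exact (Finset.card_insert_le _ _).trans (Nat.succ_le_succ (hm u (hQY hu)))
    calc Y.card - r * (m + 1) ≤ Y.card - (Q.biUnion (fun u => insert u (nn H Y u))).card := by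
          omega
      _ ≤ (Y \ Q.biUnion (fun u => insert u (nn H Y u))).card := Finset.le_card_sdiff _ _
      _ ≤ _ := (Finset.card_le_card hsub).trans Finset.card_image_le
  have h2 : P.card ≤ (r + 1) * (cl H Y (r + 1)).card := by
    apply Finset.card_le_mul_card_image_of_maps_to (f := fun p : Finset V × V => insert p.2 p.1)
    · intro p hp
      rw [hP, Finset.mem_filter, Finset.mem_product] at hp
      obtain ⟨⟨hp1, hp2⟩, hp3, hp4⟩ := hp
      obtain ⟨hQY, hQr, hQc⟩ := mem_cl.mp hp1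
      rw [mem_cl]
      refine ⟨Finset.insert_subset hp2 hQY, by rw [Finset.card_insert_of_notMem hp3, hQr], ?_⟩
      rw [Finset.coe_insert]
      refine hQc.insert ?_
      intro b hb _
      exact (hp4 b hb).symm
    · intro Q' hQ'
      obtain ⟨hQY, hQr, hQc⟩ := mem_cl.mp hQ'
      have : (P.filter (fun p => insert p.2 p.1 = Q')) ⊆ Q'.image (fun v => (Q'.erase v, v)) := by
        intro p hp
        rw [Finset.mem_filter, hP, Finset.mem_filter, Finset.mem_product] at hp
        obtain ⟨⟨⟨hp1, hp2⟩, hp3, hp4⟩, hp5⟩ := hp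
        rw [Finset.mem_image]
        refine ⟨p.2, ?_, ?_⟩
        · rw [← hp5]; exact Finset.mem_insert_self _ _
        · rw [← hp5, Finset.erase_insert hp3]
      exact (Finset.card_le_card this).trans (Finset.card_image_le.trans_eq hQr)
  exact h1.trans h2

lemma cl_lower {V : Type u} (H : SimpleGraph V) (Y : Finset V) (R : ℕ) (hR : 0 < R)
    (hn : 4 * (R : ℝ) ^ 2 ≤ Y.card)
    (hm : ∀ v ∈ Y, ((nn H Y v).card : ℝ) < Y.card / (4 * (R : ℝ) ^ 2)) :
    ∀ r : ℕ, r ≤ R → ((Y.card : ℝ) * (1 - 1 / (2 * R))) ^ r / r.factorial ≤ (cl H Y r).card := by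
  have hR' : (0 : ℝ) < R := by exact_mod_cast hR
  have hR1 : (1 : ℝ) ≤ R := by exact_mod_cast hR
  intro r
  induction r with
  | zero =>
    intro _
    have : 1 ≤ (cl H Y 0).card := by
      rw [Nat.one_le_iff_ne_zero, ← Nat.pos_iff_ne_zero, Finset.card_pos]
      exact ⟨∅, mem_cl.mpr ⟨Finset.empty_subset _, rfl, by simp⟩⟩
    simpa using this
  | succ r ih =>
    intro hr
    have ih' := ih (by omega)
    set m : ℕ := ⌊(Y.card : ℝ) / (4 * (R : ℝ) ^ 2)⌋₊ with hmdef
    have hm' : ∀ v ∈ Y, (nn H Y v).card ≤ m := by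
      intro v hv
      exact Nat.le_floor (hm v hv).le
    have hstep := cl_step H Y r m hm'
    have hmle : (m : ℝ) ≤ Y.card / (4 * (R : ℝ) ^ 2) := Nat.floor_le (by positivity)
    have hrR : (r : ℝ) ≤ R := by exact_mod_cast (by omega : r ≤ R)
    have h1 : (1 : ℝ) ≤ Y.card / (4 * (R : ℝ) ^ 2) := by
      rw [le_div_iff₀ (by positivity)]; linarith
    have hkey : (Y.card : ℝ) * (1 - 1 / (2 * R)) ≤ ((Y.card - r * (m + 1) : ℕ) : ℝ) := by
      have h2 : (r : ℝ) * (m + 1) ≤ Y.card / (2 * R) := by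
        calc (r : ℝ) * (m + 1) ≤ R * (Y.card / (4 * (R : ℝ) ^ 2) + Y.card / (4 * (R : ℝ) ^ 2)) := by
              apply mul_le_mul hrR (by linarith) (by positivity) hR'.le
          _ = Y.card / (2 * R) := by field_simp; ring
      have h3 : (Y.card : ℝ) - ((r * (m + 1) : ℕ) : ℝ) ≤ ((Y.card - r * (m + 1) : ℕ) : ℝ) := by
        rw [sub_le_iff_le_add]
        exact_mod_cast (by omega : Y.card ≤ Y.card - r * (m + 1) + r * (m + 1))
      have h4 : (Y.card : ℝ) * (1 - 1 / (2 * R)) = Y.card - Y.card / (2 * R) := by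
        field_simp
      rw [h4]
      push_cast at h3
      linarith
    have hpos : (0 : ℝ) ≤ (Y.card : ℝ) * (1 - 1 / (2 * R)) := by
      apply mul_nonneg (Nat.cast_nonneg _)
      rw [sub_nonneg, div_le_one (by positivity)]
      linarith
    have hstep' : ((cl H Y r).card : ℝ) * ((Y.card - r * (m + 1) : ℕ) : ℝ) ≤
        ((r : ℝ) + 1) * (cl H Y (r + 1)).card := by exact_mod_cast hstep
    rw [Nat.factorial_succ, pow_succ]
    push_cast
    rw [div_le_iff₀ (by positivity)]
    have h5 : ((Y.card : ℝ) * (1 - 1 / (2 * R))) ^ r ≤ (cl H Y r).card * r.factorial := by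
      rwa [div_le_iff₀ (by positivity)] at ih'
    calc ((Y.card : ℝ) * (1 - 1 / (2 * R))) ^ r * ((Y.card : ℝ) * (1 - 1 / (2 * R)))
        ≤ ((cl H Y r).card * r.factorial) * ((Y.card - r * (m + 1) : ℕ) : ℝ) :=
          mul_le_mul h5 hkey hpos (by positivity)
      _ = r.factorial * (((cl H Y r).card : ℝ) * ((Y.card - r * (m + 1) : ℕ) : ℝ)) := by ring
      _ ≤ r.factorial * (((r : ℝ) + 1) * (cl H Y (r + 1)).card) := by
          apply mul_le_mul_of_nonneg_left hstep' (by positivity)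
      _ = _ := by ring

/-- If `Y` has few `R`-cliques, some vertex of `Y` has many non-neighbours in `Y`. -/
lemma exists_nn {V : Type u} (H : SimpleGraph V) (Y : Finset V) (R : ℕ) (hR : 0 < R)
    (hn : 4 * (R : ℝ) ^ 2 ≤ Y.card)
    (hK : ((cl H Y R).card : ℝ) < (Y.card : ℝ) ^ R / (2 * R.factorial)) :
    ∃ v ∈ Y, (Y.card : ℝ) / (4 * (R : ℝ) ^ 2) ≤ (nn H Y v).card := by
  by_contra hcon
  push Not at hcon
  have h := cl_lower H Y R hR hn hcon R le_rfl
  have hR' : (0 : ℝ) < R := by exact_mod_cast hR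
  have hR1 : (1 : ℝ) ≤ R := by exact_mod_cast hR
  have hb : (1 : ℝ) / 2 ≤ (1 - 1 / (2 * R)) ^ R := by
    have hx : (-2 : ℝ) ≤ -(1 / (2 * R)) := by
      have : (1 : ℝ) / (2 * R) ≤ 1 := by
        rw [div_le_one (by positivity)]; linarith
      linarith
    have := one_add_mul_le_pow hx R
    calc (1 : ℝ) / 2 = 1 + R * (-(1 / (2 * R))) := by field_simp; ring
      _ ≤ (1 + -(1 / (2 * R))) ^ R := this
      _ = _ := by ring
  have h2 : (Y.card : ℝ) ^ R / (2 * R.factorial) ≤
      ((Y.card : ℝ) * (1 - 1 / (2 * R))) ^ R / R.factorial := by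
    rw [mul_pow, div_le_div_iff₀ (by positivity) (by positivity)]
    have hp : (0 : ℝ) ≤ (Y.card : ℝ) ^ R * R.factorial := by positivity
    nlinarith
  linarith

/-- The iteration. -/
lemma iter (A B : ℝ) (hA : 0 < A) (hB : 0 < B) (t : ℕ) : ∀ c : ℝ, 0 < c →
    ∃ R : Finset ℕ, R.card ≤ t ∧ (∀ r ∈ R, 0 < r) ∧ ∃ n0 : ℝ, 0 < n0 ∧
      ∀ (V : Type u) (H : SimpleGraph V) (Z : Finset V) (N : ℝ), n0 ≤ N → c * N ≤ Z.card →
        (∀ I : Finset V, I ⊆ Z → I.card = t → ∃ u ∈ I, ∃ v ∈ I, H.Adj u v) →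
        ∃ r ∈ R, A * B ^ r * N ^ r / (r.factorial : ℝ) ^ 2 < (cl H Z r).card := by
  induction t with
  | zero =>
    intro c hc
    refine ⟨∅, by simp, by simp, 1, one_pos, ?_⟩
    intro V H Z N hN hZ hI
    obtain ⟨u, hu, _⟩ := hI ∅ (Finset.empty_subset _) rfl
    exact absurd hu (Finset.notMem_empty u)
  | succ t ih =>
    intro c hc
    -- choose r
    obtain ⟨r, hr0, hr⟩ : ∃ r : ℕ, 0 < r ∧ 2 * A * (B / c) ^ r < r.factorial := by
      have hlim := FloorSemiring.tendsto_pow_div_factorial_atTop (B / c)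
      have h2A : (0 : ℝ) < 1 / (2 * A) := by positivity
      have hev := (hlim.eventually_lt_const h2A).and (Filter.eventually_gt_atTop 0)
      obtain ⟨r, hr1, hr2⟩ := hev.exists
      refine ⟨r, hr2, ?_⟩
      rw [div_lt_div_iff₀ (by positivity) (by positivity)] at hr1
      linarith
    have hr' : (0 : ℝ) < r := by exact_mod_cast hr0
    obtain ⟨R', hR'card, hR'pos, n0', hn0', hmain⟩ := ih (c / (4 * (r : ℝ) ^ 2)) (by positivity)
    refine ⟨insert r R', (Finset.card_insert_le _ _).trans (by omega), ?_,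
      max n0' (4 * (r : ℝ) ^ 2 / c), lt_max_of_lt_left hn0', ?_⟩
    · intro x hx
      rcases Finset.mem_insert.mp hx with rfl | hx
      · exact hr0
      · exact hR'pos x hx
    intro V H Z N hN hZ hI
    have hN1 : n0' ≤ N := (le_max_left _ _).trans hN
    have hN2 : 4 * (r : ℝ) ^ 2 / c ≤ N := (le_max_right _ _).trans hN
    have hN0 : 0 < N := hn0'.trans_le hN1
    by_cases hcase : A * B ^ r * N ^ r / (r.factorial : ℝ) ^ 2 < (cl H Z r).card
    · exact ⟨r, Finset.mem_insert_self _ _, hcase⟩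
    push Not at hcase
    have hZ4 : 4 * (r : ℝ) ^ 2 ≤ Z.card := by
      rw [div_le_iff₀ hc] at hN2
      linarith [mul_comm c N]
    have hK : ((cl H Z r).card : ℝ) < (Z.card : ℝ) ^ r / (2 * r.factorial) := by
      have h1 : (c * N) ^ r / (2 * r.factorial) ≤ (Z.card : ℝ) ^ r / (2 * r.factorial) := by
        apply div_le_div_of_nonneg_right _ (by positivity)
        exact pow_le_pow_left₀ (by positivity) hZ r
      have h2 : A * B ^ r * N ^ r / (r.factorial : ℝ) ^ 2 < (c * N) ^ r / (2 * r.factorial) := by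
        rw [div_lt_div_iff₀ (by positivity) (by positivity)]
        have hf : (0 : ℝ) < r.factorial := by positivity
        have hc' : 2 * A * B ^ r < r.factorial * c ^ r := by
          rw [div_pow] at hr
          have hcr : 0 < c ^ r := by positivity
          calc 2 * A * B ^ r = (2 * A * (B ^ r / c ^ r)) * c ^ r := by field_simp
            _ < r.factorial * c ^ r := by
              apply mul_lt_mul_of_pos_right hr hcr
        have hNr : 0 < N ^ r := by positivity
        rw [mul_pow]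
        calc A * B ^ r * N ^ r * (2 * r.factorial) = (2 * A * B ^ r) * (N ^ r * r.factorial) := by
              ring
          _ < (r.factorial * c ^ r) * (N ^ r * r.factorial) := by
              apply mul_lt_mul_of_pos_right hc' (by positivity)
          _ = _ := by ring
      linarith
    obtain ⟨v, hv, hvn⟩ := exists_nn H Z r hr0 hZ4 hK
    have hZ' : c / (4 * (r : ℝ) ^ 2) * N ≤ (nn H Z v).card := by
      refine le_trans ?_ hvn
      rw [div_mul_eq_mul_div]
      exact div_le_div_of_nonneg_right hZ (by positivity)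
    classical
    have hsub : nn H Z v ⊆ Z := Finset.filter_subset _ _
    obtain ⟨r', hr'R, hr'K⟩ := hmain V H (nn H Z v) N hN1 hZ' (by
      intro I hIsub hIcard
      have hvI : v ∉ I := by
        intro hvI
        have := hIsub hvI
        rw [nn, Finset.mem_filter] at this
        exact this.2.1 rfl
      obtain ⟨a, ha, b, hb, hab⟩ := hI (insert v I)
        (Finset.insert_subset hv (hIsub.trans hsub))
        (by rw [Finset.card_insert_of_notMem hvI, hIcard])
      have hnadj : ∀ w ∈ I, ¬ H.Adj v w := by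
        intro w hw
        have := hIsub hw
        rw [nn, Finset.mem_filter] at this
        exact this.2.2
      rcases Finset.mem_insert.mp ha with ha1 | ha1
      · rcases Finset.mem_insert.mp hb with hb1 | hb1
        · rw [ha1, hb1] at hab
          exact absurd hab (H.irrefl)
        · rw [ha1] at hab
          exact absurd hab (hnadj b hb1)
      · rcases Finset.mem_insert.mp hb with hb1 | hb1
        · rw [hb1] at hab
          exact absurd hab.symm (hnadj a ha1)
        · exact ⟨a, ha1, b, hb1, hab⟩)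
    refine ⟨r', Finset.mem_insert_of_mem hr'R, hr'K.trans_le ?_⟩
    exact_mod_cast cl_mono H hsub r'

/-- Greedy colouring by independent `s`-sets. -/
lemma greedy {V : Type u} (H : SimpleGraph V) (s : ℕ) (hs : 1 ≤ s) (a : ℝ) (ha : 0 ≤ a) (n : ℕ) :
    ∀ (Y : Finset V), Y.card = n →
      (∀ Z ⊆ Y, a ≤ (Z.card : ℝ) → ∃ I ⊆ Z, I.card = s ∧ ∀ u ∈ I, ∀ v ∈ I, ¬ H.Adj u v) →
      ∃ (k : ℕ) (f : V → ℕ), (k : ℝ) ≤ Y.card / s + a ∧ (∀ v ∈ Y, f v < k) ∧
        ∀ u ∈ Y, ∀ v ∈ Y, H.Adj u v → f u ≠ f v := by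
  classical
  induction n using Nat.strong_induction_on with
  | _ n ih =>
  intro Y hYn hY
  have hs' : (0 : ℝ) < s := by exact_mod_cast hs
  by_cases hlt : (Y.card : ℝ) < a
  · -- colour separately
    refine ⟨Y.card, fun v => if h : v ∈ Y then (Y.equivFin ⟨v, h⟩ : ℕ) else 0, ?_, ?_, ?_⟩
    · have : (0 : ℝ) ≤ Y.card / s := by positivity
      linarith
    · intro v hv
      simp only [hv, dif_pos]
      exact (Y.equivFin ⟨v, hv⟩).2
    · intro u hu v hv huv heq
      simp only [hu, hv, dif_pos] at heq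
      have := Y.equivFin.injective (Fin.ext heq)
      rw [Subtype.mk.injEq] at this
      exact huv.ne this
  · push Not at hlt
    obtain ⟨I, hIY, hIs, hIind⟩ := hY Y (Finset.Subset.refl _) hlt
    have hcard : (Y \ I).card = n - s := by
      rw [Finset.card_sdiff_of_subset hIY, hYn, hIs]
    have hsn : s ≤ n := by rw [← hIs, ← hYn]; exact Finset.card_le_card hIY
    obtain ⟨k, f, hk, hf, hprop⟩ := ih (n - s) (by omega) (Y \ I) hcard (by
      intro Z hZ ha'
      exact hY Z (hZ.trans Finset.sdiff_subset) ha')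
    refine ⟨k + 1, fun v => if v ∈ I then k else f v, ?_, ?_, ?_⟩
    · rw [hcard] at hk
      push_cast [Nat.cast_sub hsn] at hk ⊢
      rw [hYn]
      have : ((n : ℝ) - s) / s = n / s - 1 := by field_simp
      rw [this] at hk
      linarith
    · intro v hv
      by_cases hvI : v ∈ I
      · simp [hvI]
      · simp only [hvI, if_false]
        exact (hf v (Finset.mem_sdiff.mpr ⟨hv, hvI⟩)).trans (Nat.lt_succ_self k)
    · intro u hu v hv huv
      by_cases huI : u ∈ I
      · by_cases hvI : v ∈ I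
        · exact absurd huv (hIind u huI v hvI)
        · simp only [huI, hvI, if_true, if_false]
          exact (hf v (Finset.mem_sdiff.mpr ⟨hv, hvI⟩)).ne'
      · by_cases hvI : v ∈ I
        · simp only [huI, hvI, if_true, if_false]
          exact (hf u (Finset.mem_sdiff.mpr ⟨hu, huI⟩)).ne
        · simp only [huI, hvI, if_false]
          exact hprop u (Finset.mem_sdiff.mpr ⟨hu, huI⟩) v (Finset.mem_sdiff.mpr ⟨hv, hvI⟩) huv

/-- **Lemma R (near-clique dichotomy).** -/
theorem near_clique (s : ℕ) (hs : 1 ≤ s) (δ : ℝ) (hδ : 0 < δ) :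
    ∃ (R : Finset ℕ) (d0 : ℝ), R.card ≤ s ∧ (∀ r ∈ R, 0 < r) ∧ 0 < d0 ∧
      ∀ (d : ℝ), d0 ≤ d → ∀ (V : Type u) (H : SimpleGraph V) (Y : Finset V),
        (Y.card : ℝ) ≤ 2 * d / δ →
        (∀ r ∈ R, ((cl H Y r).card : ℝ) ≤ 6 * s * d ^ r / (δ * (r.factorial : ℝ) ^ 2)) →
        ∃ f : V → ℕ, (∀ v ∈ Y, f v < ⌈4 * d / (δ * s)⌉₊) ∧
          ∀ u ∈ Y, ∀ v ∈ Y, H.Adj u v → f u ≠ f v := by
  have hs' : (0 : ℝ) < s := by exact_mod_cast hs
  obtain ⟨R, hRcard, hRpos, n0, hn0, hmain⟩ :=
    iter.{u} (6 * s / δ) (δ * s / 2) (by positivity) (by positivity) s 1 one_pos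
  refine ⟨R, δ * s / 2 * n0, hRcard, hRpos, by positivity, ?_⟩
  intro d hd V H Y hYcard hK
  have hd0 : 0 < d := lt_of_lt_of_le (by positivity) hd
  set N : ℝ := 2 * d / (δ * s) with hN
  have hNn0 : n0 ≤ N := by
    rw [hN, le_div_iff₀ (by positivity)]
    linarith
  have hNpos : 0 < N := by positivity
  have hbig : ∀ Z ⊆ Y, N ≤ (Z.card : ℝ) →
      ∃ I ⊆ Z, I.card = s ∧ ∀ u ∈ I, ∀ v ∈ I, ¬ H.Adj u v := by
    intro Z hZ hNZ
    by_contra hcon
    push Not at hcon
    obtain ⟨r, hrR, hr⟩ := hmain V H Z N hNn0 (by linarith) (by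
      intro I hI hIs
      obtain ⟨u, hu, v, hv, huv⟩ := hcon I hI hIs
      exact ⟨u, hu, v, hv, huv⟩)
    have h1 := hK r hrR
    have h2 : ((cl H Z r).card : ℝ) ≤ (cl H Y r).card := by exact_mod_cast cl_mono H hZ r
    have h3 : 6 * s / δ * (δ * s / 2) ^ r * N ^ r / (r.factorial : ℝ) ^ 2 =
        6 * s * d ^ r / (δ * (r.factorial : ℝ) ^ 2) := by
      have : (δ * s / 2) ^ r * N ^ r = d ^ r := by
        rw [← mul_pow]
        congr 1
        rw [hN]; field_simp
      rw [mul_assoc (6 * s / δ), this]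
      field_simp
    rw [h3] at hr
    linarith
  obtain ⟨k, f, hk, hf, hprop⟩ := greedy H s hs N hNpos.le Y.card Y rfl hbig
  refine ⟨f, ?_, hprop⟩
  intro v hv
  refine (hf v hv).trans_le ?_
  have h1 : (k : ℝ) ≤ 4 * d / (δ * s) := by
    have h2 : (Y.card : ℝ) / s ≤ 2 * d / (δ * s) := by
      rw [div_le_div_iff₀ hs' (by positivity)]
      rw [le_div_iff₀ hδ] at hYcard
      nlinarith
    calc (k : ℝ) ≤ Y.card / s + N := hk
      _ ≤ 2 * d / (δ * s) + 2 * d / (δ * s) := by rw [hN]; linarith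
      _ = 4 * d / (δ * s) := by ring
  exact_mod_cast h1.trans (Nat.le_ceil _)

end Pool.Agent.MP_e50225_co.NearClique


namespace Pool.Agent.MP_e50225_co

open Finset

open Classical in
theorem few_cliques_colorable (s : ℕ) (hs : 1 ≤ s) (δ : ℝ) (hδ : 0 < δ) (hδ1 : δ ≤ 1) :
    ∃ (R : Finset ℕ) (d₀ : ℝ), R.card ≤ s ∧ (∀ r ∈ R, 1 ≤ r) ∧ 1 ≤ d₀ ∧
      ∀ (V : Type) [Fintype V] [DecidableEq V] (H : SimpleGraph V) (Y : Finset V) (d : ℝ),
        d₀ ≤ d → (Y.card : ℝ) ≤ 2 * d / δ →
        (∀ r ∈ R, (((Y.powersetCard r).filter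
            (fun Q => ∀ u ∈ Q, ∀ v ∈ Q, u ≠ v → H.Adj u v)).card : ℝ) ≤
              6 * s * d ^ r / (δ * (r.factorial : ℝ) ^ 2)) →
        ∃ col : V → ℕ, (∀ v ∈ Y, col v < ⌈4 * d / (δ * s)⌉₊) ∧
          ∀ u ∈ Y, ∀ v ∈ Y, H.Adj u v → col u ≠ col v := by
  obtain ⟨R, d0, hR1, hR2, hd0, hmain⟩ := NearClique.near_clique.{0} s hs δ hδ
  refine ⟨R, max d0 1, hR1, fun r hr => hR2 r hr, le_max_right _ _, ?_⟩
  intro V _ _ H Y d hd hY hK
  refine hmain d ((le_max_left _ _).trans hd) V H Y hY ?_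
  intro r hr
  have h := hK r hr
  have heq : NearClique.cl H Y r = (Y.powersetCard r).filter
      (fun Q => ∀ u ∈ Q, ∀ v ∈ Q, u ≠ v → H.Adj u v) := by
    ext Q
    rw [NearClique.mem_cl, Finset.mem_filter, Finset.mem_powersetCard, and_assoc]
    have : H.IsClique (Q : Set V) ↔ ∀ u ∈ Q, ∀ v ∈ Q, u ≠ v → H.Adj u v := by
      rw [SimpleGraph.isClique_iff]
      simp only [Set.Pairwise, Finset.mem_coe]
    rw [this]
  rw [heq]
  exact h

end Pool.Agent.MP_e50225_co
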