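import Pool.Agent.MP_e50225_co.Defs

/-!
# Module CliqueProb: a fixed set of `r` vertices is a clique of the conflict graph with
probability at most `2 / r!`.
-/

set_option autoImplicit false

namespace Pool.Agent.MP_e50225_co

open Finset

namespace CliqueProb

open Classical in
lemma pr_eq {Ω : Type*} [Fintype Ω] (A : Ω → Prop) :
    pr A = ((univ.filter A).card : ℝ) / (Fintype.card Ω : ℝ) := by
  unfold pr avg
  rw [Finset.sum_boole]

/-- Two labellings of `Q` with the same order and the same image agree. -/
lemma eq_of_rank {V : Type} [DecidableEq V] {L : ℕ} (Q : Finset V) (x x' : V → Fin L)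
    (hx : Set.InjOn x Q) (hx' : Set.InjOn x' Q) (him : Q.image x = Q.image x')
    (hord : ∀ u ∈ Q, ∀ v ∈ Q, x v < x u ↔ x' v < x' u) : ∀ q ∈ Q, x q = x' q := by
  intro q hq
  have h1 : ((Q.image x).filter (fun a => a < x q)).card = (Q.filter (fun v => x v < x q)).card := by
    have : (Q.image x).filter (fun a => a < x q) = (Q.filter (fun v => x v < x q)).image x := by
      rw [Finset.filter_image]
    rw [this, Finset.card_image_of_injOn]
    exact hx.mono (by intro v hv; exact (Finset.mem_filter.mp hv).1)
  have h2 : ((Q.image x').filter (fun a => a < x' q)).card =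
      (Q.filter (fun v => x' v < x' q)).card := by
    have : (Q.image x').filter (fun a => a < x' q) =
        (Q.filter (fun v => x' v < x' q)).image x' := by
      rw [Finset.filter_image]
    rw [this, Finset.card_image_of_injOn]
    exact hx'.mono (by intro v hv; exact (Finset.mem_filter.mp hv).1)
  have h3 : Q.filter (fun v => x v < x q) = Q.filter (fun v => x' v < x' q) := by
    apply Finset.filter_congr
    intro v hv
    exact hord q hq v hv
  rw [h3, ← h2, ← him] at h1
  rcases lt_trichotomy (x q) (x' q) with hlt | heq | hgt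
  · exfalso
    have : ((Q.image x).filter (fun a => a < x q)).card <
        ((Q.image x).filter (fun a => a < x' q)).card := by
      apply Finset.card_lt_card
      rw [Finset.ssubset_iff_of_subset]
      · refine ⟨x q, ?_, ?_⟩
        · rw [Finset.mem_filter]
          exact ⟨Finset.mem_image_of_mem x hq, hlt⟩
        · rw [Finset.mem_filter]
          exact fun h => lt_irrefl _ h.2
      · intro a ha
        rw [Finset.mem_filter] at ha ⊢
        exact ⟨ha.1, ha.2.trans hlt⟩
    omega
  · exact heq
  · exfalso
    have : ((Q.image x).filter (fun a => a < x' q)).card <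
        ((Q.image x).filter (fun a => a < x q)).card := by
      apply Finset.card_lt_card
      rw [Finset.ssubset_iff_of_subset]
      · refine ⟨x' q, ?_, ?_⟩
        · rw [Finset.mem_filter]
          refine ⟨?_, hgt⟩
          rw [him]
          exact Finset.mem_image_of_mem x' hq
        · rw [Finset.mem_filter]
          exact fun h => lt_irrefl _ h.2
      · intro a ha
        rw [Finset.mem_filter] at ha ⊢
        exact ⟨ha.1, ha.2.trans hgt⟩
    omega

/-- good labellings -/
def Good {V : Type} (D : V → V → Prop) {L : ℕ} (Q : Finset V) (x : V → Fin L) : Prop :=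
  Set.InjOn x Q ∧ ∀ u ∈ Q, ∀ v ∈ Q, x v < x u ↔ D u v

open Classical in
lemma good_count {V : Type} [Fintype V] [inst : DecidableEq V] (D : V → V → Prop) (L : ℕ)
    (Q : Finset V) :
    (univ.filter (fun x : V → Fin L => Good D Q x)).card * Q.card.factorial ≤
      Fintype.card (V → Fin L) := by
  have hperm : (univ : Finset (Equiv.Perm Q)).card = Q.card.factorial := by
    rw [Finset.card_univ, Fintype.card_perm, Fintype.card_coe]
  rw [← hperm, ← Finset.card_product, ← Finset.card_univ]
  apply Finset.card_le_card_of_injOn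
    (fun p : (V → Fin L) × Equiv.Perm Q => p.1 ∘ (Equiv.Perm.ofSubtype p.2))
  · intro p _
    exact Finset.mem_coe.mpr (Finset.mem_univ _)
  · rintro ⟨x, σ⟩ hp ⟨x', σ'⟩ hp' heq
    have hg : Good D Q x := (Finset.mem_filter.mp (Finset.mem_product.mp hp).1).2
    have hg' : Good D Q x' := (Finset.mem_filter.mp (Finset.mem_product.mp hp').1).2
    have heq' : ∀ w, x (Equiv.Perm.ofSubtype σ w) = x' (Equiv.Perm.ofSubtype σ' w) :=
      fun w => congrFun heq w
    have himσ : ∀ (τ : Equiv.Perm Q), Q.image (Equiv.Perm.ofSubtype τ) = Q := by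
      intro τ
      apply Finset.eq_of_subset_of_card_le
      · intro w hw
        obtain ⟨q, hq, rfl⟩ := Finset.mem_image.mp hw
        rw [Equiv.Perm.ofSubtype_apply_of_mem τ hq]
        exact (τ ⟨q, hq⟩).2
      · rw [Finset.card_image_of_injective _ (Equiv.injective _)]
    have him : Q.image x = Q.image x' := by
      calc Q.image x = (Q.image (Equiv.Perm.ofSubtype σ)).image x := by rw [himσ σ]
        _ = Q.image (x ∘ Equiv.Perm.ofSubtype σ) := Finset.image_image
        _ = Q.image (x' ∘ Equiv.Perm.ofSubtype σ') := congrArg (fun g => Q.image g) heq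
        _ = (Q.image (Equiv.Perm.ofSubtype σ')).image x' := Finset.image_image.symm
        _ = Q.image x' := by rw [himσ σ']
    have hQ : ∀ q ∈ Q, x q = x' q := by
      apply eq_of_rank Q x x' hg.1 hg'.1 him
      intro u hu v hv
      rw [hg.2 u hu v hv, hg'.2 u hu v hv]
    have hx : x = x' := by
      funext w
      by_cases hw : w ∈ Q
      · exact hQ w hw
      · have := heq' w
        rwa [Equiv.Perm.ofSubtype_apply_of_not_mem σ hw,
          Equiv.Perm.ofSubtype_apply_of_not_mem σ' hw] at this
    subst hx
    have hσ : σ = σ' := by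
      ext q
      have h := heq' q
      rw [Equiv.Perm.ofSubtype_apply_coe, Equiv.Perm.ofSubtype_apply_coe] at h
      exact hg.1 (σ q).2 (σ' q).2 h
    rw [hσ]

lemma noninj_count {V : Type} [Fintype V] [DecidableEq V] (L : ℕ) (u v : V) (huv : u ≠ v) :
    (univ.filter (fun x : V → Fin L => x u = x v)).card * L ≤ Fintype.card (V → Fin L) := by
  have hL : (univ : Finset (Fin L)).card = L := by simp
  have key : ((univ.filter (fun x : V → Fin L => x u = x v)) ×ˢ (univ : Finset (Fin L))).card ≤
      (univ : Finset (V → Fin L)).card := ?_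
  · rw [Finset.card_product, hL, Finset.card_univ] at key
    exact key
  apply Finset.card_le_card_of_injOn
    (fun p : (V → Fin L) × Fin L => Function.update p.1 v p.2)
  · intro p _
    exact Finset.mem_coe.mpr (Finset.mem_univ _)
  · rintro ⟨x, a⟩ hp ⟨x', a'⟩ hp' heq
    have hx : x u = x v := (Finset.mem_filter.mp (Finset.mem_product.mp hp).1).2
    have hx' : x' u = x' v := (Finset.mem_filter.mp (Finset.mem_product.mp hp').1).2
    have heq' : ∀ w, Function.update x v a w = Function.update x' v a' w := fun w => congrFun heq w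
    have ha : a = a' := by simpa using heq' v
    have hne : ∀ w, w ≠ v → x w = x' w := by
      intro w hw
      simpa [Function.update_of_ne hw] using heq' w
    have hxx : x = x' := by
      funext w
      by_cases hw : w = v
      · rw [hw, ← hx, ← hx', hne u huv]
      · exact hne w hw
    rw [hxx, ha]

end CliqueProb

open CliqueProb in
theorem clique_prob {V : Type} [Fintype V] [DecidableEq V] (D : V → V → Prop)
    (hor : ∀ u v, D u v → ¬ D v u) (L : ℕ) (Q : Finset V)
    (hL : Q.card ^ 2 * Q.card.factorial ≤ L) (hL0 : 0 < L) :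
    pr (fun x : V → Fin L => ∀ u ∈ Q, ∀ v ∈ Q, u ≠ v → (bg D (fun w => (x w : ℕ))).Adj u v) ≤
      2 / (Q.card.factorial : ℝ) := by
  classical
  rw [pr_eq]
  set T := Fintype.card (V → Fin L) with hT
  have hTpos : 0 < T := by
    have : Nonempty (Fin L) := ⟨⟨0, hL0⟩⟩
    exact Fintype.card_pos
  set r := Q.card with hr
  -- cover
  have hcover : (univ.filter (fun x : V → Fin L =>
      ∀ u ∈ Q, ∀ v ∈ Q, u ≠ v → (bg D (fun w => (x w : ℕ))).Adj u v)) ⊆
      univ.filter (fun x : V → Fin L => Good D Q x) ∪
        (Q.offDiag).biUnion (fun p => univ.filter (fun x : V → Fin L => x p.1 = x p.2)) := by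
    intro x hx
    have hx' := (Finset.mem_filter.mp hx).2
    by_cases hinj : Set.InjOn x Q
    · apply Finset.mem_union_left
      rw [Finset.mem_filter]
      refine ⟨Finset.mem_univ _, hinj, ?_⟩
      intro u hu v hv
      constructor
      · intro hlt
        have huv : u ≠ v := by
          rintro rfl
          exact lt_irrefl _ hlt
        have h := (hx' u hu v hv huv).2
        rcases h with h | h
        · exact h.1
        · exact absurd h.2 (not_le.mpr (by exact_mod_cast hlt))
      · intro hD
        have huv : u ≠ v := by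
          rintro rfl
          exact hor _ _ hD hD
        have h := (hx' u hu v hv huv).2
        rcases h with h | h
        · have hle : x v ≤ x u := by exact_mod_cast h.2
          refine lt_of_le_of_ne hle ?_
          intro he
          exact huv (hinj hu hv he.symm)
        · exact absurd h.1 (hor _ _ hD)
    · apply Finset.mem_union_right
      rw [Set.InjOn] at hinj
      push Not at hinj
      obtain ⟨u, hu, v, hv, he, hne⟩ := hinj
      rw [Finset.mem_biUnion]
      refine ⟨(u, v), ?_, ?_⟩
      · rw [Finset.mem_offDiag]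
        exact ⟨hu, hv, hne⟩
      · rw [Finset.mem_filter]
        exact ⟨Finset.mem_univ _, he⟩
  have hG := good_count D L Q
  rw [← hT, ← hr] at hG
  have hLpos : (0 : ℝ) < L := by exact_mod_cast hL0
  have hfpos : (0 : ℝ) < r.factorial := by positivity
  have hN : (((Q.offDiag).biUnion
      (fun p => univ.filter (fun x : V → Fin L => x p.1 = x p.2))).card : ℝ) ≤
      (r : ℝ) ^ 2 * (T / L) := by
    have h1 : (((Q.offDiag).biUnion
        (fun p => univ.filter (fun x : V → Fin L => x p.1 = x p.2))).card : ℝ) ≤
        ∑ p ∈ Q.offDiag, ((univ.filter (fun x : V → Fin L => x p.1 = x p.2)).card : ℝ) := by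
      exact_mod_cast Finset.card_biUnion_le
    refine h1.trans ?_
    have h2 : ∀ p ∈ Q.offDiag,
        ((univ.filter (fun x : V → Fin L => x p.1 = x p.2)).card : ℝ) ≤ T / L := by
      intro p hp
      rw [Finset.mem_offDiag] at hp
      rw [le_div_iff₀ hLpos]
      exact_mod_cast noninj_count L p.1 p.2 hp.2.2
    refine (Finset.sum_le_card_nsmul _ _ _ h2).trans ?_
    rw [nsmul_eq_mul]
    apply mul_le_mul_of_nonneg_right _ (by positivity)
    rw [Finset.offDiag_card]
    have : Q.card * Q.card - Q.card ≤ r ^ 2 := by
      rw [← hr, sq]; exact Nat.sub_le _ _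
    exact_mod_cast this
  have hcard : ((univ.filter (fun x : V → Fin L =>
      ∀ u ∈ Q, ∀ v ∈ Q, u ≠ v → (bg D (fun w => (x w : ℕ))).Adj u v)).card : ℝ) ≤
      (univ.filter (fun x : V → Fin L => Good D Q x)).card + (r : ℝ) ^ 2 * (T / L) := by
    have h1 := (Finset.card_le_card hcover).trans (Finset.card_union_le _ _)
    have h2 : ((univ.filter (fun x : V → Fin L =>
      ∀ u ∈ Q, ∀ v ∈ Q, u ≠ v → (bg D (fun w => (x w : ℕ))).Adj u v)).card : ℝ) ≤
      (univ.filter (fun x : V → Fin L => Good D Q x)).card +
      (((Q.offDiag).biUnion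
        (fun p => univ.filter (fun x : V → Fin L => x p.1 = x p.2))).card : ℝ) := by
      exact_mod_cast h1
    linarith
  have hTpos' : (0 : ℝ) < T := by exact_mod_cast hTpos
  have hG' : ((univ.filter (fun x : V → Fin L => Good D Q x)).card : ℝ) ≤ T / r.factorial := by
    rw [le_div_iff₀ hfpos]
    exact_mod_cast hG
  have hL' : (r : ℝ) ^ 2 * (T / L) ≤ T / r.factorial := by
    have hLr : (r : ℝ) ^ 2 * r.factorial ≤ L := by exact_mod_cast hL
    rw [mul_div_assoc', div_le_div_iff₀ hLpos hfpos]
    nlinarith
  rw [div_le_iff₀ hTpos']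
  have hfinal : ((univ.filter (fun x : V → Fin L =>
      ∀ u ∈ Q, ∀ v ∈ Q, u ≠ v → (bg D (fun w => (x w : ℕ))).Adj u v)).card : ℝ) ≤
      2 / r.factorial * T := by
    calc _ ≤ ((univ.filter (fun x : V → Fin L => Good D Q x)).card : ℝ) + (r : ℝ) ^ 2 * (T / L) :=
          hcard
      _ ≤ T / r.factorial + T / r.factorial := add_le_add hG' hL'
      _ = 2 / r.factorial * T := by ring
  refine le_of_eq_of_le ?_ hfinal
  congr!

end Pool.Agent.MP_e50225_co
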