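/-
MP_e50225_co : API for uniform averages and probabilities on finite types (helper87).
-/
import Pool.Agent.MP_e50225_co.Defs

set_option autoImplicit false

namespace Pool.Agent.MP_e50225_co

open Finset

section
variable {Ω Ω' : Type*} [Fintype Ω] [Fintype Ω']

lemma avg_nonneg {f : Ω → ℝ} (h : ∀ ω, 0 ≤ f ω) : 0 ≤ avg f :=
  div_nonneg (Finset.sum_nonneg (fun ω _ => h ω)) (Nat.cast_nonneg _)

lemma avg_mono {f g : Ω → ℝ} (h : ∀ ω, f ω ≤ g ω) : avg f ≤ avg g :=
  div_le_div_of_nonneg_right (Finset.sum_le_sum (fun ω _ => h ω)) (Nat.cast_nonneg _)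

lemma card_pos_real [Nonempty Ω] : (0 : ℝ) < (Fintype.card Ω : ℝ) := by
  exact_mod_cast Fintype.card_pos

lemma avg_const [Nonempty Ω] (c : ℝ) : avg (fun _ : Ω => c) = c := by
  have h : (Fintype.card Ω : ℝ) ≠ 0 := card_pos_real.ne'
  simp only [avg, Finset.sum_const, Finset.card_univ, nsmul_eq_mul]
  field_simp

lemma avg_add (f g : Ω → ℝ) : avg (fun ω => f ω + g ω) = avg f + avg g := by
  simp only [avg, Finset.sum_add_distrib, add_div]

lemma avg_sub (f g : Ω → ℝ) : avg (fun ω => f ω - g ω) = avg f - avg g := by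
  simp only [avg, Finset.sum_sub_distrib, sub_div]

lemma avg_mul_left (c : ℝ) (f : Ω → ℝ) : avg (fun ω => c * f ω) = c * avg f := by
  simp only [avg, ← Finset.mul_sum, mul_div_assoc]

lemma avg_mul_right (c : ℝ) (f : Ω → ℝ) : avg (fun ω => f ω * c) = avg f * c := by
  simp only [avg, ← Finset.sum_mul]
  ring

lemma avg_sum {ι : Type*} (s : Finset ι) (f : ι → Ω → ℝ) :
    avg (fun ω => ∑ i ∈ s, f i ω) = ∑ i ∈ s, avg (f i) := by
  simp only [avg]
  rw [Finset.sum_comm, Finset.sum_div]

lemma avg_le_of_le [Nonempty Ω] {f : Ω → ℝ} {c : ℝ} (h : ∀ ω, f ω ≤ c) : avg f ≤ c := by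
  calc avg f ≤ avg (fun _ : Ω => c) := avg_mono h
    _ = c := avg_const c

lemma le_avg_of_le [Nonempty Ω] {f : Ω → ℝ} {c : ℝ} (h : ∀ ω, c ≤ f ω) : c ≤ avg f := by
  calc c = avg (fun _ : Ω => c) := (avg_const c).symm
    _ ≤ avg f := avg_mono h

lemma avg_equiv (e : Ω ≃ Ω') (f : Ω' → ℝ) : avg (fun ω => f (e ω)) = avg f := by
  simp only [avg]
  rw [Equiv.sum_comp e f, Fintype.card_congr e]

lemma avg_prod (f : Ω × Ω' → ℝ) : avg f = avg (fun ω => avg (fun ω' => f (ω, ω'))) := by
  simp only [avg]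
  rw [Fintype.sum_prod_type, Fintype.card_prod, ← Finset.sum_div, div_div, Nat.cast_mul]
  ring

lemma exists_le_avg [Nonempty Ω] (f : Ω → ℝ) : ∃ ω, avg f ≤ f ω := by
  by_contra h
  push Not at h
  have h1 : ∑ ω, f ω < ∑ _ω : Ω, avg f := Finset.sum_lt_sum_of_nonempty univ_nonempty
    (fun ω _ => h ω)
  have h2 : (Fintype.card Ω : ℝ) ≠ 0 := card_pos_real.ne'
  simp only [Finset.sum_const, Finset.card_univ, nsmul_eq_mul, avg] at h1
  have h3 : (Fintype.card Ω : ℝ) * ((∑ ω, f ω) / (Fintype.card Ω : ℝ)) = ∑ ω, f ω := by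
    field_simp
  rw [h3] at h1
  exact lt_irrefl _ h1

/-! ### Probabilities -/

lemma pr_eq_avg (A : Ω → Prop) [DecidablePred A] :
    pr A = avg (fun ω => if A ω then (1 : ℝ) else 0) := by
  simp only [pr]
  congr 1
  funext ω
  by_cases h : A ω <;> simp [h]

lemma pr_eq_card (A : Ω → Prop) [DecidablePred A] :
    pr A = ((Finset.univ.filter A).card : ℝ) / (Fintype.card Ω : ℝ) := by
  rw [pr_eq_avg]
  simp only [avg, Finset.sum_boole]

lemma pr_nonneg (A : Ω → Prop) : 0 ≤ pr A := by
  classical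
  rw [pr_eq_avg]
  exact avg_nonneg (fun ω => by split_ifs <;> norm_num)

lemma pr_mono {A B : Ω → Prop} (h : ∀ ω, A ω → B ω) : pr A ≤ pr B := by
  classical
  rw [pr_eq_avg, pr_eq_avg]
  refine avg_mono (fun ω => ?_)
  by_cases hA : A ω
  · simp [hA, h ω hA]
  · simp only [hA, if_false]; split_ifs <;> norm_num

lemma pr_congr {A B : Ω → Prop} (h : ∀ ω, A ω ↔ B ω) : pr A = pr B :=
  le_antisymm (pr_mono (fun ω => (h ω).1)) (pr_mono (fun ω => (h ω).2))

lemma pr_le_one (A : Ω → Prop) : pr A ≤ 1 := by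
  classical
  rw [pr_eq_card]
  apply div_le_one_of_le₀ _ (Nat.cast_nonneg _)
  exact_mod_cast Finset.card_le_univ _

lemma pr_true [Nonempty Ω] : pr (fun _ : Ω => True) = 1 := by
  rw [pr_eq_avg]
  simp [avg_const]

lemma pr_false : pr (fun _ : Ω => False) = 0 := by
  rw [pr_eq_avg]
  simp [avg]

lemma pr_or_le (A B : Ω → Prop) : pr (fun ω => A ω ∨ B ω) ≤ pr A + pr B := by
  classical
  rw [pr_eq_avg, pr_eq_avg, pr_eq_avg, ← avg_add]
  refine avg_mono (fun ω => ?_)
  by_cases hA : A ω <;> by_cases hB : B ω <;> simp [hA, hB]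

lemma pr_exists_le {ι : Type*} (s : Finset ι) (A : ι → Ω → Prop) :
    pr (fun ω => ∃ i ∈ s, A i ω) ≤ ∑ i ∈ s, pr (A i) := by
  classical
  induction s using Finset.induction_on with
  | empty =>
    simp only [Finset.notMem_empty, false_and, exists_false, Finset.sum_empty]
    exact le_of_eq pr_false
  | insert a s ha ih =>
    rw [Finset.sum_insert ha]
    calc pr (fun ω => ∃ i ∈ insert a s, A i ω) ≤ pr (fun ω => A a ω ∨ ∃ i ∈ s, A i ω) :=
          pr_mono (fun ω h => by
            obtain ⟨i, hi, h⟩ := h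
            rcases Finset.mem_insert.1 hi with rfl | hi
            · exact Or.inl h
            · exact Or.inr ⟨i, hi, h⟩)
      _ ≤ pr (A a) + pr (fun ω => ∃ i ∈ s, A i ω) := pr_or_le _ _
      _ ≤ _ := by linarith

lemma pr_not [Nonempty Ω] (A : Ω → Prop) : pr (fun ω => ¬ A ω) = 1 - pr A := by
  classical
  rw [pr_eq_avg, pr_eq_avg, eq_sub_iff_add_eq, ← avg_add]
  have : (fun ω : Ω => (if ¬ A ω then (1 : ℝ) else 0) + if A ω then (1 : ℝ) else 0) =
      fun _ => 1 := by
    funext ω
    by_cases h : A ω <;> simp [h]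
  rw [this, avg_const]

/-- Splitting an event. -/
lemma pr_and_add_and_not (A B : Ω → Prop) :
    pr (fun ω => A ω ∧ B ω) + pr (fun ω => A ω ∧ ¬ B ω) = pr A := by
  classical
  rw [pr_eq_avg, pr_eq_avg, pr_eq_avg, ← avg_add]
  congr 1
  funext ω
  by_cases hA : A ω <;> by_cases hB : B ω <;> simp [hA, hB]

/-- Markov inequality, restricted to an event. -/
lemma markov_and {f : Ω → ℝ} (hf : ∀ ω, 0 ≤ f ω) (A : Ω → Prop) {a : ℝ} (ha : 0 < a) :
    pr (fun ω => A ω ∧ a ≤ f ω) ≤ (avg (fun ω => by classical exact if A ω then f ω else 0)) / a := by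
  classical
  rw [pr_eq_avg, le_div_iff₀ ha, ← avg_mul_right]
  refine avg_mono (fun ω => ?_)
  by_cases hA : A ω
  · by_cases h2 : a ≤ f ω
    · simp [hA, h2]
    · simp [hA, h2, hf ω]
  · simp [hA]

lemma markov {f : Ω → ℝ} (hf : ∀ ω, 0 ≤ f ω) {a : ℝ} (ha : 0 < a) :
    pr (fun ω => a ≤ f ω) ≤ avg f / a := by
  classical
  rw [pr_eq_avg, le_div_iff₀ ha, ← avg_mul_right]
  refine avg_mono (fun ω => ?_)
  by_cases h2 : a ≤ f ω
  · simp [h2]
  · simp [h2, hf ω]

/-- Expected number of elements of `s` satisfying a random property. -/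
lemma avg_card_filter {ι : Type*} (s : Finset ι) (A : ι → Ω → Prop)
    [∀ ω, DecidablePred (fun i => A i ω)] :
    avg (fun ω => ((s.filter (fun i => A i ω)).card : ℝ)) = ∑ i ∈ s, pr (A i) := by
  classical
  rw [← (show avg (fun ω => ∑ i ∈ s, if A i ω then (1 : ℝ) else 0) = ∑ i ∈ s, pr (A i) by
    rw [avg_sum]
    refine Finset.sum_congr rfl (fun i _ => ?_)
    rw [pr_eq_avg])]
  congr 1
  funext ω
  rw [Finset.sum_boole]

/-- Expected number of elements of `s` satisfying a random property, on an event. -/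
lemma avg_card_filter_and {ι : Type*} (s : Finset ι) (A : ι → Ω → Prop) (E : Ω → Prop)
    [∀ ω, DecidablePred (fun i => A i ω)] [DecidablePred E] :
    avg (fun ω => if E ω then ((s.filter (fun i => A i ω)).card : ℝ) else 0) =
      ∑ i ∈ s, pr (fun ω => E ω ∧ A i ω) := by
  classical
  rw [← avg_card_filter s (fun i ω => E ω ∧ A i ω)]
  congr 1
  funext ω
  by_cases h : E ω <;> simp [h]

lemma pr_equiv (e : Ω ≃ Ω') (A : Ω' → Prop) : pr (fun ω => A (e ω)) = pr A := by
  classical
  rw [pr_eq_avg, pr_eq_avg]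
  exact avg_equiv e (fun ω => if A ω then (1 : ℝ) else 0)

lemma pr_prod (A : Ω × Ω' → Prop) : pr A = avg (fun ω => pr (fun ω' => A (ω, ω'))) := by
  classical
  rw [pr_eq_avg, avg_prod]
  congr 1

lemma pr_and_const (A : Ω → Prop) (P : Prop) [Decidable P] :
    pr (fun ω => P ∧ A ω) = if P then pr A else 0 := by
  by_cases h : P
  · simp only [h, true_and, if_true]
  · simp only [h, false_and, if_false]
    exact pr_false

lemma pr_prod_indep (A : Ω → Prop) (B : Ω' → Prop) :
    pr (fun x : Ω × Ω' => A x.1 ∧ B x.2) = pr A * pr B := by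
  classical
  rw [pr_prod, pr_eq_avg A, ← avg_mul_right]
  congr 1
  funext ω
  show pr (fun ω' => A ω ∧ B ω') = _
  rw [pr_and_const]
  by_cases h : A ω <;> simp [h]

end

/-! ### Splitting the label space of one level -/

section split

variable {V Λ A B : Type*}

/-- Labels of one more level, split into the old labels, the centre labels and the slots. -/
def splitEquiv : (V → Λ × (A × (Bool → B))) ≃ (V → Λ) × ((V → A) × (V × Bool → B)) where
  toFun ω := (fun v => (ω v).1, (fun v => (ω v).2.1, fun a => (ω a.1).2.2 a.2))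
  invFun p := fun v => (p.1 v, (p.2.1 v, fun b => p.2.2 (v, b)))
  left_inv _ := rfl
  right_inv _ := rfl

variable [Fintype V] [DecidableEq V] [Fintype Λ] [Fintype A] [Fintype B]

lemma pr_split (P : (V → Λ) → (V → A) → (V × Bool → B) → Prop) :
    pr (fun ω : V → Λ × (A × (Bool → B)) =>
      P (fun v => (ω v).1) (fun v => (ω v).2.1) (fun a => (ω a.1).2.2 a.2)) =
      avg (fun ω : V → Λ => avg (fun ζ : V → A => pr (fun σ : V × Bool → B => P ω ζ σ))) := by
  have h := pr_equiv (splitEquiv (V := V) (Λ := Λ) (A := A) (B := B))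
    (fun x => P x.1 x.2.1 x.2.2)
  rw [show (fun ω : V → Λ × (A × (Bool → B)) =>
      P (fun v => (ω v).1) (fun v => (ω v).2.1) (fun a => (ω a.1).2.2 a.2)) =
      fun ω => (fun x : (V → Λ) × ((V → A) × (V × Bool → B)) => P x.1 x.2.1 x.2.2)
        (splitEquiv ω) from rfl, h, pr_prod]
  congr 1
  funext ω
  rw [pr_prod]

/-- Probability that prescribed slots at distinct positions take prescribed values. -/
lemma pr_slots {I W : Type*} [Fintype I] [DecidableEq I] (N : ℕ) (hN : 0 < N) (Q : Finset W)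
    (f : W → I) (hf : Set.InjOn f Q) (col : W → Fin N) :
    pr (fun σ : I → Fin N => ∀ q ∈ Q, σ (f q) = col q) = (1 / (N : ℝ)) ^ Q.card := by
  classical
  -- the allowed values at each position
  let t : I → Finset (Fin N) := fun i => Finset.univ.filter (fun a => ∀ q ∈ Q, f q = i → a = col q)
  have h1 : (Finset.univ.filter (fun σ : I → Fin N => ∀ q ∈ Q, σ (f q) = col q)) =
      Fintype.piFinset t := by
    ext σ
    simp only [Finset.mem_filter, Finset.mem_univ, true_and, Fintype.mem_piFinset, t]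
    constructor
    · rintro h i q hq rfl
      exact h q hq
    · intro h q hq
      exact h (f q) q hq rfl
  have hcard : ∀ i, ((t i).card : ℝ) = if i ∈ Q.image f then 1 else (N : ℝ) := by
    intro i
    split_ifs with hi
    · obtain ⟨q, hq, rfl⟩ := Finset.mem_image.1 hi
      have : t (f q) = {col q} := by
        ext a
        simp only [t, Finset.mem_filter, Finset.mem_univ, true_and, Finset.mem_singleton]
        constructor
        · intro h
          exact h q hq rfl
        · rintro rfl q' hq' h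
          rw [hf hq hq' h.symm]
      rw [this]; simp
    · have : t i = Finset.univ := by
        ext a
        simp only [t, Finset.mem_filter, Finset.mem_univ, true_and, iff_true]
        intro q hq h
        exact absurd (Finset.mem_image.2 ⟨q, hq, h⟩) hi
      rw [this]; simp
  rw [pr_eq_card, h1, Fintype.card_piFinset]
  push_cast
  simp only [hcard]
  rw [Finset.prod_ite]
  simp only [Finset.prod_const_one, Finset.prod_const, one_mul]
  have h2 : (Finset.univ.filter (fun i => i ∉ Q.image f)).card = Fintype.card I - Q.card := by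
    rw [Finset.filter_not, Finset.card_sdiff_of_subset (Finset.filter_subset _ _)]
    simp only [Finset.card_univ, Finset.filter_mem_eq_inter, Finset.univ_inter]
    rw [Finset.card_image_of_injOn hf]
  have h3 : Q.card ≤ Fintype.card I := by
    rw [← Finset.card_image_of_injOn hf]
    exact Finset.card_le_univ _
  have hN' : (N : ℝ) ≠ 0 := by exact_mod_cast hN.ne'
  rw [h2]
  rw [show (Fintype.card (I → Fin N) : ℝ) = (N : ℝ) ^ (Fintype.card I) by
    rw [Fintype.card_fun, Fintype.card_fin]; push_cast; rfl]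
  rw [div_eq_iff (pow_ne_zero _ hN'), one_div, inv_pow, eq_comm, inv_mul_eq_iff_eq_mul₀
    (pow_ne_zero _ hN'), ← pow_add]
  congr 1
  omega

end split

end Pool.Agent.MP_e50225_co
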