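/-
MP_e50225_co : explicit construction of the next state (helper87).
-/
import Pool.Agent.MP_e50225_co.Prob
import Pool.Agent.MP_e50225_co.State

set_option autoImplicit false

namespace Pool.Agent.MP_e50225_co

open Finset

variable {V : Type} [Fintype V] [DecidableEq V]

open Classical in
/-- Centres (label zero) adjacent to `v`. -/
noncomputable def centres (D : V → V → Prop) {Δ : ℕ} (ζ : V → Fin Δ) (v : V) : Finset V :=
  (nbr (und D) v).filter (fun w => (ζ w : ℕ) = 0)

open Classical in
/-- Cluster identifier: the unique centre adjacent to `v`, or `v` itself. -/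
noncomputable def cid (D : V → V → Prop) {Δ : ℕ} (ζ : V → Fin Δ) (v : V) : V × Bool :=
  if h : ∃ z, centres D ζ v = {z} then (h.choose, true) else (v, false)

/-- Conflict edges inside a vertex set. -/
def cE (B : SimpleGraph V) (X : V → Prop) : V → V → Prop := fun u w => X u ∧ X w ∧ B.Adj u w

/-- `E` has a proper colouring with `N` colours. -/
def Good (N : ℕ) (E : V → V → Prop) : Prop := ∃ col : V → Fin N, ∀ u w, E u w → col u ≠ col w

/-- The canonical proper colouring. -/
noncomputable def ccol {N : ℕ} {E : V → V → Prop} (h : Good N E) : V → Fin N := h.choose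

lemma ccol_spec {N : ℕ} {E : V → V → Prop} (h : Good N E) {u w : V} (huw : E u w) :
    ccol h u ≠ ccol h w := h.choose_spec u w huw

/-- The cluster of the identifier `a` inside the surviving set `J`. -/
def clus (D : V → V → Prop) {Δ : ℕ} (J : V → Prop) (ζ : V → Fin Δ) (a : V × Bool) : V → Prop :=
  fun u => J u ∧ cid D ζ u = a

/-- Survivors of the next level. -/
def Jn (D : V → V → Prop) {Δ N : ℕ} (x : V → ℕ) (J : V → Prop) (ζ : V → Fin Δ)
    (σ : V × Bool → Fin N) (v : V) : Prop :=
  J v ∧ ∃ h : Good N (cE (bg D x) (clus D J ζ (cid D ζ v))), ccol h v = σ (cid D ζ v)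

/-- Classmates of the next level. -/
def Rn (D : V → V → Prop) {Δ : ℕ} (R : V → V → Prop) (ζ : V → Fin Δ) (u v : V) : Prop :=
  R u v ∨ cid D ζ u = cid D ζ v

end Pool.Agent.MP_e50225_co
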