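/-
MP_e50225_co : module StepLower (fact (I3)), helper95.
-/
import Pool.Agent.MP_e50225_co.StepDefs
import Pool.Agent.MP_e50225_co.CliqueProb

set_option autoImplicit false

namespace Pool.Agent.MP_e50225_co

open Finset

namespace StepLower

section api

variable {Ω : Type*} [Fintype Ω]

lemma avg_mono {f g : Ω → ℝ} (h : ∀ ω, f ω ≤ g ω) : avg f ≤ avg g := by
  unfold avg
  exact div_le_div_of_nonneg_right (Finset.sum_le_sum fun ω _ => h ω) (Nat.cast_nonneg _)

lemma avg_nonneg {f : Ω → ℝ} (h : ∀ ω, 0 ≤ f ω) : 0 ≤ avg f := by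
  unfold avg
  exact div_nonneg (Finset.sum_nonneg fun ω _ => h ω) (Nat.cast_nonneg _)

lemma avg_sum {ι : Type*} (s : Finset ι) (f : ι → Ω → ℝ) :
    avg (fun ω => ∑ j ∈ s, f j ω) = ∑ j ∈ s, avg (f j) := by
  unfold avg
  rw [Finset.sum_comm, Finset.sum_div]

lemma avg_const_mul (a : ℝ) (f : Ω → ℝ) : avg (fun ω => a * f ω) = a * avg f := by
  unfold avg
  rw [← Finset.mul_sum, mul_div_assoc]

lemma avg_add (f g : Ω → ℝ) : avg (fun ω => f ω + g ω) = avg f + avg g := by
  unfold avg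
  rw [Finset.sum_add_distrib, add_div]

lemma pr_nonneg (A : Ω → Prop) : 0 ≤ pr A := by
  unfold pr
  refine avg_nonneg fun ω => ?_
  split_ifs <;> norm_num

lemma pr_mono {A B : Ω → Prop} (h : ∀ ω, A ω → B ω) : pr A ≤ pr B := by
  unfold pr
  refine avg_mono fun ω => ?_
  by_cases hA : A ω
  · simp [hA, h ω hA]
  · by_cases hB : B ω <;> simp [hA, hB]

lemma avg_ite (A : Ω → Prop) [DecidablePred A] :
    avg (fun ω => if A ω then (1 : ℝ) else 0) = pr A := by
  unfold pr
  congr 1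
  funext ω
  by_cases hA : A ω <;> simp [hA]

open Classical in
lemma pr_le_one (A : Ω → Prop) : pr A ≤ 1 := by
  unfold pr avg
  rcases Nat.eq_zero_or_pos (Fintype.card Ω) with h0 | h0
  · rw [h0]; simp
  · rw [div_le_one (by exact_mod_cast h0)]
    calc ∑ ω, (if A ω then (1 : ℝ) else 0) ≤ ∑ _ω : Ω, (1 : ℝ) := by
          refine Finset.sum_le_sum fun ω _ => ?_
          split_ifs <;> norm_num
      _ = Fintype.card Ω := by simp

lemma pr_or_le (A B : Ω → Prop) : pr (fun ω => A ω ∨ B ω) ≤ pr A + pr B := by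
  unfold pr
  rw [← avg_add]
  refine avg_mono fun ω => ?_
  by_cases hA : A ω <;> by_cases hB : B ω <;> simp [hA, hB]

open Classical in
lemma pr_exists_le {ι : Type*} (s : Finset ι) (A : ι → Ω → Prop) :
    pr (fun ω => ∃ j ∈ s, A j ω) ≤ ∑ j ∈ s, pr (A j) := by
  unfold pr
  rw [← avg_sum]
  refine avg_mono fun ω => ?_
  by_cases h : ∃ j ∈ s, A j ω
  · obtain ⟨j, hj, hA⟩ := h
    rw [if_pos ⟨j, hj, hA⟩]
    refine le_trans ?_ (Finset.single_le_sum (f := fun j => if A j ω then (1 : ℝ) else 0)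
      (fun k _ => by split_ifs <;> norm_num) hj)
    simp [hA]
  · rw [if_neg h]
    exact Finset.sum_nonneg fun k _ => by split_ifs <;> norm_num

lemma markov {f : Ω → ℝ} (hf : ∀ ω, 0 ≤ f ω) {A : Ω → Prop} {t : ℝ} (ht : 0 < t)
    (h : ∀ ω, A ω → t ≤ f ω) : pr A ≤ avg f / t := by
  rw [le_div_iff₀ ht, mul_comm]
  unfold pr
  rw [← avg_const_mul]
  refine avg_mono fun ω => ?_
  by_cases hA : A ω
  · simpa [hA] using h ω hA
  · simpa [hA] using hf ω

end api

section core

variable {V : Type} [Fintype V] [DecidableEq V] {D : V → V → Prop} {Δ b L : ℕ} {δ c : ℝ}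
  {i : ℕ} {p : ℝ}

open Classical in
/-- The unrelated members of the cluster. -/
noncomputable def Yset (S : St D Δ b L δ c i p) (v : V) (C : Finset V) (ω : V → S.Λ) : Finset V :=
  C.filter (fun u => S.J ω u ∧ u ≠ v ∧ ¬ S.R ω u v)

lemma pr_J_le (S : St D Δ b L δ c i p) (hp : 0 ≤ p) (v : V) :
    pr (fun ω : V → S.Λ => S.J ω v) ≤ p := by
  have h := S.upper {v} (fun _ => True)
  refine le_trans (pr_mono ?_) (h.trans ?_)
  · intro ω hω
    refine ⟨by simpa using hω, ?_, trivial⟩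
    intro q hq q' hq' hne
    rw [Finset.mem_singleton] at hq hq'
    exact absurd (hq.trans hq'.symm) hne
  · rw [Finset.card_singleton, pow_one]
    exact mul_le_of_le_one_right hp (pr_le_one _)

lemma pr_pair_le (S : St D Δ b L δ c i p) {u v : V} (huv : u ≠ v) :
    pr (fun ω : V → S.Λ => S.J ω u ∧ S.J ω v ∧ ¬ S.R ω u v) ≤ p ^ 2 := by
  have h := S.upper {u, v} (fun _ => True)
  refine le_trans (pr_mono ?_) (h.trans ?_)
  · rintro ω ⟨hu, hv, hR⟩
    refine ⟨?_, ?_, trivial⟩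
    · intro q hq
      simp only [Finset.mem_insert, Finset.mem_singleton] at hq
      rcases hq with rfl | rfl <;> assumption
    · intro q hq q' hq' hne
      simp only [Finset.mem_insert, Finset.mem_singleton] at hq hq'
      rcases hq with rfl | rfl <;> rcases hq' with rfl | rfl
      · exact absurd rfl hne
      · exact hR
      · exact fun h => hR (S.symmR _ _ _ h)
      · exact absurd rfl hne
  · rw [Finset.card_pair huv]
    exact mul_le_of_le_one_right (sq_nonneg p) (pr_le_one _)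

/-- The expected number of unrelated members. -/
lemma big_cluster (S : St D Δ b L δ c i p) (hp : 0 < p) (hδ : 0 < δ) (hΔ : 1 ≤ Δ) (v : V)
    (C : Finset V) (hC : C.card ≤ Δ) :
    pr (fun ω : V → S.Λ => S.J ω v ∧ 2 * (Δ * p) / δ < ((Yset S v C ω).card : ℝ)) ≤
      δ * p / 2 := by
  classical
  have hΔ' : (0 : ℝ) < Δ := by exact_mod_cast hΔ
  have ht : 0 < 2 * (Δ * p) / δ := by positivity
  have hm := markov (Ω := V → S.Λ)
    (f := fun ω => ∑ u ∈ C.erase v, if (S.J ω u ∧ S.J ω v ∧ ¬ S.R ω u v) then (1 : ℝ) else 0)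
    (A := fun ω => S.J ω v ∧ 2 * (Δ * p) / δ < ((Yset S v C ω).card : ℝ))
    (fun ω => Finset.sum_nonneg fun u _ => by split_ifs <;> norm_num) ht ?_
  · refine hm.trans ?_
    rw [avg_sum]
    have h1 : ∑ u ∈ C.erase v, avg (fun ω : V → S.Λ =>
        if (S.J ω u ∧ S.J ω v ∧ ¬ S.R ω u v) then (1 : ℝ) else 0) ≤ Δ * p ^ 2 := by
      calc _ ≤ ∑ _u ∈ C.erase v, p ^ 2 := by
            refine Finset.sum_le_sum fun u hu => ?_
            rw [avg_ite]
            exact pr_pair_le S (Finset.ne_of_mem_erase hu)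
        _ = ((C.erase v).card : ℝ) * p ^ 2 := by rw [Finset.sum_const, nsmul_eq_mul]
        _ ≤ Δ * p ^ 2 := by
            refine mul_le_mul_of_nonneg_right ?_ (sq_nonneg p)
            exact_mod_cast (Finset.card_le_card (Finset.erase_subset _ _)).trans hC
    rw [div_le_iff₀ ht]
    refine h1.trans (le_of_eq ?_)
    field_simp
  · rintro ω ⟨hv, hY⟩
    refine hY.le.trans (le_of_eq ?_)
    rw [← Finset.natCast_card_filter]
    congr 1
    congr 1
    ext u
    simp only [Yset, Finset.mem_filter, Finset.mem_erase]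
    tauto

/-- The predicate saying that `Q` is a clique of the conflict graph. -/
def IsCl (D : V → V → Prop) (x : V → ℕ) (Q : Finset V) : Prop :=
  ∀ u ∈ Q, ∀ w ∈ Q, u ≠ w → (bg D x).Adj u w

lemma pr_clique_le (S : St D Δ b L δ c i p) (hp : 0 ≤ p) (v : V) (C : Finset V) (r : ℕ)
    (Q : Finset V) (hQ : Q.card = r)
    (hcl : pr (fun x : V → Fin L => IsCl D (fun w => (x w : ℕ)) Q) ≤ 2 / (r.factorial : ℝ)) :
    pr (fun ω : V → S.Λ => S.J ω v ∧ Q ⊆ Yset S v C ω ∧ IsCl D (fun w => (S.x (ω w) : ℕ)) Q) ≤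
      p ^ (r + 1) * (2 / (r.factorial : ℝ)) := by
  classical
  by_cases hv : v ∈ Q
  · refine le_trans (le_of_eq ?_) (by positivity : (0 : ℝ) ≤ p ^ (r + 1) * (2 / (r.factorial : ℝ)))
    have : (fun ω : V → S.Λ => S.J ω v ∧ Q ⊆ Yset S v C ω ∧
        IsCl D (fun w => (S.x (ω w) : ℕ)) Q) = fun _ => False := by
      funext ω
      simp only [eq_iff_iff, iff_false, not_and]
      intro _ h
      have := h hv
      simp [Yset] at this
    rw [this]
    simp [pr, avg]
  · have h := S.upper (insert v Q) (fun x => IsCl D (fun w => (x w : ℕ)) Q)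
    refine le_trans (pr_mono ?_) (h.trans ?_)
    · rintro ω ⟨hJ, hsub, hc⟩
      refine ⟨?_, ?_, hc⟩
      · intro q hq
        rcases Finset.mem_insert.1 hq with rfl | hq
        · exact hJ
        · exact (Finset.mem_filter.1 (hsub hq)).2.1
      · intro q hq q' hq' hne
        rcases Finset.mem_insert.1 hq with h1 | hq <;> rcases Finset.mem_insert.1 hq' with h2 | hq'
        · exact absurd (h1.trans h2.symm) hne
        · rw [h1]
          exact fun h => (Finset.mem_filter.1 (hsub hq')).2.2.2 (S.symmR _ _ _ h)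
        · rw [h2]
          exact (Finset.mem_filter.1 (hsub hq)).2.2.2
        · exact S.notR ω q q' (Finset.mem_filter.1 (hsub hq)).2.1
            (Finset.mem_filter.1 (hsub hq')).2.1 (hc q hq q' hq' hne)
    · rw [Finset.card_insert_of_notMem hv, hQ]
      exact mul_le_mul_of_nonneg_left hcl (by positivity)

/-- The expected number of cliques. -/
lemma many_cliques (S : St D Δ b L δ c i p) (hp : 0 < p) (hδ : 0 < δ) (hΔ : 1 ≤ Δ) (v : V)
    (C : Finset V) (hC : C.card ≤ Δ) (s : ℕ) (hs : 1 ≤ s) (r : ℕ)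
    (hcl : ∀ Q : Finset V, Q.card = r →
      pr (fun x : V → Fin L => IsCl D (fun w => (x w : ℕ)) Q) ≤ 2 / (r.factorial : ℝ))
    (K : (V → S.Λ) → ℕ)
    (hK : ∀ ω, ∃ F : Finset (Finset V), F.card = K ω ∧ ∀ Q ∈ F, Q ⊆ Yset S v C ω ∧ Q.card = r ∧
      IsCl D (fun w => (S.x (ω w) : ℕ)) Q) :
    pr (fun ω : V → S.Λ => S.J ω v ∧
      6 * s * (Δ * p) ^ r / (δ * (r.factorial : ℝ) ^ 2) < (K ω : ℝ)) ≤ δ * p / (3 * s) := by
  classical
  have hΔ' : (0 : ℝ) < Δ := by exact_mod_cast hΔ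
  have hs' : (0 : ℝ) < s := by exact_mod_cast hs
  have hr' : (0 : ℝ) < (r.factorial : ℝ) := by exact_mod_cast r.factorial_pos
  have ht : 0 < 6 * s * (Δ * p) ^ r / (δ * (r.factorial : ℝ) ^ 2) := by positivity
  have hm := markov (Ω := V → S.Λ)
    (f := fun ω => ∑ Q ∈ C.powersetCard r, if (S.J ω v ∧ Q ⊆ Yset S v C ω ∧
        IsCl D (fun w => (S.x (ω w) : ℕ)) Q) then (1 : ℝ) else 0)
    (A := fun ω => S.J ω v ∧ 6 * s * (Δ * p) ^ r / (δ * (r.factorial : ℝ) ^ 2) < (K ω : ℝ))
    (fun ω => Finset.sum_nonneg fun u _ => by split_ifs <;> norm_num) ht ?_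
  · refine hm.trans ?_
    rw [avg_sum]
    have h1 : ∑ Q ∈ C.powersetCard r, avg (fun ω : V → S.Λ =>
        if (S.J ω v ∧ Q ⊆ Yset S v C ω ∧
          IsCl D (fun w => (S.x (ω w) : ℕ)) Q) then (1 : ℝ) else 0) ≤
        ((Δ : ℝ) ^ r / (r.factorial : ℝ)) * (p ^ (r + 1) * (2 / (r.factorial : ℝ))) := by
      calc _ ≤ ∑ _Q ∈ C.powersetCard r, p ^ (r + 1) * (2 / (r.factorial : ℝ)) := by
            refine Finset.sum_le_sum fun Q hQ => ?_
            have hQc := (Finset.mem_powersetCard.1 hQ).2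
            rw [avg_ite]
            exact pr_clique_le S hp.le v C r Q hQc (hcl Q hQc)
        _ = ((C.powersetCard r).card : ℝ) * (p ^ (r + 1) * (2 / (r.factorial : ℝ))) := by
            rw [Finset.sum_const, nsmul_eq_mul]
        _ ≤ ((Δ : ℝ) ^ r / (r.factorial : ℝ)) * (p ^ (r + 1) * (2 / (r.factorial : ℝ))) := by
            refine mul_le_mul_of_nonneg_right ?_ (by positivity)
            rw [Finset.card_powersetCard]
            refine (Nat.choose_le_pow_div (α := ℝ) r C.card).trans ?_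
            have : (C.card : ℝ) ≤ Δ := by exact_mod_cast hC
            gcongr
    rw [div_le_iff₀ ht]
    refine h1.trans (le_of_eq ?_)
    field_simp
    ring
  · rintro ω ⟨hv, hY⟩
    refine hY.le.trans ?_
    obtain ⟨F, hF, hF'⟩ := hK ω
    rw [← Finset.natCast_card_filter, ← hF]
    have : F ⊆ (C.powersetCard r).filter (fun Q => S.J ω v ∧ Q ⊆ Yset S v C ω ∧
        IsCl D (fun w => (S.x (ω w) : ℕ)) Q) := by
      intro Q hQ
      obtain ⟨h1, h2, h3⟩ := hF' Q hQ
      rw [Finset.mem_filter, Finset.mem_powersetCard]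
      exact ⟨⟨h1.trans (Finset.filter_subset _ _), h2⟩, hv, h1, h3⟩
    exact_mod_cast Finset.card_le_card this

open Classical in
/-- The failure probability: given that `v` survives, its cluster is properly `N`-colourable
except with probability at most `δ p`. -/
theorem core_lower (hδ : 0 < δ) (hΔ : 1 ≤ Δ) (hp : 0 ≤ p)
    (s : ℕ) (hs : 1 ≤ s) (R : Finset ℕ) (hR : R.card ≤ s)
    (hcl : ∀ r ∈ R, ∀ Q : Finset V, Q.card = r →
      pr (fun x : V → Fin L => ∀ u ∈ Q, ∀ w ∈ Q, u ≠ w → (bg D (fun w => (x w : ℕ))).Adj u w) ≤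
        2 / (r.factorial : ℝ))
    (N : ℕ) (hN : i + 2 ≤ N)
    (hcol : ∀ (H : SimpleGraph V) (Y : Finset V), (Y.card : ℝ) ≤ 2 * (Δ * p) / δ →
        (∀ r ∈ R, (((Y.powersetCard r).filter
            (fun Q => ∀ u ∈ Q, ∀ v ∈ Q, u ≠ v → H.Adj u v)).card : ℝ) ≤
              6 * s * (Δ * p) ^ r / (δ * (r.factorial : ℝ) ^ 2)) →
        ∃ col : V → ℕ, (∀ v ∈ Y, col v < N - (i + 1)) ∧
          ∀ u ∈ Y, ∀ v ∈ Y, H.Adj u v → col u ≠ col v)
    (S : St D Δ b L δ c i p) (v : V) (C : Finset V) (hC : C.card ≤ Δ) :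
    pr (fun ω : V → S.Λ => S.J ω v ∧ ¬ ∃ col : V → Fin N, ∀ u u', u ∈ C → u' ∈ C →
      S.J ω u → S.J ω u' → (bg D (fun w => (S.x (ω w) : ℕ))).Adj u u' → col u ≠ col u') ≤
      δ * p := by
  rcases hp.eq_or_lt with hp0 | hp0
  · have h1 := pr_J_le S hp v
    have h2 : δ * p = p := by rw [← hp0, mul_zero]
    rw [h2]
    exact le_trans (pr_mono fun ω h => h.1) h1
  set K : ℕ → (V → S.Λ) → ℕ := fun r ω => (((Yset S v C ω).powersetCard r).filter
    (fun Q => ∀ u ∈ Q, ∀ w ∈ Q, u ≠ w → (bg D (fun w => (S.x (ω w) : ℕ))).Adj u w)).card with hKdef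
  have hsub : ∀ ω : V → S.Λ, (S.J ω v ∧ ¬ ∃ col : V → Fin N, ∀ u u', u ∈ C → u' ∈ C →
      S.J ω u → S.J ω u' → (bg D (fun w => (S.x (ω w) : ℕ))).Adj u u' → col u ≠ col u') →
      (S.J ω v ∧ 2 * (Δ * p) / δ < ((Yset S v C ω).card : ℝ)) ∨
      (∃ r ∈ R, S.J ω v ∧ 6 * s * (Δ * p) ^ r / (δ * (r.factorial : ℝ) ^ 2) < (K r ω : ℝ)) := by
    rintro ω ⟨hJ, hno⟩
    by_contra hcon
    push Not at hcon
    obtain ⟨h1, h2⟩ := hcon
    obtain ⟨col, hc1, hc2⟩ := hcol (bg D (fun w => (S.x (ω w) : ℕ))) (Yset S v C ω) (h1 hJ)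
      (fun r hr => h2 r hr hJ)
    obtain ⟨col', hc'⟩ := S.mates ω v
    apply hno
    refine ⟨fun u => if h : u ∈ Yset S v C ω then ⟨col u, by have := hc1 u h; omega⟩ else
      ⟨N - (i + 1) + (col' u : ℕ), by have := (col' u).2; omega⟩, ?_⟩
    intro u u' hu hu' hJu hJu' hadj heq
    have hmem : ∀ w, w ∈ C → S.J ω w → w ∉ Yset S v C ω → (w = v ∨ S.R ω w v) := by
      intro w hw hJw hwY
      by_contra hcon
      push Not at hcon
      exact hwY (Finset.mem_filter.2 ⟨hw, hJw, hcon.1, hcon.2⟩)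
    by_cases hY : u ∈ Yset S v C ω <;> by_cases hY' : u' ∈ Yset S v C ω
    · simp only [hY, hY', dif_pos, Fin.mk.injEq] at heq
      exact hc2 u hY u' hY' hadj heq
    · simp only [hY, hY', dif_pos, dif_neg, not_false_eq_true, Fin.mk.injEq] at heq
      have := hc1 u hY
      omega
    · simp only [hY, hY', dif_pos, dif_neg, not_false_eq_true, Fin.mk.injEq] at heq
      have := hc1 u' hY'
      omega
    · simp only [hY, hY', dif_neg, not_false_eq_true, Fin.mk.injEq] at heq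
      have heq' : col' u = col' u' := by
        apply Fin.ext
        omega
      exact hc' u u' hJu hJu' (hmem u hu hJu hY) (hmem u' hu' hJu' hY') heq' hadj
  refine (pr_mono hsub).trans ((pr_or_le _ _).trans ?_)
  have h1 := big_cluster S hp0 hδ hΔ v C hC
  have h2 : pr (fun ω => ∃ r ∈ R, S.J ω v ∧
      6 * s * (Δ * p) ^ r / (δ * (r.factorial : ℝ) ^ 2) < (K r ω : ℝ)) ≤ δ * p / 3 := by
    refine (pr_exists_le R _).trans ?_
    have hs' : (0 : ℝ) < s := by exact_mod_cast hs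
    calc _ ≤ ∑ _r ∈ R, δ * p / (3 * s) := by
          refine Finset.sum_le_sum fun r hr => ?_
          refine many_cliques S hp0 hδ hΔ v C hC s hs r (fun Q hQ => hcl r hr Q hQ) (K r) ?_
          intro ω
          refine ⟨((Yset S v C ω).powersetCard r).filter
            (fun Q => ∀ u ∈ Q, ∀ w ∈ Q, u ≠ w → (bg D (fun w => (S.x (ω w) : ℕ))).Adj u w),
            rfl, ?_⟩
          intro Q hQ
          rw [Finset.mem_filter, Finset.mem_powersetCard] at hQ
          exact ⟨hQ.1.1, hQ.1.2, hQ.2⟩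
      _ = (R.card : ℝ) * (δ * p / (3 * s)) := by rw [Finset.sum_const, nsmul_eq_mul]
      _ ≤ (s : ℝ) * (δ * p / (3 * s)) := by
          refine mul_le_mul_of_nonneg_right ?_ (by positivity)
          exact_mod_cast hR
      _ = δ * p / 3 := by field_simp
  have : 0 < δ * p := by positivity
  linarith

end core

section wrapper

variable {V : Type} [Fintype V] [DecidableEq V]

open Classical in
/-- The vertices with the same cluster identifier as `v`. -/
noncomputable def same (D : V → V → Prop) {Δ : ℕ} (ζ : V → Fin Δ) (v : V) : Finset V :=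
  Finset.univ.filter (fun u => cid D ζ u = cid D ζ v)

open Classical in
lemma card_same_le (D : V → V → Prop) {Δ : ℕ} (hΔ : 1 ≤ Δ)
    (hdeg : ∀ v, (nbr (und D) v).card ≤ Δ) (ζ : V → Fin Δ) (v : V) :
    (same D ζ v).card ≤ Δ := by
  by_cases h : ∃ z, centres D ζ v = {z}
  · have hv : cid D ζ v = (h.choose, true) := by simp only [cid, dif_pos h]
    refine le_trans (Finset.card_le_card ?_) (hdeg h.choose)
    intro u hu
    have hu' : cid D ζ u = (h.choose, true) := by
      have := (Finset.mem_filter.1 hu).2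
      rw [this, hv]
    by_cases h' : ∃ z, centres D ζ u = {z}
    · have hu2 : cid D ζ u = (h'.choose, true) := by simp only [cid, dif_pos h']
      have heq : h'.choose = h.choose := by
        have := hu2.symm.trans hu'
        simpa using this
      have hmem : h.choose ∈ centres D ζ u := by
        rw [h'.choose_spec, heq]
        exact Finset.mem_singleton_self _
      have hadj := (Finset.mem_filter.1 hmem).1
      have hadj' : (und D).Adj u h.choose := by
        simpa [nbr] using hadj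
      simpa [nbr] using hadj'.symm
    · have hu2 : cid D ζ u = (u, false) := by simp only [cid, dif_neg h']
      rw [hu2] at hu'
      simp at hu'
  · have hv : cid D ζ v = (v, false) := by simp only [cid, dif_neg h]
    refine le_trans (Finset.card_le_card (t := {v}) ?_) (by simpa using hΔ)
    intro u hu
    have hu' : cid D ζ u = (v, false) := by
      have := (Finset.mem_filter.1 hu).2
      rw [this, hv]
    by_cases h' : ∃ z, centres D ζ u = {z}
    · have hu2 : cid D ζ u = (h'.choose, true) := by simp only [cid, dif_pos h']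
      rw [hu2] at hu'
      simp at hu'
    · have hu2 : cid D ζ u = (u, false) := by simp only [cid, dif_neg h']
      rw [hu2] at hu'
      simp only [Prod.mk.injEq, and_true] at hu'
      rw [hu']
      exact Finset.mem_singleton_self _

open Classical in
lemma pr_Jn (D : V → V → Prop) {Δ N : ℕ} (hN : 0 < N) (x : V → ℕ) (J : V → Prop)
    (ζ : V → Fin Δ) (v : V) :
    pr (fun σ : V × Bool → Fin N => Jn D x J ζ σ v) =
      (if J v ∧ Good N (cE (bg D x) (clus D J ζ (cid D ζ v))) then (1 : ℝ) else 0) *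
        (1 / (N : ℝ)) := by
  by_cases h : J v ∧ Good N (cE (bg D x) (clus D J ζ (cid D ζ v)))
  · rw [if_pos h, one_mul]
    have h1 := pr_slots (I := V × Bool) (W := Unit) N hN {()} (fun _ => cid D ζ v)
      (fun a _ b _ _ => rfl) (fun _ => ccol h.2 v)
    rw [Finset.card_singleton, pow_one] at h1
    rw [← h1]
    refine pr_congr fun σ => ?_
    constructor
    · rintro ⟨_, _, h3⟩ q _
      exact h3.symm
    · intro h3
      exact ⟨h.1, h.2, (h3 () (Finset.mem_singleton_self _)).symm⟩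
  · rw [if_neg h, zero_mul]
    refine Eq.trans (pr_congr fun σ => ?_) pr_false
    constructor
    · rintro ⟨h1, h2, _⟩
      exact h ⟨h1, h2⟩
    · exact False.elim

end wrapper

end StepLower

open Classical in
/-- Fact (I3): the survival probability at the next level. -/
theorem step_lower {V : Type} [Fintype V] [DecidableEq V] (D : V → V → Prop)
    (hor : ∀ u v, D u v → ¬ D v u) (Δ b L : ℕ) (δ c : ℝ)
    (hΔ : 2 ≤ Δ) (hδ : 0 < δ) (hδ1 : δ ≤ 1) (hdeg : ∀ v, (nbr (und D) v).card ≤ Δ) (i : ℕ)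
    (p : ℝ) (hp : 0 ≤ p) (s : ℕ) (hs : 1 ≤ s) (R : Finset ℕ) (hR : R.card ≤ s)
    (hR1 : ∀ r ∈ R, 1 ≤ r) (hL : ∀ r ∈ R, r ^ 2 * r.factorial ≤ L) (hL0 : 0 < L) (N : ℕ)
    (hN : i + 2 ≤ N)
    (hcol : ∀ (H : SimpleGraph V) (Y : Finset V), (Y.card : ℝ) ≤ 2 * (Δ * p) / δ →
        (∀ r ∈ R, (((Y.powersetCard r).filter
            (fun Q => ∀ u ∈ Q, ∀ v ∈ Q, u ≠ v → H.Adj u v)).card : ℝ) ≤
              6 * s * (Δ * p) ^ r / (δ * (r.factorial : ℝ) ^ 2)) →
        ∃ col : V → ℕ, (∀ v ∈ Y, col v < N - (i + 1)) ∧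
          ∀ u ∈ Y, ∀ v ∈ Y, H.Adj u v → col u ≠ col v)
    (S : St D Δ b L δ c i p) (v : V) :
    (1 - ((i + 1 : ℕ) + 1) * δ) * (p / N) ≤
      avg (fun ω : V → S.Λ => avg (fun ζ : V → Fin Δ => pr (fun σ : V × Bool → Fin N =>
        Jn D (fun w => (S.x (ω w) : ℕ)) (S.J ω) ζ σ v))) := by
  have hN0 : 0 < N := by omega
  have hN' : (0 : ℝ) < N := by exact_mod_cast hN0
  haveI : Nonempty (Fin Δ) := ⟨⟨0, by omega⟩⟩
  have h1 : ∀ (ω : V → S.Λ) (ζ : V → Fin Δ), pr (fun σ : V × Bool → Fin N =>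
        Jn D (fun w => (S.x (ω w) : ℕ)) (S.J ω) ζ σ v) =
      (if S.J ω v ∧ Good N (cE (bg D (fun w => (S.x (ω w) : ℕ)))
        (clus D (S.J ω) ζ (cid D ζ v))) then (1 : ℝ) else 0) * (1 / (N : ℝ)) :=
    fun ω ζ => StepLower.pr_Jn D hN0 _ _ ζ v
  simp only [h1]
  simp only [avg_mul_right]
  have hswap : avg (fun ω : V → S.Λ => avg (fun ζ : V → Fin Δ =>
      (if S.J ω v ∧ Good N (cE (bg D (fun w => (S.x (ω w) : ℕ)))
        (clus D (S.J ω) ζ (cid D ζ v))) then (1 : ℝ) else 0))) =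
      avg (fun ζ : V → Fin Δ => pr (fun ω : V → S.Λ => S.J ω v ∧
        Good N (cE (bg D (fun w => (S.x (ω w) : ℕ))) (clus D (S.J ω) ζ (cid D ζ v))))) := by
    simp only [pr_eq_avg]
    unfold avg
    simp only [← Finset.sum_div]
    rw [Finset.sum_comm, div_div, div_div, mul_comm]
  rw [hswap]
  have h2 : (1 - ((i + 1 : ℕ) + 1) * δ) * p ≤ avg (fun ζ : V → Fin Δ =>
      pr (fun ω : V → S.Λ => S.J ω v ∧
        Good N (cE (bg D (fun w => (S.x (ω w) : ℕ))) (clus D (S.J ω) ζ (cid D ζ v))))) := by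
    refine le_avg_of_le fun ζ => ?_
    have h3 := pr_and_add_and_not (fun ω : V → S.Λ => S.J ω v) (fun ω : V → S.Λ =>
      Good N (cE (bg D (fun w => (S.x (ω w) : ℕ))) (clus D (S.J ω) ζ (cid D ζ v))))
    have h4 := S.lower v
    have h5 : pr (fun ω : V → S.Λ => S.J ω v ∧ ¬ Good N (cE (bg D (fun w => (S.x (ω w) : ℕ)))
        (clus D (S.J ω) ζ (cid D ζ v)))) ≤ δ * p := by
      refine le_trans (pr_mono ?_) (StepLower.core_lower hδ (by omega) hp s hs R hR ?_ N hN hcol S v
        (StepLower.same D ζ v) (StepLower.card_same_le D (by omega) hdeg ζ v))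
      · rintro ω ⟨hJ, hno⟩
        refine ⟨hJ, ?_⟩
        rintro ⟨col, hc⟩
        apply hno
        refine ⟨col, ?_⟩
        rintro u w ⟨⟨hu1, hu2⟩, ⟨hw1, hw2⟩, hadj⟩
        exact hc u w (Finset.mem_filter.2 ⟨Finset.mem_univ _, hu2⟩)
          (Finset.mem_filter.2 ⟨Finset.mem_univ _, hw2⟩) hu1 hw1 hadj
      · intro r hr Q hQ
        have := clique_prob D hor L Q (by rw [hQ]; exact hL r hr) hL0
        rw [hQ] at this
        exact this
    push_cast at h4 ⊢
    linarith
  calc (1 - ((i + 1 : ℕ) + 1) * δ) * (p / N) = (1 - ((i + 1 : ℕ) + 1) * δ) * p * (1 / (N : ℝ)) := by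
        ring
    _ ≤ _ := mul_le_mul_of_nonneg_right h2 (by positivity)

end Pool.Agent.MP_e50225_co
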