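/-
MP_e50225_co : the upper bounds of one level step (helper93).
-/
import Pool.Agent.MP_e50225_co.StepDefs

set_option autoImplicit false

namespace Pool.Agent.MP_e50225_co

open Finset

namespace UpAux

/-- Probability of a cylinder event in a uniform product space. -/
theorem pr_pi {K A : Type*} [Fintype K] [DecidableEq K] [Fintype A] [DecidableEq A] [Nonempty A]
    (S : Finset K) (T : K → Finset A) :
    pr (fun ω : K → A => ∀ k ∈ S, ω k ∈ T k) =
      ∏ k ∈ S, ((T k).card : ℝ) / (Fintype.card A : ℝ) := by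
  classical
  rw [pr_eq_card]
  have h1 : (univ.filter (fun ω : K → A => ∀ k ∈ S, ω k ∈ T k)) =
      Fintype.piFinset (fun k => if k ∈ S then T k else univ) := by
    ext ω
    simp only [mem_filter, mem_univ, true_and, Fintype.mem_piFinset]
    constructor
    · intro h k
      by_cases hk : k ∈ S
      · simp [hk, h k hk]
      · simp [hk]
    · intro h k hk
      have := h k
      simpa [hk] using this
  rw [h1, Fintype.card_piFinset, Fintype.card_pi]
  have hA : (Fintype.card A : ℝ) ≠ 0 := by exact_mod_cast Fintype.card_ne_zero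
  push_cast
  rw [← Finset.prod_div_distrib]
  rw [← Finset.prod_subset (Finset.subset_univ S)]
  · apply Finset.prod_congr rfl
    intro k hk
    simp [hk]
  · intro k _ hk
    simp [hk, hA]

theorem quarter_le (n : ℕ) (hn : 2 ≤ n) : (1 : ℝ) / 4 ≤ (1 - 1 / (n : ℝ)) ^ n := by
  -- `(1-1/n)^n >= (1 - floor(n/2)... )`: by Bernoulli on the square root
  have hn0 : (0 : ℝ) < n := by positivity
  have hn2 : (2 : ℝ) ≤ n := by exact_mod_cast hn
  -- `(1-1/n) >= (1 - 1/(n-1+1))`; use `1 - 1/n = 1/(1 + 1/(n-1))` and `(1+1/(n-1))^(n-1) <= e`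
  have h1 : 1 - 1 / (n : ℝ) = ((n : ℝ) - 1) / n := by field_simp
  have hpos : (0 : ℝ) < (n : ℝ) - 1 := by linarith
  have h2 : Real.exp (-(2 * Real.log 2) * (1 / n)) ≤ 1 - 1 / (n : ℝ) := by
    -- convexity of exp on [0, 1/2]: exp(-2 log 2 * t) <= 1 - t for t in [0,1/2]
    have ht0 : (0 : ℝ) ≤ 1 / n := by positivity
    have ht1 : (1 : ℝ) / n ≤ 1 / 2 := by
      apply one_div_le_one_div_of_le (by norm_num) hn2
    have := convexOn_exp.2 (Set.mem_univ (0 : ℝ)) (Set.mem_univ (-Real.log 2))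
      (show (0 : ℝ) ≤ 1 - 2 * (1 / (n : ℝ)) by linarith) (show (0 : ℝ) ≤ 2 * (1 / (n : ℝ)) by linarith)
      (by ring)
    simp only [smul_eq_mul, mul_zero, zero_add, Real.exp_zero, mul_one] at this
    rw [Real.exp_neg, Real.exp_log (by norm_num)] at this
    calc Real.exp (-(2 * Real.log 2) * (1 / n)) = Real.exp (2 * (1 / (n : ℝ)) * -Real.log 2) := by
          congr 1; ring
      _ ≤ 1 - 2 * (1 / (n : ℝ)) + 2 * (1 / n) * 2⁻¹ := this
      _ = 1 - 1 / (n : ℝ) := by ring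
  calc (1 : ℝ) / 4 = Real.exp (-(2 * Real.log 2)) := by
        rw [Real.exp_neg, mul_comm, Real.exp_mul, Real.exp_log (by norm_num)]
        norm_num
    _ = (Real.exp (-(2 * Real.log 2) * (1 / n))) ^ n := by
        rw [← Real.exp_nat_mul]
        congr 1
        field_simp
    _ ≤ (1 - 1 / (n : ℝ)) ^ n := pow_le_pow_left₀ (Real.exp_pos _).le h2 n

/-- Two vertices with many common neighbours see exactly the same single centre with
probability at least `c / 16`. -/
theorem same_centre_prob {V : Type*} [Fintype V] [DecidableEq V] (Δ : ℕ) (hΔ : 2 ≤ Δ) (c : ℝ)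
    (A B : Finset V) (hA : A.card ≤ Δ) (hB : B.card ≤ Δ) (hAB : c * Δ ≤ ((A ∩ B).card : ℝ))
    (P : Fin Δ → Prop) [DecidablePred P] (hP : (univ.filter P).card = 1) :
    c / 16 ≤ pr (fun z : V → Fin Δ => ∃ w, A.filter (fun y => P (z y)) = {w} ∧
      B.filter (fun y => P (z y)) = {w}) := by
  classical
  have hΔ0 : 0 < Δ := by omega
  have : Nonempty (Fin Δ) := ⟨⟨0, hΔ0⟩⟩
  have hΔr : (0 : ℝ) < Δ := by exact_mod_cast hΔ0
  -- the event for a fixed centre
  set E : V → (V → Fin Δ) → Prop := fun w z => P (z w) ∧ ∀ y ∈ (A ∪ B).erase w, ¬ P (z y) with hE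
  have hEp : ∀ w ∈ A ∩ B, 1 / (16 * (Δ : ℝ)) ≤ pr (E w) := by
    intro w hw
    have hwA : w ∈ A := (Finset.mem_inter.mp hw).1
    have hwU : w ∈ A ∪ B := Finset.mem_union_left _ hwA
    have h1 : pr (E w) = pr (fun z : V → Fin Δ => ∀ y ∈ A ∪ B,
        z y ∈ (if y = w then univ.filter P else univ.filter (fun t => ¬ P t))) := by
      congr 1
      funext z
      apply propext
      constructor
      · rintro ⟨h1, h2⟩ y hy
        by_cases hyw : y = w
        · subst hyw; simp [h1]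
        · simp [hyw, h2 y (Finset.mem_erase.mpr ⟨hyw, hy⟩)]
      · intro h
        constructor
        · have := h w hwU
          simpa using this
        · intro y hy
          have hyw := (Finset.mem_erase.mp hy).1
          have := h y (Finset.mem_erase.mp hy).2
          simpa [hyw] using this
    rw [h1, pr_pi, ← Finset.mul_prod_erase _ _ hwU]
    have hcompl : (univ.filter (fun t : Fin Δ => ¬ P t)).card = Δ - 1 := by
      have := Finset.card_filter_add_card_filter_not (s := (univ : Finset (Fin Δ))) P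
      rw [hP, Finset.card_univ, Fintype.card_fin] at this
      omega
    have h2 : ∏ y ∈ (A ∪ B).erase w,
        ((if y = w then univ.filter P else univ.filter (fun t => ¬ P t)).card : ℝ) /
          (Fintype.card (Fin Δ) : ℝ) = (1 - 1 / (Δ : ℝ)) ^ ((A ∪ B).erase w).card := by
      rw [← Finset.prod_const]
      apply Finset.prod_congr rfl
      intro y hy
      have hyw := (Finset.mem_erase.mp hy).1
      rw [if_neg hyw, hcompl, Fintype.card_fin, Nat.cast_sub (by omega)]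
      field_simp
      simp
    rw [h2]
    simp only [if_true, hP, Nat.cast_one, Fintype.card_fin]
    have hcard : ((A ∪ B).erase w).card ≤ 2 * Δ := by
      calc ((A ∪ B).erase w).card ≤ (A ∪ B).card := Finset.card_erase_le
        _ ≤ A.card + B.card := Finset.card_union_le _ _
        _ ≤ 2 * Δ := by omega
    have hb0 : 0 ≤ 1 - 1 / (Δ : ℝ) := by
      have : 1 / (Δ : ℝ) ≤ 1 := by
        rw [div_le_one hΔr]; exact_mod_cast hΔ0
      linarith
    have hb1 : 1 - 1 / (Δ : ℝ) ≤ 1 := by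
      have : 0 ≤ 1 / (Δ : ℝ) := by positivity
      linarith
    have h3 : (1 : ℝ) / 16 ≤ (1 - 1 / (Δ : ℝ)) ^ ((A ∪ B).erase w).card := by
      calc (1 : ℝ) / 16 = (1 / 4) ^ 2 := by norm_num
        _ ≤ ((1 - 1 / (Δ : ℝ)) ^ Δ) ^ 2 := pow_le_pow_left₀ (by norm_num) (quarter_le Δ hΔ) 2
        _ = (1 - 1 / (Δ : ℝ)) ^ (2 * Δ) := by rw [← pow_mul, mul_comm]
        _ ≤ (1 - 1 / (Δ : ℝ)) ^ ((A ∪ B).erase w).card :=
            pow_le_pow_of_le_one hb0 hb1 hcard
    calc 1 / (16 * (Δ : ℝ)) = 1 / (Δ : ℝ) * (1 / 16) := by field_simp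
      _ ≤ 1 / (Δ : ℝ) * (1 - 1 / (Δ : ℝ)) ^ ((A ∪ B).erase w).card :=
          mul_le_mul_of_nonneg_left h3 (by positivity)
  -- disjoint union over centres
  have hsum : ∑ w ∈ A ∩ B, pr (E w) ≤ pr (fun z : V → Fin Δ => ∃ w,
      A.filter (fun y => P (z y)) = {w} ∧ B.filter (fun y => P (z y)) = {w}) := by
    simp only [pr_eq_card]
    rw [← Finset.sum_div]
    apply div_le_div_of_nonneg_right _ (by positivity)
    have hdisj : ∀ w ∈ A ∩ B, ∀ w' ∈ A ∩ B, w ≠ w' →
        Disjoint (univ.filter (E w)) (univ.filter (E w')) := by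
      intro w hw w' hw' hne
      rw [Finset.disjoint_left]
      intro z hz hz'
      have h1 := (Finset.mem_filter.mp hz).2
      have h2 := (Finset.mem_filter.mp hz').2
      exact h2.2 w (Finset.mem_erase.mpr ⟨hne, Finset.mem_union_left _ (Finset.mem_inter.mp hw).1⟩)
        h1.1
    have hcb := Finset.card_biUnion hdisj
    have hle : ((A ∩ B).biUnion (fun w => univ.filter (E w))).card ≤
        (univ.filter (fun z : V → Fin Δ => ∃ w, A.filter (fun y => P (z y)) = {w} ∧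
          B.filter (fun y => P (z y)) = {w})).card := by
      apply Finset.card_le_card
      intro z hz
      obtain ⟨w, hw, hz⟩ := Finset.mem_biUnion.mp hz
      have h1 := (Finset.mem_filter.mp hz).2
      refine Finset.mem_filter.mpr ⟨Finset.mem_univ _, w, ?_, ?_⟩
      · ext y
        simp only [Finset.mem_filter, Finset.mem_singleton]
        constructor
        · rintro ⟨hy, hPy⟩
          by_contra hne
          exact h1.2 y (Finset.mem_erase.mpr ⟨hne, Finset.mem_union_left _ hy⟩) hPy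
        · rintro rfl
          exact ⟨(Finset.mem_inter.mp hw).1, h1.1⟩
      · ext y
        simp only [Finset.mem_filter, Finset.mem_singleton]
        constructor
        · rintro ⟨hy, hPy⟩
          by_contra hne
          exact h1.2 y (Finset.mem_erase.mpr ⟨hne, Finset.mem_union_right _ hy⟩) hPy
        · rintro rfl
          exact ⟨(Finset.mem_inter.mp hw).2, h1.1⟩
    rw [hcb] at hle
    exact_mod_cast hle
  calc c / 16 = (c * Δ) * (1 / (16 * (Δ : ℝ))) := by field_simp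
    _ ≤ ((A ∩ B).card : ℝ) * (1 / (16 * (Δ : ℝ))) :=
        mul_le_mul_of_nonneg_right hAB (by positivity)
    _ = ∑ w ∈ A ∩ B, 1 / (16 * (Δ : ℝ)) := by rw [Finset.sum_const, nsmul_eq_mul]
    _ ≤ ∑ w ∈ A ∩ B, pr (E w) := Finset.sum_le_sum hEp
    _ ≤ _ := hsum

end UpAux

variable {V : Type} [Fintype V] [DecidableEq V]

open Classical in
theorem prob_cid_ne (D : V → V → Prop) (Δ : ℕ) (hΔ : 2 ≤ Δ) (c : ℝ) (hc : 0 ≤ c) (hc1 : c ≤ 1)
    (hdeg : ∀ v, (nbr (und D) v).card ≤ Δ) (u v : V)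
    (hcd : c * Δ ≤ ((nbr (und D) u ∩ nbr (und D) v).card : ℝ)) :
    pr (fun ζ : V → Fin Δ => cid D ζ u ≠ cid D ζ v) ≤ 1 - c / 16 := by
  have hΔ0 : 0 < Δ := by omega
  have : Nonempty (Fin Δ) := ⟨⟨0, hΔ0⟩⟩
  have hP : (univ.filter (fun t : Fin Δ => (t : ℕ) = 0)).card = 1 := by
    rw [Finset.card_eq_one]
    refine ⟨⟨0, hΔ0⟩, ?_⟩
    ext t
    simp [Fin.ext_iff]
  have h1 := UpAux.same_centre_prob Δ hΔ c (nbr (und D) u) (nbr (und D) v) (hdeg u) (hdeg v)
    (by convert hcd using 3) (fun t : Fin Δ => (t : ℕ) = 0) (by convert hP using 2)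
  have h2 : pr (fun z : V → Fin Δ => ∃ w,
      (nbr (und D) u).filter (fun y => ((z y : Fin Δ) : ℕ) = 0) = {w} ∧
      (nbr (und D) v).filter (fun y => ((z y : Fin Δ) : ℕ) = 0) = {w}) ≤
      pr (fun ζ : V → Fin Δ => cid D ζ u = cid D ζ v) := by
    apply pr_mono
    rintro z ⟨w, hw1, hw2⟩
    have hu : centres D z u = {w} := by
      rw [← hw1]
      unfold centres
      congr
    have hv : centres D z v = {w} := by
      rw [← hw2]
      unfold centres
      congr
    unfold cid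
    have hu' : ∃ y, centres D z u = {y} := ⟨w, hu⟩
    have hv' : ∃ y, centres D z v = {y} := ⟨w, hv⟩
    rw [dif_pos hu', dif_pos hv']
    have e1 : hu'.choose = w := Finset.singleton_injective (hu'.choose_spec.symm.trans hu)
    have e2 : hv'.choose = w := Finset.singleton_injective (hv'.choose_spec.symm.trans hv)
    rw [e1, e2]
  have h3 : pr (fun ζ : V → Fin Δ => cid D ζ u ≠ cid D ζ v) =
      1 - pr (fun ζ : V → Fin Δ => cid D ζ u = cid D ζ v) :=
    pr_not (fun ζ : V → Fin Δ => cid D ζ u = cid D ζ v)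
  rw [h3]
  linarith

namespace UpAux

open Classical in
/-- For fixed lower data and fixed centres, the slots give a factor `(1/N)^|Q|`. -/
theorem slot_step (D : V → V → Prop) {Δ : ℕ} (N : ℕ) (hN : 0 < N) (x : V → ℕ) (J : V → Prop)
    (R : V → V → Prop) (ζ : V → Fin Δ) (Q : Finset V) (P : Prop) :
    pr (fun σ : V × Bool → Fin N =>
      (∀ q ∈ Q, Jn D x J ζ σ q) ∧ (∀ q ∈ Q, ∀ q' ∈ Q, q ≠ q' → ¬ Rn D R ζ q q') ∧ P) ≤
    (1 / (N : ℝ)) ^ Q.card *
      (if ((∀ q ∈ Q, J q) ∧ (∀ q ∈ Q, ∀ q' ∈ Q, q ≠ q' → ¬ R q q') ∧ P) ∧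
        Set.InjOn (cid D ζ) Q then (1 : ℝ) else 0) := by
  classical
  by_cases hc : ((∀ q ∈ Q, J q) ∧ (∀ q ∈ Q, ∀ q' ∈ Q, q ≠ q' → ¬ R q q') ∧ P) ∧
        Set.InjOn (cid D ζ) Q
  · rw [if_pos hc, mul_one, ← pr_slots N hN Q (cid D ζ) hc.2 (fun q =>
      if h : Good N (cE (bg D x) (clus D J ζ (cid D ζ q))) then ccol h q else ⟨0, hN⟩)]
    apply pr_mono
    rintro σ ⟨h1, -, -⟩ q hq
    obtain ⟨-, h, h2⟩ := h1 q hq
    show σ (cid D ζ q) = dite _ _ _
    rw [dif_pos h]
    exact h2.symm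
  · rw [if_neg hc, mul_zero]
    apply le_of_eq
    rw [← pr_false (Ω := V × Bool → Fin N)]
    apply pr_congr
    intro σ
    constructor
    · rintro ⟨h1, h2, h3⟩
      apply hc
      refine ⟨⟨fun q hq => (h1 q hq).1, fun q hq q' hq' hne hR => h2 q hq q' hq' hne (Or.inl hR),
        h3⟩, ?_⟩
      intro q hq q' hq' he
      by_contra hne
      exact h2 q hq q' hq' hne (Or.inr he)
    · exact fun h => h.elim

open Classical in
theorem avg_ind_and {Ω Ω' : Type*} [Fintype Ω] [Fintype Ω'] (A : Ω → Prop) (B : Ω' → Prop) (a : ℝ) :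
    avg (fun ω : Ω => avg (fun ζ : Ω' => a * (if A ω ∧ B ζ then (1 : ℝ) else 0))) =
      a * (pr A * pr B) := by
  classical
  rw [← pr_prod_indep, pr_prod, ← avg_mul_left]
  congr 1
  funext ω
  rw [avg_mul_left, pr_eq_avg]

end UpAux

theorem step_upper (D : V → V → Prop) (Δ b L : ℕ) (δ c : ℝ) (hΔ : 0 < Δ) (i : ℕ) (p : ℝ)
    (hp : 0 ≤ p) (N : ℕ) (hN : 0 < N) (S : St D Δ b L δ c i p) (Q : Finset V)
    (F : (V → Fin L) → Prop) :
    avg (fun ω : V → S.Λ => avg (fun ζ : V → Fin Δ => pr (fun σ : V × Bool → Fin N =>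
      (∀ q ∈ Q, Jn D (fun w => (S.x (ω w) : ℕ)) (S.J ω) ζ σ q) ∧
      (∀ q ∈ Q, ∀ q' ∈ Q, q ≠ q' → ¬ Rn D (S.R ω) ζ q q') ∧ F (fun v => S.x (ω v))))) ≤
      (p / N) ^ Q.card * pr F := by
  classical
  have hN' : (0 : ℝ) < N := by exact_mod_cast hN
  calc _ ≤ avg (fun ω : V → S.Λ => avg (fun _ζ : V → Fin Δ => (1 / (N : ℝ)) ^ Q.card *
        (if ((∀ q ∈ Q, S.J ω q) ∧ (∀ q ∈ Q, ∀ q' ∈ Q, q ≠ q' → ¬ S.R ω q q') ∧
          F (fun v => S.x (ω v))) ∧ True then (1 : ℝ) else 0))) := by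
        refine avg_mono (fun ω => avg_mono (fun ζ => ?_))
        refine le_trans (UpAux.slot_step D N hN _ (S.J ω) (S.R ω) ζ Q
          (F (fun v => S.x (ω v)))) ?_
        apply mul_le_mul_of_nonneg_left _ (by positivity)
        split_ifs with h1 h2
        · exact le_rfl
        · exact absurd ⟨h1.1, trivial⟩ h2
        · norm_num
        · exact le_rfl
    _ = (1 / (N : ℝ)) ^ Q.card * (pr (fun ω : V → S.Λ => (∀ q ∈ Q, S.J ω q) ∧
          (∀ q ∈ Q, ∀ q' ∈ Q, q ≠ q' → ¬ S.R ω q q') ∧ F (fun v => S.x (ω v))) *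
          pr (fun _ζ : V → Fin Δ => True)) := by
        rw [← UpAux.avg_ind_and]
        congr 1
        funext ω
        congr 1
        funext ζ
        congr
    _ ≤ (1 / (N : ℝ)) ^ Q.card * (p ^ Q.card * pr F) := by
        apply mul_le_mul_of_nonneg_left _ (by positivity)
        calc _ ≤ pr (fun ω : V → S.Λ => (∀ q ∈ Q, S.J ω q) ∧
              (∀ q ∈ Q, ∀ q' ∈ Q, q ≠ q' → ¬ S.R ω q q') ∧ F (fun v => S.x (ω v))) * 1 :=
              mul_le_mul_of_nonneg_left (pr_le_one _) (pr_nonneg _)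
          _ ≤ p ^ Q.card * pr F := by
              rw [mul_one]
              exact S.upper Q F
    _ = (p / N) ^ Q.card * pr F := by
        rw [div_pow, div_pow, one_pow]
        field_simp

theorem step_upper_dense (D : V → V → Prop) (Δ b L : ℕ) (δ c : ℝ) (hΔ : 2 ≤ Δ) (hc : 0 ≤ c)
    (hc1 : c ≤ 1) (hdeg : ∀ v, (nbr (und D) v).card ≤ Δ) (i : ℕ) (p : ℝ)
    (hp : 0 ≤ p) (N : ℕ) (hN : 0 < N) (S : St D Δ b L δ c i p) (Q : Finset V)
    (F : (V → Fin L) → Prop)
    (hQ : ∃ u ∈ Q, ∃ v ∈ Q, u ≠ v ∧ c * Δ ≤ ((nbr (und D) u ∩ nbr (und D) v).card : ℝ)) :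
    avg (fun ω : V → S.Λ => avg (fun ζ : V → Fin Δ => pr (fun σ : V × Bool → Fin N =>
      (∀ q ∈ Q, Jn D (fun w => (S.x (ω w) : ℕ)) (S.J ω) ζ σ q) ∧
      (∀ q ∈ Q, ∀ q' ∈ Q, q ≠ q' → ¬ Rn D (S.R ω) ζ q q') ∧ F (fun v => S.x (ω v))))) ≤
      (1 - c / 16) ^ (i + 1) * (p / N) ^ Q.card * pr F := by
  classical
  have hN' : (0 : ℝ) < N := by exact_mod_cast hN
  obtain ⟨u, hu, v, hv, huv, hcd⟩ := hQ
  have hpc := prob_cid_ne D Δ hΔ c hc hc1 hdeg u v (by convert hcd using 3)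
  calc _ ≤ avg (fun ω : V → S.Λ => avg (fun ζ : V → Fin Δ => (1 / (N : ℝ)) ^ Q.card *
        (if ((∀ q ∈ Q, S.J ω q) ∧ (∀ q ∈ Q, ∀ q' ∈ Q, q ≠ q' → ¬ S.R ω q q') ∧
          F (fun v => S.x (ω v))) ∧ cid D ζ u ≠ cid D ζ v then (1 : ℝ) else 0))) := by
        refine avg_mono (fun ω => avg_mono (fun ζ => ?_))
        refine le_trans (UpAux.slot_step D N hN _ (S.J ω) (S.R ω) ζ Q
          (F (fun v => S.x (ω v)))) ?_
        apply mul_le_mul_of_nonneg_left _ (by positivity)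
        split_ifs with h1 h2
        · exact le_rfl
        · exact absurd ⟨h1.1, fun he => huv (h1.2 hu hv he)⟩ h2
        · norm_num
        · exact le_rfl
    _ = (1 / (N : ℝ)) ^ Q.card * (pr (fun ω : V → S.Λ => (∀ q ∈ Q, S.J ω q) ∧
          (∀ q ∈ Q, ∀ q' ∈ Q, q ≠ q' → ¬ S.R ω q q') ∧ F (fun v => S.x (ω v))) *
          pr (fun ζ : V → Fin Δ => cid D ζ u ≠ cid D ζ v)) := by
        rw [← UpAux.avg_ind_and]
        congr 1
        funext ω
        congr 1
        funext ζ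
        congr
    _ ≤ (1 / (N : ℝ)) ^ Q.card * (((1 - c / 16) ^ i * p ^ Q.card * pr F) * (1 - c / 16)) := by
        apply mul_le_mul_of_nonneg_left _ (by positivity)
        have h0 : 0 ≤ (1 - c / 16) ^ i * p ^ Q.card * pr F := by
          have : 0 ≤ 1 - c / 16 := by linarith
          have := pr_nonneg F
          positivity
        exact mul_le_mul (S.upper_dense Q F ⟨u, hu, v, hv, huv, by convert hcd using 3⟩) hpc
          (pr_nonneg _) h0
    _ = (1 - c / 16) ^ (i + 1) * (p / N) ^ Q.card * pr F := by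
        rw [div_pow p, div_pow 1, one_pow, pow_succ]
        ring

end Pool.Agent.MP_e50225_co
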