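/-
MP_e50225_co : one level of the random selection (helper87).
-/
import Pool.Agent.MP_e50225_co.StepUpper
import Pool.Agent.MP_e50225_co.StepLower
import Pool.Agent.MP_e50225_co.Ball

set_option autoImplicit false

namespace Pool.Agent.MP_e50225_co

open Finset

variable {V : Type} [Fintype V] [DecidableEq V]

namespace Step

lemma centres_congr (D : V → V → Prop) {Δ : ℕ} {ζ ζ' : V → Fin Δ} {v : V}
    (h : ∀ w ∈ nbr (und D) v, ζ w = ζ' w) : centres D ζ v = centres D ζ' v := by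
  classical
  unfold centres
  refine Finset.filter_congr (fun w hw => ?_)
  rw [h w hw]

lemma cid_congr (D : V → V → Prop) {Δ : ℕ} {ζ ζ' : V → Fin Δ} {v : V}
    (h : ∀ w ∈ nbr (und D) v, ζ w = ζ' w) : cid D ζ v = cid D ζ' v := by
  unfold cid
  rw [centres_congr D h]

lemma cid_cases (D : V → V → Prop) {Δ : ℕ} (ζ : V → Fin Δ) (v : V) :
    (∃ z, centres D ζ v = {z} ∧ cid D ζ v = (z, true)) ∨ cid D ζ v = (v, false) := by
  classical
  by_cases h : ∃ z, centres D ζ v = {z}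
  · left
    obtain ⟨z, hz⟩ := h
    refine ⟨z, hz, ?_⟩
    have h' : ∃ z, centres D ζ v = {z} := ⟨z, hz⟩
    have h2 : h'.choose = z := by
      have := h'.choose_spec
      exact (Finset.singleton_injective (hz.symm.trans this)).symm
    unfold cid
    rw [dif_pos h', h2]
  · right
    unfold cid
    rw [dif_neg h]

lemma centres_subset (D : V → V → Prop) {Δ : ℕ} (ζ : V → Fin Δ) (v : V) :
    centres D ζ v ⊆ nbr (und D) v := by
  classical
  exact Finset.filter_subset _ _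

lemma cid_fst_mem (D : V → V → Prop) {Δ : ℕ} (ζ : V → Fin Δ) (v : V) :
    (cid D ζ v).1 ∈ ball (und D) 1 v := by
  rcases cid_cases D ζ v with ⟨z, hz, h⟩ | h
  · rw [h]
    have : z ∈ nbr (und D) v := centres_subset D ζ v (by rw [hz]; exact Finset.mem_singleton_self z)
    exact mem_ball_step (mem_ball_self 0 v) this
  · rw [h]
    exact mem_ball_self 1 v

lemma mem_ball_two_of_cid_eq (D : V → V → Prop) {Δ : ℕ} {ζ : V → Fin Δ} {u v : V}
    (h : cid D ζ u = cid D ζ v) : u ∈ ball (und D) 2 v := by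
  rcases cid_cases D ζ u with ⟨z, hz, hu⟩ | hu
  · rcases cid_cases D ζ v with ⟨z', hz', hv⟩ | hv
    · rw [hu, hv, Prod.mk.injEq] at h
      obtain ⟨rfl, -⟩ := h
      have h1 : z ∈ nbr (und D) u :=
        centres_subset D ζ u (by rw [hz]; exact Finset.mem_singleton_self z)
      have h2 : z ∈ nbr (und D) v :=
        centres_subset D ζ v (by rw [hz']; exact Finset.mem_singleton_self z)
      have h3 : z ∈ ball (und D) 1 v := mem_ball_step (mem_ball_self 0 v) h2
      exact mem_ball_step h3 (mem_nbr_comm.1 h1)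
    · rw [hu, hv] at h
      simp at h
  · rcases cid_cases D ζ v with ⟨z', hz', hv⟩ | hv
    · rw [hu, hv] at h
      simp at h
    · rw [hu, hv, Prod.mk.injEq] at h
      rw [h.1]
      exact mem_ball_self 2 v

/-- Two survivors with the same identifier are not in conflict. -/
lemma not_adj_of_cid_eq (D : V → V → Prop) {Δ N : ℕ} {x : V → ℕ} {J : V → Prop} {ζ : V → Fin Δ}
    {σ : V × Bool → Fin N} {u v : V} (hu : Jn D x J ζ σ u) (hv : Jn D x J ζ σ v)
    (h : cid D ζ u = cid D ζ v) : ¬ (bg D x).Adj u v := by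
  intro hadj
  obtain ⟨hJu, hg, h1⟩ := hu
  obtain ⟨hJv, hg', h2⟩ := hv
  have key : ∀ a, a = cid D ζ v → ∀ (g : Good N (cE (bg D x) (clus D J ζ a))),
      ccol g u = σ a → False := by
    rintro a rfl g hgu
    have h3 : ccol g v = σ (cid D ζ v) := h2
    exact ccol_spec g (u := u) (w := v) ⟨⟨hJu, h⟩, ⟨hJv, rfl⟩, hadj⟩ (hgu.trans h3.symm)
  exact key (cid D ζ u) h hg h1

lemma Jn_congr (D : V → V → Prop) {Δ N : ℕ} {x x' : V → ℕ} {J J' : V → Prop} {ζ ζ' : V → Fin Δ}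
    {σ σ' : V × Bool → Fin N} {v : V} (hx : ∀ u ∈ ball (und D) 2 v, x u = x' u)
    (hJ : ∀ u ∈ ball (und D) 2 v, (J u ↔ J' u))
    (hζ : ∀ u ∈ ball (und D) 3 v, ζ u = ζ' u)
    (hσ : ∀ u ∈ ball (und D) 1 v, ∀ b, σ (u, b) = σ' (u, b)) :
    Jn D x J ζ σ v ↔ Jn D x' J' ζ' σ' v := by
  have hv : cid D ζ v = cid D ζ' v := cid_congr D (fun w hw => hζ w
    (ball_mono (by omega) v (mem_ball_step (mem_ball_self 0 v) hw)))
  have hcid : ∀ u ∈ ball (und D) 2 v, cid D ζ u = cid D ζ' u := fun u hu =>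
    cid_congr D (fun w hw => hζ w (mem_ball_step hu hw))
  have hclus : ∀ u, clus D J ζ (cid D ζ v) u ↔ clus D J' ζ' (cid D ζ' v) u := by
    intro u
    constructor
    · rintro ⟨h1, h2⟩
      have hu := mem_ball_two_of_cid_eq D h2
      exact ⟨(hJ u hu).1 h1, by rw [← hcid u hu, ← hv]; exact h2⟩
    · rintro ⟨h1, h2⟩
      have hu := mem_ball_two_of_cid_eq D h2
      exact ⟨(hJ u hu).2 h1, by rw [hcid u hu, hv]; exact h2⟩
  have hE : cE (bg D x) (clus D J ζ (cid D ζ v)) =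
      cE (bg D x') (clus D J' ζ' (cid D ζ' v)) := by
    funext u w
    refine propext ⟨?_, ?_⟩
    · rintro ⟨h1, h2, h3⟩
      have hu := mem_ball_two_of_cid_eq D h1.2
      have hw := mem_ball_two_of_cid_eq D h2.2
      refine ⟨(hclus u).1 h1, (hclus w).1 h2, ?_⟩
      simpa only [bg, hx u hu, hx w hw] using h3
    · rintro ⟨h1, h2, h3⟩
      have hu := mem_ball_two_of_cid_eq D h1.2
      have hw := mem_ball_two_of_cid_eq D h2.2
      refine ⟨(hclus u).2 h1, (hclus w).2 h2, ?_⟩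
      simpa only [bg, hx u hu, hx w hw] using h3
  have hσv : σ (cid D ζ v) = σ' (cid D ζ' v) := by
    have h1 := hσ (cid D ζ v).1 (cid_fst_mem D ζ v) (cid D ζ v).2
    rw [← hv]
    exact h1
  have key : ∀ (E E' : V → V → Prop), E = E' → ((∃ h : Good N E, ccol h v = σ (cid D ζ v)) ↔
      (∃ h : Good N E', ccol h v = σ' (cid D ζ' v))) := by
    rintro E E' rfl
    rw [hσv]
  unfold Jn
  rw [hJ v (mem_ball_self 2 v)]
  exact and_congr_right (fun _ => key _ _ hE)

end Step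

open Classical in
theorem step_state (D : V → V → Prop)
    (hor : ∀ u v, D u v → ¬ D v u) (Δ b L : ℕ) (δ c : ℝ) (hΔ : 2 ≤ Δ) (hδ : 0 < δ) (hδ1 : δ ≤ 1)
    (hc : 0 ≤ c) (hc1 : c ≤ 1)
    (hdeg : ∀ v, (nbr (und D) v).card ≤ Δ) (i : ℕ) (p : ℝ) (hp : 0 ≤ p)
    (s : ℕ) (hs : 1 ≤ s) (R : Finset ℕ) (hR : R.card ≤ s) (hR1 : ∀ r ∈ R, 1 ≤ r)
    (hL : ∀ r ∈ R, r ^ 2 * r.factorial ≤ L) (hL0 : 0 < L) (N : ℕ) (hN : i + 2 ≤ N)
    (hcol : ∀ (H : SimpleGraph V) (Y : Finset V), (Y.card : ℝ) ≤ 2 * (Δ * p) / δ →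
        (∀ r ∈ R, (((Y.powersetCard r).filter
            (fun Q => ∀ u ∈ Q, ∀ v ∈ Q, u ≠ v → H.Adj u v)).card : ℝ) ≤
              6 * s * (Δ * p) ^ r / (δ * (r.factorial : ℝ) ^ 2)) →
        ∃ col : V → ℕ, (∀ v ∈ Y, col v < N - (i + 1)) ∧
          ∀ u ∈ Y, ∀ v ∈ Y, H.Adj u v → col u ≠ col v)
    (S : St D Δ b L δ c i p) : Nonempty (St D Δ b L δ c (i + 1) (p / N)) := by
  have hN0 : 0 < N := by omega
  have hΔ0 : 0 < Δ := by omega
  have : Nonempty (Fin Δ) := ⟨⟨0, hΔ0⟩⟩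
  have : Nonempty (Fin N) := ⟨⟨0, hN0⟩⟩
  refine ⟨{
    Λ := S.Λ × (Fin Δ × (Bool → Fin N))
    x := fun l => S.x l.1
    J := fun ω => Jn D (fun w => (S.x (ω w).1 : ℕ)) (S.J (fun w => (ω w).1))
      (fun w => (ω w).2.1) (fun a => (ω a.1).2.2 a.2)
    R := fun ω => Rn D (S.R (fun w => (ω w).1)) (fun w => (ω w).2.1)
    symmR := ?_
    loc := ?_
    notR := ?_
    mates := ?_
    upper := ?_
    upper_dense := ?_
    lower := ?_
    cap := ?_ }⟩
  · rintro ω u v (h | h)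
    · exact Or.inl (S.symmR _ u v h)
    · exact Or.inr h.symm
  · intro v ω ω' h
    apply Step.Jn_congr D
    · intro u hu
      rw [h u (ball_mono (by omega) v hu)]
    · intro u hu
      apply S.loc u
      intro w hw
      have h1 : w ∈ ball (und D) (2 * (i + 1) + 2) v := by
        have h2 := ball_trans hu hw
        rwa [show 2 + (2 * i + 2) = 2 * (i + 1) + 2 by ring] at h2
      rw [h w h1]
    · intro u hu
      rw [h u (ball_mono (by omega) v hu)]
    · intro u hu bb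
      show (ω u).2.2 bb = (ω' u).2.2 bb
      rw [h u (ball_mono (by omega) v hu)]
  · rintro ω u v hu hv hadj (h | h)
    · exact S.notR _ u v hu.1 hv.1 hadj h
    · exact Step.not_adj_of_cid_eq D hu hv h hadj
  · intro ω v
    obtain ⟨col, hcolp⟩ := S.mates (fun w => (ω w).1) v
    refine ⟨fun u => if u = v ∨ S.R (fun w => (ω w).1) u v then Fin.castSucc (col u)
      else Fin.last (i + 1), ?_⟩
    intro u u' hu hu' hr hr' hcc hadj
    by_cases h1 : u = v ∨ S.R (fun w => (ω w).1) u v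
    · by_cases h2 : u' = v ∨ S.R (fun w => (ω w).1) u' v
      · simp only [h1, h2, if_true] at hcc
        exact hcolp u u' hu.1 hu'.1 h1 h2 (Fin.castSucc_injective _ hcc) hadj
      · simp only [h1, h2, if_true, if_false] at hcc
        exact absurd hcc (Fin.castSucc_lt_last _).ne
    · by_cases h2 : u' = v ∨ S.R (fun w => (ω w).1) u' v
      · simp only [h1, h2, if_true, if_false] at hcc
        exact absurd hcc.symm (Fin.castSucc_lt_last _).ne
      · have h3 : cid D (fun w => (ω w).2.1) u = cid D (fun w => (ω w).2.1) v := by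
          rcases hr with rfl | h | h
          · exact absurd (Or.inl rfl) h1
          · exact absurd (Or.inr h) h1
          · exact h
        have h4 : cid D (fun w => (ω w).2.1) u' = cid D (fun w => (ω w).2.1) v := by
          rcases hr' with rfl | h | h
          · exact absurd (Or.inl rfl) h2
          · exact absurd (Or.inr h) h2
          · exact h
        exact Step.not_adj_of_cid_eq D hu hu' (h3.trans h4.symm) hadj
  · intro Q F
    rw [pr_split (V := V) (Λ := S.Λ) (A := Fin Δ) (B := Fin N) (fun ω ζ σ =>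
      (∀ q ∈ Q, Jn D (fun w => (S.x (ω w) : ℕ)) (S.J ω) ζ σ q) ∧
      (∀ q ∈ Q, ∀ q' ∈ Q, q ≠ q' → ¬ Rn D (S.R ω) ζ q q') ∧ F (fun v => S.x (ω v)))]
    exact step_upper D Δ b L δ c hΔ0 i p hp N hN0 S Q F
  · intro Q F hQ
    rw [pr_split (V := V) (Λ := S.Λ) (A := Fin Δ) (B := Fin N) (fun ω ζ σ =>
      (∀ q ∈ Q, Jn D (fun w => (S.x (ω w) : ℕ)) (S.J ω) ζ σ q) ∧
      (∀ q ∈ Q, ∀ q' ∈ Q, q ≠ q' → ¬ Rn D (S.R ω) ζ q q') ∧ F (fun v => S.x (ω v)))]
    exact step_upper_dense D Δ b L δ c hΔ hc hc1 hdeg i p hp N hN0 S Q F hQ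
  · intro v
    rw [pr_split (V := V) (Λ := S.Λ) (A := Fin Δ) (B := Fin N) (fun ω ζ σ =>
      Jn D (fun w => (S.x (ω w) : ℕ)) (S.J ω) ζ σ v)]
    exact step_lower D hor Δ b L δ c hΔ hδ hδ1 hdeg i p hp s hs R hR hR1 hL hL0 N hN hcol S v
  · intro ω w
    refine le_trans (Finset.card_le_card ?_) (S.cap (fun w => (ω w).1) w)
    intro u hu
    rw [Finset.mem_filter] at hu ⊢
    exact ⟨hu.1, hu.2.1⟩

end Pool.Agent.MP_e50225_co
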