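/-
MP_e50225_co : iteration of the step with backward choice of the parameters (helper61).
-/
import Pool.Agent.MP_e50225_co.NearClique
import Pool.Agent.MP_e50225_co.Init
import Pool.Agent.MP_e50225_co.Step

set_option autoImplicit false

namespace Pool.Agent.MP_e50225_co

open Finset

/-- From level `k - m` one reaches level `k`, if the degree parameter is large enough. -/
theorem Chain.backward (T : ℝ) (hT : 1 ≤ T) (k : ℕ) (δ : ℝ) (hδ : 0 < δ)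
    (hδ1 : δ ≤ 1) (c : ℝ) (hc : 0 ≤ c) (hc1 : c ≤ 1) (m : ℕ) :
    ∃ (A : ℝ) (L₀ : ℕ), 1 ≤ A ∧ (m = 0 → A = T) ∧
      ∀ (L : ℕ), L₀ ≤ L → 0 < L → ∀ (Δ b : ℕ) (V : Type) [Fintype V]
      [DecidableEq V] (D : V → V → Prop), 2 ≤ Δ → (∀ u v, D u v → ¬ D v u) →
      (∀ v, (nbr (und D) v).card ≤ Δ) → ∀ (i : ℕ), i + m = k → ∀ (p : ℝ), 0 < p → A ≤ Δ * p →
      Nonempty (St D Δ b L δ c i p) →
      ∃ p' : ℝ, 0 < p' ∧ T ≤ Δ * p' ∧ (m = 0 → p' = p) ∧ (1 ≤ m → Δ * p' ≤ 3 * T) ∧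
        Nonempty (St D Δ b L δ c k p') := by
  induction m with
  | zero =>
    refine ⟨T, 0, hT, fun _ => rfl, ?_⟩
    intro L _ _ Δ b V _ _ D _ _ _ i hi p hp hA hS
    have hik : i = k := by omega
    subst hik
    exact ⟨p, hp, hA, fun _ => rfl, fun h => absurd h (by norm_num), hS⟩
  | succ m ih =>
    obtain ⟨A, L₀, hA1, hAT, hmain⟩ := ih
    have hA0 : 0 < A := by linarith
    set s : ℕ := ⌈8 * A / δ⌉₊ with hs
    have h8 : 8 * A / δ ≤ (s : ℝ) := Nat.le_ceil _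
    have h8pos : 0 < 8 * A / δ := by positivity
    have hsup : (s : ℝ) < 8 * A / δ + 1 := Nat.ceil_lt_add_one h8pos.le
    have hs1 : 1 ≤ s := Nat.one_le_ceil_iff.2 h8pos
    have hs0 : (0 : ℝ) < s := by exact_mod_cast hs1
    obtain ⟨R, d₀, hRc, hR1, hd₀, hcl⟩ := few_cliques_colorable s hs1 δ hδ hδ1
    refine ⟨max d₀ (2 * (k + 2) * A), max L₀ (∑ r ∈ R, r ^ 2 * r.factorial), ?_, ?_, ?_⟩
    · exact le_trans hd₀ (le_max_left _ _)
    · intro h; exact absurd h (Nat.succ_ne_zero m)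
    intro L hL hL0 Δ b V _ _ D hΔ hor hdeg i hi p hp hAp hS
    obtain ⟨S⟩ := hS
    have hLL : L₀ ≤ L := le_trans (le_max_left _ _) hL
    have hLR : ∑ r ∈ R, r ^ 2 * r.factorial ≤ L := le_trans (le_max_right _ _) hL
    have hd1 : d₀ ≤ Δ * p := le_trans (le_max_left _ _) hAp
    have hd2 : 2 * (k + 2) * A ≤ Δ * p := le_trans (le_max_right _ _) hAp
    have hd : 0 < Δ * p := by linarith
    have hik : (i : ℝ) + 1 ≤ k := by
      have : i + 1 ≤ k := by omega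
      exact_mod_cast this
    set N : ℕ := ⌈4 * (Δ * p) / (δ * s)⌉₊ + (i + 1) with hN
    have hq : 0 < 4 * (Δ * p) / (δ * s) := by positivity
    have hceil1 : 1 ≤ ⌈4 * (Δ * p) / (δ * s)⌉₊ := Nat.one_le_ceil_iff.2 hq
    have hceil2 : (⌈4 * (Δ * p) / (δ * s)⌉₊ : ℝ) < 4 * (Δ * p) / (δ * s) + 1 :=
      Nat.ceil_lt_add_one hq.le
    have hceil3 : 4 * (Δ * p) / (δ * s) ≤ (⌈4 * (Δ * p) / (δ * s)⌉₊ : ℝ) := Nat.le_ceil _
    have hNcast : (N : ℝ) = (⌈4 * (Δ * p) / (δ * s)⌉₊ : ℝ) + (i + 1) := by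
      rw [hN]; push_cast; ring
    have hNpos : (0 : ℝ) < N := by
      rw [hNcast]
      have : (1 : ℝ) ≤ (⌈4 * (Δ * p) / (δ * s)⌉₊ : ℝ) := by exact_mod_cast hceil1
      positivity
    have hδs : 8 * A ≤ δ * s := by
      have := (div_le_iff₀ hδ).1 h8
      linarith
    have hδs0 : 0 < δ * s := by positivity
    have hstep := step_state D hor Δ b L δ c hΔ hδ hδ1 hc hc1 hdeg i p hp.le s hs1 R hRc hR1
      (fun r hr => le_trans (Finset.single_le_sum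
        (f := fun r => r ^ 2 * r.factorial) (fun _ _ => Nat.zero_le _) hr) hLR) hL0 N
      (by omega) (by
        intro H Y hY hQ
        obtain ⟨col, h1, h2⟩ := hcl V H Y (Δ * p) hd1 hY hQ
        refine ⟨col, ?_, h2⟩
        intro v hv
        have := h1 v hv
        have e : N - (i + 1) = ⌈4 * (Δ * p) / (δ * s)⌉₊ := by omega
        rw [e]
        exact this) S
    -- the new degree parameter
    have hNle : (N : ℝ) ≤ Δ * p / A := by
      rw [le_div_iff₀ hA0, hNcast]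
      have h1 : 4 * (Δ * p) / (δ * s) * A ≤ (Δ * p) / 2 := by
        rw [div_mul_eq_mul_div, div_le_div_iff₀ hδs0 (by norm_num)]
        nlinarith [mul_le_mul_of_nonneg_left hδs hd.le]
      have h2 : ((⌈4 * (Δ * p) / (δ * s)⌉₊ : ℝ) + (i + 1)) * A ≤
          (4 * (Δ * p) / (δ * s) + (k + 1)) * A := by
        apply mul_le_mul_of_nonneg_right _ hA0.le
        linarith
      nlinarith
    have hnew : A ≤ Δ * (p / N) := by
      rw [← mul_div_assoc, le_div_iff₀ hNpos]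
      rw [le_div_iff₀ hA0] at hNle
      linarith
    obtain ⟨p', hp', hT', h0, h3, hfin⟩ := hmain L hLL hL0 Δ b V D hΔ hor hdeg (i + 1) (by omega)
      (p / N) (div_pos hp hNpos) hnew hstep
    refine ⟨p', hp', hT', fun h => absurd h (Nat.succ_ne_zero m), ?_, hfin⟩
    intro _
    rcases Nat.eq_zero_or_pos m with hm | hm
    · rw [h0 hm, ← mul_div_assoc, div_le_iff₀ hNpos, ← hAT hm]
      have h1 : 4 * (Δ * p) / (δ * s) ≤ N := by
        rw [hNcast]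
        have : (0 : ℝ) ≤ (i : ℝ) + 1 := by positivity
        linarith
      rw [div_le_iff₀ hδs0] at h1
      have h2 : δ * s ≤ 12 * A := by
        have h4 : δ * s ≤ δ * (8 * A / δ + 1) := mul_le_mul_of_nonneg_left hsup.le hδ.le
        have h5 : δ * (8 * A / δ + 1) = 8 * A + δ := by field_simp
        linarith
      nlinarith [mul_le_mul_of_nonneg_left h2 hNpos.le]
    · exact h3 hm

theorem exists_final_state (T : ℝ) (hT : 1 ≤ T) (k : ℕ) (hk : 1 ≤ k) (δ : ℝ) (hδ : 0 < δ)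
    (hδ1 : δ ≤ 1) (c : ℝ) (hc : 0 ≤ c) (hc1 : c ≤ 1) : ∃ Δ₀ L : ℕ, 0 < L ∧
      ∀ (Δ : ℕ) (V : Type) [Fintype V] [DecidableEq V] (D : V → V → Prop), Δ₀ ≤ Δ →
        (∀ u v, D u v → ¬ D v u) → (∀ v, (nbr (und D) v).card ≤ Δ) →
        ∃ p : ℝ, 0 < p ∧ T ≤ Δ * p ∧ Δ * p ≤ 3 * T ∧
          Nonempty (St D Δ (Nat.sqrt (Nat.sqrt Δ)) L δ c k p) := by
  obtain ⟨A, L₀, hA1, -, hmain⟩ := Chain.backward T hT k δ hδ hδ1 c hc hc1 k
  obtain ⟨Δ₀, hinit⟩ := init_state δ hδ ⌈A⌉₊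
  refine ⟨max Δ₀ 2, max L₀ 1, lt_of_lt_of_le one_pos (le_max_right _ _), ?_⟩
  intro Δ V _ _ D hΔ hor hdeg
  have hΔ₀ : Δ₀ ≤ Δ := le_trans (le_max_left _ _) hΔ
  have hΔ2 : 2 ≤ Δ := le_trans (le_max_right _ _) hΔ
  have hΔpos : (0 : ℝ) < Δ := by
    have : 0 < Δ := by omega
    exact_mod_cast this
  have hL : 0 < max L₀ 1 := lt_of_lt_of_le one_pos (le_max_right _ _)
  have hS := hinit Δ (Nat.sqrt (Nat.sqrt Δ)) (max L₀ 1) c V D hΔ₀ hL hc rfl hor hdeg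
  have hApos : (0 : ℝ) < (⌈A⌉₊ : ℝ) := by
    have : A ≤ (⌈A⌉₊ : ℝ) := Nat.le_ceil _
    linarith
  have hd : A ≤ Δ * ((⌈A⌉₊ : ℝ) / Δ) := by
    rw [mul_div_cancel₀ _ hΔpos.ne']
    exact Nat.le_ceil _
  obtain ⟨p', hp', hT', -, h3, hfin⟩ := hmain (max L₀ 1) (le_max_left _ _) hL Δ
    (Nat.sqrt (Nat.sqrt Δ)) V D hΔ2 hor hdeg 0 (by omega) ((⌈A⌉₊ : ℝ) / Δ)
    (div_pos hApos hΔpos) hd hS
  exact ⟨p', hp', hT', h3 hk, hfin⟩

end Pool.Agent.MP_e50225_co
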