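/-
MP_e50225_co : the final local rule (helper87).
-/
import Pool.Agent.MP_e50225_co.Chain
import Pool.Agent.MP_e50225_co.Prob
import Pool.Agent.MP_e50225_co.Ball

set_option autoImplicit false

namespace Pool.Agent.MP_e50225_co

open Finset

namespace Extract

variable {V : Type} [Fintype V] [DecidableEq V]

/-- Cleaning: few conflicts and no conflict triangle. -/
def Jf {D : V → V → Prop} {Δ b L : ℕ} {δ c : ℝ} {k : ℕ} {p : ℝ} (S : St D Δ b L δ c k p) (m : ℕ)
    (ω : V → S.Λ) (v : V) : Prop := by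
  classical
  exact S.J ω v ∧
    ((nbr (bg D (fun w => (S.x (ω w) : ℕ))) v).filter (fun u => S.J ω u)).card ≤ m ∧
    ¬ ∃ u w, S.J ω u ∧ S.J ω w ∧ (bg D (fun w => (S.x (ω w) : ℕ))).Adj v u ∧
      (bg D (fun w => (S.x (ω w) : ℕ))).Adj v w ∧ (bg D (fun w => (S.x (ω w) : ℕ))).Adj u w

lemma bg_le_und {D : V → V → Prop} {x : V → ℕ} {u v : V} (h : (bg D x).Adj u v) :
    (und D).Adj u v := by
  obtain ⟨h1, h2 | h2⟩ := h
  · exact ⟨h1, Or.inl h2.1⟩
  · exact ⟨h1, Or.inr h2.1⟩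

lemma bg_congr {D : V → V → Prop} {x x' : V → ℕ} {u v : V} (hu : x u = x' u) (hv : x v = x' v) :
    (bg D x).Adj u v ↔ (bg D x').Adj u v := by
  simp only [bg, hu, hv]

lemma Jf_loc {D : V → V → Prop} {Δ b L : ℕ} {δ c : ℝ} {k : ℕ} {p : ℝ} (S : St D Δ b L δ c k p)
    (m : ℕ) (v : V) (ω ω' : V → S.Λ) (h : ∀ u ∈ ball (und D) (2 * k + 3) v, ω u = ω' u) :
    Jf S m ω v → Jf S m ω' v := by
  classical
  have hx : ∀ u ∈ ball (und D) 1 v, (S.x (ω u) : ℕ) = (S.x (ω' u) : ℕ) := fun u hu => by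
    rw [h u (ball_mono (by omega) v hu)]
  have hJ : ∀ u ∈ ball (und D) 1 v, (S.J ω u ↔ S.J ω' u) := fun u hu => by
    apply S.loc u
    intro w hw
    apply h w
    have h2 := ball_trans hu hw
    rwa [show 1 + (2 * k + 2) = 2 * k + 3 by ring] at h2
  have hadj : ∀ u w, (bg D (fun w => (S.x (ω' w) : ℕ))).Adj v u → w = v ∨ (bg D (fun w => (S.x (ω' w) : ℕ))).Adj v w →
      ((bg D (fun w => (S.x (ω w) : ℕ))).Adj u w ↔ (bg D (fun w => (S.x (ω' w) : ℕ))).Adj u w) := by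
    intro u w hu hw
    have hu1 : u ∈ ball (und D) 1 v := mem_ball_step (mem_ball_self 0 v) (mem_nbr.2 (bg_le_und hu))
    have hw1 : w ∈ ball (und D) 1 v := by
      rcases hw with rfl | hw
      · exact mem_ball_self 1 w
      · exact mem_ball_step (mem_ball_self 0 v) (mem_nbr.2 (bg_le_und hw))
    exact bg_congr (hx u hu1) (hx w hw1)
  rintro ⟨h1, h2, h3⟩
  refine ⟨(hJ v (mem_ball_self 1 v)).1 h1, ?_, ?_⟩
  · refine le_trans (Finset.card_le_card ?_) h2
    intro u hu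
    rw [Finset.mem_filter, mem_nbr] at hu ⊢
    have hu1 : u ∈ ball (und D) 1 v :=
      mem_ball_step (mem_ball_self 0 v) (mem_nbr.2 (bg_le_und hu.1))
    refine ⟨?_, (hJ u hu1).2 hu.2⟩
    exact ((hadj u v hu.1 (Or.inl rfl)).2 hu.1.symm).symm
  · rintro ⟨u, w, hu, hw, hvu, hvw, huw⟩
    apply h3
    have hu1 : u ∈ ball (und D) 1 v :=
      mem_ball_step (mem_ball_self 0 v) (mem_nbr.2 (bg_le_und hvu))
    have hw1 : w ∈ ball (und D) 1 v :=
      mem_ball_step (mem_ball_self 0 v) (mem_nbr.2 (bg_le_und hvw))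
    exact ⟨u, w, (hJ u hu1).2 hu, (hJ w hw1).2 hw, ((hadj u v hvu (Or.inl rfl)).2 hvu.symm).symm,
      ((hadj w v hvw (Or.inl rfl)).2 hvw.symm).symm, (hadj u w hvu (Or.inr hvw)).2 huw⟩

/-- Pairs of conflicting survivors. -/
lemma pair_le {D : V → V → Prop} {Δ b L : ℕ} {δ c : ℝ} {k : ℕ} {p : ℝ} (hL : 0 < L)
    (S : St D Δ b L δ c k p) (u v : V) (huv : u ≠ v) :
    pr (fun ω : V → S.Λ => S.J ω v ∧ (S.J ω u ∧
      (bg D (fun w => (S.x (ω w) : ℕ))).Adj v u)) ≤ p ^ 2 := by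
  classical
  have : Nonempty (Fin L) := ⟨⟨0, hL⟩⟩
  have h := S.upper {u, v} (fun _ => True)
  rw [Finset.card_pair huv, pr_true, mul_one] at h
  refine le_trans (pr_mono ?_) h
  rintro ω ⟨h1, h2, h3⟩
  refine ⟨?_, ?_, trivial⟩
  · intro q hq
    simp only [Finset.mem_insert, Finset.mem_singleton] at hq
    rcases hq with rfl | rfl
    · exact h2
    · exact h1
  · have hR := S.notR ω v u h1 h2 h3
    intro q hq q' hq' hne
    simp only [Finset.mem_insert, Finset.mem_singleton] at hq hq'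
    rcases hq with rfl | rfl <;> rcases hq' with rfl | rfl
    · exact absurd rfl hne
    · exact fun hh => hR (S.symmR _ _ _ hh)
    · exact hR
    · exact absurd rfl hne

/-- Triangles of conflicting survivors. -/
lemma tri_le {D : V → V → Prop} {Δ b L : ℕ} {δ c : ℝ} {k : ℕ} {p : ℝ} (hL : 0 < L)
    (S : St D Δ b L δ c k p) (u v w : V) (q : ℝ)
    (hq : ∀ Q : Finset V, u ∈ Q → v ∈ Q → pr (fun ω : V → S.Λ => (∀ q ∈ Q, S.J ω q) ∧
      (∀ q ∈ Q, ∀ q' ∈ Q, q ≠ q' → ¬ S.R ω q q') ∧ True) ≤ q * p ^ Q.card)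
    (huv : u ≠ v) (huw : u ≠ w) (hvw : v ≠ w) :
    pr (fun ω : V → S.Λ => S.J ω v ∧ S.J ω u ∧ S.J ω w ∧
      (bg D (fun w => (S.x (ω w) : ℕ))).Adj v u ∧ (bg D (fun w => (S.x (ω w) : ℕ))).Adj v w ∧
      (bg D (fun w => (S.x (ω w) : ℕ))).Adj u w) ≤ q * p ^ 3 := by
  classical
  have h := hq {u, v, w} (by simp) (by simp)
  rw [Finset.card_eq_three.2 ⟨u, v, w, huv, huw, hvw, rfl⟩] at h
  refine le_trans (pr_mono ?_) h
  rintro ω ⟨hv, hu, hw, h1, h2, h3⟩
  refine ⟨?_, ?_, trivial⟩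
  · intro q hq
    simp only [Finset.mem_insert, Finset.mem_singleton] at hq
    rcases hq with rfl | rfl | rfl
    · exact hu
    · exact hv
    · exact hw
  · have R1 := S.notR ω v u hv hu h1
    have R2 := S.notR ω v w hv hw h2
    have R3 := S.notR ω u w hu hw h3
    intro q hq q' hq' hne
    simp only [Finset.mem_insert, Finset.mem_singleton] at hq hq'
    rcases hq with rfl | rfl | rfl <;> rcases hq' with rfl | rfl | rfl
    · exact absurd rfl hne
    · exact fun hh => R1 (S.symmR _ _ _ hh)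
    · exact R3
    · exact R1
    · exact absurd rfl hne
    · exact R2
    · exact fun hh => R3 (S.symmR _ _ _ hh)
    · exact fun hh => R2 (S.symmR _ _ _ hh)
    · exact absurd rfl hne

lemma deg_part {D : V → V → Prop} {Δ b L : ℕ} {δ c : ℝ} {k : ℕ} {p : ℝ} (hL : 0 < L) (hp : 0 ≤ p)
    (hdeg : ∀ v, (nbr (und D) v).card ≤ Δ)
    (S : St D Δ b L δ c k p) (m : ℕ) (hm : 0 < m) (v : V) :
    pr (fun ω : V → S.Λ => by classical exact S.J ω v ∧
      ¬ ((nbr (bg D (fun w => (S.x (ω w) : ℕ))) v).filter (fun u => S.J ω u)).card ≤ m) ≤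
      Δ * p ^ 2 / m := by
  classical
  have hm' : (0 : ℝ) < m := by exact_mod_cast hm
  have h1 := markov_and (Ω := V → S.Λ)
    (f := fun ω => (((nbr (und D) v).filter (fun u => S.J ω u ∧
      (bg D (fun w => (S.x (ω w) : ℕ))).Adj v u)).card : ℝ)) (fun ω => Nat.cast_nonneg _)
    (fun ω => S.J ω v) hm'
  refine le_trans (le_trans (pr_mono ?_) h1) ?_
  · rintro ω ⟨h2, h3⟩
    refine ⟨h2, ?_⟩
    push Not at h3
    have : (nbr (bg D (fun w => (S.x (ω w) : ℕ))) v).filter (fun u => S.J ω u) ⊆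
        (nbr (und D) v).filter (fun u => S.J ω u ∧
          (bg D (fun w => (S.x (ω w) : ℕ))).Adj v u) := by
      intro u hu
      rw [Finset.mem_filter, mem_nbr] at hu ⊢
      exact ⟨bg_le_und hu.1, hu.2, hu.1⟩
    have h4 := Finset.card_le_card this
    exact_mod_cast (le_trans h3.le h4)
  · apply div_le_div_of_nonneg_right _ hm'.le
    rw [avg_card_filter_and (nbr (und D) v) (fun u ω => S.J ω u ∧
          (bg D (fun w => (S.x (ω w) : ℕ))).Adj v u) (fun ω => S.J ω v)]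
    calc ∑ u ∈ nbr (und D) v, pr (fun ω : V → S.Λ => S.J ω v ∧ (S.J ω u ∧
          (bg D (fun w => (S.x (ω w) : ℕ))).Adj v u)) ≤ ∑ u ∈ nbr (und D) v, p ^ 2 := by
          apply Finset.sum_le_sum
          intro u hu
          exact pair_le hL S u v (mem_nbr.1 hu).1.symm
      _ = ((nbr (und D) v).card : ℝ) * p ^ 2 := by rw [Finset.sum_const, nsmul_eq_mul]
      _ ≤ Δ * p ^ 2 := by
          gcongr
          exact_mod_cast hdeg v

lemma tri_part {D : V → V → Prop} {Δ b L : ℕ} {δ c : ℝ} {k : ℕ} {p : ℝ} (hL : 0 < L) (hp : 0 ≤ p)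
    (hc : 0 ≤ c) (hk : (1 - c / 16) ^ k ≤ c)
    (hdeg : ∀ v, (nbr (und D) v).card ≤ Δ)
    (S : St D Δ b L δ c k p) (v : V) :
    pr (fun ω : V → S.Λ => S.J ω v ∧
      ∃ u w, S.J ω u ∧ S.J ω w ∧ (bg D (fun w => (S.x (ω w) : ℕ))).Adj v u ∧
      (bg D (fun w => (S.x (ω w) : ℕ))).Adj v w ∧ (bg D (fun w => (S.x (ω w) : ℕ))).Adj u w) ≤
      c * (Δ * p) ^ 2 * p := by
  classical
  have : Nonempty (Fin L) := ⟨⟨0, hL⟩⟩
  calc pr (fun ω : V → S.Λ => S.J ω v ∧
      ∃ u w, S.J ω u ∧ S.J ω w ∧ (bg D (fun w => (S.x (ω w) : ℕ))).Adj v u ∧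
      (bg D (fun w => (S.x (ω w) : ℕ))).Adj v w ∧ (bg D (fun w => (S.x (ω w) : ℕ))).Adj u w)
      ≤ pr (fun ω : V → S.Λ => ∃ u ∈ nbr (und D) v, ∃ w ∈ nbr (und D) u ∩ nbr (und D) v,
        (S.J ω v ∧ S.J ω u ∧ S.J ω w ∧
      (bg D (fun w => (S.x (ω w) : ℕ))).Adj v u ∧ (bg D (fun w => (S.x (ω w) : ℕ))).Adj v w ∧
      (bg D (fun w => (S.x (ω w) : ℕ))).Adj u w)) := by
        apply pr_mono
        rintro ω ⟨hv, u, w, hu, hw, h1, h2, h3⟩
        exact ⟨u, mem_nbr.2 (bg_le_und h1), w, Finset.mem_inter.2 ⟨mem_nbr.2 (bg_le_und h3),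
          mem_nbr.2 (bg_le_und h2)⟩, hv, hu, hw, h1, h2, h3⟩
    _ ≤ ∑ u ∈ nbr (und D) v, ∑ w ∈ nbr (und D) u ∩ nbr (und D) v, pr (fun ω : V → S.Λ =>
        (S.J ω v ∧ S.J ω u ∧ S.J ω w ∧
      (bg D (fun w => (S.x (ω w) : ℕ))).Adj v u ∧ (bg D (fun w => (S.x (ω w) : ℕ))).Adj v w ∧
      (bg D (fun w => (S.x (ω w) : ℕ))).Adj u w)) := by
        refine le_trans (pr_exists_le _ _) (Finset.sum_le_sum (fun u _ => ?_))
        exact pr_exists_le _ _
    _ ≤ ∑ u ∈ nbr (und D) v, c * Δ * p ^ 3 := by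
        apply Finset.sum_le_sum
        intro u hu
        have huv : u ≠ v := (mem_nbr.1 hu).1.symm
        by_cases hcd : c * Δ ≤ ((nbr (und D) u ∩ nbr (und D) v).card : ℝ)
        · calc _ ≤ ∑ w ∈ nbr (und D) u ∩ nbr (und D) v, c * p ^ 3 := by
                apply Finset.sum_le_sum
                intro w hw
                rw [Finset.mem_inter] at hw
                apply tri_le hL S u v w c _ huv (mem_nbr.1 hw.1).1 (mem_nbr.1 hw.2).1
                intro Q hu hv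
                have h := S.upper_dense Q (fun _ => True) ⟨u, hu, v, hv, huv, hcd⟩
                rw [pr_true, mul_one] at h
                refine le_trans h ?_
                gcongr
            _ = ((nbr (und D) u ∩ nbr (und D) v).card : ℝ) * (c * p ^ 3) := by
                rw [Finset.sum_const, nsmul_eq_mul]
            _ ≤ Δ * (c * p ^ 3) := by
                gcongr
                exact_mod_cast le_trans (Finset.card_le_card Finset.inter_subset_left) (hdeg u)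
            _ = c * Δ * p ^ 3 := by ring
        · push Not at hcd
          calc _ ≤ ∑ w ∈ nbr (und D) u ∩ nbr (und D) v, 1 * p ^ 3 := by
                apply Finset.sum_le_sum
                intro w hw
                rw [Finset.mem_inter] at hw
                apply tri_le hL S u v w 1 _ huv (mem_nbr.1 hw.1).1 (mem_nbr.1 hw.2).1
                intro Q hu hv
                have h := S.upper Q (fun _ => True)
                rw [pr_true, mul_one] at h
                rw [one_mul]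
                exact h
            _ = ((nbr (und D) u ∩ nbr (und D) v).card : ℝ) * p ^ 3 := by
                rw [Finset.sum_const, nsmul_eq_mul, one_mul]
            _ ≤ c * Δ * p ^ 3 := by
                gcongr
    _ = ((nbr (und D) v).card : ℝ) * (c * Δ * p ^ 3) := by rw [Finset.sum_const, nsmul_eq_mul]
    _ ≤ Δ * (c * Δ * p ^ 3) := by
        gcongr
        exact_mod_cast hdeg v
    _ = c * (Δ * p) ^ 2 * p := by ring

end Extract

open Classical in
theorem exists_rule (d : ℕ) (hd : 1 ≤ d) : ∃ r₀ Δ₀ : ℕ, ∀ (Δ : ℕ) (V : Type) [Fintype V]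
    [DecidableEq V] (D : V → V → Prop), Δ₀ ≤ Δ → (∀ u v, D u v → ¬ D v u) →
    (∀ v, (nbr (und D) v).card ≤ Δ) →
    ∃ (Λ : Type) (_ : Fintype Λ) (_ : Nonempty Λ) (x : Λ → ℕ) (J : (V → Λ) → V → Prop),
      (∀ v ω ω', (∀ u ∈ ball (und D) r₀ v, ω u = ω' u) → (J ω v ↔ J ω' v)) ∧
      (∀ v, (d : ℝ) / (2 * Δ) ≤ pr (fun ω : V → Λ => J ω v)) ∧
      (∀ ω v, J ω v → ((nbr (bg D (fun w => x (ω w))) v).filter (fun u => J ω u)).card ≤ 24 * d) ∧
      (∀ ω u v w, J ω u → J ω v → J ω w → (bg D (fun w => x (ω w))).Adj u v →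
        (bg D (fun w => x (ω w))).Adj v w → ¬ (bg D (fun w => x (ω w))).Adj u w) ∧
      (∀ ω w, ((nbr (und D) w).filter (fun u => J ω u)).card ≤ Nat.sqrt (Nat.sqrt Δ)) := by
  have hd' : (1 : ℝ) ≤ d := by exact_mod_cast hd
  have hd0 : (0 : ℝ) < d := by linarith
  set c : ℝ := 1 / (144 * (d : ℝ) ^ 2) with hcdef
  have hc0 : 0 < c := by positivity
  have hc1 : c ≤ 1 := by
    rw [hcdef, div_le_one (by positivity)]
    nlinarith
  obtain ⟨k', hk'⟩ := exists_pow_lt_of_lt_one hc0 (show 1 - c / 16 < 1 by linarith)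
  set k : ℕ := k' + 1 with hkdef
  have hk : (1 - c / 16) ^ k ≤ c := by
    rw [hkdef, pow_succ]
    have h0 : 0 ≤ 1 - c / 16 := by linarith
    have h1 : 1 - c / 16 ≤ 1 := by linarith
    calc (1 - c / 16) ^ k' * (1 - c / 16) ≤ (1 - c / 16) ^ k' * 1 := by
          gcongr
      _ ≤ c := by rw [mul_one]; exact hk'.le
  set δ : ℝ := 1 / (4 * ((k : ℝ) + 1)) with hδdef
  have hk0 : (0 : ℝ) ≤ k := Nat.cast_nonneg _
  have hδ0 : 0 < δ := by positivity
  have hδ1 : δ ≤ 1 := by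
    rw [hδdef, div_le_one (by positivity)]
    linarith
  obtain ⟨Δ₀, L, hL, hmain⟩ := exists_final_state (d : ℝ) hd' k (by omega) δ hδ0 hδ1 c hc0.le hc1
  refine ⟨2 * k + 3, max Δ₀ 1, ?_⟩
  intro Δ V _ _ D hΔ hor hdeg
  have hΔ1 : 1 ≤ Δ := le_trans (le_max_right _ _) hΔ
  have hΔ0 : (0 : ℝ) < Δ := by exact_mod_cast hΔ1
  obtain ⟨p, hp0, hpT, hpT3, ⟨S⟩⟩ := hmain Δ V D (le_trans (le_max_left _ _) hΔ) hor hdeg
  refine ⟨S.Λ, inferInstance, inferInstance, fun l => (S.x l : ℕ), Extract.Jf S (24 * d),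
    ?_, ?_, ?_, ?_, ?_⟩
  · intro v ω ω' h
    exact ⟨Extract.Jf_loc S (24 * d) v ω ω' h,
      Extract.Jf_loc S (24 * d) v ω' ω (fun u hu => (h u hu).symm)⟩
  · intro v
    have h1 := S.lower v
    have h2 := Extract.deg_part hL hp0.le hdeg S (24 * d) (by omega) v
    have h3 := Extract.tri_part hL hp0.le hc0.le hk hdeg S v
    -- J = J_f or one of the two failures
    have h4 : pr (fun ω : V → S.Λ => S.J ω v) ≤
        pr (fun ω : V → S.Λ => Extract.Jf S (24 * d) ω v) +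
        (pr (fun ω : V → S.Λ => S.J ω v ∧
          ¬ ((nbr (bg D (fun w => (S.x (ω w) : ℕ))) v).filter (fun u => S.J ω u)).card ≤ 24 * d) +
        pr (fun ω : V → S.Λ => S.J ω v ∧
      ∃ u w, S.J ω u ∧ S.J ω w ∧ (bg D (fun w => (S.x (ω w) : ℕ))).Adj v u ∧
      (bg D (fun w => (S.x (ω w) : ℕ))).Adj v w ∧
        (bg D (fun w => (S.x (ω w) : ℕ))).Adj u w)) := by
      refine le_trans (pr_mono ?_) (le_trans (pr_or_le _ _)
        (add_le_add le_rfl (pr_or_le _ _)))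
      intro ω hJ
      by_cases hA : ((nbr (bg D (fun w => (S.x (ω w) : ℕ))) v).filter
          (fun u => S.J ω u)).card ≤ 24 * d
      · by_cases hB : ∃ u w, S.J ω u ∧ S.J ω w ∧ (bg D (fun w => (S.x (ω w) : ℕ))).Adj v u ∧
          (bg D (fun w => (S.x (ω w) : ℕ))).Adj v w ∧ (bg D (fun w => (S.x (ω w) : ℕ))).Adj u w
        · exact Or.inr (Or.inr ⟨hJ, hB⟩)
        · exact Or.inl ⟨hJ, hA, hB⟩
      · exact Or.inr (Or.inl ⟨hJ, hA⟩)
    have h5 : (1 - ((k : ℝ) + 1) * δ) * p = 3 / 4 * p := by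
      rw [hδdef]
      field_simp
      ring
    have h6 : (Δ : ℝ) * p ^ 2 / ((24 * d : ℕ) : ℝ) ≤ p / 8 := by
      rw [div_le_iff₀ (by push_cast; positivity)]
      push_cast
      nlinarith
    have h7 : c * (Δ * p) ^ 2 * p ≤ p / 16 := by
      have h8 : (Δ * p) ^ 2 ≤ (3 * (d : ℝ)) ^ 2 := by
        apply pow_le_pow_left₀ (by positivity) hpT3
      calc c * (Δ * p) ^ 2 * p ≤ c * (3 * (d : ℝ)) ^ 2 * p := by gcongr
        _ = p / 16 := by
          rw [hcdef]
          field_simp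
          ring
    have h8 : (d : ℝ) / (2 * Δ) ≤ p / 2 := by
      rw [div_le_div_iff₀ (by positivity) (by norm_num)]
      nlinarith
    rw [h5] at h1
    have h9 : pr (fun ω : V → S.Λ => S.J ω v ∧
          ¬ ((nbr (bg D (fun w => (S.x (ω w) : ℕ))) v).filter (fun u => S.J ω u)).card ≤ 24 * d)
          ≤ p / 8 := le_trans h2 h6
    have h10 := le_trans h3 h7
    linarith
  · rintro ω v ⟨-, h2, -⟩
    refine le_trans (Finset.card_le_card ?_) h2
    intro u hu
    rw [Finset.mem_filter] at hu ⊢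
    exact ⟨hu.1, hu.2.1⟩
  · rintro ω u v w ⟨-, -, h3⟩ hv hw h1 h2 h4
    exact h3 ⟨v, w, hv.1, hw.1, h1, h4, h2⟩
  · intro ω w
    refine le_trans (Finset.card_le_card ?_) (S.cap ω w)
    intro u hu
    rw [Finset.mem_filter] at hu ⊢
    exact ⟨hu.1, hu.2.1⟩

end Pool.Agent.MP_e50225_co
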