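/-
MP_e50225_co : balls, greedy colouring, independent copies (helper19).
-/
import Pool.Agent.MP_e50225_co.Prob

set_option autoImplicit false

namespace Pool.Agent.MP_e50225_co

namespace Assembly

open Finset

/-! ### Balls -/

section ball

variable {V : Type*} [Fintype V] [DecidableEq V] (G : SimpleGraph V)

omit [DecidableEq V] in
lemma mem_nbr {u v : V} : u ∈ nbr G v ↔ G.Adj v u := by
  simp [nbr]

lemma mem_ball_iff (r : ℕ) (v w : V) :
    w ∈ ball G r v ↔ ∃ p : G.Walk v w, p.length ≤ r := by
  induction r generalizing w with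
  | zero =>
    simp only [ball, Finset.mem_singleton]
    constructor
    · rintro rfl
      exact ⟨SimpleGraph.Walk.nil, le_refl _⟩
    · rintro ⟨p, hp⟩
      exact (SimpleGraph.Walk.eq_of_length_eq_zero (Nat.le_zero.1 hp)).symm
  | succ r ih =>
    simp only [ball, Finset.mem_union, Finset.mem_biUnion]
    constructor
    · rintro (h | ⟨z, hz, hzw⟩)
      · obtain ⟨p, hp⟩ := (ih w).1 h
        exact ⟨p, Nat.le_succ_of_le hp⟩
      · obtain ⟨p, hp⟩ := (ih z).1 hz
        rw [mem_nbr] at hzw
        refine ⟨p.concat hzw, ?_⟩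
        rw [SimpleGraph.Walk.length_concat]
        omega
    · rintro ⟨p, hp⟩
      rcases hq : p.reverse with _ | ⟨h, q⟩
      · left
        rw [ih]
        exact ⟨SimpleGraph.Walk.nil, Nat.zero_le _⟩
      · rename_i z
        right
        refine ⟨z, ?_, ?_⟩
        · rw [ih]
          refine ⟨q.reverse, ?_⟩
          have h1 : p.reverse.length = q.length + 1 := by rw [hq]; rfl
          rw [SimpleGraph.Walk.length_reverse] at h1
          rw [SimpleGraph.Walk.length_reverse]
          omega
        · rw [mem_nbr]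
          exact h.symm

lemma ball_mono {r s : ℕ} (h : r ≤ s) (v : V) : ball G r v ⊆ ball G s v := by
  intro w hw
  rw [mem_ball_iff] at hw ⊢
  obtain ⟨p, hp⟩ := hw
  exact ⟨p, hp.trans h⟩

lemma ball_nbr_subset {r : ℕ} {u v : V} (h : u ∈ nbr G v) : ball G r u ⊆ ball G (r + 1) v := by
  intro w hw
  rw [mem_ball_iff] at hw ⊢
  obtain ⟨p, hp⟩ := hw
  rw [mem_nbr] at h
  refine ⟨SimpleGraph.Walk.cons h p, ?_⟩
  rw [SimpleGraph.Walk.length_cons]
  omega

lemma mem_ball_of_not_disjoint {r : ℕ} {i j : V} (h : ¬ Disjoint (ball G r i) (ball G r j)) :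
    j ∈ ball G (2 * r) i := by
  rw [Finset.not_disjoint_iff] at h
  obtain ⟨w, h1, h2⟩ := h
  rw [mem_ball_iff] at h1 h2 ⊢
  obtain ⟨p, hp⟩ := h1
  obtain ⟨q, hq⟩ := h2
  refine ⟨p.append q.reverse, ?_⟩
  rw [SimpleGraph.Walk.length_append, SimpleGraph.Walk.length_reverse]
  omega

lemma card_ball_le {Δ : ℕ} (hdeg : ∀ v, (nbr G v).card ≤ Δ) (r : ℕ) (v : V) :
    (ball G r v).card ≤ (Δ + 1) ^ r := by
  induction r with
  | zero => simp [ball]
  | succ r ih =>
    simp only [ball]
    calc (ball G r v ∪ (ball G r v).biUnion (nbr G)).card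
        ≤ (ball G r v).card + ((ball G r v).biUnion (nbr G)).card := Finset.card_union_le _ _
      _ ≤ (ball G r v).card + (ball G r v).card * Δ := by
          gcongr
          exact Finset.card_biUnion_le_card_mul _ _ _ (fun u _ => hdeg u)
      _ = (ball G r v).card * (Δ + 1) := by ring
      _ ≤ (Δ + 1) ^ r * (Δ + 1) := Nat.mul_le_mul_right _ ih
      _ = (Δ + 1) ^ (r + 1) := (pow_succ _ _).symm

end ball

/-! ### Greedy colouring -/

lemma greedy {V : Type*} [Fintype V] [DecidableEq V] (G : SimpleGraph V) (g : ℕ) (U : Finset V) :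
    (∀ v ∈ U, ((nbr G v) ∩ U).card < g) →
    ∃ col : V → ℕ, (∀ v ∈ U, col v < g) ∧ ∀ u ∈ U, ∀ v ∈ U, G.Adj u v → col u ≠ col v := by
  induction U using Finset.induction_on with
  | empty => intro _; exact ⟨fun _ => 0, by simp, by simp⟩
  | insert a U ha ih =>
    intro h
    obtain ⟨col, h1, h2⟩ := ih (fun v hv => lt_of_le_of_lt
      (Finset.card_le_card (Finset.inter_subset_inter_left (Finset.subset_insert a U)))
      (h v (Finset.mem_insert_of_mem hv)))
    have h3 : (((nbr G a) ∩ U).image col).card < (Finset.range g).card := by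
      rw [Finset.card_range]
      calc (((nbr G a) ∩ U).image col).card ≤ ((nbr G a) ∩ U).card := Finset.card_image_le
        _ ≤ ((nbr G a) ∩ (insert a U)).card :=
            Finset.card_le_card (Finset.inter_subset_inter_left (Finset.subset_insert a U))
        _ < g := h a (Finset.mem_insert_self a U)
    obtain ⟨c, hc, hc'⟩ := Finset.exists_mem_notMem_of_card_lt_card h3
    rw [Finset.mem_range] at hc
    have hc2 : ∀ v ∈ U, G.Adj a v → c ≠ col v := by
      intro v hv hav hcv
      apply hc'
      rw [Finset.mem_image]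
      exact ⟨v, Finset.mem_inter.2 ⟨(mem_nbr G).2 hav, hv⟩, hcv.symm⟩
    refine ⟨Function.update col a c, ?_, ?_⟩
    · intro v hv
      rcases Finset.mem_insert.1 hv with rfl | hv
      · simpa using hc
      · have : v ≠ a := fun h => ha (h ▸ hv)
        rw [Function.update_of_ne this]
        exact h1 v hv
    · intro u hu v hv huv
      have huv' : u ≠ v := huv.ne
      rcases Finset.mem_insert.1 hu with hua | huU
      · rcases Finset.mem_insert.1 hv with hva | hvU
        · exact absurd (hua.trans hva.symm) huv'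
        · rw [hua] at huv huv' ⊢
          rw [Function.update_self, Function.update_of_ne huv'.symm]
          exact hc2 v hvU huv
      · rcases Finset.mem_insert.1 hv with hva | hvU
        · rw [hva] at huv huv' ⊢
          rw [Function.update_self, Function.update_of_ne huv']
          exact (hc2 u huU huv.symm).symm
        · have e1 : u ≠ a := fun h => ha (h ▸ huU)
          have e2 : v ≠ a := fun h => ha (h ▸ hvU)
          rw [Function.update_of_ne e1, Function.update_of_ne e2]
          exact h2 u huU v hvU huv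

/-! ### Independent copies -/

lemma pr_all_copies {Ω : Type*} [Fintype Ω] (B : Ω → Prop) (t : ℕ) :
    pr (fun y : Fin t → Ω => ∀ i, B (y i)) = (pr B) ^ t := by
  classical
  rw [pr_eq_card, pr_eq_card]
  have h1 : (Finset.univ.filter (fun y : Fin t → Ω => ∀ i, B (y i))) =
      Fintype.piFinset (fun _ : Fin t => Finset.univ.filter B) := by
    ext y
    simp [Fintype.mem_piFinset]
  rw [h1, Fintype.card_piFinset]
  simp only [Finset.prod_const, Finset.card_univ, Fintype.card_fin, Fintype.card_fun]
  push_cast
  rw [div_pow]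

end Assembly

end Pool.Agent.MP_e50225_co
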