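import Mathlib

set_option autoImplicit false

/-!
McDiarmid's bounded differences inequality for finite product weights (helper31).
-/

namespace Pool.Agent.MP_e50225_co

open Finset

namespace McD

/-- Hoeffding's lemma for a finite weighted set. -/
theorem hoeffding_one {Ω : Type*} [Fintype Ω] (w : Ω → ℝ) (hw : ∀ x, 0 ≤ w x)
    (hw1 : ∑ x, w x = 1) (g : Ω → ℝ) (c : ℝ) (hg : ∀ x y, |g x - g y| ≤ c) (l : ℝ) :
    ∑ x, w x * Real.exp (l * g x) ≤
      Real.exp (l * (∑ x, w x * g x) + l ^ 2 * c ^ 2 / 8) := by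
  classical
  let _ : MeasurableSpace Ω := ⊤
  have hne : Nonempty Ω := by
    by_contra hcon
    rw [not_nonempty_iff] at hcon
    simp at hw1
  set m : ℝ := ∑ x, w x * g x with hm
  set μ : MeasureTheory.Measure Ω :=
    ∑ x : Ω, ENNReal.ofReal (w x) • MeasureTheory.Measure.dirac x with hμ
  have hprob : MeasureTheory.IsProbabilityMeasure μ := by
    constructor
    rw [hμ]
    simp only [MeasureTheory.Measure.coe_finsetSum, MeasureTheory.Measure.smul_apply,
      Finset.sum_apply, MeasureTheory.measure_univ, smul_eq_mul, mul_one]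
    rw [← ENNReal.ofReal_sum_of_nonneg (fun x _ => hw x), hw1, ENNReal.ofReal_one]
  have hint : ∀ h : Ω → ℝ, ∫ x, h x ∂μ = ∑ x, w x * h x := by
    intro h
    rw [hμ, MeasureTheory.integral_finsetSum_measure]
    · apply Finset.sum_congr rfl
      intro x _
      rw [MeasureTheory.integral_smul_measure, MeasureTheory.integral_dirac,
        ENNReal.toReal_ofReal (hw x), smul_eq_mul]
    · intro x _
      apply MeasureTheory.Integrable.smul_measure _ ENNReal.ofReal_ne_top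
      exact MeasureTheory.integrable_dirac (by simp [enorm_lt_top])
  -- minimum of `g - m`
  obtain ⟨x0, hx0⟩ := Finite.exists_min g
  have hc0 : 0 ≤ c := le_trans (abs_nonneg _) (hg x0 x0)
  have hmeas : AEMeasurable (fun x => g x - m) μ := (measurable_from_top).aemeasurable
  have hIcc : ∀ᵐ ω ∂μ, (fun x => g x - m) ω ∈ Set.Icc (g x0 - m) (g x0 - m + c) := by
    refine Filter.Eventually.of_forall fun ω => ?_
    constructor
    · have := hx0 ω
      simp only
      linarith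
    · have := hg ω x0
      have := abs_le.mp this
      simp only
      linarith [this.2]
  have hzero : ∫ x, (fun x => g x - m) x ∂μ = 0 := by
    rw [hint]
    simp only [mul_sub, Finset.sum_sub_distrib, ← Finset.sum_mul, hw1]
    rw [hm]; ring
  have hsub := ProbabilityTheory.hasSubgaussianMGF_of_mem_Icc_of_integral_eq_zero hmeas hIcc hzero
  have hmgf := hsub.mgf_le l
  rw [ProbabilityTheory.mgf, hint] at hmgf
  have e1 : ∑ x, w x * Real.exp (l * g x)
      = Real.exp (l * m) * ∑ x, w x * Real.exp (l * (g x - m)) := by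
    rw [Finset.mul_sum]
    apply Finset.sum_congr rfl
    intro x _
    rw [mul_left_comm, ← Real.exp_add]
    congr 2
    ring
  rw [e1, Real.exp_add]
  refine mul_le_mul_of_nonneg_left ?_ (Real.exp_nonneg _)
  refine le_trans hmgf (le_of_eq ?_)
  congr 1
  have : ((‖(g x0 - m + c) - (g x0 - m)‖₊ : NNReal) : ℝ) = c := by
    simp [abs_of_nonneg hc0]
  push_cast
  simp only [add_sub_cancel_left, Real.norm_eq_abs, abs_of_nonneg hc0]
  ring

/-- Total mass of a product weight. -/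
theorem prod_mass {ι : Type*} [Fintype ι] [DecidableEq ι] {Ω : ι → Type*} [∀ i, Fintype (Ω i)]
    (w : ∀ i, Ω i → ℝ) (hw1 : ∀ i, ∑ x, w i x = 1) :
    ∑ x : (∀ i, Ω i), ∏ i, w i (x i) = 1 := by
  have h := Finset.prod_univ_sum (fun i => (Finset.univ : Finset (Ω i))) (fun i x => w i x)
  rw [Fintype.piFinset_univ] at h
  rw [← h]
  exact Finset.prod_eq_one fun i _ => hw1 i

/-- Exponential moment bound, index type `Fin n`. -/
theorem exp_moment_fin.{u} (n : ℕ) : ∀ (Ω : Fin n → Type u) [∀ i, Fintype (Ω i)]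
    (w : ∀ i, Ω i → ℝ) (_ : ∀ i x, 0 ≤ w i x) (_ : ∀ i, ∑ x, w i x = 1)
    (f : (∀ i, Ω i) → ℝ) (c : Fin n → ℝ)
    (_ : ∀ (i : Fin n) (x y : ∀ i, Ω i), (∀ j, j ≠ i → x j = y j) → |f x - f y| ≤ c i) (l : ℝ),
    ∑ x : (∀ i, Ω i), (∏ i, w i (x i)) * Real.exp (l * f x) ≤
      Real.exp (l * (∑ x : (∀ i, Ω i), (∏ i, w i (x i)) * f x) + l ^ 2 * (∑ i, c i ^ 2) / 8) := by
  induction n with
  | zero =>
    intro Ω _ w hw hw1 f c hf l
    simp
  | succ n ih =>
    intro Ω _ w hw hw1 f c hf l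
    -- conditional expectations
    set W' : (∀ i : Fin n, Ω i.succ) → ℝ := fun y => ∏ i, w i.succ (y i) with hW'
    have hW'nn : ∀ y, 0 ≤ W' y := fun y => Finset.prod_nonneg fun i _ => hw _ _
    have hW'1 : ∑ y, W' y = 1 := prod_mass (fun i : Fin n => w i.succ) (fun i => hw1 _)
    set F : Ω 0 → ℝ := fun a => ∑ y, W' y * f (Fin.cons a y) with hF
    have split : ∀ h : (∀ i, Ω i) → ℝ, ∑ x : (∀ i, Ω i), (∏ i, w i (x i)) * h x
        = ∑ a : Ω 0, w 0 a * ∑ y : (∀ i : Fin n, Ω i.succ), W' y * h (Fin.cons a y) := by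
      intro h
      rw [← (Fin.consEquiv Ω).sum_comp, Fintype.sum_prod_type]
      apply Finset.sum_congr rfl
      intro a _
      rw [Finset.mul_sum]
      apply Finset.sum_congr rfl
      intro y _
      have e : (Fin.consEquiv Ω) (a, y) = Fin.cons a y := rfl
      simp only [e, Fin.prod_univ_succ, Fin.cons_zero, Fin.cons_succ, hW']
      ring
    rw [split, split]
    have step1 : ∀ a : Ω 0, ∑ y, W' y * Real.exp (l * f (Fin.cons a y))
        ≤ Real.exp (l * F a + l ^ 2 * (∑ i : Fin n, c i.succ ^ 2) / 8) := by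
      intro a
      refine ih (fun i => Ω i.succ) (fun i => w i.succ) (fun i x => hw _ _) (fun i => hw1 _)
        (fun y => f (Fin.cons a y)) (fun i => c i.succ) ?_ l
      intro i x y hxy
      apply hf i.succ
      intro j
      refine Fin.cases ?_ ?_ j
      · intro _; rfl
      · intro k hk
        simp only [Fin.cons_succ]
        exact hxy k (fun h => hk (by rw [h]))
    have hFd : ∀ a b : Ω 0, |F a - F b| ≤ c 0 := by
      intro a b
      have e : F a - F b = ∑ y, W' y * (f (Fin.cons a y) - f (Fin.cons b y)) := by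
        simp only [hF, mul_sub, Finset.sum_sub_distrib]
      rw [e]
      calc |∑ y, W' y * (f (Fin.cons a y) - f (Fin.cons b y))|
          ≤ ∑ y, |W' y * (f (Fin.cons a y) - f (Fin.cons b y))| := Finset.abs_sum_le_sum_abs _ _
        _ ≤ ∑ y, W' y * c 0 := by
            apply Finset.sum_le_sum
            intro y _
            rw [abs_mul, abs_of_nonneg (hW'nn y)]
            refine mul_le_mul_of_nonneg_left ?_ (hW'nn y)
            apply hf 0
            intro j
            refine Fin.cases ?_ ?_ j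
            · intro h; exact absurd rfl h
            · intro k _
              simp only [Fin.cons_succ]
        _ = c 0 := by rw [← Finset.sum_mul, hW'1, one_mul]
    calc ∑ a : Ω 0, w 0 a * ∑ y, W' y * Real.exp (l * f (Fin.cons a y))
        ≤ ∑ a : Ω 0, w 0 a * Real.exp (l * F a + l ^ 2 * (∑ i : Fin n, c i.succ ^ 2) / 8) :=
          Finset.sum_le_sum fun a _ => mul_le_mul_of_nonneg_left (step1 a) (hw 0 a)
      _ = Real.exp (l ^ 2 * (∑ i : Fin n, c i.succ ^ 2) / 8)
            * ∑ a : Ω 0, w 0 a * Real.exp (l * F a) := by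
          rw [Finset.mul_sum univ _ (Real.exp (l ^ 2 * (∑ i : Fin n, c i.succ ^ 2) / 8))]
          apply Finset.sum_congr rfl
          intro a _
          rw [Real.exp_add]; ring
      _ ≤ Real.exp (l ^ 2 * (∑ i : Fin n, c i.succ ^ 2) / 8)
            * Real.exp (l * (∑ a, w 0 a * F a) + l ^ 2 * c 0 ^ 2 / 8) :=
          mul_le_mul_of_nonneg_left (hoeffding_one (w 0) (hw 0) (hw1 0) F (c 0) hFd l)
            (Real.exp_nonneg _)
      _ = _ := by
          rw [← Real.exp_add]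
          congr 1
          rw [Fin.sum_univ_succ]
          ring

/-- Exponential moment bound: arbitrary finite index type. -/
theorem exp_moment {ι : Type*} [Fintype ι] [DecidableEq ι] (Ω : ι → Type*) [∀ i, Fintype (Ω i)]
    (w : ∀ i, Ω i → ℝ) (hw : ∀ i x, 0 ≤ w i x) (hw1 : ∀ i, ∑ x, w i x = 1)
    (f : (∀ i, Ω i) → ℝ) (c : ι → ℝ)
    (hf : ∀ (i : ι) (x y : ∀ i, Ω i), (∀ j, j ≠ i → x j = y j) → |f x - f y| ≤ c i) (l : ℝ) :
    ∑ x : (∀ i, Ω i), (∏ i, w i (x i)) * Real.exp (l * f x) ≤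
      Real.exp (l * (∑ x : (∀ i, Ω i), (∏ i, w i (x i)) * f x) + l ^ 2 * (∑ i, c i ^ 2) / 8) := by
  set e := Fintype.equivFin ι with he
  set E := Equiv.piCongrLeft' Ω e with hE
  have hsum : ∀ h : (∀ i, Ω i) → ℝ, ∑ x : (∀ i, Ω i), (∏ i, w i (x i)) * h x
      = ∑ y : (∀ j, Ω (e.symm j)), (∏ j, w (e.symm j) (y j)) * h (E.symm y) := by
    intro h
    rw [← E.sum_comp]
    apply Finset.sum_congr rfl
    intro x _
    rw [E.symm_apply_apply]
    congr 1
    rw [← e.symm.prod_comp]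
    rfl
  have hsq : ∑ i, c i ^ 2 = ∑ j, c (e.symm j) ^ 2 := by
    rw [← e.symm.sum_comp]
  rw [hsum, hsum, hsq]
  refine exp_moment_fin _ (fun j => Ω (e.symm j)) (fun j => w (e.symm j)) (fun j x => hw _ _)
    (fun j => hw1 _) (fun y => f (E.symm y)) (fun j => c (e.symm j)) ?_ l
  intro j x y hxy
  apply hf
  intro i hi
  obtain ⟨j', rfl⟩ := e.symm.surjective i
  have h1 : ∀ z : (∀ j, Ω (e.symm j)), (E.symm z) (e.symm j') = z j' := by
    intro z
    have : E (E.symm z) j' = z j' := by rw [E.apply_symm_apply]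
    exact this
  rw [h1, h1]
  exact hxy j' (fun h => hi (by rw [h]))

end McD

/-- **McDiarmid's inequality** (upper tail) for finite product weights; `m` is any upper bound
for the mean and `C` any positive upper bound for `∑ c i ^ 2`. -/
theorem mcdiarmid_of_le {ι : Type*} [Fintype ι] [DecidableEq ι] (Ω : ι → Type*)
    [∀ i, Fintype (Ω i)]
    (w : ∀ i, Ω i → ℝ) (hw : ∀ i x, 0 ≤ w i x) (hw1 : ∀ i, ∑ x, w i x = 1)
    (f : (∀ i, Ω i) → ℝ) (c : ι → ℝ)
    (hf : ∀ (i : ι) (x y : ∀ i, Ω i), (∀ j, j ≠ i → x j = y j) → |f x - f y| ≤ c i)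
    (m : ℝ) (hm : ∑ z : (∀ i, Ω i), (∏ i, w i (z i)) * f z ≤ m)
    (C : ℝ) (hC : ∑ i, c i ^ 2 ≤ C) (hC0 : 0 < C)
    (t : ℝ) (ht : 0 ≤ t) [DecidablePred fun x : (∀ i, Ω i) => m + t ≤ f x] :
    ∑ x : (∀ i, Ω i) with m + t ≤ f x, ∏ i, w i (x i)
      ≤ Real.exp (-2 * t ^ 2 / C) := by
  classical
  set S : ℝ := ∑ i, c i ^ 2 with hS
  have hWnn : ∀ x : (∀ i, Ω i), 0 ≤ ∏ i, w i (x i) := fun x => Finset.prod_nonneg fun i _ => hw _ _
  set l : ℝ := 4 * t / C with hl
  have hl0 : 0 ≤ l := by positivity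
  have key := McD.exp_moment Ω w hw hw1 f c hf l
  have h1 : ∑ x : (∀ i, Ω i) with m + t ≤ f x, (∏ i, w i (x i))
      ≤ Real.exp (-(l * (m + t))) * ∑ x : (∀ i, Ω i), (∏ i, w i (x i)) * Real.exp (l * f x) := by
    rw [Finset.mul_sum]
    refine le_trans ?_ (Finset.sum_le_univ_sum_of_nonneg (s := Finset.univ.filter
      fun x => m + t ≤ f x) ?_)
    · apply Finset.sum_le_sum
      intro x hx
      rw [Finset.mem_filter] at hx
      have : 1 ≤ Real.exp (-(l * (m + t))) * Real.exp (l * f x) := by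
        rw [← Real.exp_add]
        apply Real.one_le_exp
        nlinarith [hx.2]
      calc (∏ i, w i (x i)) = (∏ i, w i (x i)) * 1 := (mul_one _).symm
        _ ≤ (∏ i, w i (x i)) * (Real.exp (-(l * (m + t))) * Real.exp (l * f x)) :=
            mul_le_mul_of_nonneg_left this (hWnn x)
        _ = _ := by ring
    · intro x
      have := hWnn x
      positivity
  refine le_trans h1 ?_
  refine le_trans (mul_le_mul_of_nonneg_left key (Real.exp_nonneg _)) ?_
  rw [← Real.exp_add, Real.exp_le_exp]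
  have h3 : l * (∑ z : (∀ i, Ω i), (∏ i, w i (z i)) * f z) ≤ l * m :=
    mul_le_mul_of_nonneg_left hm hl0
  have h5 : l ^ 2 * S ≤ l ^ 2 * C := mul_le_mul_of_nonneg_left hC (sq_nonneg _)
  have h4 : -(l * (m + t)) + (l * m + l ^ 2 * C / 8) = -2 * t ^ 2 / C := by
    rw [hl]
    field_simp
    ring
  linarith

/-- **McDiarmid's inequality** (upper tail) for finite product weights; `m` is any upper bound
for the mean. -/
theorem mcdiarmid {ι : Type*} [Fintype ι] [DecidableEq ι] (Ω : ι → Type*) [∀ i, Fintype (Ω i)]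
    (w : ∀ i, Ω i → ℝ) (hw : ∀ i x, 0 ≤ w i x) (hw1 : ∀ i, ∑ x, w i x = 1)
    (f : (∀ i, Ω i) → ℝ) (c : ι → ℝ)
    (hf : ∀ (i : ι) (x y : ∀ i, Ω i), (∀ j, j ≠ i → x j = y j) → |f x - f y| ≤ c i)
    (m : ℝ) (hm : ∑ z : (∀ i, Ω i), (∏ i, w i (z i)) * f z ≤ m)
    (t : ℝ) (ht : 0 ≤ t) [DecidablePred fun x : (∀ i, Ω i) => m + t ≤ f x] :
    ∑ x : (∀ i, Ω i) with m + t ≤ f x, ∏ i, w i (x i)
      ≤ Real.exp (-2 * t ^ 2 / ∑ i, c i ^ 2) := by
  have hWnn : ∀ x : (∀ i, Ω i), 0 ≤ ∏ i, w i (x i) := fun x => Finset.prod_nonneg fun i _ => hw _ _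
  have hS0 : 0 ≤ ∑ i, c i ^ 2 := Finset.sum_nonneg fun i _ => sq_nonneg _
  rcases hS0.eq_or_lt with h0 | hpos
  · rw [← h0, div_zero, Real.exp_zero]
    calc _ ≤ ∑ x : (∀ i, Ω i), ∏ i, w i (x i) :=
          Finset.sum_le_univ_sum_of_nonneg hWnn
      _ = 1 := McD.prod_mass w hw1
  · exact mcdiarmid_of_le Ω w hw hw1 f c hf m hm _ le_rfl hpos t ht

/-- **McDiarmid's inequality** (upper tail), counting form on a finite product, with a positive
upper bound `C` for `∑ c i ^ 2`. -/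
theorem mcdiarmid_card_of_le {ι : Type*} [Fintype ι] [DecidableEq ι] (Ω : ι → Type*)
    [∀ i, Fintype (Ω i)]
    (f : (∀ i, Ω i) → ℝ) (c : ι → ℝ)
    (hf : ∀ (i : ι) (x y : ∀ i, Ω i), (∀ j, j ≠ i → x j = y j) → |f x - f y| ≤ c i)
    (m : ℝ) (hm : ∑ z : (∀ i, Ω i), f z ≤ m * Fintype.card (∀ i, Ω i))
    (C : ℝ) (hC : ∑ i, c i ^ 2 ≤ C) (hC0 : 0 < C)
    (t : ℝ) (ht : 0 ≤ t) [DecidablePred fun x : (∀ i, Ω i) => m + t ≤ f x] :
    ((Finset.univ.filter fun x : (∀ i, Ω i) => m + t ≤ f x).card : ℝ)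
      ≤ Real.exp (-2 * t ^ 2 / C) * Fintype.card (∀ i, Ω i) := by
  classical
  by_cases hne : ∀ i, Nonempty (Ω i)
  swap
  · push Not at hne
    obtain ⟨i, hi⟩ := hne
    have : IsEmpty (∀ i, Ω i) := ⟨fun x => hi.elim (x i)⟩
    simp
  have hN : (0 : ℝ) < Fintype.card (∀ i, Ω i) := by
    exact_mod_cast Fintype.card_pos
  have hcard : (Fintype.card (∀ i, Ω i) : ℝ) = ∏ i, (Fintype.card (Ω i) : ℝ) := by
    rw [Fintype.card_pi]; push_cast; rfl
  set w : ∀ i, Ω i → ℝ := fun i _ => (Fintype.card (Ω i) : ℝ)⁻¹ with hw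
  have hprod : ∀ x : (∀ i, Ω i), ∏ i, w i (x i) = (Fintype.card (∀ i, Ω i) : ℝ)⁻¹ := by
    intro x
    rw [hcard, hw, Finset.prod_inv_distrib]
  have hw1 : ∀ i, ∑ x, w i x = 1 := by
    intro i
    have : (0 : ℝ) < Fintype.card (Ω i) := by exact_mod_cast Fintype.card_pos
    simp only [hw, Finset.sum_const, Finset.card_univ, nsmul_eq_mul]
    field_simp
  have hmean : (∑ z : (∀ i, Ω i), (∏ i, w i (z i)) * f z) ≤ m := by
    simp only [hprod]
    rw [← Finset.mul_sum, inv_mul_le_iff₀ hN]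
    linarith [hm, mul_comm m (Fintype.card (∀ i, Ω i) : ℝ)]
  have main := mcdiarmid_of_le Ω w (fun i x => by simp only [hw]; positivity) hw1 f c hf m hmean
    C hC hC0 t ht
  have h2 : ((Finset.univ.filter fun x : (∀ i, Ω i) => m + t ≤ f x).card : ℝ)
      * (Fintype.card (∀ i, Ω i) : ℝ)⁻¹ ≤ Real.exp (-2 * t ^ 2 / C) := by
    refine le_trans (le_of_eq ?_) main
    simp only [hprod, Finset.sum_const, nsmul_eq_mul]
  rw [mul_inv_le_iff₀ hN] at h2
  exact h2

/-- **McDiarmid's inequality** (upper tail), counting form on a finite product. -/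
theorem mcdiarmid_card {ι : Type*} [Fintype ι] [DecidableEq ι] (Ω : ι → Type*) [∀ i, Fintype (Ω i)]
    (f : (∀ i, Ω i) → ℝ) (c : ι → ℝ)
    (hf : ∀ (i : ι) (x y : ∀ i, Ω i), (∀ j, j ≠ i → x j = y j) → |f x - f y| ≤ c i)
    (m : ℝ) (hm : ∑ z : (∀ i, Ω i), f z ≤ m * Fintype.card (∀ i, Ω i))
    (t : ℝ) (ht : 0 ≤ t) [DecidablePred fun x : (∀ i, Ω i) => m + t ≤ f x] :
    ((Finset.univ.filter fun x : (∀ i, Ω i) => m + t ≤ f x).card : ℝ)
      ≤ Real.exp (-2 * t ^ 2 / ∑ i, c i ^ 2) * Fintype.card (∀ i, Ω i) := by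
  have hS0 : 0 ≤ ∑ i, c i ^ 2 := Finset.sum_nonneg fun i _ => sq_nonneg _
  rcases hS0.eq_or_lt with h0 | hpos
  · rw [← h0, div_zero, Real.exp_zero, one_mul]
    exact_mod_cast Finset.card_le_univ _
  · exact mcdiarmid_card_of_le Ω f c hf m hm _ le_rfl hpos t ht

/-- **McDiarmid's inequality** (lower tail) for finite product weights; `m` is any lower bound
for the mean. -/
theorem mcdiarmid_lower {ι : Type*} [Fintype ι] [DecidableEq ι] (Ω : ι → Type*)
    [∀ i, Fintype (Ω i)]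
    (w : ∀ i, Ω i → ℝ) (hw : ∀ i x, 0 ≤ w i x) (hw1 : ∀ i, ∑ x, w i x = 1)
    (f : (∀ i, Ω i) → ℝ) (c : ι → ℝ)
    (hf : ∀ (i : ι) (x y : ∀ i, Ω i), (∀ j, j ≠ i → x j = y j) → |f x - f y| ≤ c i)
    (m : ℝ) (hm : m ≤ ∑ z : (∀ i, Ω i), (∏ i, w i (z i)) * f z)
    (t : ℝ) (ht : 0 ≤ t) [DecidablePred fun x : (∀ i, Ω i) => f x ≤ m - t] :
    ∑ x : (∀ i, Ω i) with f x ≤ m - t, ∏ i, w i (x i)
      ≤ Real.exp (-2 * t ^ 2 / ∑ i, c i ^ 2) := by
  classical
  have h := mcdiarmid Ω w hw hw1 (fun x => - f x) c (fun i x y hxy => by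
    have := hf i x y hxy
    rw [abs_sub_comm] at this
    have e : -f x - -f y = f y - f x := by ring
    rw [e]; exact this) (-m) (by simp only [mul_neg, Finset.sum_neg_distrib]; linarith) t ht
  refine le_trans (le_of_eq ?_) h
  apply Finset.sum_congr _ (fun _ _ => rfl)
  ext x
  simp only [Finset.mem_filter, Finset.mem_univ, true_and]
  constructor <;> intro h <;> linarith

/-- **McDiarmid's inequality** (lower tail), counting form on a finite product. -/
theorem mcdiarmid_card_lower {ι : Type*} [Fintype ι] [DecidableEq ι] (Ω : ι → Type*)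
    [∀ i, Fintype (Ω i)]
    (f : (∀ i, Ω i) → ℝ) (c : ι → ℝ)
    (hf : ∀ (i : ι) (x y : ∀ i, Ω i), (∀ j, j ≠ i → x j = y j) → |f x - f y| ≤ c i)
    (m : ℝ) (hm : m * Fintype.card (∀ i, Ω i) ≤ ∑ z : (∀ i, Ω i), f z)
    (t : ℝ) (ht : 0 ≤ t) [DecidablePred fun x : (∀ i, Ω i) => f x ≤ m - t] :
    ((Finset.univ.filter fun x : (∀ i, Ω i) => f x ≤ m - t).card : ℝ)
      ≤ Real.exp (-2 * t ^ 2 / ∑ i, c i ^ 2) * Fintype.card (∀ i, Ω i) := by
  classical
  have h := mcdiarmid_card Ω (fun x => - f x) c (fun i x y hxy => by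
    have := hf i x y hxy
    rw [abs_sub_comm] at this
    have e : -f x - -f y = f y - f x := by ring
    rw [e]; exact this) (-m) (by simp only [Finset.sum_neg_distrib]; linarith) t ht
  refine le_trans (le_of_eq ?_) h
  congr 2
  ext x
  simp only [Finset.mem_filter, Finset.mem_univ, true_and]
  constructor <;> intro h <;> linarith

/-- McDiarmid for `t` independent copies of one finite weighted space, all differences `≤ b`. -/
theorem mcdiarmid_copies {Ω : Type*} [Fintype Ω] (n : ℕ)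
    (w : Ω → ℝ) (hw : ∀ x, 0 ≤ w x) (hw1 : ∑ x, w x = 1)
    (f : (Fin n → Ω) → ℝ) (b : ℝ)
    (hf : ∀ (i : Fin n) (x y : Fin n → Ω), (∀ j, j ≠ i → x j = y j) → |f x - f y| ≤ b)
    (m : ℝ) (hm : ∑ z : Fin n → Ω, (∏ i, w (z i)) * f z ≤ m)
    (t : ℝ) (ht : 0 ≤ t) [DecidablePred fun x : Fin n → Ω => m + t ≤ f x] :
    ∑ x : Fin n → Ω with m + t ≤ f x, ∏ i, w (x i)
      ≤ Real.exp (-2 * t ^ 2 / (n * b ^ 2)) := by
  classical
  have h := mcdiarmid (fun _ : Fin n => Ω) (fun _ => w) (fun _ => hw) (fun _ => hw1) f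
    (fun _ => b) hf m hm t ht
  simpa using h

open Classical in
/-- McDiarmid's inequality for the uniform measure on a product of finsets (skeleton form). -/
theorem mcdiarmid_piFinset {ι α : Type*} [Fintype ι] [DecidableEq ι] [DecidableEq α]
    (t : ι → Finset α)
    (ht : ∀ i, (t i).Nonempty) (f : (ι → α) → ℝ) (c : ι → ℝ)
    (hc : ∀ i, ∀ g ∈ Fintype.piFinset t, ∀ a ∈ t i, |f (Function.update g i a) - f g| ≤ c i)
    (C : ℝ) (hC : ∑ i, c i ^ 2 ≤ C) (hC0 : 0 < C) (a : ℝ) (ha : 0 ≤ a) :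
    (((Fintype.piFinset t).filter (fun g =>
        (∑ g' ∈ Fintype.piFinset t, f g') / ((Fintype.piFinset t).card : ℝ) + a ≤ f g)).card : ℝ) ≤
      Real.exp (-a ^ 2 / (2 * C)) * ((Fintype.piFinset t).card : ℝ) := by
  set Φ : (∀ i, {y // y ∈ t i}) ↪ (ι → α) :=
    ⟨fun x i => (x i : α), fun x y h => by
      funext i
      exact Subtype.ext (congrFun h i)⟩ with hΦ
  have himg : Fintype.piFinset t = (Finset.univ : Finset (∀ i, {y // y ∈ t i})).map Φ := by
    ext g
    simp only [Fintype.mem_piFinset, Finset.mem_map, Finset.mem_univ, true_and]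
    constructor
    · intro hg
      exact ⟨fun i => ⟨g i, hg i⟩, rfl⟩
    · rintro ⟨x, rfl⟩ i
      exact (x i).2
  have hcard : ((Fintype.piFinset t).card : ℝ) = Fintype.card (∀ i, {y // y ∈ t i}) := by
    rw [himg, Finset.card_map, Finset.card_univ]
  have hN : (0 : ℝ) < Fintype.card (∀ i, {y // y ∈ t i}) := by
    have : Nonempty (∀ i, {y // y ∈ t i}) := ⟨fun i => ⟨(ht i).choose, (ht i).choose_spec⟩⟩
    exact_mod_cast Fintype.card_pos
  have hsum : ∑ g' ∈ Fintype.piFinset t, f g' = ∑ x : (∀ i, {y // y ∈ t i}), f (Φ x) := by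
    rw [himg, Finset.sum_map]
  have main := mcdiarmid_card_of_le (fun i => {y // y ∈ t i}) (fun x => f (Φ x)) c (by
    intro i x y hxy
    have e : Φ x = Function.update (Φ y) i (x i : α) := by
      funext j
      by_cases hj : j = i
      · subst hj; simp [hΦ]
      · rw [Function.update_of_ne hj]
        simp only [hΦ, Function.Embedding.coeFn_mk]
        rw [hxy j hj]
    rw [e]
    refine hc i (Φ y) ?_ _ (x i).2
    rw [himg]
    exact Finset.mem_map_of_mem _ (Finset.mem_univ _))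
    ((∑ x : (∀ i, {y // y ∈ t i}), f (Φ x)) / Fintype.card (∀ i, {y // y ∈ t i}))
    (by rw [div_mul_cancel₀ _ hN.ne']) C hC hC0 a ha
  have hfil : (((Fintype.piFinset t).filter (fun g =>
        (∑ g' ∈ Fintype.piFinset t, f g') / ((Fintype.piFinset t).card : ℝ) + a ≤ f g)).card : ℝ)
      = ((Finset.univ.filter fun x : (∀ i, {y // y ∈ t i}) =>
        (∑ x : (∀ i, {y // y ∈ t i}), f (Φ x)) / Fintype.card (∀ i, {y // y ∈ t i}) + a
          ≤ f (Φ x)).card : ℝ) := by
    rw [hsum, hcard, himg, Finset.filter_map, Finset.card_map]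
    rfl
  rw [hfil, hcard]
  refine le_trans main ?_
  refine mul_le_mul_of_nonneg_right ?_ hN.le
  rw [Real.exp_le_exp]
  rw [div_le_div_iff₀ hC0 (by positivity)]
  nlinarith [mul_nonneg (sq_nonneg a) hC0.le]

end Pool.Agent.MP_e50225_co
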