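import Mathlib

set_option autoImplicit false

/-!
# The bounded differences inequality (McDiarmid) for finite product spaces
-/

namespace Pool.Agent.MP_e50225_co

open Finset

namespace TriFree

variable {V α : Type*} [Fintype V] [DecidableEq V] [Fintype α]

/-- Weight of a point. -/
def wt (P : V → α → ℝ) (x : V → α) : ℝ := ∏ v, P v (x v)

/-- Expectation. -/
def ex (P : V → α → ℝ) (F : (V → α) → ℝ) : ℝ := ∑ x, wt P x * F x

/-- Averaging one coordinate. -/
def avg (P : V → α → ℝ) (i : V) (F : (V → α) → ℝ) : (V → α) → ℝ :=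
  fun x => ∑ a, P i a * F (Function.update x i a)

/-- Averaging a list of coordinates. -/
def avgs (P : V → α → ℝ) : List V → ((V → α) → ℝ) → (V → α) → ℝ
  | [], F => F
  | i :: l, F => avg P i (avgs P l F)

theorem exp_le_add_exp_sq (x : ℝ) : Real.exp x ≤ x + Real.exp (x ^ 2) := by
  -- reduce to `exp x ≤ x + exp (x ^ 2)`
  rcases le_or_gt x 0 with hx | hx
  · -- x ≤ 0 : exp x ≤ 1 + x + x ^ 2 / 2 ... use exp(x^2) ≥ 1 + x^2
    have h1 : 1 + x ^ 2 ≤ Real.exp (x ^ 2) := by
      have := Real.add_one_le_exp (x ^ 2)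
      linarith
    have h2 : Real.exp x ≤ 1 + x + x ^ 2 := by
      rcases le_or_gt (-1) x with hx1 | hx1
      · have := Real.abs_exp_sub_one_sub_id_le (x := x) (by rw [abs_le]; constructor <;> linarith)
        have := (abs_le.mp this).2
        linarith
      · have h3 : Real.exp x ≤ 1 := Real.exp_le_one_iff.mpr hx
        nlinarith
    linarith
  · rcases le_or_gt x 1 with hx1 | hx1
    · have h1 : 1 + x ^ 2 ≤ Real.exp (x ^ 2) := by
        have := Real.add_one_le_exp (x ^ 2)
        linarith
      have := Real.abs_exp_sub_one_sub_id_le (x := x) (by rw [abs_le]; constructor <;> linarith)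
      have := (abs_le.mp this).2
      linarith
    · have : Real.exp x ≤ Real.exp (x ^ 2) := Real.exp_le_exp.mpr (by nlinarith)
      linarith

variable {P : V → α → ℝ}

theorem avg_mono (hP : ∀ v a, 0 ≤ P v a) (i : V) {F G : (V → α) → ℝ} (h : ∀ x, F x ≤ G x)
    (x : V → α) : avg P i F x ≤ avg P i G x :=
  Finset.sum_le_sum (fun a _ => mul_le_mul_of_nonneg_left (h _) (hP i a))

theorem hoeffding_step (Q : α → ℝ) (hQ : ∀ a, 0 ≤ Q a) (hQ1 : ∑ a, Q a = 1) (g : α → ℝ) (c : ℝ)
    (hg : ∀ a b, |g a - g b| ≤ c) (t : ℝ) :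
    ∑ a, Q a * Real.exp (t * g a) ≤ Real.exp (t * (∑ a, Q a * g a) + t ^ 2 * c ^ 2) := by
  set M := ∑ a, Q a * g a with hM
  have hc : ∀ a, |g a - M| ≤ c := by
    intro a
    have h1 : g a - M = ∑ b, Q b * (g a - g b) := by
      simp only [mul_sub, Finset.sum_sub_distrib, ← Finset.sum_mul, hQ1, hM]
      ring
    rw [h1]
    calc |∑ b, Q b * (g a - g b)| ≤ ∑ b, |Q b * (g a - g b)| := Finset.abs_sum_le_sum_abs _ _
      _ ≤ ∑ b, Q b * c := by
        apply Finset.sum_le_sum
        intro b _
        rw [abs_mul, abs_of_nonneg (hQ b)]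
        exact mul_le_mul_of_nonneg_left (hg a b) (hQ b)
      _ = c := by rw [← Finset.sum_mul, hQ1, one_mul]
  have h2 : ∀ a, Real.exp (t * g a) ≤
      Real.exp (t * M) * (t * (g a - M) + Real.exp (t ^ 2 * c ^ 2)) := by
    intro a
    have h3 : t * g a = t * M + t * (g a - M) := by ring
    rw [h3, Real.exp_add]
    apply mul_le_mul_of_nonneg_left _ (Real.exp_pos _).le
    have h4 := exp_le_add_exp_sq (t * (g a - M))
    have h5 : Real.exp ((t * (g a - M)) ^ 2) ≤ Real.exp (t ^ 2 * c ^ 2) := by
      apply Real.exp_le_exp.mpr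
      rw [mul_pow]
      apply mul_le_mul_of_nonneg_left _ (sq_nonneg t)
      exact sq_le_sq' (by have := (abs_le.mp (hc a)).1; linarith) (abs_le.mp (hc a)).2
    linarith
  calc ∑ a, Q a * Real.exp (t * g a)
      ≤ ∑ a, Q a * (Real.exp (t * M) * (t * (g a - M) + Real.exp (t ^ 2 * c ^ 2))) :=
        Finset.sum_le_sum (fun a _ => mul_le_mul_of_nonneg_left (h2 a) (hQ a))
    _ = Real.exp (t * M) * (t * (∑ a, Q a * g a - M * ∑ a, Q a) +
          Real.exp (t ^ 2 * c ^ 2) * ∑ a, Q a) := by
        have : ∀ a, Q a * (Real.exp (t * M) * (t * (g a - M) + Real.exp (t ^ 2 * c ^ 2))) =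
            Real.exp (t * M) * t * (Q a * g a) - Real.exp (t * M) * t * M * Q a +
              Real.exp (t * M) * Real.exp (t ^ 2 * c ^ 2) * Q a := by
          intro a; ring
        simp only [this, Finset.sum_add_distrib, Finset.sum_sub_distrib, ← Finset.mul_sum]
        ring
    _ = Real.exp (t * M + t ^ 2 * c ^ 2) := by
        rw [hQ1, ← hM, Real.exp_add]
        ring

theorem avg_lip (hP : ∀ v a, 0 ≤ P v a) (hP1 : ∀ v, ∑ a, P v a = 1) (c : V → ℝ)
    (hc0 : ∀ v, 0 ≤ c v) (F : (V → α) → ℝ)
    (hF : ∀ i x a, |F (Function.update x i a) - F x| ≤ c i) (j : V) :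
    ∀ i x a, |avg P j F (Function.update x i a) - avg P j F x| ≤ c i := by
  intro i x a
  by_cases hij : i = j
  · subst hij
    simp only [avg, Function.update_idem, sub_self, abs_zero]
    exact hc0 i
  · have h1 : avg P j F (Function.update x i a) - avg P j F x =
        ∑ b, P j b * (F (Function.update (Function.update x j b) i a) -
          F (Function.update x j b)) := by
      simp only [avg, mul_sub, Finset.sum_sub_distrib]
      congr 1
      apply Finset.sum_congr rfl
      intro b _
      rw [Function.update_comm hij]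
    rw [h1]
    calc |∑ b, P j b * (F (Function.update (Function.update x j b) i a) -
          F (Function.update x j b))|
        ≤ ∑ b, |P j b * (F (Function.update (Function.update x j b) i a) -
          F (Function.update x j b))| := Finset.abs_sum_le_sum_abs _ _
      _ ≤ ∑ b, P j b * c i := by
        apply Finset.sum_le_sum
        intro b _
        rw [abs_mul, abs_of_nonneg (hP j b)]
        exact mul_le_mul_of_nonneg_left (hF i _ a) (hP j b)
      _ = c i := by rw [← Finset.sum_mul, hP1, one_mul]

theorem avgs_lip (hP : ∀ v a, 0 ≤ P v a) (hP1 : ∀ v, ∑ a, P v a = 1) (c : V → ℝ)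
    (hc0 : ∀ v, 0 ≤ c v) (F : (V → α) → ℝ)
    (hF : ∀ i x a, |F (Function.update x i a) - F x| ≤ c i) (l : List V) :
    ∀ i x a, |avgs P l F (Function.update x i a) - avgs P l F x| ≤ c i := by
  induction l with
  | nil => exact hF
  | cons j l ih => exact avg_lip hP hP1 c hc0 _ ih j

theorem avgs_exp_le (hP : ∀ v a, 0 ≤ P v a) (hP1 : ∀ v, ∑ a, P v a = 1) (c : V → ℝ)
    (hc0 : ∀ v, 0 ≤ c v) (F : (V → α) → ℝ)
    (hF : ∀ i x a b, |F (Function.update x i a) - F (Function.update x i b)| ≤ c i)
    (t : ℝ) (l : List V) (x : V → α) :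
    avgs P l (fun x => Real.exp (t * F x)) x ≤
      Real.exp (t * avgs P l F x + t ^ 2 * (l.map (fun i => c i ^ 2)).sum) := by
  have hF' : ∀ i x a, |F (Function.update x i a) - F x| ≤ c i := by
    intro i x a
    have := hF i x a (x i)
    rwa [Function.update_eq_self] at this
  induction l generalizing x with
  | nil => simp [avgs]
  | cons i l ih =>
    set S := (l.map (fun i => c i ^ 2)).sum with hS
    have h1 : avgs P (i :: l) (fun x => Real.exp (t * F x)) x ≤
        avg P i (fun x => Real.exp (t * avgs P l F x + t ^ 2 * S)) x :=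
      avg_mono hP i ih x
    refine h1.trans ?_
    have h2 := hoeffding_step (P i) (hP i) (hP1 i)
      (fun a => avgs P l F (Function.update x i a)) (c i) ?_ t
    · have h3 : avg P i (fun x => Real.exp (t * avgs P l F x + t ^ 2 * S)) x =
          Real.exp (t ^ 2 * S) *
            ∑ a, P i a * Real.exp (t * avgs P l F (Function.update x i a)) := by
        simp only [avg, Real.exp_add, Finset.mul_sum]
        apply Finset.sum_congr rfl
        intro a _
        ring
      rw [h3]
      have h4 : avgs P (i :: l) F x = ∑ a, P i a * avgs P l F (Function.update x i a) := rfl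
      calc Real.exp (t ^ 2 * S) * ∑ a, P i a * Real.exp (t * avgs P l F (Function.update x i a))
          ≤ Real.exp (t ^ 2 * S) * Real.exp (t * (∑ a, P i a * avgs P l F (Function.update x i a)) +
            t ^ 2 * c i ^ 2) := mul_le_mul_of_nonneg_left h2 (Real.exp_pos _).le
        _ = Real.exp (t * avgs P (i :: l) F x +
              t ^ 2 * ((i :: l).map (fun i => c i ^ 2)).sum) := by
            rw [← Real.exp_add, h4, List.map_cons, List.sum_cons, ← hS]
            congr 1
            ring
    · intro a b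
      have := avgs_lip hP hP1 c hc0 F hF' l i (Function.update x i b) a
      rwa [Function.update_idem] at this

theorem avgs_update (F : (V → α) → ℝ) (l : List V) (i : V) (hi : i ∈ l) (x : V → α) (a : α) :
    avgs P l F (Function.update x i a) = avgs P l F x := by
  induction l generalizing x with
  | nil => simp at hi
  | cons j l ih =>
    simp only [avgs, avg]
    apply Finset.sum_congr rfl
    intro b _
    by_cases hij : i = j
    · subst hij
      rw [Function.update_idem]
    · have hil : i ∈ l := by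
        rcases List.mem_cons.mp hi with h | h
        · exact absurd h hij
        · exact h
      rw [Function.update_comm hij, ih hil]

theorem avgs_const (F : (V → α) → ℝ) (l : List V) (hl : ∀ i, i ∈ l) (x y : V → α) :
    avgs P l F x = avgs P l F y := by
  -- change coordinates one at a time
  have h : ∀ S : Finset V, avgs P l F (fun v => if v ∈ S then y v else x v) = avgs P l F x := by
    intro S
    induction S using Finset.induction_on with
    | empty => simp
    | insert i S _ ih =>
      rw [← ih]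
      have : (fun v => if v ∈ insert i S then y v else x v) =
          Function.update (fun v => if v ∈ S then y v else x v) i (y i) := by
        funext v
        by_cases hv : v = i
        · subst hv; simp
        · simp [hv]
      rw [this, avgs_update F l i (hl i)]
  have h1 := h Finset.univ
  simpa using h1.symm

theorem wt_update (i : V) (x : V → α) (b : α) :
    wt P (Function.update x i b) * P i (x i) = wt P x * P i b := by
  unfold wt
  rw [← Finset.mul_prod_erase Finset.univ _ (Finset.mem_univ i),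
    ← Finset.mul_prod_erase Finset.univ (fun v => P v (x v)) (Finset.mem_univ i)]
  have : ∏ v ∈ Finset.univ.erase i, P v (Function.update x i b v) =
      ∏ v ∈ Finset.univ.erase i, P v (x v) := by
    apply Finset.prod_congr rfl
    intro v hv
    rw [Function.update_of_ne (Finset.ne_of_mem_erase hv)]
  rw [this, Function.update_self]
  ring

theorem ex_avg (hP1 : ∀ v, ∑ a, P v a = 1) (i : V) (F : (V → α) → ℝ) :
    ex P (avg P i F) = ex P F := by
  have h1 : ex P (avg P i F) =
      ∑ z : (V → α) × α, wt P z.1 * P i z.2 * F (Function.update z.1 i z.2) := by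
    rw [Fintype.sum_prod_type]
    simp only [ex, avg, Finset.mul_sum]
    apply Finset.sum_congr rfl
    intro x _
    apply Finset.sum_congr rfl
    intro a _
    ring
  have h2 : ex P F = ∑ z : (V → α) × α, wt P z.1 * P i z.2 * F z.1 := by
    rw [Fintype.sum_prod_type]
    simp only [ex]
    apply Finset.sum_congr rfl
    intro x _
    have : ∀ a, wt P x * P i a * F x = (wt P x * F x) * P i a := fun a => by ring
    simp only [this, ← Finset.mul_sum, hP1, mul_one]
  rw [h1, h2]
  let e : (V → α) × α → (V → α) × α := fun z => (Function.update z.1 i z.2, z.1 i)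
  have he : Function.Involutive e := by
    rintro ⟨x, a⟩
    simp [e]
  apply Finset.sum_bij (fun z _ => e z)
  · intro z _; exact Finset.mem_univ _
  · intro z _ z' _ h; exact he.injective h
  · intro z _; exact ⟨e z, Finset.mem_univ _, he z⟩
  · rintro ⟨x, a⟩ _
    simp only [e]
    rw [← wt_update i x a]

theorem ex_avgs (hP1 : ∀ v, ∑ a, P v a = 1) (l : List V) (F : (V → α) → ℝ) :
    ex P (avgs P l F) = ex P F := by
  induction l with
  | nil => rfl
  | cons i l ih => rw [avgs, ex_avg hP1, ih]

theorem sum_wt (hP1 : ∀ v, ∑ a, P v a = 1) : ∑ x, wt P x = 1 := by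
  have h := Finset.prod_univ_sum (fun _ : V => (Finset.univ : Finset α)) (fun v a => P v a)
  rw [Fintype.piFinset_univ] at h
  unfold wt
  rw [← h]
  simp [hP1]

theorem avgs_eq_ex (hP1 : ∀ v, ∑ a, P v a = 1) (F : (V → α) → ℝ) (x : V → α) :
    avgs P Finset.univ.toList F x = ex P F := by
  rw [← ex_avgs hP1 Finset.univ.toList F]
  unfold ex
  have : ∀ y, wt P y * avgs P Finset.univ.toList F y = wt P y * avgs P Finset.univ.toList F x := by
    intro y
    rw [avgs_const F Finset.univ.toList (by simp) y x]
  simp only [this, ← Finset.sum_mul, sum_wt hP1, one_mul]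

/-- Exponential moment bound. -/
theorem ex_exp_le (hP : ∀ v a, 0 ≤ P v a) (hP1 : ∀ v, ∑ a, P v a = 1) (c : V → ℝ)
    (hc0 : ∀ v, 0 ≤ c v) (F : (V → α) → ℝ)
    (hF : ∀ i x a b, |F (Function.update x i a) - F (Function.update x i b)| ≤ c i) (t : ℝ) :
    ex P (fun x => Real.exp (t * F x)) ≤ Real.exp (t * ex P F + t ^ 2 * ∑ i, c i ^ 2) := by
  rcases isEmpty_or_nonempty (V → α) with hE | ⟨⟨x⟩⟩
  · simp only [ex, Finset.univ_eq_empty, Finset.sum_empty]
    exact (Real.exp_pos _).le
  · have h := avgs_exp_le hP hP1 c hc0 F hF t Finset.univ.toList x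
    rw [avgs_eq_ex hP1, avgs_eq_ex hP1] at h
    simpa [Finset.sum_map_toList] using h

/-- Uniform weights on finite sets. -/
noncomputable def uw (T : V → Finset α) (v : V) (a : α) : ℝ := by
  classical exact if a ∈ T v then ((T v).card : ℝ)⁻¹ else 0

theorem uw_nonneg (T : V → Finset α) (v : V) (a : α) : 0 ≤ uw T v a := by
  unfold uw
  split_ifs
  · positivity
  · exact le_rfl

theorem uw_sum (T : V → Finset α) (hT : ∀ v, (T v).Nonempty) (v : V) : ∑ a, uw T v a = 1 := by
  classical
  unfold uw
  rw [Finset.sum_ite_mem, Finset.univ_inter, Finset.sum_const, nsmul_eq_mul]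
  have : ((T v).card : ℝ) ≠ 0 := by
    have := (hT v).card_pos
    positivity
  field_simp

theorem wt_uw (T : V → Finset α) (x : V → α) [DecidablePred (· ∈ Fintype.piFinset T)] :
    wt (uw T) x = if x ∈ Fintype.piFinset T then ((Fintype.piFinset T).card : ℝ)⁻¹ else 0 := by
  classical
  unfold wt
  split_ifs with h
  · rw [Fintype.mem_piFinset] at h
    have : ∀ v, uw T v (x v) = ((T v).card : ℝ)⁻¹ := by
      intro v; unfold uw; rw [if_pos (h v)]
    simp only [this, Fintype.card_piFinset, Nat.cast_prod, Finset.prod_inv_distrib]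
  · rw [Fintype.mem_piFinset] at h
    push Not at h
    obtain ⟨v, hv⟩ := h
    apply Finset.prod_eq_zero (Finset.mem_univ v)
    unfold uw
    rw [if_neg hv]

theorem ex_uw (T : V → Finset α) (F : (V → α) → ℝ) :
    ex (uw T) F = (∑ x ∈ Fintype.piFinset T, F x) / ((Fintype.piFinset T).card : ℝ) := by
  classical
  unfold ex
  simp only [wt_uw, ite_mul, zero_mul]
  rw [Finset.sum_ite_mem, Finset.univ_inter, ← Finset.mul_sum]
  ring

/-- Lower tail, uniform distribution on a finite product set. -/
theorem card_lower_tail (T : V → Finset α) (hT : ∀ v, (T v).Nonempty) (c : V → ℝ)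
    (hc0 : ∀ v, 0 ≤ c v) (F : (V → α) → ℝ)
    (hF : ∀ i x a b, |F (Function.update x i a) - F (Function.update x i b)| ≤ c i)
    (m s C : ℝ) (hm : m * ((Fintype.piFinset T).card : ℝ) ≤ ∑ x ∈ Fintype.piFinset T, F x)
    (hs : 0 ≤ s) (hC : 0 < C) (hcC : ∑ i, c i ^ 2 ≤ C)
    [DecidablePred (fun x => F x ≤ m - s)] :
    (((Fintype.piFinset T).filter (fun x => F x ≤ m - s)).card : ℝ) ≤
      Real.exp (-(s ^ 2) / (4 * C)) * ((Fintype.piFinset T).card : ℝ) := by
  classical
  set W := Fintype.piFinset T with hW
  have hWpos : (0 : ℝ) < (W.card : ℝ) := by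
    have : W.Nonempty := by
      rw [hW, Fintype.piFinset_nonempty]
      exact hT
    exact_mod_cast this.card_pos
  set t : ℝ := -(s / (2 * C)) with ht
  have ht0 : t ≤ 0 := by rw [ht]; have : 0 ≤ s / (2 * C) := by positivity
                         linarith
  have h := ex_exp_le (uw_nonneg T) (uw_sum T hT) c hc0 F hF t
  rw [ex_uw, ex_uw, ← hW] at h
  have hm' : m ≤ (∑ x ∈ W, F x) / (W.card : ℝ) := by
    rw [le_div_iff₀ hWpos]; exact hm
  have h1 : ((W.filter (fun x => F x ≤ m - s)).card : ℝ) * Real.exp (t * (m - s)) ≤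
      ∑ x ∈ W, Real.exp (t * F x) := by
    calc ((W.filter (fun x => F x ≤ m - s)).card : ℝ) * Real.exp (t * (m - s))
        = ∑ _x ∈ W.filter (fun x => F x ≤ m - s), Real.exp (t * (m - s)) := by
          rw [Finset.sum_const, nsmul_eq_mul]
      _ ≤ ∑ x ∈ W.filter (fun x => F x ≤ m - s), Real.exp (t * F x) := by
          apply Finset.sum_le_sum
          intro x hx
          apply Real.exp_le_exp.mpr
          exact mul_le_mul_of_nonpos_left (Finset.mem_filter.mp hx).2 ht0
      _ ≤ ∑ x ∈ W, Real.exp (t * F x) :=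
          Finset.sum_le_sum_of_subset_of_nonneg (Finset.filter_subset _ _)
            (fun x _ _ => (Real.exp_pos _).le)
  have h2 : ∑ x ∈ W, Real.exp (t * F x) ≤
      Real.exp (t * ((∑ x ∈ W, F x) / (W.card : ℝ)) + t ^ 2 * ∑ i, c i ^ 2) * (W.card : ℝ) := by
    rwa [div_le_iff₀ hWpos] at h
  have h3 : Real.exp (t * ((∑ x ∈ W, F x) / (W.card : ℝ)) + t ^ 2 * ∑ i, c i ^ 2) ≤
      Real.exp (t * m + t ^ 2 * C) := by
    apply Real.exp_le_exp.mpr
    have a1 : t * ((∑ x ∈ W, F x) / (W.card : ℝ)) ≤ t * m := mul_le_mul_of_nonpos_left hm' ht0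
    have a2 : t ^ 2 * ∑ i, c i ^ 2 ≤ t ^ 2 * C := mul_le_mul_of_nonneg_left hcC (sq_nonneg t)
    linarith
  have h4 : ((W.filter (fun x => F x ≤ m - s)).card : ℝ) * Real.exp (t * (m - s)) ≤
      Real.exp (t * m + t ^ 2 * C) * (W.card : ℝ) :=
    h1.trans (h2.trans (mul_le_mul_of_nonneg_right h3 hWpos.le))
  have h5 : Real.exp (t * m + t ^ 2 * C) =
      Real.exp (-(s ^ 2) / (4 * C)) * Real.exp (t * (m - s)) := by
    rw [← Real.exp_add]
    congr 1
    rw [ht]
    field_simp
    ring
  rw [h5] at h4
  have h6 := Real.exp_pos (t * (m - s))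
  have h7 : ((W.filter (fun x => F x ≤ m - s)).card : ℝ) * Real.exp (t * (m - s)) ≤
      (Real.exp (-(s ^ 2) / (4 * C)) * (W.card : ℝ)) * Real.exp (t * (m - s)) := by
    calc _ ≤ _ := h4
      _ = _ := by ring
  exact le_of_mul_le_mul_right h7 h6

end TriFree

end Pool.Agent.MP_e50225_co
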