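import Mathlib
import Pool.Agent.MP_e50225_co.Defs
import Pool.Agent.MP_e50225_co.LLL
import Pool.Agent.MP_e50225_co.McD35

set_option autoImplicit false

/-!
# Triangle-free graphs of maximum degree `D` are `⌈ε D⌉`-colourable for large `D`
-/

namespace Pool.Agent.MP_e50225_co

namespace TriFree

open Finset Classical

variable {V : Type} [Fintype V]

theorem mem_nbr {G : SimpleGraph V} {u v : V} : u ∈ nbr G v ↔ G.Adj v u := by
  simp [nbr]

/-- Proper partial colouring. -/
def PC (H : SimpleGraph V) (q : ℕ) (f : V → Option (Fin q)) : Prop :=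
  ∀ u v, H.Adj u v → ∀ c, f u = some c → f v ≠ some c

/-- Available colours. -/
noncomputable def av {q : ℕ} (H : SimpleGraph V) (f : V → Option (Fin q)) (v : V) :
    Finset (Fin q) :=
  Finset.univ.filter (fun c => ∀ u ∈ nbr H v, f u ≠ some c)

/-- Number of blank neighbours with colour `c` available. -/
noncomputable def bl {q : ℕ} (H : SimpleGraph V) (f : V → Option (Fin q)) (v : V) (c : Fin q) :
    ℕ :=
  ((nbr H v).filter (fun u => f u = none ∧ c ∈ av H f u)).card

theorem mem_av {q : ℕ} {H : SimpleGraph V} {f : V → Option (Fin q)} {v : V} {c : Fin q} :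
    c ∈ av H f v ↔ ∀ u ∈ nbr H v, f u ≠ some c := by
  simp [av]

theorem av_congr {q : ℕ} (H : SimpleGraph V) (f f' : V → Option (Fin q)) (v : V)
    (h : ∀ u ∈ nbr H v, f u = f' u) : av H f v = av H f' v := by
  ext c
  rw [mem_av, mem_av]
  constructor
  · intro h1 u hu; rw [← h u hu]; exact h1 u hu
  · intro h1 u hu; rw [h u hu]; exact h1 u hu

/-- Bad event at a vertex. -/
def Bad {q : ℕ} (H : SimpleGraph V) (m : ℝ) (t : ℕ) (v : V) (f : V → Option (Fin q)) : Prop :=
  ((av H f v).card : ℝ) ≤ m ∨ ∃ c ∈ av H f v, t < bl H f v c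

/-- The fibre: values on `N(v)` free. -/
noncomputable def TT {q : ℕ} (H : SimpleGraph V) (v : V) (f₀ : V → Option (Fin q)) (u : V) :
    Finset (Option (Fin q)) :=
  if u ∈ nbr H v then Finset.insertNone (av H f₀ u) else {f₀ u}

theorem TT_nonempty {q : ℕ} (H : SimpleGraph V) (v : V) (f₀ : V → Option (Fin q)) (u : V) :
    (TT H v f₀ u).Nonempty := by
  unfold TT
  split_ifs
  · exact ⟨none, by simp⟩
  · exact ⟨f₀ u, by simp⟩

theorem av_eq_of_off {q : ℕ} (H : SimpleGraph V)
    (htf : ∀ u v w, H.Adj u v → H.Adj v w → ¬ H.Adj u w) (v : V)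
    (f f₀ : V → Option (Fin q)) (h : ∀ x, x ∉ nbr H v → f x = f₀ x) (u : V) (hu : u ∈ nbr H v) :
    av H f u = av H f₀ u := by
  apply av_congr
  intro w hw
  apply h
  intro hwv
  rw [mem_nbr] at hu hw hwv
  exact htf v u w hu hw hwv

theorem fiber_eq {q : ℕ} (H : SimpleGraph V)
    (htf : ∀ u v w, H.Adj u v → H.Adj v w → ¬ H.Adj u w) (v : V)
    (f₀ : V → Option (Fin q)) (hf₀ : PC H q f₀) (f : V → Option (Fin q)) :
    (PC H q f ∧ ∀ x, x ∉ nbr H v → f x = f₀ x) ↔ f ∈ Fintype.piFinset (TT H v f₀) := by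
  rw [Fintype.mem_piFinset]
  constructor
  · rintro ⟨hpc, hoff⟩ u
    unfold TT
    split_ifs with hu
    · rw [← av_eq_of_off H htf v f f₀ hoff u hu]
      rcases hfu : f u with _ | c
      · simp
      · rw [Finset.some_mem_insertNone, mem_av]
        intro w hw
        exact hpc u w (mem_nbr.mp hw) c hfu
    · rw [Finset.mem_singleton]
      exact hoff u hu
  · intro h
    have hoff : ∀ x, x ∉ nbr H v → f x = f₀ x := by
      intro x hx
      have := h x
      unfold TT at this
      rw [if_neg hx, Finset.mem_singleton] at this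
      exact this
    have hin : ∀ x, x ∈ nbr H v → ∀ c, f x = some c → ∀ w ∈ nbr H x, f₀ w ≠ some c := by
      intro x hx c hc
      have := h x
      unfold TT at this
      rw [if_pos hx, hc, Finset.some_mem_insertNone, mem_av] at this
      exact this
    refine ⟨?_, hoff⟩
    intro u w huw c hc
    by_cases hu : u ∈ nbr H v
    · have hw : w ∉ nbr H v := by
        intro hw
        rw [mem_nbr] at hu hw
        exact htf v u w hu huw hw
      rw [hoff w hw]
      exact hin u hu c hc w (mem_nbr.mpr huw)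
    · by_cases hw : w ∈ nbr H v
      · intro hwc
        have := hin w hw c hwc u (mem_nbr.mpr huw.symm)
        rw [hoff u hu] at hc
        exact this hc
      · rw [hoff u hu] at hc
        rw [hoff w hw]
        exact hf₀ u w huw c hc

/-! ### Expectation of the number of available colours -/

theorem exp_neg_inv_le (x : ℕ) (hx : 0 < x) : Real.exp (-(1 / (x : ℝ))) ≤ (x : ℝ) / (x + 1) := by
  have hx' : (0 : ℝ) < x := by exact_mod_cast hx
  rw [Real.exp_neg]
  have h1 : 1 + 1 / (x : ℝ) ≤ Real.exp (1 / (x : ℝ)) := by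
    have := Real.add_one_le_exp (1 / (x : ℝ)); linarith
  have h2 : (x : ℝ) / (x + 1) = (1 + 1 / (x : ℝ))⁻¹ := by field_simp
  rw [h2]
  exact inv_anti₀ (by positivity) h1

theorem sum_exp_ge {ι : Type*} (s : Finset ι) (a : ι → ℝ) (D : ℝ) (hs : 0 < (s.card : ℝ))
    (ha : ∑ c ∈ s, a c ≤ D) :
    (s.card : ℝ) * Real.exp (-(D / (s.card : ℝ))) ≤ ∑ c ∈ s, Real.exp (-(a c)) := by
  have h1 : ∀ c, Real.exp (-(D / (s.card : ℝ))) * (1 + (D / (s.card : ℝ) - a c)) ≤
      Real.exp (-(a c)) := by
    intro c
    have h2 : Real.exp (-(a c)) = Real.exp (-(D / (s.card : ℝ))) *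
        Real.exp (D / (s.card : ℝ) - a c) := by
      rw [← Real.exp_add]; congr 1; ring
    rw [h2]
    apply mul_le_mul_of_nonneg_left _ (Real.exp_pos _).le
    have := Real.add_one_le_exp (D / (s.card : ℝ) - a c)
    linarith
  have h3 := Finset.sum_le_sum (fun c (_ : c ∈ s) => h1 c)
  rw [← Finset.mul_sum, Finset.sum_add_distrib, Finset.sum_sub_distrib, Finset.sum_const,
    Finset.sum_const, nsmul_eq_mul, nsmul_eq_mul] at h3
  have h4 : (s.card : ℝ) * (D / (s.card : ℝ)) = D := by field_simp
  rw [h4] at h3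
  have h5 : (s.card : ℝ) * Real.exp (-(D / (s.card : ℝ))) ≤
      Real.exp (-(D / (s.card : ℝ))) * ((s.card : ℝ) * 1 + (D - ∑ c ∈ s, a c)) := by
    have h6 := (Real.exp_pos (-(D / (s.card : ℝ)))).le
    nlinarith
  linarith

/-- The number of members of the fibre not using `c` on `N(v)`. -/
theorem card_avoid_ge {q : ℕ} (H : SimpleGraph V) (v : V) (f₀ : V → Option (Fin q)) (c : Fin q) :
    Real.exp (-(∑ u ∈ nbr H v, if c ∈ av H f₀ u then 1 / ((av H f₀ u).card : ℝ) else 0)) *
      ((Fintype.piFinset (TT H v f₀)).card : ℝ) ≤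
    (((Fintype.piFinset (TT H v f₀)).filter (fun f => c ∈ av H f v)).card : ℝ) := by
  have h1 : (Fintype.piFinset (TT H v f₀)).filter (fun f => c ∈ av H f v) =
      Fintype.piFinset (fun u => if u ∈ nbr H v then (TT H v f₀ u).erase (some c)
        else TT H v f₀ u) := by
    ext f
    rw [Finset.mem_filter, Fintype.mem_piFinset, Fintype.mem_piFinset, mem_av]
    constructor
    · rintro ⟨h2, h3⟩ u
      split_ifs with hu
      · exact Finset.mem_erase.mpr ⟨h3 u hu, h2 u⟩
      · exact h2 u
    · intro h2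
      refine ⟨fun u => ?_, fun u hu => ?_⟩
      · have := h2 u
        split_ifs at this
        · exact Finset.mem_of_mem_erase this
        · exact this
      · have := h2 u
        rw [if_pos hu] at this
        exact Finset.ne_of_mem_erase this
  rw [h1, Fintype.card_piFinset, Fintype.card_piFinset, ← Finset.sum_neg_distrib, Real.exp_sum]
  push_cast
  -- compare factor by factor
  have h2 : ∏ u ∈ nbr H v, Real.exp (-(if c ∈ av H f₀ u then 1 / ((av H f₀ u).card : ℝ) else 0)) =
      ∏ u, if u ∈ nbr H v then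
        Real.exp (-(if c ∈ av H f₀ u then 1 / ((av H f₀ u).card : ℝ) else 0)) else 1 := by
    rw [Finset.prod_ite_mem, Finset.univ_inter]
  rw [h2, ← Finset.prod_mul_distrib]
  apply Finset.prod_le_prod
  · intro u _
    split_ifs <;> positivity
  · intro u _
    by_cases hu : u ∈ nbr H v
    · rw [if_pos hu, if_pos hu]
      unfold TT
      rw [if_pos hu, Finset.card_insertNone]
      by_cases hc : c ∈ av H f₀ u
      · rw [if_pos hc, Finset.card_erase_of_mem (by rw [Finset.some_mem_insertNone]; exact hc),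
          Finset.card_insertNone]
        have h3 := exp_neg_inv_le (av H f₀ u).card (Finset.card_pos.mpr ⟨c, hc⟩)
        have h4 : (0 : ℝ) < ((av H f₀ u).card : ℝ) + 1 := by positivity
        rw [le_div_iff₀ h4] at h3
        push_cast
        simpa using h3
      · rw [if_neg hc, Finset.erase_eq_of_notMem (by
          rw [Finset.some_mem_insertNone]; exact hc), Finset.card_insertNone]
        simp
    · rw [if_neg hu, if_neg hu]
      simp

theorem sum_av_ge {q : ℕ} (hq : 0 < q) (H : SimpleGraph V) (v : V) (f₀ : V → Option (Fin q))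
    (D : ℕ) (hD : (nbr H v).card ≤ D) :
    ((q : ℝ) * Real.exp (-((D : ℝ) / q))) * ((Fintype.piFinset (TT H v f₀)).card : ℝ) ≤
      ∑ f ∈ Fintype.piFinset (TT H v f₀), ((av H f v).card : ℝ) := by
  have h1 : ∑ f ∈ Fintype.piFinset (TT H v f₀), ((av H f v).card : ℝ) =
      ∑ c : Fin q, (((Fintype.piFinset (TT H v f₀)).filter (fun f => c ∈ av H f v)).card : ℝ) := by
    have h2 : ∀ f : V → Option (Fin q), ((av H f v).card : ℝ) =
        ∑ c : Fin q, if c ∈ av H f v then (1 : ℝ) else 0 := by
      intro f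
      rw [Finset.sum_ite_mem, Finset.univ_inter, Finset.sum_const, nsmul_eq_mul, mul_one]
    simp only [h2]
    rw [Finset.sum_comm]
    apply Finset.sum_congr rfl
    intro c _
    rw [Finset.card_filter]
    push_cast
    rfl
  rw [h1]
  set a : Fin q → ℝ := fun c =>
    ∑ u ∈ nbr H v, if c ∈ av H f₀ u then 1 / ((av H f₀ u).card : ℝ) else 0 with ha
  have h3 : ∑ c : Fin q, a c ≤ D := by
    simp only [ha]
    rw [Finset.sum_comm]
    calc ∑ u ∈ nbr H v, ∑ c : Fin q, (if c ∈ av H f₀ u then 1 / ((av H f₀ u).card : ℝ) else 0)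
        ≤ ∑ u ∈ nbr H v, (1 : ℝ) := by
          apply Finset.sum_le_sum
          intro u _
          rw [Finset.sum_ite_mem, Finset.univ_inter, Finset.sum_const, nsmul_eq_mul]
          rcases Nat.eq_zero_or_pos (av H f₀ u).card with h0 | h0
          · rw [h0]; simp
          · have : (0 : ℝ) < ((av H f₀ u).card : ℝ) := by exact_mod_cast h0
            field_simp
            exact le_rfl
      _ = ((nbr H v).card : ℝ) := by simp
      _ ≤ D := by exact_mod_cast hD
  have h4 := sum_exp_ge (Finset.univ : Finset (Fin q)) a D (by simp; exact_mod_cast hq) h3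
  rw [Finset.card_univ, Fintype.card_fin] at h4
  have h5 : ∀ c, Real.exp (-(a c)) * ((Fintype.piFinset (TT H v f₀)).card : ℝ) ≤
      (((Fintype.piFinset (TT H v f₀)).filter (fun f => c ∈ av H f v)).card : ℝ) :=
    fun c => card_avoid_ge H v f₀ c
  have h6 := Finset.sum_le_sum (fun c (_ : c ∈ (Finset.univ : Finset (Fin q))) => h5 c)
  rw [← Finset.sum_mul] at h6
  exact (mul_le_mul_of_nonneg_right h4 (by positivity)).trans h6

/-! ### Concentration -/

theorem av_card_lip {q : ℕ} (H : SimpleGraph V) (v : V) (i : V) (x : V → Option (Fin q))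
    (a b : Option (Fin q)) :
    |((av H (Function.update x i a) v).card : ℝ) - ((av H (Function.update x i b) v).card : ℝ)| ≤
      if i ∈ nbr H v then 1 else 0 := by
  split_ifs with hi
  · have key : ∀ a b : Option (Fin q), (av H (Function.update x i a) v).card ≤
        (av H (Function.update x i b) v).card + 1 := by
      intro a b
      have h1 : av H (Function.update x i a) v ⊆
          av H (Function.update x i b) v ∪ (Finset.univ.filter (fun c => b = some c)) := by
        intro c hc
        rw [Finset.mem_union]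
        by_cases hb : b = some c
        · right; simp [hb]
        · left
          rw [mem_av] at hc ⊢
          intro u hu
          by_cases hui : u = i
          · subst hui; rw [Function.update_self]; exact hb
          · rw [Function.update_of_ne hui]
            have := hc u hu
            rwa [Function.update_of_ne hui] at this
      have h2 : (Finset.univ.filter (fun c : Fin q => b = some c)).card ≤ 1 := by
        rw [Finset.card_le_one]
        intro c hc d hd
        simp only [Finset.mem_filter, Finset.mem_univ, true_and] at hc hd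
        rw [hc] at hd
        exact Option.some.inj hd
      calc (av H (Function.update x i a) v).card
          ≤ (av H (Function.update x i b) v ∪
            (Finset.univ.filter (fun c => b = some c))).card := Finset.card_le_card h1
        _ ≤ _ := Finset.card_union_le _ _
        _ ≤ _ := by omega
    have h1 := key a b
    have h2 := key b a
    rw [abs_le]
    have h1' : ((av H (Function.update x i a) v).card : ℝ) ≤
        ((av H (Function.update x i b) v).card : ℝ) + 1 := by exact_mod_cast h1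
    have h2' : ((av H (Function.update x i b) v).card : ℝ) ≤
        ((av H (Function.update x i a) v).card : ℝ) + 1 := by exact_mod_cast h2
    constructor <;> linarith
  · have : av H (Function.update x i a) v = av H (Function.update x i b) v := by
      apply av_congr
      intro u hu
      have : u ≠ i := fun h => hi (h ▸ hu)
      rw [Function.update_of_ne this, Function.update_of_ne this]
    rw [this, sub_self, abs_zero]

theorem few_av {q : ℕ} (hq : 0 < q) (H : SimpleGraph V) (v : V) (f₀ : V → Option (Fin q))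
    (D : ℕ) (hD0 : 0 < D) (hD : (nbr H v).card ≤ D) (m : ℝ) (hm0 : 0 ≤ m)
    (hm : m ≤ (q : ℝ) * Real.exp (-((D : ℝ) / q))) :
    (((Fintype.piFinset (TT H v f₀)).filter (fun f => ((av H f v).card : ℝ) ≤ m / 2)).card : ℝ) ≤
      Real.exp (-(m ^ 2) / (16 * D)) * ((Fintype.piFinset (TT H v f₀)).card : ℝ) := by
  have h := card_lower_tail (TT H v f₀) (TT_nonempty H v f₀)
    (fun i => if i ∈ nbr H v then (1 : ℝ) else 0) (fun i => by split_ifs <;> norm_num)
    (fun f => ((av H f v).card : ℝ)) (fun i x a b => av_card_lip H v i x a b) m (m / 2) D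
    ((mul_le_mul_of_nonneg_right hm (by positivity)).trans (sum_av_ge hq H v f₀ D hD))
    (by positivity) (by exact_mod_cast hD0) ?_
  · have e1 : m - m / 2 = m / 2 := by ring
    have e2 : -((m / 2) ^ 2) / (4 * (D : ℝ)) = -(m ^ 2) / (16 * D) := by
      field_simp; ring
    simp only [e1, e2] at h
    convert h using 3
  · have : ∀ i : V, (if i ∈ nbr H v then (1 : ℝ) else 0) ^ 2 =
        if i ∈ nbr H v then (1 : ℝ) else 0 := by
      intro i; split_ifs <;> norm_num
    simp only [this]
    rw [Finset.sum_ite_mem, Finset.univ_inter, Finset.sum_const, nsmul_eq_mul, mul_one]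
    exact_mod_cast hD

/-- Many blank neighbours for an available colour is unlikely. -/
theorem many_blank {q : ℕ} (H : SimpleGraph V)
    (htf : ∀ u v w, H.Adj u v → H.Adj v w → ¬ H.Adj u w) (v : V)
    (f₀ : V → Option (Fin q)) (hf₀ : PC H q f₀) (c : Fin q) (t : ℕ) :
    ((Fintype.piFinset (TT H v f₀)).filter (fun f => c ∈ av H f v ∧ t < bl H f v c)).card * 2 ^ t ≤
      (Fintype.piFinset (TT H v f₀)).card := by
  set w : V → Option (Fin q) → ℕ := fun u y =>
    if u ∈ nbr H v ∧ c ∈ av H f₀ u then (if y = none then 2 else if y = some c then 0 else 1)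
    else 1 with hw
  have hsum : ∀ u, ∑ y ∈ TT H v f₀ u, w u y = (TT H v f₀ u).card := by
    intro u
    by_cases h : u ∈ nbr H v ∧ c ∈ av H f₀ u
    · simp only [hw, h, true_and, if_true]
      unfold TT
      rw [if_pos h.1]
      have hT : Finset.insertNone (av H f₀ u) =
          insert none (insert (some c) (((av H f₀ u).erase c).map Function.Embedding.some)) := by
        ext y
        rcases y with _ | d
        · simp
        · rw [Finset.some_mem_insertNone]
          by_cases hd : d = c
          · subst hd; simp [h.2]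
          · simp [hd]
      have hn1 : (none : Option (Fin q)) ∉
          insert (some c) (((av H f₀ u).erase c).map Function.Embedding.some) := by simp
      have hn2 : (some c : Option (Fin q)) ∉
          ((av H f₀ u).erase c).map Function.Embedding.some := by simp
      rw [hT, Finset.sum_insert hn1, Finset.sum_insert hn2, Finset.card_insert_of_notMem hn1,
        Finset.card_insert_of_notMem hn2]
      have h3 : ∑ y ∈ ((av H f₀ u).erase c).map Function.Embedding.some,
          (if y = none then 2 else if y = some c then 0 else 1) =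
          (((av H f₀ u).erase c).map Function.Embedding.some).card := by
        rw [Finset.card_eq_sum_ones]
        apply Finset.sum_congr rfl
        intro y hy
        rw [Finset.mem_map] at hy
        obtain ⟨d, hd, rfl⟩ := hy
        have hdc : d ≠ c := Finset.ne_of_mem_erase hd
        simp [hdc]
      rw [h3]
      simp
      ring
    · simp only [hw, h, if_false, Finset.sum_const, smul_eq_mul, mul_one]
  have hprod : ∑ f ∈ Fintype.piFinset (TT H v f₀), ∏ u, w u (f u) =
      (Fintype.piFinset (TT H v f₀)).card := by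
    rw [← Finset.prod_univ_sum, Fintype.card_piFinset]
    exact Finset.prod_congr rfl (fun u _ => hsum u)
  calc ((Fintype.piFinset (TT H v f₀)).filter
        (fun f => c ∈ av H f v ∧ t < bl H f v c)).card * 2 ^ t
      = ∑ _f ∈ (Fintype.piFinset (TT H v f₀)).filter
          (fun f => c ∈ av H f v ∧ t < bl H f v c), 2 ^ t := by
        rw [Finset.sum_const, smul_eq_mul]
    _ ≤ ∑ f ∈ (Fintype.piFinset (TT H v f₀)).filter
          (fun f => c ∈ av H f v ∧ t < bl H f v c), ∏ u, w u (f u) := by
        apply Finset.sum_le_sum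
        intro f hf
        rw [Finset.mem_filter] at hf
        obtain ⟨hfT, hc, ht⟩ := hf
        have hfib := (fiber_eq H htf v f₀ hf₀ f).mpr hfT
        have h1 : ∏ u, w u (f u) =
            ∏ u ∈ (nbr H v).filter (fun u => f u = none ∧ c ∈ av H f u), 2 := by
          rw [← Finset.prod_subset (Finset.subset_univ
            ((nbr H v).filter (fun u => f u = none ∧ c ∈ av H f u)))]
          · apply Finset.prod_congr rfl
            intro u hu
            rw [Finset.mem_filter] at hu
            have h4 : c ∈ av H f₀ u := by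
              rw [← av_eq_of_off H htf v f f₀ hfib.2 u hu.1]; exact hu.2.2
            simp only [hw, hu.1, h4, hu.2.1, and_self, if_true]
          · intro u _ hu
            rw [Finset.mem_filter] at hu
            by_cases h : u ∈ nbr H v ∧ c ∈ av H f₀ u
            · have h4 : c ∈ av H f u := by
                rw [av_eq_of_off H htf v f f₀ hfib.2 u h.1]; exact h.2
              have h5 : f u ≠ none := fun h6 => hu ⟨h.1, h6, h4⟩
              have h6 : f u ≠ some c := (mem_av.mp hc) u h.1
              simp only [hw]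
              rw [if_pos h, if_neg h5, if_neg h6]
            · simp only [hw]
              rw [if_neg h]
        rw [h1, Finset.prod_const]
        have h2 : bl H f v c = ((nbr H v).filter (fun u => f u = none ∧ c ∈ av H f u)).card := rfl
        rw [← h2]
        exact Nat.pow_le_pow_right (by norm_num) ht.le
    _ ≤ ∑ f ∈ Fintype.piFinset (TT H v f₀), ∏ u, w u (f u) :=
        Finset.sum_le_sum_of_subset (Finset.filter_subset _ _)
    _ = _ := hprod

/-- Conditional probability of a bad event. -/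
theorem bad_prob {q : ℕ} (hq : 0 < q) (H : SimpleGraph V)
    (htf : ∀ u v w, H.Adj u v → H.Adj v w → ¬ H.Adj u w) (v : V)
    (f₀ : V → Option (Fin q)) (hf₀ : PC H q f₀) (D : ℕ) (hD0 : 0 < D) (hD : (nbr H v).card ≤ D)
    (m : ℝ) (hm0 : 0 ≤ m) (hm : m ≤ (q : ℝ) * Real.exp (-((D : ℝ) / q))) (t : ℕ) :
    (((Fintype.piFinset (TT H v f₀)).filter (fun f => Bad H (m / 2) t v f)).card : ℝ) ≤
      (Real.exp (-(m ^ 2) / (16 * D)) + q * (1 / 2) ^ t) *
        ((Fintype.piFinset (TT H v f₀)).card : ℝ) := by
  have hsub : (Fintype.piFinset (TT H v f₀)).filter (fun f => Bad H (m / 2) t v f) ⊆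
      (Fintype.piFinset (TT H v f₀)).filter (fun f => ((av H f v).card : ℝ) ≤ m / 2) ∪
      Finset.univ.biUnion (fun c : Fin q => (Fintype.piFinset (TT H v f₀)).filter
        (fun f => c ∈ av H f v ∧ t < bl H f v c)) := by
    intro f hf
    rw [Finset.mem_filter] at hf
    rw [Finset.mem_union]
    rcases hf.2 with h | ⟨c, h1, h2⟩
    · left; rw [Finset.mem_filter]; exact ⟨hf.1, h⟩
    · right
      rw [Finset.mem_biUnion]
      exact ⟨c, Finset.mem_univ _, Finset.mem_filter.mpr ⟨hf.1, h1, h2⟩⟩
  have h1 := (Finset.card_le_card hsub).trans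
    ((Finset.card_union_le _ _).trans (Nat.add_le_add_left Finset.card_biUnion_le _))
  have h2 : (((Fintype.piFinset (TT H v f₀)).filter (fun f => Bad H (m / 2) t v f)).card : ℝ) ≤
      (((Fintype.piFinset (TT H v f₀)).filter
        (fun f => ((av H f v).card : ℝ) ≤ m / 2)).card : ℝ) +
      ∑ c : Fin q, (((Fintype.piFinset (TT H v f₀)).filter
        (fun f => c ∈ av H f v ∧ t < bl H f v c)).card : ℝ) := by exact_mod_cast h1
  have h3 := few_av hq H v f₀ D hD0 hD m hm0 hm
  have h4 : ∀ c : Fin q, (((Fintype.piFinset (TT H v f₀)).filter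
      (fun f => c ∈ av H f v ∧ t < bl H f v c)).card : ℝ) ≤
      (1 / 2) ^ t * ((Fintype.piFinset (TT H v f₀)).card : ℝ) := by
    intro c
    have h5 := many_blank H htf v f₀ hf₀ c t
    have h6 : (((Fintype.piFinset (TT H v f₀)).filter
      (fun f => c ∈ av H f v ∧ t < bl H f v c)).card : ℝ) * 2 ^ t ≤
      ((Fintype.piFinset (TT H v f₀)).card : ℝ) := by exact_mod_cast h5
    rw [one_div, inv_pow, inv_mul_eq_div, le_div_iff₀ (by positivity)]
    exact h6
  have h5 := Finset.sum_le_sum (fun c (_ : c ∈ (Finset.univ : Finset (Fin q))) => h4 c)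
  rw [Finset.sum_const, Finset.card_univ, Fintype.card_fin, nsmul_eq_mul] at h5
  have h6 : (Real.exp (-(m ^ 2) / (16 * D)) + q * (1 / 2) ^ t) *
        ((Fintype.piFinset (TT H v f₀)).card : ℝ) =
      Real.exp (-(m ^ 2) / (16 * D)) * ((Fintype.piFinset (TT H v f₀)).card : ℝ) +
      q * ((1 / 2) ^ t * ((Fintype.piFinset (TT H v f₀)).card : ℝ)) := by ring
  rw [h6]
  linarith

/-! ### Locality -/

/-- Vertices whose bad event may depend on the colours of `N(v)`. -/
noncomputable def Gam (H : SimpleGraph V) (v : V) : Finset V :=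
  (nbr H v).biUnion (fun w => nbr H w ∪ (nbr H w).biUnion (nbr H))

theorem card_Gam (H : SimpleGraph V) (D : ℕ) (hD0 : 0 < D) (hD : ∀ v, (nbr H v).card ≤ D) (v : V) :
    (Gam H v).card ≤ 2 * D ^ 3 := by
  unfold Gam
  have h1 : ∀ w, (nbr H w ∪ (nbr H w).biUnion (nbr H)).card ≤ D + D * D := by
    intro w
    calc _ ≤ (nbr H w).card + ((nbr H w).biUnion (nbr H)).card := Finset.card_union_le _ _
      _ ≤ D + (nbr H w).card * D :=
        Nat.add_le_add (hD w) (Finset.card_biUnion_le_card_mul _ _ _ (fun x _ => hD x))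
      _ ≤ D + D * D := Nat.add_le_add_left (Nat.mul_le_mul_right _ (hD w)) _
  calc _ ≤ (nbr H v).card * (D + D * D) :=
        Finset.card_biUnion_le_card_mul _ _ _ (fun x _ => h1 x)
    _ ≤ D * (D + D * D) := Nat.mul_le_mul_right _ (hD v)
    _ ≤ 2 * D ^ 3 := by nlinarith [Nat.mul_le_mul_left D (Nat.mul_le_mul_left D hD0)]

theorem bad_local {q : ℕ} (H : SimpleGraph V) (m : ℝ) (t : ℕ) (v u : V) (hu : u ∉ Gam H v)
    (f f' : V → Option (Fin q)) (h : ∀ x, x ∉ nbr H v → f x = f' x) :
    Bad H m t u f → Bad H m t u f' := by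
  have hN : ∀ z ∈ nbr H u, z ∉ nbr H v := by
    intro z hz hzv
    apply hu
    unfold Gam
    rw [Finset.mem_biUnion]
    exact ⟨z, hzv, Finset.mem_union_left _ (mem_nbr.mpr (mem_nbr.mp hz).symm)⟩
  have hNN : ∀ z ∈ nbr H u, ∀ w ∈ nbr H z, w ∉ nbr H v := by
    intro z hz w hw hwv
    apply hu
    unfold Gam
    rw [Finset.mem_biUnion]
    refine ⟨w, hwv, Finset.mem_union_right _ ?_⟩
    rw [Finset.mem_biUnion]
    exact ⟨z, mem_nbr.mpr (mem_nbr.mp hw).symm, mem_nbr.mpr (mem_nbr.mp hz).symm⟩
  have e1 : av H f u = av H f' u := av_congr H f f' u (fun z hz => h z (hN z hz))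
  have e2 : ∀ z ∈ nbr H u, av H f z = av H f' z := fun z hz =>
    av_congr H f f' z (fun w hw => h w (hNN z hz w hw))
  have e3 : ∀ c, bl H f u c = bl H f' u c := by
    intro c
    unfold bl
    congr 1
    apply Finset.filter_congr
    intro z hz
    rw [e2 z hz, h z (hN z hz)]
  intro hb
  unfold Bad at hb ⊢
  rw [← e1]
  simpa only [← e3] using hb

/-- First step: a partial colouring without bad vertices. -/
theorem exists_partial {q : ℕ} (hq : 0 < q) (H : SimpleGraph V)
    (htf : ∀ u v w, H.Adj u v → H.Adj v w → ¬ H.Adj u w) (D : ℕ) (hD0 : 0 < D)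
    (hD : ∀ v, (nbr H v).card ≤ D) (m : ℝ) (hm0 : 0 ≤ m)
    (hm : m ≤ (q : ℝ) * Real.exp (-((D : ℝ) / q))) (t : ℕ)
    (hp : Real.exp (-(m ^ 2) / (16 * D)) + q * (1 / 2) ^ t ≤ 1 / (8 * (D : ℝ) ^ 3)) :
    ∃ f : V → Option (Fin q), PC H q f ∧ ∀ v, ¬ Bad H (m / 2) t v f := by
  have hD1 : (1 : ℝ) ≤ D := by exact_mod_cast hD0
  have hD3 : (1 : ℝ) ≤ (D : ℝ) ^ 3 := one_le_pow₀ hD1
  have hmem : ∀ f : V → Option (Fin q), f ∈ Finset.univ.filter (PC H q) ↔ PC H q f := by
    intro f; simp
  have hbad : ∀ v, ∀ f₀ ∈ (Finset.univ.filter (PC H q)),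
      (((Finset.univ.filter (PC H q)).filter
        (fun f => (∀ x ∉ {x | x ∈ nbr H v}, f x = f₀ x) ∧ Bad H (m / 2) t v f)).card : ℝ) ≤
      (Real.exp (-(m ^ 2) / (16 * D)) + q * (1 / 2) ^ t) *
      (((Finset.univ.filter (PC H q)).filter
        (fun f => ∀ x ∉ {x | x ∈ nbr H v}, f x = f₀ x)).card : ℝ) := by
    intro v f₀ hf₀
    rw [hmem] at hf₀
    have e1 : (Finset.univ.filter (PC H q)).filter
        (fun f => ∀ x ∉ {x | x ∈ nbr H v}, f x = f₀ x) = Fintype.piFinset (TT H v f₀) := by
      ext f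
      rw [Finset.mem_filter, hmem, ← fiber_eq H htf v f₀ hf₀ f]
      rfl
    have e2 : (Finset.univ.filter (PC H q)).filter
        (fun f => (∀ x ∉ {x | x ∈ nbr H v}, f x = f₀ x) ∧ Bad H (m / 2) t v f) =
        (Fintype.piFinset (TT H v f₀)).filter (fun f => Bad H (m / 2) t v f) := by
      rw [← e1]
      ext f
      simp only [Finset.mem_filter]
      tauto
    rw [e1, e2]
    exact bad_prob hq H htf v f₀ hf₀ D hD0 (hD v) m hm0 hm t
  have hne : (Finset.univ.filter (PC H q)).Nonempty :=
    ⟨fun _ => none, by rw [hmem]; intro u v _ c hc; simp at hc⟩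
  have hp4 : Real.exp (-(m ^ 2) / (16 * D)) + q * (1 / 2) ^ t ≤ 1 / 4 := by
    refine hp.trans ?_
    rw [div_le_div_iff₀ (by positivity) (by norm_num)]
    linarith
  have hpd : 4 * (Real.exp (-(m ^ 2) / (16 * D)) + q * (1 / 2) ^ t) * ((2 * D ^ 3 : ℕ) : ℝ) ≤
      1 := by
    have h1 : (0 : ℝ) < 8 * (D : ℝ) ^ 3 := by positivity
    rw [le_div_iff₀ h1] at hp
    push_cast
    linarith
  obtain ⟨f, hf, hf2⟩ := lll_resample (Finset.univ.filter (PC H q)) hne
    (fun v f => Bad H (m / 2) t v f) (fun v => {x | x ∈ nbr H v}) (Gam H) (2 * D ^ 3)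
    (card_Gam H D hD0 hD) (Real.exp (-(m ^ 2) / (16 * D)) + q * (1 / 2) ^ t) (by positivity)
    hp4 hpd
    (fun v u _ hu f _ f' _ h => bad_local H (m / 2) t v u hu f f' (fun x hx => h x hx))
    (fun v f₀ hf₀ => by convert hbad v f₀ hf₀)
  exact ⟨f, (hmem f).mp hf, hf2⟩

/-! ### Second step: completing the colouring -/

theorem complete {q : ℕ} (H : SimpleGraph V) (f : V → Option (Fin q)) (hf : PC H q f)
    (t : ℕ) (ht : 0 < t) (hav : ∀ v, 16 * t ≤ (av H f v).card)
    (hbl : ∀ v, ∀ c ∈ av H f v, bl H f v c ≤ t) :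
    ∃ g : V → Fin q, ∀ u v, H.Adj u v → g u ≠ g v := by
  -- sublists of size exactly 16 t
  have hL : ∀ v, ∃ L : Finset (Fin q), L ⊆ av H f v ∧ L.card = 16 * t := fun v =>
    Finset.exists_subset_card_eq (hav v)
  choose L hLsub hLcard using hL
  have hLne : ∀ v, (L v).Nonempty := fun v => by
    rw [← Finset.card_pos, hLcard]; omega
  -- static condition
  set St : V × V × Fin q → Prop := fun e =>
    H.Adj e.1 e.2.1 ∧ f e.1 = none ∧ f e.2.1 = none ∧ e.2.2 ∈ L e.1 ∧ e.2.2 ∈ L e.2.1 with hSt
  set A : V × V × Fin q → (V → Fin q) → Prop := fun e g =>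
    St e ∧ g e.1 = e.2.2 ∧ g e.2.1 = e.2.2 with hA
  set Γ : V × V × Fin q → Finset (V × V × Fin q) := fun e =>
    Finset.univ.filter (fun e' => St e' ∧
      (e'.1 = e.1 ∨ e'.1 = e.2.1 ∨ e'.2.1 = e.1 ∨ e'.2.1 = e.2.1)) with hΓ
  -- counting
  have hone : ∀ u : V, (Finset.univ.filter (fun e' : V × V × Fin q => St e' ∧ e'.1 = u)).card ≤
      16 * t * t := by
    intro u
    have hsub : Finset.univ.filter (fun e' : V × V × Fin q => St e' ∧ e'.1 = u) ⊆
        (L u).biUnion (fun c => ((nbr H u).filter (fun w => f w = none ∧ c ∈ av H f w)).image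
          (fun w => (u, w, c))) := by
      rintro ⟨a, w, c⟩ he
      rw [Finset.mem_filter] at he
      obtain ⟨-, ⟨h1, h2, h3, h4, h5⟩, h6⟩ := he
      simp only at h1 h2 h3 h4 h5 h6
      subst h6
      rw [Finset.mem_biUnion]
      refine ⟨c, h4, ?_⟩
      rw [Finset.mem_image]
      exact ⟨w, Finset.mem_filter.mpr ⟨mem_nbr.mpr h1, h3, hLsub w h5⟩, rfl⟩
    calc _ ≤ _ := Finset.card_le_card hsub
      _ ≤ (L u).card * t := by
        apply Finset.card_biUnion_le_card_mul
        intro c hc
        exact Finset.card_image_le.trans (hbl u c (hLsub u hc))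
      _ = 16 * t * t := by rw [hLcard]
  have hone' : ∀ u : V,
      (Finset.univ.filter (fun e' : V × V × Fin q => St e' ∧ e'.2.1 = u)).card ≤ 16 * t * t := by
    intro u
    refine le_trans ?_ (hone u)
    apply Finset.card_le_card_of_injOn (fun e => (e.2.1, e.1, e.2.2))
    · rintro ⟨a, w, c⟩ he
      simp only [Finset.coe_filter, Finset.mem_univ, true_and, Set.mem_ofPred_eq] at he ⊢
      obtain ⟨⟨h1, h2, h3, h4, h5⟩, h6⟩ := he
      exact ⟨⟨h1.symm, h3, h2, h5, h4⟩, h6⟩
    · rintro ⟨a, w, c⟩ _ ⟨a', w', c'⟩ _ h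
      simp only [Prod.mk.injEq] at h ⊢
      exact ⟨h.2.1, h.1, h.2.2⟩
  have hΓcard : ∀ e, (Γ e).card ≤ 64 * t * t := by
    intro e
    have hsub : Γ e ⊆ (Finset.univ.filter (fun e' : V × V × Fin q => St e' ∧ e'.1 = e.1) ∪
        Finset.univ.filter (fun e' : V × V × Fin q => St e' ∧ e'.1 = e.2.1)) ∪
        (Finset.univ.filter (fun e' : V × V × Fin q => St e' ∧ e'.2.1 = e.1) ∪
        Finset.univ.filter (fun e' : V × V × Fin q => St e' ∧ e'.2.1 = e.2.1)) := by
      intro e' he'
      simp only [hΓ, Finset.mem_filter, Finset.mem_univ, true_and] at he'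
      simp only [Finset.mem_union, Finset.mem_filter, Finset.mem_univ, true_and]
      tauto
    have h1 := hone e.1
    have h2 := hone e.2.1
    have h3 := hone' e.1
    have h4 := hone' e.2.1
    calc _ ≤ _ := Finset.card_le_card hsub
      _ ≤ _ := Finset.card_union_le _ _
      _ ≤ _ := Nat.add_le_add (Finset.card_union_le _ _) (Finset.card_union_le _ _)
      _ ≤ 64 * t * t := by nlinarith
  have hW : (Fintype.piFinset L).Nonempty := by
    rw [Fintype.piFinset_nonempty]; exact hLne
  have htpos : (1 : ℝ) ≤ t := by exact_mod_cast ht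
  have ht2 : (1 : ℝ) ≤ (t : ℝ) ^ 2 := one_le_pow₀ htpos
  obtain ⟨g, hg, hgA⟩ := lll_resample (Fintype.piFinset L) hW A
    (fun e => {x | x = e.1 ∨ x = e.2.1}) Γ (64 * t * t) hΓcard (1 / (16 * (t : ℝ)) ^ 2)
    (by positivity) (by
      rw [div_le_div_iff₀ (by positivity) (by norm_num)]
      nlinarith) (by
      push_cast
      rw [mul_pow]
      have : (4 * (1 / (16 ^ 2 * (t : ℝ) ^ 2)) * (64 * (t : ℝ) * t)) = 1 := by
        field_simp; norm_num
      rw [this]) (by
      rintro e e' hne he' g hg g' hg' hoff ⟨hst, h1, h2⟩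
      have hn : ¬ (e'.1 = e.1 ∨ e'.1 = e.2.1 ∨ e'.2.1 = e.1 ∨ e'.2.1 = e.2.1) := by
        intro hcon
        apply he'
        simp only [hΓ, Finset.mem_filter, Finset.mem_univ, true_and]
        exact ⟨hst, hcon⟩
      push Not at hn
      refine ⟨hst, ?_, ?_⟩
      · rw [← hoff e'.1 (by simp only [Set.mem_ofPred_eq, not_or]; exact ⟨hn.1, hn.2.1⟩)]
        exact h1
      · rw [← hoff e'.2.1 (by
          simp only [Set.mem_ofPred_eq, not_or]; exact ⟨hn.2.2.1, hn.2.2.2⟩)]
        exact h2) (by
      rintro ⟨u, w, c⟩ g₀ hg₀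
      by_cases hst : St (u, w, c)
      · -- the fibre is a product
        have huw : u ≠ w := H.ne_of_adj hst.1
        have e1 : (Fintype.piFinset L).filter
            (fun g => ∀ x ∉ {x | x = u ∨ x = w}, g x = g₀ x) =
            Fintype.piFinset (fun x => if x = u ∨ x = w then L x else {g₀ x}) := by
          ext g
          rw [Finset.mem_filter, Fintype.mem_piFinset, Fintype.mem_piFinset]
          constructor
          · rintro ⟨h1, h2⟩ x
            split_ifs with hx
            · exact h1 x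
            · rw [Finset.mem_singleton]; exact h2 x hx
          · intro h
            refine ⟨fun x => ?_, fun x hx => ?_⟩
            · have := h x
              split_ifs at this with hx
              · exact this
              · rw [Finset.mem_singleton] at this
                rw [this]
                exact (Fintype.mem_piFinset.mp hg₀) x
            · have := h x
              have hx' : ¬ (x = u ∨ x = w) := hx
              rw [if_neg hx', Finset.mem_singleton] at this
              exact this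
        have e2 : (((Fintype.piFinset L).filter
            (fun g => ∀ x ∉ {x | x = u ∨ x = w}, g x = g₀ x)).card : ℝ) =
            (16 * (t : ℝ)) ^ 2 := by
          rw [e1, Fintype.card_piFinset]
          have h3 : ∏ x : V, (if x = u ∨ x = w then L x else {g₀ x}).card =
              ∏ x ∈ ({u, w} : Finset V), 16 * t := by
            rw [← Finset.prod_subset (Finset.subset_univ ({u, w} : Finset V))]
            · apply Finset.prod_congr rfl
              intro x hx
              rw [Finset.mem_insert, Finset.mem_singleton] at hx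
              rw [if_pos hx, hLcard]
            · intro x _ hx
              rw [Finset.mem_insert, Finset.mem_singleton] at hx
              rw [if_neg hx, Finset.card_singleton]
          rw [h3, Finset.prod_const, Finset.card_pair huw]
          push_cast
          ring
        have e3 : ((Fintype.piFinset L).filter
            (fun g => (∀ x ∉ {x | x = u ∨ x = w}, g x = g₀ x) ∧ A (u, w, c) g)).card ≤ 1 := by
          rw [Finset.card_le_one]
          intro g hg g' hg'
          rw [Finset.mem_filter] at hg hg'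
          obtain ⟨-, h1, -, h2, h3⟩ := hg
          obtain ⟨-, h1', -, h2', h3'⟩ := hg'
          simp only at h2 h3 h2' h3'
          funext x
          by_cases hx : x = u ∨ x = w
          · rcases hx with rfl | rfl
            · rw [h2, h2']
            · rw [h3, h3']
          · rw [h1 x hx, h1' x hx]
        have e3' : (((Fintype.piFinset L).filter
            (fun g => (∀ x ∉ {x | x = u ∨ x = w}, g x = g₀ x) ∧ A (u, w, c) g)).card : ℝ) ≤
            1 := by exact_mod_cast e3
        have e4 : 1 / (16 * (t : ℝ)) ^ 2 * (16 * (t : ℝ)) ^ 2 = 1 := by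
          have : (16 * (t : ℝ)) ^ 2 ≠ 0 := by positivity
          field_simp
        calc _ ≤ (1 : ℝ) := by convert e3'
          _ = 1 / (16 * (t : ℝ)) ^ 2 * (16 * (t : ℝ)) ^ 2 := e4.symm
          _ = _ := by rw [← e2]; congr!
      · have : (Fintype.piFinset L).filter
            (fun g => (∀ x ∉ {x | x = u ∨ x = w}, g x = g₀ x) ∧ A (u, w, c) g) = ∅ := by
          apply Finset.filter_false_of_mem
          rintro g _ ⟨-, h, -⟩
          exact hst h
        have h0 : (((Fintype.piFinset L).filter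
            (fun g => (∀ x ∉ {x | x = u ∨ x = w}, g x = g₀ x) ∧ A (u, w, c) g)).card : ℝ) ≤
            0 := by rw [this]; simp
        calc _ ≤ (0 : ℝ) := by convert h0
          _ ≤ _ := by positivity)
  refine ⟨fun v => (f v).getD (g v), ?_⟩
  have hgL : ∀ v, g v ∈ L v := Fintype.mem_piFinset.mp hg
  intro u w huw heq
  rcases hfu : f u with _ | c <;> rcases hfw : f w with _ | d
  · simp only [hfu, hfw, Option.getD_none] at heq
    apply hgA (u, w, g u)
    exact ⟨⟨huw, hfu, hfw, hgL u, heq ▸ hgL w⟩, rfl, heq.symm⟩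
  · simp only [hfu, hfw, Option.getD_none, Option.getD_some] at heq
    have h1 := mem_av.mp (hLsub u (hgL u)) w (mem_nbr.mpr huw)
    exact h1 (by rw [hfw, heq])
  · simp only [hfu, hfw, Option.getD_none, Option.getD_some] at heq
    have h1 := mem_av.mp (hLsub w (hgL w)) u (mem_nbr.mpr huw.symm)
    exact h1 (by rw [hfu, heq])
  · simp only [hfu, hfw, Option.getD_some] at heq
    exact hf u w huw c hfu (by rw [hfw, heq])

/-! ### Parameters -/

open Filter Topology in
theorem eventually_small (ε κ : ℝ) (hε : 0 < ε) (hκ : 0 < κ) :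
    ∀ᶠ D : ℕ in atTop, Real.exp (-(κ ^ 2 / 16 * D)) +
      2 * (ε * D + 1) * Real.exp (-(Real.log 2 * κ / 32 * D)) ≤ 1 / (8 * (D : ℝ) ^ 3) := by
  have h1 : ∀ (n : ℕ) (b : ℝ), 0 < b →
      Tendsto (fun D : ℕ => (D : ℝ) ^ n * Real.exp (-(b * D))) atTop (𝓝 0) := by
    intro n b hb
    have h := (tendsto_rpow_mul_exp_neg_mul_atTop_nhds_zero n b hb).comp
      (tendsto_natCast_atTop_atTop (R := ℝ))
    refine h.congr (fun D => ?_)
    simp only [Function.comp_apply, Real.rpow_natCast, neg_mul]
  have hb1 : 0 < κ ^ 2 / 16 := by positivity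
  have hb2 : 0 < Real.log 2 * κ / 32 := by
    have := Real.log_pos (by norm_num : (1 : ℝ) < 2)
    positivity
  have h2 : Tendsto (fun D : ℕ => 8 * ((D : ℝ) ^ 3 * Real.exp (-(κ ^ 2 / 16 * D))) +
      (16 * ε * ((D : ℝ) ^ 4 * Real.exp (-(Real.log 2 * κ / 32 * D))) +
       16 * ((D : ℝ) ^ 3 * Real.exp (-(Real.log 2 * κ / 32 * D))))) atTop (𝓝 0) := by
    have := ((h1 3 _ hb1).const_mul 8).add
      (((h1 4 _ hb2).const_mul (16 * ε)).add ((h1 3 _ hb2).const_mul 16))
    simpa using this
  have h3 : ∀ᶠ D : ℕ in atTop, 8 * ((D : ℝ) ^ 3 * Real.exp (-(κ ^ 2 / 16 * D))) +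
      (16 * ε * ((D : ℝ) ^ 4 * Real.exp (-(Real.log 2 * κ / 32 * D))) +
       16 * ((D : ℝ) ^ 3 * Real.exp (-(Real.log 2 * κ / 32 * D)))) < 1 :=
    h2.eventually (gt_mem_nhds (by norm_num))
  filter_upwards [h3, eventually_gt_atTop 0] with D hD hD0
  have hDpos : (0 : ℝ) < D := by exact_mod_cast hD0
  rw [le_div_iff₀ (by positivity)]
  nlinarith [hD]

theorem main (ε : ℝ) (hε : 0 < ε) : ∃ D₀ : ℕ, ∀ D : ℕ, D₀ ≤ D →
    ∀ (V : Type) [Fintype V] (H : SimpleGraph V), (∀ v, (nbr H v).card ≤ D) →
      (∀ u v w, H.Adj u v → H.Adj v w → ¬ H.Adj u w) →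
      ∃ g : V → Fin ⌈ε * (D : ℝ)⌉₊, ∀ u v, H.Adj u v → g u ≠ g v := by
  set κ : ℝ := ε * Real.exp (-(1 / ε)) with hκ
  have hκ0 : 0 < κ := by positivity
  obtain ⟨D₁, hD₁⟩ := Filter.eventually_atTop.mp (eventually_small ε κ hε hκ0)
  obtain ⟨D₂, hD₂⟩ := exists_nat_gt (32 / κ)
  refine ⟨max D₁ (max D₂ 1), fun D hD V _ H hdeg htf => ?_⟩
  have hD1 : D₁ ≤ D := (le_max_left _ _).trans hD
  have hD2 : D₂ ≤ D := ((le_max_left _ _).trans (le_max_right _ _)).trans hD
  have hD0 : 0 < D := lt_of_lt_of_le Nat.one_pos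
    (((le_max_right _ _).trans (le_max_right _ _)).trans hD)
  have hDpos : (0 : ℝ) < D := by exact_mod_cast hD0
  have hsmall := hD₁ D hD1
  set q : ℕ := ⌈ε * (D : ℝ)⌉₊ with hq
  have hqge : ε * D ≤ q := Nat.le_ceil _
  have hqpos' : (0 : ℝ) < q := lt_of_lt_of_le (by positivity) hqge
  have hqpos : 0 < q := by exact_mod_cast hqpos'
  have hqle : (q : ℝ) ≤ ε * D + 1 := (Nat.ceil_lt_add_one (by positivity)).le
  set t : ℕ := ⌊κ * D / 32⌋₊ with ht
  have htle : (t : ℝ) ≤ κ * D / 32 := Nat.floor_le (by positivity)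
  have htlt : κ * D / 32 < t + 1 := Nat.lt_floor_add_one _
  have hκD : 32 < κ * D := by
    have h1 : 32 / κ < D := lt_of_lt_of_le hD₂ (by exact_mod_cast hD2)
    rw [div_lt_iff₀ hκ0] at h1
    linarith
  have htpos : 0 < t := by
    rw [ht, Nat.floor_pos]
    linarith
  have hm : κ * D ≤ (q : ℝ) * Real.exp (-((D : ℝ) / q)) := by
    have h1 : (D : ℝ) / q ≤ 1 / ε := by
      rw [div_le_div_iff₀ hqpos' hε]; linarith
    have h2 : Real.exp (-(1 / ε)) ≤ Real.exp (-((D : ℝ) / q)) := Real.exp_le_exp.mpr (by linarith)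
    calc κ * D = (ε * D) * Real.exp (-(1 / ε)) := by rw [hκ]; ring
      _ ≤ q * Real.exp (-((D : ℝ) / q)) :=
        mul_le_mul hqge h2 (Real.exp_pos _).le hqpos'.le
  have hp : Real.exp (-((κ * D) ^ 2) / (16 * D)) + q * (1 / 2) ^ t ≤ 1 / (8 * (D : ℝ) ^ 3) := by
    refine le_trans ?_ hsmall
    have e1 : -((κ * D) ^ 2) / (16 * (D : ℝ)) = -(κ ^ 2 / 16 * D) := by
      field_simp
    rw [e1]
    have h2 : ((1 : ℝ) / 2) ^ t ≤ 2 * Real.exp (-(Real.log 2 * κ / 32 * D)) := by
      have h3 : ((1 : ℝ) / 2) ^ t = Real.exp (-(Real.log 2 * t)) := by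
        rw [Real.exp_neg, mul_comm, Real.exp_nat_mul, Real.exp_log (by norm_num)]
        rw [one_div, inv_pow]
      have h4 : (2 : ℝ) = Real.exp (Real.log 2) := (Real.exp_log (by norm_num)).symm
      rw [h3]
      calc Real.exp (-(Real.log 2 * t)) ≤
          Real.exp (Real.log 2 + -(Real.log 2 * κ / 32 * D)) := by
            apply Real.exp_le_exp.mpr
            have := Real.log_pos (by norm_num : (1 : ℝ) < 2)
            nlinarith
        _ = 2 * Real.exp (-(Real.log 2 * κ / 32 * D)) := by
            rw [Real.exp_add, Real.exp_log (by norm_num)]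
    have h5 : (q : ℝ) * (1 / 2) ^ t ≤
        (ε * D + 1) * (2 * Real.exp (-(Real.log 2 * κ / 32 * D))) :=
      mul_le_mul hqle h2 (by positivity) (by positivity)
    linarith
  obtain ⟨f, hf, hfB⟩ := exists_partial hqpos H htf D hD0 hdeg (κ * D) (by positivity) hm t hp
  refine complete H f hf t htpos ?_ ?_
  · intro v
    have h1 : ¬ ((av H f v).card : ℝ) ≤ κ * D / 2 := fun h => hfB v (Or.inl h)
    push Not at h1
    have h2 : ((16 * t : ℕ) : ℝ) ≤ ((av H f v).card : ℝ) := by
      push_cast
      linarith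
    exact_mod_cast h2
  · intro v c hc
    by_contra hcon
    push Not at hcon
    exact hfB v (Or.inr ⟨c, hc, hcon⟩)

end TriFree

/-- Triangle-free graphs of maximum degree at most `D` are `⌈ε D⌉`-colourable for large `D`. -/
theorem triangleFree_colorable (ε : ℝ) (hε : 0 < ε) : ∃ D₀ : ℕ, ∀ D : ℕ, D₀ ≤ D →
    ∀ (V : Type) [Fintype V] (H : SimpleGraph V), (∀ v, (nbr H v).card ≤ D) →
      (∀ u v w, H.Adj u v → H.Adj v w → ¬ H.Adj u w) →
      ∃ col : V → ℕ, (∀ v, col v < ⌈ε * (D : ℝ)⌉₊) ∧ ∀ u v, H.Adj u v → col u ≠ col v := by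
  obtain ⟨D₀, h⟩ := TriFree.main ε hε
  refine ⟨D₀, fun D hD V _ H hdeg htf => ?_⟩
  obtain ⟨g, hg⟩ := h D hD V H hdeg htf
  refine ⟨fun v => (g v : ℕ), fun v => (g v).2, fun u v huv heq => hg u v huv (Fin.ext heq)⟩

end Pool.Agent.MP_e50225_co
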