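/-
MP_e50225_co : assembly of the colouring from independent copies of the local rule (helper19).
-/
import Pool.Agent.MP_e50225_co.Greedy
import Pool.Agent.MP_e50225_co.LLLProduct
import Pool.Agent.MP_e50225_co.TriFree
import Pool.Agent.MP_e50225_co.Extract
import Pool.Agent.MP_e50225_co.McDiarmid

set_option autoImplicit false

namespace Pool.Agent.MP_e50225_co

open Finset

namespace Assembly

lemma divmod_unique {i j a b q : ℕ} (ha : a < q) (hb : b < q) (h : i * q + a = j * q + b) :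
    i = j ∧ a = b := by
  have hq0 : 0 < q := by omega
  have hij : i = j := by
    have h5 : (i * q + a) / q = (j * q + b) / q := by rw [h]
    rw [Nat.mul_comm i q, Nat.mul_comm j q, Nat.mul_add_div hq0,
      Nat.mul_add_div hq0, Nat.div_eq_of_lt ha, Nat.div_eq_of_lt hb] at h5
    simpa using h5
  subst hij
  exact ⟨rfl, by omega⟩

open Classical in
/-- Upper tail of the number of uncovered neighbours. -/
lemma prob_bad {V Λ : Type} [Fintype V] [DecidableEq V] [Fintype Λ] [Nonempty Λ]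
    (G : SimpleGraph V) (Δ : ℕ) (hdeg : ∀ v, (nbr G v).card ≤ Δ) (J : (V → Λ) → V → Prop)
    (ρ : ℝ) (hprob : ∀ v, ρ ≤ pr (fun ω : V → Λ => J ω v)) (b : ℕ)
    (hcap : ∀ ω w, ((nbr G w).filter (fun u => J ω u)).card ≤ b) (t : ℕ) (m0 s : ℝ)
    (hm0 : (Δ : ℝ) * (1 - ρ) ^ t ≤ m0) (hs : 0 ≤ s) (v : V) :
    pr (fun ω : V → (Fin t → Λ) => m0 + s ≤
      (((nbr G v).filter (fun u => ∀ i, ¬ J (fun w => ω w i) u)).card : ℝ)) ≤
      Real.exp (-2 * s ^ 2 / (t * (b : ℝ) ^ 2)) := by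
  set f : (Fin t → (V → Λ)) → ℝ :=
    fun y => (((nbr G v).filter (fun u => ∀ i, ¬ J (y i) u)).card : ℝ) with hf
  have h1 : pr (fun ω : V → (Fin t → Λ) => m0 + s ≤
      (((nbr G v).filter (fun u => ∀ i, ¬ J (fun w => ω w i) u)).card : ℝ)) =
      pr (fun y : Fin t → (V → Λ) => m0 + s ≤ f y) :=
    pr_equiv (Equiv.piComm (fun (_ : V) (_ : Fin t) => Λ)) (fun y => m0 + s ≤ f y)
  rw [h1, pr_eq_card]
  -- the mean
  have hmean : avg f ≤ m0 := by
    rw [hf, avg_card_filter]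
    refine le_trans ?_ hm0
    have hone : ∀ u ∈ nbr G v, pr (fun y : Fin t → (V → Λ) => ∀ i, ¬ J (y i) u) ≤ (1 - ρ) ^ t := by
      intro u _
      rw [pr_all_copies (fun ω : V → Λ => ¬ J ω u) t, pr_not]
      have h2 := hprob u
      have h3 := pr_le_one (fun ω : V → Λ => J ω u)
      exact pow_le_pow_left₀ (by linarith) (by linarith) t
    calc ∑ u ∈ nbr G v, pr (fun y : Fin t → (V → Λ) => ∀ i, ¬ J (y i) u)
        ≤ ∑ _u ∈ nbr G v, (1 - ρ) ^ t := Finset.sum_le_sum hone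
      _ = ((nbr G v).card : ℝ) * (1 - ρ) ^ t := by simp
      _ ≤ (Δ : ℝ) * (1 - ρ) ^ t := by
          refine mul_le_mul_of_nonneg_right (by exact_mod_cast hdeg v) ?_
          have h2 := hprob v
          have h3 := pr_le_one (fun ω : V → Λ => J ω v)
          exact pow_nonneg (by linarith) t
  have hcardpos : (0 : ℝ) < (Fintype.card (Fin t → (V → Λ)) : ℝ) := card_pos_real
  have hsum : ∑ z : Fin t → (V → Λ), f z ≤ m0 * Fintype.card (Fin t → (V → Λ)) := by
    have : avg f = (∑ z : Fin t → (V → Λ), f z) / (Fintype.card (Fin t → (V → Λ)) : ℝ) := rfl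
    rw [this, div_le_iff₀ hcardpos] at hmean
    exact hmean
  -- bounded differences
  have hsub : ∀ (i : Fin t) (x y : Fin t → (V → Λ)), (∀ j, j ≠ i → x j = y j) →
      f x - f y ≤ b := by
    intro i x y hxy
    have hss : (nbr G v).filter (fun u => ∀ j, ¬ J (x j) u) ⊆
        (nbr G v).filter (fun u => ∀ j, ¬ J (y j) u) ∪ (nbr G v).filter (fun u => J (y i) u) := by
      intro u hu
      rw [Finset.mem_filter] at hu
      rw [Finset.mem_union, Finset.mem_filter, Finset.mem_filter]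
      by_cases h : J (y i) u
      · exact Or.inr ⟨hu.1, h⟩
      · refine Or.inl ⟨hu.1, fun j => ?_⟩
        by_cases hj : j = i
        · rw [hj]; exact h
        · rw [← hxy j hj]; exact hu.2 j
    have h2 := (Finset.card_le_card hss).trans (Finset.card_union_le _ _)
    have h3 := hcap (y i) v
    have h4 : ((nbr G v).filter (fun u => ∀ j, ¬ J (x j) u)).card ≤
        ((nbr G v).filter (fun u => ∀ j, ¬ J (y j) u)).card + b := h2.trans (by omega)
    have h5 : f x ≤ f y + b := by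
      simp only [hf]
      exact_mod_cast h4
    linarith
  have key := mcdiarmid_card (fun _ : Fin t => (V → Λ)) f (fun _ => (b : ℝ))
    (fun i x y hxy => abs_sub_le_iff.2 ⟨hsub i x y hxy, hsub i y x (fun j hj => (hxy j hj).symm)⟩)
    m0 hsum s hs
  rw [div_le_iff₀ hcardpos]
  refine le_trans (le_of_eq ?_) (le_trans key (le_of_eq ?_))
  · rfl
  · simp

open Classical in
/-- The deterministic part: copies, local lemma, greedy colouring of the rest. -/
lemma core {V Λ : Type} [Fintype V] [DecidableEq V] [Fintype Λ] [Nonempty Λ]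
    (D : V → V → Prop) (hor : ∀ u v, D u v → ¬ D v u) (Δ : ℕ)
    (hdeg : ∀ v, (nbr (und D) v).card ≤ Δ) (x : Λ → ℕ) (J : (V → Λ) → V → Prop) (r₀ : ℕ)
    (hloc : ∀ v ω ω', (∀ u ∈ ball (und D) r₀ v, ω u = ω' u) → (J ω v ↔ J ω' v))
    (ρ : ℝ) (hprob : ∀ v, ρ ≤ pr (fun ω : V → Λ => J ω v)) (d' : ℕ)
    (hdegJ : ∀ ω v, J ω v → ((nbr (bg D (fun w => x (ω w))) v).filter (fun u => J ω u)).card ≤ d')
    (htri : ∀ ω u v w, J ω u → J ω v → J ω w → (bg D (fun w => x (ω w))).Adj u v →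
        (bg D (fun w => x (ω w))).Adj v w → ¬ (bg D (fun w => x (ω w))).Adj u w)
    (b : ℕ) (hcap : ∀ ω w, ((nbr (und D) w).filter (fun u => J ω u)).card ≤ b)
    (q : ℕ) (hcol : ∀ H : SimpleGraph V, (∀ v, (nbr H v).card ≤ d') →
      (∀ u v w, H.Adj u v → H.Adj v w → ¬ H.Adj u w) →
      ∃ col : V → ℕ, (∀ v, col v < q) ∧ ∀ u v, H.Adj u v → col u ≠ col v)
    (t g : ℕ) (m0 s : ℝ) (hm0 : (Δ : ℝ) * (1 - ρ) ^ t ≤ m0) (hs : 0 ≤ s) (hg : m0 + s ≤ g)
    (hp : 4 * Real.exp (-2 * s ^ 2 / (t * (b : ℝ) ^ 2)) *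
      (((Δ + 1) ^ (2 * (r₀ + 1)) : ℕ) : ℝ) ≤ 1) :
    ∃ (col : V → Fin (t * q + g)) (f : V → ℕ), ∀ u v, D u v → col u = col v → f u < f v := by
  -- the local lemma
  obtain ⟨ω, hω⟩ := lll_product (ι := V) (κ := V) (α := Fin t → Λ)
    (fun v ω => m0 + s ≤
      (((nbr (und D) v).filter (fun u => ∀ i, ¬ J (fun w => ω w i) u)).card : ℝ))
    (fun v => ball (und D) (r₀ + 1) v) (by
      intro v ω ω' h
      have h2 : (nbr (und D) v).filter (fun u => ∀ i, ¬ J (fun w => ω w i) u) =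
          (nbr (und D) v).filter (fun u => ∀ i, ¬ J (fun w => ω' w i) u) := by
        apply Finset.filter_congr
        intro u hu
        apply forall_congr'
        intro i
        rw [hloc u (fun w => ω w i) (fun w => ω' w i) (fun w hw => by
          rw [h w (ball_nbr_subset (und D) hu hw)])]
      rw [h2])
    (Real.exp (-2 * s ^ 2 / (t * (b : ℝ) ^ 2))) ((Δ + 1) ^ (2 * (r₀ + 1)))
    (Nat.one_le_pow _ _ (Nat.succ_pos _)) (by
      intro v
      refine le_trans (Finset.card_le_card ?_) (card_ball_le (und D) hdeg (2 * (r₀ + 1)) v)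
      intro j hj
      rw [Finset.mem_filter] at hj
      exact mem_ball_of_not_disjoint (und D) hj.2)
    (Real.exp_nonneg _)
    (fun v => prob_bad (und D) Δ hdeg J ρ hprob b hcap t m0 s hm0 hs v) hp
  -- colourings of the copies
  have hcopy : ∀ i : Fin t, ∃ col : V → ℕ, (∀ v, col v < q) ∧ ∀ u v, J (fun w => ω w i) u →
      J (fun w => ω w i) v → (bg D (fun w => x (ω w i))).Adj u v → col u ≠ col v := by
    intro i
    let H : SimpleGraph V :=
      { Adj := fun u v => J (fun w => ω w i) u ∧ J (fun w => ω w i) v ∧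
          (bg D (fun w => x (ω w i))).Adj u v
        symm := ⟨fun _ _ h => ⟨h.2.1, h.1, h.2.2.symm⟩⟩
        loopless := ⟨fun _ h => h.2.2.ne rfl⟩ }
    have hH : ∀ u v, H.Adj u v ↔ J (fun w => ω w i) u ∧ J (fun w => ω w i) v ∧
          (bg D (fun w => x (ω w i))).Adj u v := fun _ _ => Iff.rfl
    obtain ⟨col, h1, h2⟩ := hcol H (by
      intro v
      by_cases hv : J (fun w => ω w i) v
      · refine le_trans (Finset.card_le_card ?_) (hdegJ (fun w => ω w i) v hv)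
        intro u hu
        rw [mem_nbr, hH] at hu
        rw [Finset.mem_filter, mem_nbr]
        exact ⟨hu.2.2, hu.2.1⟩
      · have : nbr H v = ∅ := by
          apply Finset.eq_empty_of_forall_notMem
          intro u hu
          rw [mem_nbr, hH] at hu
          exact hv hu.1
        rw [this]; simp) (by
      intro u v w huv hvw huw
      rw [hH] at huv hvw huw
      exact htri (fun w => ω w i) u v w huv.1 huv.2.1 hvw.2.1 huv.2.2 hvw.2.2 huw.2.2)
    exact ⟨col, h1, fun u v hu hv huv => h2 u v ((hH u v).2 ⟨hu, hv, huv⟩)⟩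
  choose cc hcc1 hcc2 using hcopy
  -- the uncovered vertices
  set U : Finset V := Finset.univ.filter (fun u => ∀ i, ¬ J (fun w => ω w i) u) with hU
  obtain ⟨cu, hcu1, hcu2⟩ := greedy (und D) g U (by
    intro v _
    have h1 := hω v
    push Not at h1
    have h2 : (nbr (und D) v) ∩ U =
        (nbr (und D) v).filter (fun u => ∀ i, ¬ J (fun w => ω w i) u) := by
      ext u
      simp [hU]
    rw [h2]
    have h3 := lt_of_lt_of_le h1 hg
    exact_mod_cast h3)
  -- the copy of a covered vertex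
  have hex : ∀ u : V, ∃ i : ℕ, u ∉ U → ∃ h : i < t, J (fun w => ω w ⟨i, h⟩) u := by
    intro u
    by_cases hu : u ∈ U
    · exact ⟨0, fun h => absurd hu h⟩
    · have : ∃ i, J (fun w => ω w i) u := by
        by_contra hcon
        push Not at hcon
        exact hu (by rw [hU, Finset.mem_filter]; exact ⟨Finset.mem_univ _, hcon⟩)
      obtain ⟨i, hi⟩ := this
      exact ⟨i.1, fun _ => ⟨i.2, hi⟩⟩
  choose ix hix using hex
  -- the colour and the potential
  let colN : V → ℕ := fun u =>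
    if hu : u ∈ U then t * q + cu u else ix u * q + cc ⟨ix u, (hix u hu).choose⟩ u
  let pot : V → ℕ := fun u =>
    if hu : u ∈ U then 0 else x (ω u ⟨ix u, (hix u hu).choose⟩)
  have hlt : ∀ u, u ∉ U → colN u < t * q := by
    intro u hu
    simp only [colN, dif_neg hu]
    have h1 := (hix u hu).choose
    have h2 := hcc1 ⟨ix u, h1⟩ u
    calc ix u * q + cc ⟨ix u, (hix u hu).choose⟩ u < ix u * q + q := by omega
      _ = (ix u + 1) * q := by ring
      _ ≤ t * q := Nat.mul_le_mul_right _ h1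
  refine ⟨fun u => ⟨colN u, ?_⟩, pot, ?_⟩
  · by_cases hu : u ∈ U
    · simp only [colN, dif_pos hu]
      have := hcu1 u hu
      omega
    · have := hlt u hu
      omega
  · intro u v huv heq
    have heq' : colN u = colN v := congrArg Fin.val heq
    have hne : u ≠ v := by
      rintro rfl
      exact hor u u huv huv
    have hadj : (und D).Adj u v := ⟨hne, Or.inl huv⟩
    by_cases hu : u ∈ U
    · by_cases hv : v ∈ U
      · exfalso
        simp only [colN, dif_pos hu, dif_pos hv] at heq'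
        exact hcu2 u hu v hv hadj (by omega)
      · exfalso
        have h1 := hlt v hv
        rw [← heq'] at h1
        simp only [colN, dif_pos hu] at h1
        omega
    · by_cases hv : v ∈ U
      · exfalso
        have h1 := hlt u hu
        rw [heq'] at h1
        simp only [colN, dif_pos hv] at h1
        omega
      · simp only [colN, dif_neg hu, dif_neg hv] at heq'
        obtain ⟨h1, h2⟩ := hix u hu
        obtain ⟨h3, h4⟩ := hix v hv
        have e1 := hcc1 ⟨ix u, h1⟩ u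
        have e2 := hcc1 ⟨ix v, h3⟩ v
        obtain ⟨hixe, hcceq⟩ := divmod_unique e1 e2 heq'
        simp only [pot, dif_neg hu, dif_neg hv]
        by_contra hcon
        push Not at hcon
        have hfin : (⟨ix u, h1⟩ : Fin t) = ⟨ix v, h3⟩ := Fin.ext hixe
        rw [← hfin] at h4 hcceq hcon
        refine hcc2 ⟨ix u, h1⟩ u v h2 h4 ?_ hcceq
        exact ⟨hne, Or.inl ⟨huv, hcon⟩⟩

/-- The local lemma condition holds for large `Δ`. -/
lemma eventually_lll (c : ℝ) (hc : 0 < c) (m : ℕ) :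
    ∀ᶠ Δ : ℕ in Filter.atTop,
      4 * Real.exp (-(c * Real.sqrt Δ)) * (((Δ + 1) ^ m : ℕ) : ℝ) ≤ 1 := by
  have h1 := Real.tendsto_pow_mul_exp_neg_atTop_nhds_zero (2 * m)
  have h2 : Filter.Tendsto (fun Δ : ℕ => c * Real.sqrt Δ) Filter.atTop Filter.atTop :=
    (Real.tendsto_sqrt_atTop.comp tendsto_natCast_atTop_atTop).const_mul_atTop hc
  have h3 := h1.comp h2
  have hpos : (0 : ℝ) < c ^ (2 * m) / (4 * 2 ^ m) := by positivity
  filter_upwards [h3.eventually (Iio_mem_nhds hpos), Filter.eventually_ge_atTop 1] with Δ hΔ hΔ1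
  simp only [Function.comp_apply] at hΔ
  have hΔR : (1 : ℝ) ≤ Δ := by exact_mod_cast hΔ1
  have e1 : (c * Real.sqrt Δ) ^ (2 * m) = c ^ (2 * m) * (Δ : ℝ) ^ m := by
    rw [mul_pow, pow_mul (Real.sqrt Δ), Real.sq_sqrt (by positivity)]
  rw [e1, lt_div_iff₀ (by positivity)] at hΔ
  have e2 : (((Δ + 1) ^ m : ℕ) : ℝ) ≤ 2 ^ m * (Δ : ℝ) ^ m := by
    push_cast
    rw [← mul_pow]
    exact pow_le_pow_left₀ (by positivity) (by linarith) m
  have hcm : 0 < c ^ (2 * m) := by positivity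
  have hE : 0 ≤ Real.exp (-(c * Real.sqrt Δ)) := Real.exp_nonneg _
  have h5 : c ^ (2 * m) * (4 * Real.exp (-(c * Real.sqrt Δ)) * (2 ^ m * (Δ : ℝ) ^ m)) ≤
      c ^ (2 * m) * 1 := by
    rw [mul_one]
    calc _ = c ^ (2 * m) * (Δ : ℝ) ^ m * Real.exp (-(c * Real.sqrt Δ)) * (4 * 2 ^ m) := by ring
      _ ≤ _ := hΔ.le
  have h6 := le_of_mul_le_mul_left h5 hcm
  refine le_trans ?_ h6
  exact mul_le_mul_of_nonneg_left e2 (by positivity)

/-- Arithmetic of the exponent in the tail bound. -/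
lemma exponent_bound (η K d : ℝ) (hη : 0 < η) (hK : 0 < K) (hd : 0 < d) (Δ t : ℕ)
    (hΔ : 1 ≤ Δ) (ht0 : 0 < t) (ht : (t : ℝ) ≤ 2 * K * Δ / d + 1) :
    Real.exp (-2 * (η * Δ) ^ 2 / (t * ((Nat.sqrt (Nat.sqrt Δ) : ℕ) : ℝ) ^ 2)) ≤
      Real.exp (-(2 * η ^ 2 / (2 * K / d + 1) * Real.sqrt Δ)) := by
  rw [Real.exp_le_exp]
  have hΔR : (1 : ℝ) ≤ Δ := by exact_mod_cast hΔ
  have hb1 : 0 < Nat.sqrt (Nat.sqrt Δ) := Nat.sqrt_pos.2 (Nat.sqrt_pos.2 (by omega))
  set b : ℝ := ((Nat.sqrt (Nat.sqrt Δ) : ℕ) : ℝ) with hb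
  have hbpos : 0 < b := by rw [hb]; exact_mod_cast hb1
  have hb2 : b ^ 2 ≤ Real.sqrt Δ := by
    have h1 : (Nat.sqrt (Nat.sqrt Δ)) ^ 2 ≤ Nat.sqrt Δ := Nat.sqrt_le' _
    have h2 : b ^ 2 ≤ ((Nat.sqrt Δ : ℕ) : ℝ) := by rw [hb]; exact_mod_cast h1
    exact h2.trans (Real.nat_sqrt_le_real_sqrt)
  have hs0 : 0 < Real.sqrt Δ := Real.sqrt_pos.2 (by linarith)
  have htR : (0 : ℝ) < t := by exact_mod_cast ht0
  have hC : 0 < 2 * K / d + 1 := by positivity
  have h3 : (t : ℝ) * b ^ 2 ≤ (2 * K / d + 1) * Δ * Real.sqrt Δ := by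
    have h4 : (t : ℝ) ≤ (2 * K / d + 1) * Δ := by
      have : (2 * K / d + 1) * Δ = 2 * K * Δ / d + Δ := by ring
      rw [this]; linarith
    calc (t : ℝ) * b ^ 2 ≤ (t : ℝ) * Real.sqrt Δ := mul_le_mul_of_nonneg_left hb2 htR.le
      _ ≤ _ := mul_le_mul_of_nonneg_right h4 hs0.le
  have h5 : 2 * η ^ 2 / (2 * K / d + 1) * Real.sqrt Δ ≤ 2 * (η * Δ) ^ 2 / (t * b ^ 2) := by
    rw [le_div_iff₀ (by positivity)]
    calc 2 * η ^ 2 / (2 * K / d + 1) * Real.sqrt Δ * (t * b ^ 2)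
        ≤ 2 * η ^ 2 / (2 * K / d + 1) * Real.sqrt Δ * ((2 * K / d + 1) * Δ * Real.sqrt Δ) :=
          mul_le_mul_of_nonneg_left h3 (by positivity)
      _ = 2 * η ^ 2 * Δ * (Real.sqrt Δ * Real.sqrt Δ) := by
          field_simp
      _ = 2 * (η * Δ) ^ 2 := by
          rw [Real.mul_self_sqrt (by linarith)]; ring
  have h6 : -2 * (η * Δ) ^ 2 / (t * b ^ 2) = -(2 * (η * Δ) ^ 2 / (t * b ^ 2)) := by ring
  rw [h6]
  linarith

end Assembly

/-- Every oriented graph of maximum degree `Δ` can be partitioned into at most `ε Δ` acyclic sets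
(each with an explicit potential), for `Δ` large. -/
theorem main_theorem (ε : ℝ) (hε : 0 < ε) : ∃ N : ℕ, ∀ (Δ : ℕ) (V : Type) [Fintype V]
    [DecidableEq V] (D : V → V → Prop), N ≤ Δ → (∀ u v, D u v → ¬ D v u) →
    (∀ v, (nbr (und D) v).card ≤ Δ) →
    ∃ (k : ℕ) (col : V → Fin k) (f : V → ℕ), (k : ℝ) ≤ ε * Δ ∧
      ∀ u v, D u v → col u = col v → f u < f v := by
  -- parameters
  obtain ⟨K, hK1, hKε⟩ : ∃ K : ℝ, 1 ≤ K ∧ Real.exp (-K) ≤ ε / 16 := by
    refine ⟨max 1 (-Real.log (ε / 16)), le_max_left _ _, ?_⟩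
    calc Real.exp (-(max 1 (-Real.log (ε / 16)))) ≤ Real.exp (Real.log (ε / 16)) := by
          rw [Real.exp_le_exp]
          linarith [le_max_right 1 (-Real.log (ε / 16))]
      _ = ε / 16 := Real.exp_log (by positivity)
  set η : ℝ := Real.exp (-K) with hη
  have hη0 : 0 < η := Real.exp_pos _
  have hK0 : 0 < K := by linarith
  set ε₁ : ℝ := ε / (400 * K) with hε₁
  have hε₁0 : 0 < ε₁ := by positivity
  obtain ⟨D₀, hD₀⟩ := triangleFree_colorable ε₁ hε₁0
  obtain ⟨d, hd1, hdD, hdK⟩ : ∃ d : ℕ, 1 ≤ d ∧ D₀ ≤ d ∧ 16 * K / ε ≤ d := by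
    refine ⟨max (max 1 D₀) ⌈16 * K / ε⌉₊, ?_, ?_, ?_⟩
    · exact (le_max_left _ _).trans (le_max_left _ _)
    · exact (le_max_right _ _).trans (le_max_left _ _)
    · exact (Nat.le_ceil _).trans (by exact_mod_cast le_max_right _ _)
  obtain ⟨r₀, Δ₀, hrule⟩ := exists_rule d hd1
  have hdR : (0 : ℝ) < d := by exact_mod_cast hd1
  have hc : 0 < 2 * η ^ 2 / (2 * K / d + 1) := by positivity
  have hev1 := Assembly.eventually_lll _ hc (2 * (r₀ + 1))
  have hev2 : ∀ᶠ Δ : ℕ in Filter.atTop, (8 * (24 * ε₁ * d + 1) / ε) ≤ (Δ : ℝ) :=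
    tendsto_natCast_atTop_atTop.eventually_ge_atTop _
  have hev3 : ∀ᶠ Δ : ℕ in Filter.atTop, (8 / ε) ≤ (Δ : ℝ) :=
    tendsto_natCast_atTop_atTop.eventually_ge_atTop _
  obtain ⟨N, hN⟩ := Filter.eventually_atTop.1 (hev1.and (hev2.and (hev3.and
    ((Filter.eventually_ge_atTop Δ₀).and ((Filter.eventually_ge_atTop 1).and
      (Filter.eventually_ge_atTop d))))))
  refine ⟨N, ?_⟩
  intro Δ V _ _ D hNΔ hor hdeg
  obtain ⟨h1, h2, h3, h4, h5, h6⟩ := hN Δ hNΔ
  obtain ⟨Λ, _, _, x, J, hloc, hprob, hdegJ, htri, hcap⟩ := hrule Δ V D h4 hor hdeg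
  have hΔR : (1 : ℝ) ≤ Δ := by exact_mod_cast h5
  have hΔ0 : (0 : ℝ) < Δ := by linarith
  have hdΔ : (d : ℝ) ≤ Δ := by exact_mod_cast h6
  set t : ℕ := ⌈2 * K * Δ / d⌉₊ with ht
  set g : ℕ := ⌊2 * (η * Δ)⌋₊ + 1 with hg
  set q : ℕ := ⌈ε₁ * ((24 * d : ℕ) : ℝ)⌉₊ with hq
  have ht1 : 2 * K * Δ / d ≤ (t : ℝ) := Nat.le_ceil _
  have ht2 : (t : ℝ) ≤ 2 * K * Δ / d + 1 := (Nat.ceil_lt_add_one (by positivity)).le
  have ht0 : 0 < t := by
    rw [ht, Nat.ceil_pos]; positivity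
  have hq2 : (q : ℝ) ≤ 24 * ε₁ * d + 1 := by
    have := (Nat.ceil_lt_add_one (show (0 : ℝ) ≤ ε₁ * ((24 * d : ℕ) : ℝ) by positivity)).le
    rw [← hq] at this
    push_cast at this
    linarith
  have hg1 : η * Δ + η * Δ ≤ (g : ℝ) := by
    rw [hg]
    push_cast
    have := (Nat.lt_floor_add_one (2 * (η * Δ))).le
    linarith
  have hg2 : (g : ℝ) ≤ 2 * (η * Δ) + 1 := by
    rw [hg]
    push_cast
    have := Nat.floor_le (show 0 ≤ 2 * (η * Δ) by positivity)
    linarith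
  have hm0 : (Δ : ℝ) * (1 - (d : ℝ) / (2 * Δ)) ^ t ≤ η * Δ := by
    have e0 : (d : ℝ) / (2 * Δ) ≤ 1 := by
      rw [div_le_one (by positivity)]; linarith
    have e1 : (1 - (d : ℝ) / (2 * Δ)) ^ t ≤ η := by
      calc (1 - (d : ℝ) / (2 * Δ)) ^ t ≤ (Real.exp (-((d : ℝ) / (2 * Δ)))) ^ t :=
            pow_le_pow_left₀ (by linarith) (Real.one_sub_le_exp_neg _) t
        _ = Real.exp (-((d : ℝ) / (2 * Δ) * t)) := by
            rw [← Real.exp_nat_mul]; congr 1; ring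
        _ ≤ η := by
            rw [hη, Real.exp_le_exp]
            have e2 : (d : ℝ) / (2 * Δ) * (2 * K * Δ / d) = K := by
              field_simp
            have e3 : (d : ℝ) / (2 * Δ) * (2 * K * Δ / d) ≤ (d : ℝ) / (2 * Δ) * t :=
              mul_le_mul_of_nonneg_left ht1 (by positivity)
            linarith
    calc (Δ : ℝ) * (1 - (d : ℝ) / (2 * Δ)) ^ t ≤ Δ * η := mul_le_mul_of_nonneg_left e1 hΔ0.le
      _ = η * Δ := mul_comm _ _
  obtain ⟨col, f, hcf⟩ := Assembly.core D hor Δ hdeg x J r₀ hloc ((d : ℝ) / (2 * Δ)) hprob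
    (24 * d) hdegJ htri (Nat.sqrt (Nat.sqrt Δ)) hcap q
    (fun H hH hH3 => hD₀ (24 * d) (by omega) V H hH hH3) t g (η * Δ) (η * Δ) hm0
    (by positivity) hg1 (by
      refine le_trans ?_ h1
      refine mul_le_mul_of_nonneg_right ?_ (by positivity)
      refine mul_le_mul_of_nonneg_left ?_ (by norm_num)
      exact Assembly.exponent_bound η K d hη0 hK0 hdR Δ t h5 ht0 ht2)
  refine ⟨t * q + g, col, f, ?_, hcf⟩
  push_cast
  -- counting colours
  have a1 : (t : ℝ) * q ≤ (2 * K * Δ / d + 1) * (24 * ε₁ * d + 1) :=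
    mul_le_mul ht2 hq2 (Nat.cast_nonneg _) (by positivity)
  have a2 : (2 * K * Δ / d + 1) * (24 * ε₁ * d + 1) =
      48 * K * ε₁ * Δ + 2 * K / d * Δ + (24 * ε₁ * d + 1) := by
    field_simp
    ring
  have a3 : 48 * K * ε₁ = 48 / 400 * ε := by
    rw [hε₁]; field_simp
  have a4 : 2 * K / d ≤ ε / 8 := by
    rw [div_le_iff₀ hε] at hdK
    rw [div_le_iff₀ hdR]
    linarith
  have a5 : 24 * ε₁ * d + 1 ≤ ε * Δ / 8 := by
    rw [div_le_iff₀ hε] at h2
    linarith
  have a6 : 1 ≤ ε * Δ / 8 := by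
    rw [div_le_iff₀ hε] at h3
    linarith
  have a7 : 2 * K / d * Δ ≤ ε / 8 * Δ := mul_le_mul_of_nonneg_right a4 hΔ0.le
  have a8 : η * Δ ≤ ε / 16 * Δ := mul_le_mul_of_nonneg_right hKε hΔ0.le
  have a9 : 0 < ε * Δ := by positivity
  rw [a2, a3] at a1
  linarith

end Pool.Agent.MP_e50225_co
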