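import Mathlib

/-!
# Configurations of labelled particles on a digraph

`A : V → V → Prop` is the arc relation.  A configuration places at each vertex either nothing
(`none`) or a label (`some i`, `i : Fin L`).  It is valid when labels increase along arcs.
-/

namespace Pool.MP_e50225_co

set_option linter.unusedSectionVars false

open Finset
open scoped Classical

/-- Configurations: each vertex is empty or carries a label. -/
abbrev Cfg (V : Type) (L : ℕ) := V → Option (Fin L)

section defs

variable {V : Type} [Fintype V] [DecidableEq V]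

/-- The neighbourhood of `v`. -/
noncomputable def nb (A : V → V → Prop) (v : V) : Finset V :=
  univ.filter (fun w => A v w ∨ A w v)

/-- Valid configurations: labels increase along arcs. -/
def Valid (A : V → V → Prop) {L : ℕ} (c : Cfg V L) : Prop :=
  ∀ u v i j, A u v → c u = some i → c v = some j → i < j

/-- The support of a configuration. -/
def supp {L : ℕ} (c : Cfg V L) : Finset V := univ.filter (fun v => c v ≠ none)

/-- The finset of valid configurations. -/
noncomputable def vc (A : V → V → Prop) (L : ℕ) : Finset (Cfg V L) := univ.filter (Valid A)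

/-- Partition function. -/
noncomputable def Z (A : V → V → Prop) (L : ℕ) (y : ℝ) : ℝ :=
  ∑ c ∈ vc A L, y ^ (supp c).card

/-- Erase a configuration on `B`. -/
def er {L : ℕ} (B : Finset V) (c : Cfg V L) : Cfg V L := fun v => if v ∈ B then none else c v

/-- single site weight -/
def wt {L : ℕ} (y : ℝ) (x : Option (Fin L)) : ℝ := if x = none then 1 else y

end defs

section basic

variable {V : Type} [Fintype V] [DecidableEq V] {A : V → V → Prop} {L : ℕ}

lemma mem_nb {v w : V} : w ∈ nb A v ↔ A v w ∨ A w v := by simp [nb]

lemma mem_nb_comm {v w : V} : w ∈ nb A v ↔ v ∈ nb A w := by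
  simp [nb]; tauto

lemma mem_supp {c : Cfg V L} {v : V} : v ∈ supp c ↔ c v ≠ none := by simp [supp]

lemma mem_supp_iff {c : Cfg V L} {v : V} : v ∈ supp c ↔ ∃ i, c v = some i := by
  rw [mem_supp, Option.ne_none_iff_exists']

lemma mem_vc {c : Cfg V L} : c ∈ vc A L ↔ Valid A c := by simp [vc]

lemma pow_card_supp (y : ℝ) (c : Cfg V L) : y ^ (supp c).card = ∏ v, wt y (c v) := by
  unfold supp wt
  rw [Finset.prod_ite]
  simp

lemma sum_wt (y : ℝ) : ∑ x : Option (Fin L), wt y x = 1 + L * y := by
  rw [Fintype.sum_option]
  simp [wt]

lemma er_valid {c : Cfg V L} (h : Valid A c) (B : Finset V) : Valid A (er B c) := by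
  intro u v i j ha hu hv
  unfold er at hu hv
  by_cases h1 : u ∈ B <;> by_cases h2 : v ∈ B <;> simp [h1, h2] at hu hv
  exact h u v i j ha hu hv

lemma er_of_mem {c : Cfg V L} {B : Finset V} {v : V} (h : v ∈ B) : er B c v = none := by
  simp [er, h]

lemma er_of_not_mem {c : Cfg V L} {B : Finset V} {v : V} (h : v ∉ B) : er B c v = c v := by
  simp [er, h]

/-- Valid configurations which are empty on `B`. -/
noncomputable def vcOff (A : V → V → Prop) (L : ℕ) (B : Finset V) : Finset (Cfg V L) :=
  (vc A L).filter (fun c => ∀ v ∈ B, c v = none)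

lemma mem_vcOff {B : Finset V} {c : Cfg V L} :
    c ∈ vcOff A L B ↔ Valid A c ∧ ∀ v ∈ B, c v = none := by simp [vcOff, mem_vc]

/-- Decompose a sum over valid configurations along the erasure map. -/
lemma sum_fiber (B : Finset V) (F : Cfg V L → ℝ) :
    ∑ c ∈ vc A L, F c = ∑ σ ∈ vcOff A L B, ∑ c ∈ (vc A L).filter (fun c => er B c = σ), F c := by
  symm
  apply Finset.sum_fiberwise_of_maps_to
  intro c hc
  rw [mem_vcOff]
  exact ⟨er_valid (mem_vc.1 hc) B, fun v hv => er_of_mem hv⟩

/-- The product formula on a full fiber. -/
lemma sum_fiber_prod (B : Finset V) (σ : Cfg V L) (hσ : ∀ v ∈ B, σ v = none)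
    (g : V → Option (Fin L) → ℝ) :
    ∑ c ∈ univ.filter (fun c : Cfg V L => er B c = σ), ∏ v, g v (c v) =
      (∏ v ∈ B, ∑ x, g v x) * ∏ v ∈ Bᶜ, g v (σ v) := by
  have h1 : univ.filter (fun c : Cfg V L => er B c = σ) =
      Fintype.piFinset (fun v => if v ∈ B then (univ : Finset (Option (Fin L))) else {σ v}) := by
    ext c
    simp only [mem_filter, mem_univ, true_and, Fintype.mem_piFinset]
    constructor
    · intro h v
      by_cases hv : v ∈ B
      · simp [hv]
      · simp only [hv, if_false, mem_singleton]
        rw [← h, er_of_not_mem hv]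
    · intro h
      ext1 v
      by_cases hv : v ∈ B
      · rw [er_of_mem hv, hσ v hv]
      · have := h v
        simp only [hv, if_false, mem_singleton] at this
        rw [er_of_not_mem hv, this]
  rw [h1, ← Finset.prod_univ_sum]
  rw [← Finset.prod_mul_prod_compl B]
  congr 1
  · apply Finset.prod_congr rfl
    intro v hv
    simp [hv]
  · apply Finset.prod_congr rfl
    intro v hv
    have : v ∉ B := by simpa using hv
    simp [this]

lemma pow_card_supp_off (y : ℝ) (B : Finset V) (σ : Cfg V L) (hσ : ∀ v ∈ B, σ v = none) :
    ∏ v ∈ Bᶜ, wt y (σ v) = y ^ (supp σ).card := by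
  rw [pow_card_supp, ← Finset.prod_mul_prod_compl B]
  have : ∏ v ∈ B, wt y (σ v) = 1 := by
    apply Finset.prod_eq_one
    intro v hv
    simp [wt, hσ v hv]
  rw [this, one_mul]

/-- The total weight of a fiber. -/
lemma fiber_weight_le (B : Finset V) (σ : Cfg V L) (hσ : ∀ v ∈ B, σ v = none) {y : ℝ}
    (hy : 0 ≤ y) :
    ∑ c ∈ (vc A L).filter (fun c => er B c = σ), y ^ (supp c).card ≤
      y ^ (supp σ).card * (1 + L * y) ^ B.card := by
  calc ∑ c ∈ (vc A L).filter (fun c => er B c = σ), y ^ (supp c).card
      ≤ ∑ c ∈ univ.filter (fun c : Cfg V L => er B c = σ), y ^ (supp c).card := by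
        apply Finset.sum_le_sum_of_subset_of_nonneg
        · intro c hc
          simp only [mem_filter, mem_univ, true_and] at hc ⊢
          exact hc.2
        · intro c _ _
          positivity
    _ = ∑ c ∈ univ.filter (fun c : Cfg V L => er B c = σ), ∏ v, wt y (c v) := by
        apply Finset.sum_congr rfl
        intro c _
        exact pow_card_supp y c
    _ = (∏ v ∈ B, ∑ x : Option (Fin L), wt y x) * ∏ v ∈ Bᶜ, wt y (σ v) :=
        sum_fiber_prod B σ hσ (fun _ => wt y)
    _ = y ^ (supp σ).card * (1 + L * y) ^ B.card := by
        rw [pow_card_supp_off y B σ hσ]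
        simp only [sum_wt, Finset.prod_const]
        ring

lemma empty_valid : Valid A (fun _ => none : Cfg V L) := by
  intro u v i j _ h _
  simp at h

lemma Z_ge_one {y : ℝ} (hy : 0 ≤ y) : 1 ≤ Z A L y := by
  unfold Z
  have h := Finset.single_le_sum (f := fun c : Cfg V L => y ^ (supp c).card) (s := vc A L)
    (fun c _ => by positivity) (mem_vc.2 (empty_valid (A := A) (V := V) (L := L)))
  have h0 : supp (fun _ => none : Cfg V L) = ∅ := by
    ext v; simp [supp]
  simpa [h0] using h

lemma Z_pos {y : ℝ} (hy : 0 ≤ y) : 0 < Z A L y := lt_of_lt_of_le one_pos (Z_ge_one hy)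

/-- The weight of valid configurations which are empty on `B`. -/
lemma Z_le_off (B : Finset V) {y : ℝ} (hy : 0 ≤ y) :
    Z A L y ≤ (∑ σ ∈ vcOff A L B, y ^ (supp σ).card) * (1 + L * y) ^ B.card := by
  unfold Z
  rw [sum_fiber B, Finset.sum_mul]
  apply Finset.sum_le_sum
  intro σ hσ
  exact fiber_weight_le B σ (mem_vcOff.1 hσ).2 hy

/-- update an empty site -/
lemma card_supp_update (σ : Cfg V L) (x : V) (i : Fin L) (h : σ x = none) :
    (supp (Function.update σ x (some i))).card = (supp σ).card + 1 := by
  have : supp (Function.update σ x (some i)) = insert x (supp σ) := by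
    ext v
    by_cases hv : v = x
    · subst hv; simp [supp]
    · simp [supp, hv]
  rw [this, Finset.card_insert_of_notMem]
  simp [supp, h]

/-- Placing a particle at a site whose closed neighbourhood is empty. -/
lemma off_le_occ (hirr : ∀ v, ¬ A v v) (x : V) {y : ℝ} (hy : 0 ≤ y) :
    (L * y) * (∑ σ ∈ vcOff A L (insert x (nb A x)), y ^ (supp σ).card) ≤
      ∑ c ∈ (vc A L).filter (fun c => x ∈ supp c), y ^ (supp c).card := by
  have hinj : Set.InjOn (fun p : Cfg V L × Fin L => Function.update p.1 x (some p.2))
      ((vcOff A L (insert x (nb A x))) ×ˢ (univ : Finset (Fin L)) : Finset _) := by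
    intro p hp q hq hpq
    simp only [coe_product, coe_univ, Set.mem_prod, mem_coe, mem_vcOff, Set.mem_univ,
      and_true] at hp hq
    have hx : p.2 = q.2 := by
      have := congrFun hpq x
      simpa using this
    have h1 : p.1 = q.1 := by
      ext1 v
      by_cases hv : v = x
      · subst hv
        rw [hp.2 v (by simp), hq.2 v (by simp)]
      · have := congrFun hpq v
        simpa [Function.update_of_ne hv] using this
    exact Prod.ext h1 hx
  calc (L * y) * (∑ σ ∈ vcOff A L (insert x (nb A x)), y ^ (supp σ).card)
      = ∑ p ∈ (vcOff A L (insert x (nb A x))) ×ˢ (univ : Finset (Fin L)),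
          y ^ (supp (Function.update p.1 x (some p.2))).card := by
        rw [Finset.sum_product, Finset.mul_sum]
        apply Finset.sum_congr rfl
        intro σ hσ
        have h0 : σ x = none := (mem_vcOff.1 hσ).2 x (by simp)
        simp only [card_supp_update σ x _ h0]
        simp [pow_succ]
        ring
    _ = ∑ c ∈ ((vcOff A L (insert x (nb A x))) ×ˢ (univ : Finset (Fin L))).image
          (fun p : Cfg V L × Fin L => Function.update p.1 x (some p.2)), y ^ (supp c).card := by
        rw [Finset.sum_image hinj]
    _ ≤ ∑ c ∈ (vc A L).filter (fun c => x ∈ supp c), y ^ (supp c).card := by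
        apply Finset.sum_le_sum_of_subset_of_nonneg
        · intro c hc
          simp only [mem_image, mem_product, mem_univ, and_true, Prod.exists] at hc
          obtain ⟨σ, i, hσ, rfl⟩ := hc
          rw [mem_vcOff] at hσ
          simp only [mem_filter, mem_vc]
          refine ⟨?_, by simp [supp]⟩
          intro u v a b ha hu hv
          by_cases hux : u = x
          · subst hux
            by_cases hvx : v = u
            · subst hvx; exact absurd ha (hirr _)
            · rw [Function.update_of_ne hvx] at hv
              rw [hσ.2 v (by simp [mem_nb, ha])] at hv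
              simp at hv
          · by_cases hvx : v = x
            · subst hvx
              rw [Function.update_of_ne hux] at hu
              rw [hσ.2 u (by simp [mem_nb, ha])] at hu
              simp at hu
            · rw [Function.update_of_ne hux] at hu
              rw [Function.update_of_ne hvx] at hv
              exact hσ.1 u v a b ha hu hv
        · intro c _ _
          positivity

lemma vcOff_subset (B : Finset V) : vcOff A L B ⊆ vc A L := by
  unfold vcOff
  exact Finset.filter_subset _ _

/-- Two distinct sites are both occupied with probability at most `(L y)^2`. -/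
lemma pair_bound {a b : V} (hab : a ≠ b) {y : ℝ} (hy : 0 ≤ y) :
    ∑ c ∈ (vc A L).filter (fun c => a ∈ supp c ∧ b ∈ supp c), y ^ (supp c).card ≤
      (L * y) ^ 2 * Z A L y := by
  have h1 : ∑ c ∈ (vc A L).filter (fun c => a ∈ supp c ∧ b ∈ supp c), y ^ (supp c).card =
      ∑ c ∈ vc A L, (if a ∈ supp c ∧ b ∈ supp c then y ^ (supp c).card else 0) := by
    rw [Finset.sum_filter]
  rw [h1, sum_fiber {a, b}]
  have h2 : ∀ σ ∈ vcOff A L {a, b},
      ∑ c ∈ (vc A L).filter (fun c => er {a, b} c = σ),
        (if a ∈ supp c ∧ b ∈ supp c then y ^ (supp c).card else 0) ≤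
      (L * y) ^ 2 * y ^ (supp σ).card := by
    intro σ hσ
    have hσ2 := (mem_vcOff.1 hσ).2
    calc ∑ c ∈ (vc A L).filter (fun c => er {a, b} c = σ),
          (if a ∈ supp c ∧ b ∈ supp c then y ^ (supp c).card else 0)
        ≤ ∑ c ∈ univ.filter (fun c : Cfg V L => er {a, b} c = σ),
          (if a ∈ supp c ∧ b ∈ supp c then y ^ (supp c).card else 0) := by
          apply Finset.sum_le_sum_of_subset_of_nonneg
          · intro c hc
            simp only [mem_filter, mem_univ, true_and] at hc ⊢
            exact hc.2
          · intro c _ _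
            split_ifs <;> positivity
      _ = ∑ c ∈ univ.filter (fun c : Cfg V L => er {a, b} c = σ),
            ∏ v, (if v ∈ ({a, b} : Finset V) then (if c v = none then 0 else y)
              else wt y (c v)) := by
          apply Finset.sum_congr rfl
          intro c _
          split_ifs with h
          · rw [pow_card_supp]
            apply Finset.prod_congr rfl
            intro v _
            by_cases hv : v ∈ ({a, b} : Finset V)
            · simp only [hv, if_true]
              have : c v ≠ none := by
                simp only [mem_insert, mem_singleton] at hv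
                rcases hv with rfl | rfl
                · exact mem_supp.1 h.1
                · exact mem_supp.1 h.2
              simp [this, wt]
            · simp [hv]
          · symm
            rw [not_and_or] at h
            rcases h with h | h
            · apply Finset.prod_eq_zero (mem_univ a)
              have : c a = none := by
                by_contra h'; exact h (mem_supp.2 h')
              simp [this]
            · apply Finset.prod_eq_zero (mem_univ b)
              have : c b = none := by
                by_contra h'; exact h (mem_supp.2 h')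
              simp [this]
      _ = (∏ v ∈ ({a, b} : Finset V), ∑ x : Option (Fin L),
            (if v ∈ ({a, b} : Finset V) then (if x = none then 0 else y) else wt y x)) *
          ∏ v ∈ ({a, b} : Finset V)ᶜ, (if v ∈ ({a, b} : Finset V) then
            (if σ v = none then 0 else y) else wt y (σ v)) :=
          sum_fiber_prod {a, b} σ hσ2 (fun v x => if v ∈ ({a, b} : Finset V) then
            (if x = none then 0 else y) else wt y x)
      _ = (L * y) ^ 2 * y ^ (supp σ).card := by
          congr 1
          · rw [Finset.prod_pair hab]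
            simp only [mem_insert, mem_singleton, true_or, or_true, if_true]
            rw [Fintype.sum_option]
            simp
            ring
          · rw [← pow_card_supp_off y {a, b} σ hσ2]
            apply Finset.prod_congr rfl
            intro v hv
            rw [mem_compl] at hv
            simp only [hv, if_false]
  calc ∑ σ ∈ vcOff A L {a, b}, ∑ c ∈ (vc A L).filter (fun c => er {a, b} c = σ),
        (if a ∈ supp c ∧ b ∈ supp c then y ^ (supp c).card else 0)
      ≤ ∑ σ ∈ vcOff A L {a, b}, (L * y) ^ 2 * y ^ (supp σ).card := Finset.sum_le_sum h2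
    _ = (L * y) ^ 2 * ∑ σ ∈ vcOff A L {a, b}, y ^ (supp σ).card := by rw [Finset.mul_sum]
    _ ≤ (L * y) ^ 2 * Z A L y := by
        apply mul_le_mul_of_nonneg_left _ (by positivity)
        unfold Z
        apply Finset.sum_le_sum_of_subset_of_nonneg (vcOff_subset _)
        intro c _ _
        positivity

/-- Exchange of summation: sum over sites of occupation. -/
lemma sum_occ (s : Finset (Cfg V L)) (F : Cfg V L → ℝ) :
    ∑ x, ∑ c ∈ s.filter (fun c => x ∈ supp c), F c = ∑ c ∈ s, F c * (supp c).card := by
  simp only [Finset.sum_filter]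
  rw [Finset.sum_comm]
  apply Finset.sum_congr rfl
  intro c _
  rw [Finset.sum_ite_mem, Finset.univ_inter, Finset.sum_const, nsmul_eq_mul]
  ring

/-- First moment. -/
noncomputable def E1 (A : V → V → Prop) (L : ℕ) (y : ℝ) : ℝ :=
  ∑ c ∈ vc A L, y ^ (supp c).card * (supp c).card

lemma E1_nonneg {y : ℝ} (hy : 0 ≤ y) : 0 ≤ E1 A L y := by
  unfold E1
  apply Finset.sum_nonneg
  intro c _
  positivity

/-- Trivial lower bound for the density. -/
lemma E1_lower (hirr : ∀ v, ¬ A v v) {Δ : ℕ} (hΔ : ∀ v, (nb A v).card ≤ Δ) {y : ℝ}
    (hy : 0 ≤ y) :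
    (Fintype.card V : ℝ) * (L * y) * Z A L y ≤ (1 + L * y) ^ (Δ + 1) * E1 A L y := by
  have h : ∀ x : V, (L * y) * Z A L y ≤
      (1 + L * y) ^ (Δ + 1) * ∑ c ∈ (vc A L).filter (fun c => x ∈ supp c), y ^ (supp c).card := by
    intro x
    have h1 := Z_le_off (A := A) (L := L) (insert x (nb A x)) hy
    have h2 := off_le_occ (L := L) hirr x hy
    have h3 : (insert x (nb A x)).card ≤ Δ + 1 :=
      (Finset.card_insert_le _ _).trans (Nat.succ_le_succ (hΔ x))
    have h4 : (1 + L * y) ^ (insert x (nb A x)).card ≤ (1 + L * y) ^ (Δ + 1) :=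
      pow_le_pow_right₀ (by nlinarith [mul_nonneg (Nat.cast_nonneg (α := ℝ) L) hy]) h3
    have h5 : 0 ≤ ∑ σ ∈ vcOff A L (insert x (nb A x)), y ^ (supp σ).card :=
      Finset.sum_nonneg (fun c _ => by positivity)
    have hLy : 0 ≤ L * y := by positivity
    calc (L * y) * Z A L y
        ≤ (L * y) * ((∑ σ ∈ vcOff A L (insert x (nb A x)), y ^ (supp σ).card) *
          (1 + L * y) ^ (Δ + 1)) := by
          apply mul_le_mul_of_nonneg_left _ hLy
          exact h1.trans (mul_le_mul_of_nonneg_left h4 h5)
      _ = (1 + L * y) ^ (Δ + 1) * ((L * y) *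
          (∑ σ ∈ vcOff A L (insert x (nb A x)), y ^ (supp σ).card)) := by ring
      _ ≤ _ := by
          apply mul_le_mul_of_nonneg_left h2
          positivity
  calc (Fintype.card V : ℝ) * (L * y) * Z A L y = ∑ x : V, (L * y) * Z A L y := by
        rw [Finset.sum_const, Finset.card_univ, nsmul_eq_mul]; ring
    _ ≤ ∑ x : V, (1 + L * y) ^ (Δ + 1) *
          ∑ c ∈ (vc A L).filter (fun c => x ∈ supp c), y ^ (supp c).card :=
        Finset.sum_le_sum (fun x _ => h x)
    _ = (1 + L * y) ^ (Δ + 1) * E1 A L y := by
        rw [← Finset.mul_sum, sum_occ]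
        rfl

end basic

end Pool.MP_e50225_co
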