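import Pool.Agent.MP_e50225_co.Weighted

namespace Pool.MP_e50225_co

set_option linter.unusedSectionVars false

open Finset
open scoped Classical

section colour

variable {V : Type} [Fintype V] [DecidableEq V] {A : V → V → Prop}

/-- `U` can be coloured with `k` colours, each class inducing an acyclic digraph
(witnessed by one height function `f`). -/
def Col (A : V → V → Prop) (U : Finset V) (k : ℕ) : Prop :=
  ∃ (c : V → Fin k) (f : V → ℕ), ∀ u ∈ U, ∀ v ∈ U, A u v → c u = c v → f u < f v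

lemma Col.add_acyc {U S : Finset V} {k : ℕ} (h : Col A (U \ S) k) (hS : Acyc A S) :
    Col A U (k + 1) := by
  obtain ⟨c, f, hc⟩ := h
  obtain ⟨g, hg⟩ := hS
  refine ⟨fun v => if v ∈ S then Fin.last k else (c v).castSucc,
    fun v => if v ∈ S then g v else f v, ?_⟩
  intro u hu v hv hA huv
  by_cases hu' : u ∈ S <;> by_cases hv' : v ∈ S
  · simp only [hu', hv', if_true]
    exact hg u hu' v hv' hA
  · simp only [hu', hv', if_true, if_false] at huv
    exact absurd huv.symm (Fin.castSucc_lt_last _).ne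
  · simp only [hu', hv', if_true, if_false] at huv
    exact absurd huv (Fin.castSucc_lt_last _).ne
  · simp only [hu', hv', if_false] at huv ⊢
    exact hc u (mem_sdiff.2 ⟨hu, hu'⟩) v (mem_sdiff.2 ⟨hv, hv'⟩) hA (Fin.castSucc_injective k huv)

/-- greedy colouring -/
lemma greedy (hirr : ∀ v, ¬ A v v) (D : ℕ) (U : Finset V) :
    (∀ v ∈ U, (nb A v ∩ U).card ≤ D) →
      ∃ c : V → Fin (D + 1), ∀ u ∈ U, ∀ v ∈ U, A u v → c u ≠ c v := by
  induction U using Finset.induction_on with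
  | empty => intro _; exact ⟨fun _ => 0, by simp⟩
  | insert x U hx ih =>
    intro h
    obtain ⟨c, hc⟩ := ih (by
      intro v hv
      refine le_trans (Finset.card_le_card ?_) (h v (mem_insert_of_mem hv))
      exact Finset.inter_subset_inter_left (Finset.subset_insert _ _))
    have h1 : ((nb A x ∩ U).image c).card < (univ : Finset (Fin (D + 1))).card := by
      rw [Finset.card_univ, Fintype.card_fin]
      have h2 : (nb A x ∩ U).card ≤ D :=
        le_trans (Finset.card_le_card (Finset.inter_subset_inter_left (Finset.subset_insert _ _)))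
          (h x (mem_insert_self _ _))
      have := Finset.card_image_le (s := nb A x ∩ U) (f := c)
      omega
    obtain ⟨i, _, hi⟩ := Finset.exists_mem_notMem_of_card_lt_card h1
    refine ⟨Function.update c x i, ?_⟩
    have key : ∀ v ∈ U, v ∈ nb A x → c v ≠ i := by
      intro v hv hvn h3
      apply hi
      rw [mem_image]
      exact ⟨v, mem_inter.2 ⟨hvn, hv⟩, h3⟩
    intro u hu v hv hA
    by_cases hux : u = x
    · subst hux
      by_cases hvx : v = u
      · subst hvx; exact absurd hA (hirr _)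
      · rw [Function.update_self, Function.update_of_ne hvx]
        have hvU : v ∈ U := by
          rcases mem_insert.1 hv with h | h
          · exact absurd h hvx
          · exact h
        exact (key v hvU (mem_nb.2 (Or.inl hA))).symm
    · have huU : u ∈ U := by
        rcases mem_insert.1 hu with h | h
        · exact absurd h hux
        · exact h
      by_cases hvx : v = x
      · subst hvx
        rw [Function.update_self, Function.update_of_ne hux]
        exact key u huU (mem_nb.2 (Or.inr hA))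
      · rw [Function.update_of_ne hux, Function.update_of_ne hvx]
        have hvU : v ∈ U := by
          rcases mem_insert.1 hv with h | h
          · exact absurd h hvx
          · exact h
        exact hc u huU v hvU hA

lemma greedy_col (hirr : ∀ v, ¬ A v v) {D : ℕ} {U : Finset V}
    (h : ∀ v ∈ U, (nb A v ∩ U).card ≤ D) : Col A U (D + 1) := by
  obtain ⟨c, hc⟩ := greedy hirr D U h
  exact ⟨c, fun _ => 0, fun u hu v hv hA huv => absurd huv (hc u hu v hv hA)⟩

/-- a Bonferroni inequality -/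
lemma bonf {δ : ℝ} (h0 : 0 ≤ δ) (h1 : δ ≤ 1) (N : ℕ) :
    (1 - δ) ^ N ≤ 1 - N * δ + (N * (N - 1 : ℝ)) / 2 * δ ^ 2 := by
  induction N with
  | zero => simp
  | succ N ih =>
    have h2 : (1 - δ) ^ (N + 1) ≤ (1 - δ) * (1 - N * δ + (N * (N - 1 : ℝ)) / 2 * δ ^ 2) := by
      rw [pow_succ, mul_comm]
      exact mul_le_mul_of_nonneg_left ih (by linarith)
    have h3 : (0 : ℝ) ≤ N * (N - 1) := by
      rcases Nat.eq_zero_or_pos N with h | h
      · subst h; simp
      · have : (1 : ℝ) ≤ N := by exact_mod_cast h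
        apply mul_nonneg (by linarith) (by linarith)
    have h4 : (0 : ℝ) ≤ (N * (N - 1 : ℝ)) / 2 * δ ^ 3 := by positivity
    push_cast
    nlinarith

/-- potential -/
noncomputable def Phi (A : V → V → Prop) (b : ℝ) (U : Finset V) : ℝ :=
  ∑ v, b ^ (nb A v ∩ U).card

lemma exists_le_avg {Ω : Type} [Fintype Ω] {p F : Ω → ℝ} (hp : ∀ ω, 0 ≤ p ω)
    (hp1 : ∑ ω, p ω = 1) {B : ℝ} (h : ∑ ω, p ω * F ω ≤ B) : ∃ ω, F ω ≤ B := by
  by_contra hcon
  push Not at hcon
  have h1 : ∃ ω, 0 < p ω := by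
    by_contra h2
    push Not at h2
    have : ∑ ω, p ω ≤ 0 := Finset.sum_nonpos (fun ω _ => h2 ω)
    linarith
  obtain ⟨ω0, hω0⟩ := h1
  have h2 : ∑ ω, p ω * B < ∑ ω, p ω * F ω := by
    apply Finset.sum_lt_sum
    · intro ω _
      exact mul_le_mul_of_nonneg_left (hcon ω).le (hp ω)
    · exact ⟨ω0, mem_univ _, mul_lt_mul_of_pos_left (hcon ω0) hω0⟩
  rw [← Finset.sum_mul, hp1, one_mul] at h2
  linarith

/-- expected number of ordered pairs -/
lemma pair_sum {Ω : Type} [Fintype Ω] {p : Ω → ℝ} {S : Ω → Finset V} {U : Finset V} {κ : ℝ}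
    (hSU : ∀ ω, S ω ⊆ U)
    (hpair : ∀ u u', u ≠ u' → ∑ ω, (if u ∈ S ω ∧ u' ∈ S ω then p ω else 0) ≤ κ)
    (hκ : 0 ≤ κ) (T : Finset V) :
    ∑ ω, p ω * (((T ∩ S ω).card : ℝ) * ((T ∩ S ω).card - 1)) ≤
      ((T ∩ U).card : ℝ) ^ 2 * κ := by
  have h1 : ∀ ω, ((T ∩ S ω).card : ℝ) * ((T ∩ S ω).card - 1) =
      ∑ e ∈ (T ∩ U).offDiag, (if e.1 ∈ S ω ∧ e.2 ∈ S ω then (1 : ℝ) else 0) := by
    intro ω
    have h2 : (T ∩ U).offDiag.filter (fun e => e.1 ∈ S ω ∧ e.2 ∈ S ω) = (T ∩ S ω).offDiag := by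
      ext ⟨a, b⟩
      simp only [mem_filter, mem_offDiag, mem_inter]
      have ha := @hSU ω a
      have hb := @hSU ω b
      tauto
    rw [Finset.sum_boole, h2, Finset.offDiag_card, Nat.cast_sub]
    · push_cast; ring
    · exact Nat.le_mul_self _
  have h3 : ∀ ω, p ω * (((T ∩ S ω).card : ℝ) * ((T ∩ S ω).card - 1)) =
      ∑ e ∈ (T ∩ U).offDiag, (if e.1 ∈ S ω ∧ e.2 ∈ S ω then p ω else 0) := by
    intro ω
    rw [h1, Finset.mul_sum]
    apply Finset.sum_congr rfl
    intro e _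
    split_ifs <;> simp
  simp only [h3]
  rw [Finset.sum_comm]
  calc ∑ e ∈ (T ∩ U).offDiag, ∑ ω, (if e.1 ∈ S ω ∧ e.2 ∈ S ω then p ω else 0)
      ≤ ∑ _e ∈ (T ∩ U).offDiag, κ := by
        apply Finset.sum_le_sum
        intro e he
        exact hpair e.1 e.2 (mem_offDiag.1 he).2.2
    _ = ((T ∩ U).offDiag.card : ℝ) * κ := by rw [Finset.sum_const, nsmul_eq_mul]
    _ ≤ _ := by
        apply mul_le_mul_of_nonneg_right _ hκ
        rw [Finset.offDiag_card]
        have : (T ∩ U).card * (T ∩ U).card - (T ∩ U).card ≤ (T ∩ U).card ^ 2 := by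
          rw [pow_two]; omega
        exact_mod_cast this

lemma exch (S : Finset V) (F : V → ℝ) :
    ∑ u ∈ S, ∑ v ∈ nb A u, F v = ∑ v, F v * (nb A v ∩ S).card := by
  have h1 : ∀ u, ∑ v ∈ nb A u, F v = ∑ v, if v ∈ nb A u then F v else 0 := by
    intro u; rw [Finset.sum_ite_mem, Finset.univ_inter]
  simp only [h1]
  rw [Finset.sum_comm]
  apply Finset.sum_congr rfl
  intro v _
  have h2 : ∀ u, (if v ∈ nb A u then F v else 0) = if u ∈ nb A v then F v else 0 := by
    intro u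
    simp only [mem_nb_comm (v := u) (w := v)]
  simp only [h2]
  rw [Finset.sum_ite_mem, Finset.sum_const, nsmul_eq_mul, Finset.inter_comm, mul_comm]

/-- One step of the colouring process. -/
lemma step {Δ : ℕ} (hΔ0 : 0 < Δ) (hΔ : ∀ v, (nb A v).card ≤ Δ) {J C : ℝ} {g : ℕ}
    (hg : 0 < g) (hgC : C ^ 2 ≤ J * (g + 1))
    (hW : ∀ w : V → ℕ, ∃ (Ω : Type) (_ : Fintype Ω) (p : Ω → ℝ) (S : Ω → Finset V),
        (∀ ω, 0 ≤ p ω) ∧ ∑ ω, p ω = 1 ∧ (∀ ω, Acyc A (S ω)) ∧ (∀ ω, ∀ v ∈ S ω, w v ≠ 0) ∧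
        (J / Δ * ∑ v, (w v : ℝ) ≤ ∑ ω, p ω * ∑ v ∈ S ω, (w v : ℝ)) ∧
        ∀ u u', u ≠ u' → ∑ ω, (if u ∈ S ω ∧ u' ∈ S ω then p ω else 0) ≤ (C / Δ) ^ 2)
    (U : Finset V) :
    ∃ S ⊆ U, Acyc A S ∧ Phi A ((g + 1) / g) (U \ S) ≤ Phi A ((g + 1) / g) U -
      (1 / (g + 1)) * J / (2 * Δ) *
        ∑ v, (((g + 1) / g : ℝ)) ^ (nb A v ∩ U).card * (nb A v ∩ U).card := by
  have hΔR : (0 : ℝ) < Δ := by exact_mod_cast hΔ0
  have hgR : (0 : ℝ) < g := by exact_mod_cast hg
  obtain ⟨b, hb⟩ : ∃ b : ℝ, b = (g + 1) / g := ⟨_, rfl⟩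
  obtain ⟨δ, hδ⟩ : ∃ δ : ℝ, δ = 1 / (g + 1) := ⟨_, rfl⟩
  rw [← hb, ← hδ]
  have hb0 : 0 < b := by rw [hb]; positivity
  have hδ0 : 0 < δ := by rw [hδ]; positivity
  have hδ1 : δ ≤ 1 := by rw [hδ, div_le_one (by positivity)]; linarith
  have hbδ : b * (1 - δ) = 1 := by rw [hb, hδ]; field_simp; ring
  have hδC : δ * C ^ 2 ≤ J := by
    rw [hδ, one_div, inv_mul_le_iff₀ (by positivity)]; linarith
  obtain ⟨X, hX⟩ : ∃ X : V → ℕ, X = fun v =>
    (g + 1) ^ (nb A v ∩ U).card * g ^ (Δ - (nb A v ∩ U).card) := ⟨_, rfl⟩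
  have hdΔ : ∀ v, (nb A v ∩ U).card ≤ Δ := fun v =>
    (Finset.card_le_card Finset.inter_subset_left).trans (hΔ v)
  have hXb : ∀ v, (X v : ℝ) = g ^ Δ * b ^ (nb A v ∩ U).card := by
    intro v
    rw [hX, hb, div_pow]
    push_cast
    have : (g : ℝ) ^ Δ = g ^ (nb A v ∩ U).card * g ^ (Δ - (nb A v ∩ U).card) := by
      rw [← pow_add]; congr 1; have := hdΔ v; omega
    rw [this]
    field_simp
  obtain ⟨w, hw⟩ : ∃ w : V → ℕ, w = fun u => if u ∈ U then ∑ v ∈ nb A u, X v else 0 := ⟨_, rfl⟩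
  obtain ⟨Ω, _, p, S, hp0, hp1, hac, hsub, hwt, hpair⟩ := hW w
  have hSU : ∀ ω, S ω ⊆ U := by
    intro ω v hv
    have := hsub ω v hv
    by_contra h
    rw [hw] at this
    simp [h] at this
  have hwR : ∀ u ∈ U, (w u : ℝ) = g ^ Δ * ∑ v ∈ nb A u, b ^ (nb A v ∩ U).card := by
    intro u hu
    rw [hw]
    simp only [hu, if_true]
    push_cast
    rw [Finset.mul_sum]
    exact Finset.sum_congr rfl (fun v _ => hXb v)
  have hgΔ : (0 : ℝ) < g ^ Δ := by positivity
  -- the weight inequality in terms of `b`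
  obtain ⟨D, hD⟩ : ∃ D : ℝ, D = ∑ v, b ^ (nb A v ∩ U).card * (nb A v ∩ U).card := ⟨_, rfl⟩
  have hwtot : ∑ v, (w v : ℝ) = g ^ Δ * D := by
    have h1 : ∑ v, (w v : ℝ) = ∑ v ∈ U, (w v : ℝ) := by
      symm
      apply Finset.sum_subset (Finset.subset_univ _)
      intro v _ hv
      rw [hw]; simp [hv]
    rw [h1, Finset.sum_congr rfl hwR, ← Finset.mul_sum, exch, hD]
  have hwS : ∀ ω, ∑ v ∈ S ω, (w v : ℝ) =
      g ^ Δ * ∑ v, b ^ (nb A v ∩ U).card * (nb A v ∩ S ω).card := by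
    intro ω
    rw [Finset.sum_congr rfl (fun u hu => hwR u (hSU ω hu)), ← Finset.mul_sum, exch]
  have hkey : J / Δ * D ≤ ∑ ω, p ω * ∑ v, b ^ (nb A v ∩ U).card * (nb A v ∩ S ω).card := by
    rw [hwtot] at hwt
    simp only [hwS] at hwt
    have h1 : ∑ ω, p ω * (g ^ Δ * ∑ v, b ^ (nb A v ∩ U).card * (nb A v ∩ S ω).card) =
        g ^ Δ * ∑ ω, p ω * ∑ v, b ^ (nb A v ∩ U).card * (nb A v ∩ S ω).card := by
      rw [Finset.mul_sum]
      apply Finset.sum_congr rfl
      intro ω _; ring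
    rw [h1] at hwt
    have h2 : J / Δ * (g ^ Δ * D) = g ^ Δ * (J / Δ * D) := by ring
    rw [h2] at hwt
    exact le_of_mul_le_mul_left hwt hgΔ
  have hpairs : ∀ v, ∑ ω, p ω * (((nb A v ∩ S ω).card : ℝ) * ((nb A v ∩ S ω).card - 1)) ≤
      ((nb A v ∩ U).card : ℝ) ^ 2 * (C / Δ) ^ 2 :=
    fun v => pair_sum hSU hpair (by positivity) (nb A v)
  -- pointwise bound
  have hpt : ∀ ω, Phi A b (U \ S ω) ≤ ∑ v, b ^ (nb A v ∩ U).card *
      (1 - (nb A v ∩ S ω).card * δ +
        (((nb A v ∩ S ω).card : ℝ) * ((nb A v ∩ S ω).card - 1)) / 2 * δ ^ 2) := by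
    intro ω
    unfold Phi
    apply Finset.sum_le_sum
    intro v _
    have h1 : (nb A v ∩ (U \ S ω)).card + (nb A v ∩ S ω).card = (nb A v ∩ U).card := by
      have h2 : nb A v ∩ (U \ S ω) = (nb A v ∩ U) \ (nb A v ∩ S ω) := by
        ext a; simp only [mem_inter, mem_sdiff]; tauto
      rw [h2]
      exact Finset.card_sdiff_add_card_eq_card
        (Finset.inter_subset_inter_left (hSU ω))
    have h3 : b ^ (nb A v ∩ (U \ S ω)).card =
        b ^ (nb A v ∩ U).card * (1 - δ) ^ (nb A v ∩ S ω).card := by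
      rw [← h1, pow_add, mul_assoc, ← mul_pow, hbδ, one_pow, mul_one]
    rw [h3]
    exact mul_le_mul_of_nonneg_left (bonf hδ0.le hδ1 _) (by positivity)
  have havg : ∑ ω, p ω * Phi A b (U \ S ω) ≤ Phi A b U - δ * J / (2 * Δ) * D := by
    calc ∑ ω, p ω * Phi A b (U \ S ω)
        ≤ ∑ ω, p ω * ∑ v, b ^ (nb A v ∩ U).card *
          (1 - (nb A v ∩ S ω).card * δ +
          (((nb A v ∩ S ω).card : ℝ) * ((nb A v ∩ S ω).card - 1)) / 2 * δ ^ 2) :=
          Finset.sum_le_sum (fun ω _ => mul_le_mul_of_nonneg_left (hpt ω) (hp0 ω))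
      _ = Phi A b U - δ * (∑ ω, p ω * ∑ v, b ^ (nb A v ∩ U).card * (nb A v ∩ S ω).card) +
          δ ^ 2 / 2 * ∑ v, b ^ (nb A v ∩ U).card *
            ∑ ω, p ω * (((nb A v ∩ S ω).card : ℝ) * ((nb A v ∩ S ω).card - 1)) := by
          have e1 : ∀ ω, p ω * ∑ v, b ^ (nb A v ∩ U).card *
              (1 - (nb A v ∩ S ω).card * δ +
              (((nb A v ∩ S ω).card : ℝ) * ((nb A v ∩ S ω).card - 1)) / 2 * δ ^ 2) =
              p ω * Phi A b U - δ * (p ω * ∑ v, b ^ (nb A v ∩ U).card * (nb A v ∩ S ω).card) +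
              δ ^ 2 / 2 * ∑ v, b ^ (nb A v ∩ U).card *
                (p ω * (((nb A v ∩ S ω).card : ℝ) * ((nb A v ∩ S ω).card - 1))) := by
            intro ω
            unfold Phi
            simp only [Finset.mul_sum]
            rw [← Finset.sum_sub_distrib, ← Finset.sum_add_distrib]
            apply Finset.sum_congr rfl
            intro v _
            ring
          simp only [e1]
          rw [Finset.sum_add_distrib, Finset.sum_sub_distrib, ← Finset.sum_mul, hp1, one_mul,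
            ← Finset.mul_sum, ← Finset.mul_sum, Finset.sum_comm]
          congr 2
          apply Finset.sum_congr rfl
          intro v _
          rw [Finset.mul_sum]
      _ ≤ Phi A b U - δ * (J / Δ * D) + δ ^ 2 / 2 * ∑ v, b ^ (nb A v ∩ U).card *
            (((nb A v ∩ U).card : ℝ) ^ 2 * (C / Δ) ^ 2) := by
          have h1 := mul_le_mul_of_nonneg_left hkey hδ0.le
          have h2 : ∑ v, b ^ (nb A v ∩ U).card *
            ∑ ω, p ω * (((nb A v ∩ S ω).card : ℝ) * ((nb A v ∩ S ω).card - 1)) ≤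
            ∑ v, b ^ (nb A v ∩ U).card * (((nb A v ∩ U).card : ℝ) ^ 2 * (C / Δ) ^ 2) :=
            Finset.sum_le_sum (fun v _ => mul_le_mul_of_nonneg_left (hpairs v) (by positivity))
          have h3 := mul_le_mul_of_nonneg_left h2 (show 0 ≤ δ ^ 2 / 2 by positivity)
          linarith
      _ ≤ Phi A b U - δ * (J / Δ * D) + δ ^ 2 / 2 * (C ^ 2 / Δ * D) := by
          have h1 : ∑ v, b ^ (nb A v ∩ U).card * (((nb A v ∩ U).card : ℝ) ^ 2 * (C / Δ) ^ 2) ≤
              C ^ 2 / Δ * D := by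
            rw [hD, Finset.mul_sum]
            apply Finset.sum_le_sum
            intro v _
            have h2 : ((nb A v ∩ U).card : ℝ) ≤ Δ := by exact_mod_cast hdΔ v
            have h3 : ((nb A v ∩ U).card : ℝ) ^ 2 * (C / Δ) ^ 2 ≤
                C ^ 2 / Δ * (nb A v ∩ U).card := by
              have : ((nb A v ∩ U).card : ℝ) ^ 2 * (C / Δ) ^ 2 =
                  C ^ 2 / Δ * (nb A v ∩ U).card * ((nb A v ∩ U).card / Δ) := by
                field_simp
              rw [this]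
              apply mul_le_of_le_one_right (by positivity)
              rw [div_le_one hΔR]; exact h2
            calc b ^ (nb A v ∩ U).card * (((nb A v ∩ U).card : ℝ) ^ 2 * (C / Δ) ^ 2)
                ≤ b ^ (nb A v ∩ U).card * (C ^ 2 / Δ * (nb A v ∩ U).card) := by gcongr
              _ = _ := by ring
          gcongr
      _ ≤ Phi A b U - δ * J / (2 * Δ) * D := by
          have hD0 : 0 ≤ D := by
            rw [hD]; exact Finset.sum_nonneg (fun v _ => by positivity)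
          have h1 : δ ^ 2 / 2 * (C ^ 2 / Δ * D) ≤ δ / 2 * (J / Δ * D) := by
            calc δ ^ 2 / 2 * (C ^ 2 / Δ * D) = δ / 2 * ((δ * C ^ 2) * (D / Δ)) := by ring
              _ ≤ δ / 2 * (J * (D / Δ)) := by gcongr
              _ = _ := by ring
          have h2 : δ * (J / Δ * D) = δ / 2 * (J / Δ * D) + δ * J / (2 * Δ) * D := by
            field_simp; ring
          linarith
  obtain ⟨ω, hω⟩ := exists_le_avg hp0 hp1 havg
  refine ⟨S ω, hSU ω, hac ω, ?_⟩
  rw [← hD]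
  exact hω

/-- Iterating the step. -/
lemma iterate {b κ' a : ℝ} {h : ℕ} (hb : 1 ≤ b) (hκ : 0 ≤ κ') (hκ1 : κ' * h ≤ 1)
    (ha : a = Fintype.card V * b ^ h)
    (hstep : ∀ U : Finset V, ∃ S ⊆ U, Acyc A S ∧ Phi A b (U \ S) ≤ Phi A b U -
      κ' * ∑ v, b ^ (nb A v ∩ U).card * (nb A v ∩ U).card) (q : ℕ) :
    ∀ U : Finset V, ∃ U' ⊆ U, Phi A b U' - a ≤ (1 - κ' * h) ^ q * (Phi A b U - a) ∧
      ∀ k, Col A U' k → Col A U (k + q) := by
  induction q with
  | zero => intro U; exact ⟨U, Finset.Subset.refl _, by simp, fun k hk => hk⟩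
  | succ q ih =>
    intro U
    obtain ⟨S, hSU, hac, hS⟩ := hstep U
    obtain ⟨U', hU', h1, h2⟩ := ih (U \ S)
    refine ⟨U', hU'.trans Finset.sdiff_subset, ?_, ?_⟩
    · have h3 : (h : ℝ) * (Phi A b U - a) ≤
          ∑ v, b ^ (nb A v ∩ U).card * (nb A v ∩ U).card := by
        have h4 : (h : ℝ) * (Phi A b U - a) =
            ∑ v, (h : ℝ) * (b ^ (nb A v ∩ U).card - b ^ h) := by
          unfold Phi
          rw [ha, ← Finset.mul_sum, Finset.sum_sub_distrib, Finset.sum_const, Finset.card_univ,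
            nsmul_eq_mul]
        rw [h4]
        apply Finset.sum_le_sum
        intro v _
        have hb0 : 0 < b ^ (nb A v ∩ U).card := by positivity
        rcases le_or_gt h (nb A v ∩ U).card with hle | hlt
        · have h5 : (h : ℝ) ≤ (nb A v ∩ U).card := by exact_mod_cast hle
          have h6 : (0 : ℝ) < b ^ h := by positivity
          have h7 : (h : ℝ) * (b ^ (nb A v ∩ U).card - b ^ h) ≤
              h * b ^ (nb A v ∩ U).card := by
            apply mul_le_mul_of_nonneg_left _ (by positivity)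
            linarith
          nlinarith
        · have h5 : b ^ (nb A v ∩ U).card ≤ b ^ h := pow_le_pow_right₀ hb hlt.le
          have h6 : (h : ℝ) * (b ^ (nb A v ∩ U).card - b ^ h) ≤ 0 := by
            apply mul_nonpos_of_nonneg_of_nonpos (by positivity) (by linarith)
          have h7 : 0 ≤ b ^ (nb A v ∩ U).card * ((nb A v ∩ U).card : ℝ) := by positivity
          linarith
      have h8 : Phi A b (U \ S) - a ≤ (1 - κ' * h) * (Phi A b U - a) := by
        have := mul_le_mul_of_nonneg_left h3 hκ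
        nlinarith
      calc Phi A b U' - a ≤ (1 - κ' * h) ^ q * (Phi A b (U \ S) - a) := h1
        _ ≤ (1 - κ' * h) ^ q * ((1 - κ' * h) * (Phi A b U - a)) := by
            apply mul_le_mul_of_nonneg_left h8
            apply pow_nonneg; linarith
        _ = _ := by ring
    · intro k hk
      have := h2 k hk
      exact this.add_acyc hac

end colour

/-- The main colouring theorem, in terms of `Col`. -/
theorem main_col (ε : ℝ) (hε : 0 < ε) : ∃ K : ℝ, ∀ (V : Type) [Fintype V] [DecidableEq V]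
    (A : V → V → Prop) (Δ : ℕ), (∀ u v, A u v → ¬ A v u) → (∀ v, (nb A v).card ≤ Δ) →
    ∃ k : ℕ, (k : ℝ) ≤ ε * Δ + K * (1 + Real.log (Fintype.card V)) ∧ Col A univ k := by
  rcases le_or_gt 1 ε with hε1 | hε1
  · refine ⟨1, ?_⟩
    intro V _ _ A Δ has hΔ
    have hirr : ∀ v, ¬ A v v := fun v h => has v v h h
    refine ⟨Δ + 1, ?_, greedy_col hirr (fun v _ =>
      (Finset.card_le_card Finset.inter_subset_left).trans (hΔ v))⟩
    have h1 : 0 ≤ Real.log (Fintype.card V) := Real.log_natCast_nonneg _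
    push_cast
    have : (Δ : ℝ) ≤ ε * Δ := le_mul_of_one_le_left (by positivity) hε1
    linarith
  -- parameters
  obtain ⟨J, hJ⟩ : ∃ J : ℕ, J = ⌈32 / ε ^ 2⌉₊ := ⟨_, rfl⟩
  have hJε : 32 / ε ^ 2 ≤ J := by rw [hJ]; exact Nat.le_ceil _
  have hJ1 : 1 ≤ J := by
    rw [hJ]; exact Nat.one_le_iff_ne_zero.2 (Nat.ceil_pos.2 (by positivity)).ne'
  have hJR : (1 : ℝ) ≤ J := by exact_mod_cast hJ1
  obtain ⟨C, Δ0, hC0, hΔ00, hW⟩ := weighted J hJ1
  obtain ⟨g, hg⟩ : ∃ g : ℕ, g = ⌈C ^ 2⌉₊ + J := ⟨_, rfl⟩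
  have hg1 : 1 ≤ g := by omega
  have hgR : (1 : ℝ) ≤ g := by exact_mod_cast hg1
  have hgJ : (J : ℝ) ≤ g := by
    have : J ≤ g := by omega
    exact_mod_cast this
  have hgC : C ^ 2 ≤ J * (g + 1) := by
    have h1 : C ^ 2 ≤ (⌈C ^ 2⌉₊ : ℝ) := Nat.le_ceil _
    have h2 : ((⌈C ^ 2⌉₊ : ℕ) : ℝ) ≤ g := by
      have : ⌈C ^ 2⌉₊ ≤ g := by omega
      exact_mod_cast this
    nlinarith
  obtain ⟨Δ1, hΔ1⟩ : ∃ Δ1 : ℕ, Δ1 = max Δ0 ⌈4 / ε⌉₊ := ⟨_, rfl⟩
  refine ⟨max (g + 3) (Δ1 + 1), ?_⟩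
  intro V _ _ A Δ has hΔ
  have hirr : ∀ v, ¬ A v v := fun v h => has v v h h
  have hlog : 0 ≤ Real.log (Fintype.card V) := Real.log_natCast_nonneg _
  rcases lt_or_ge Δ Δ1 with hsmall | hbig
  · refine ⟨Δ + 1, ?_, greedy_col hirr (fun v _ =>
      (Finset.card_le_card Finset.inter_subset_left).trans (hΔ v))⟩
    have h1 : (Δ : ℝ) ≤ Δ1 := by exact_mod_cast hsmall.le
    have h2 : (Δ1 : ℝ) + 1 ≤ max ((g : ℝ) + 3) (Δ1 + 1) := le_max_right _ _
    have h3 : 0 ≤ ε * Δ := by positivity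
    push_cast
    nlinarith
  have hΔΔ0 : Δ0 ≤ Δ := by
    have : Δ0 ≤ Δ1 := by rw [hΔ1]; exact le_max_left _ _
    omega
  have hΔ0 : 0 < Δ := by omega
  have hΔR : (0 : ℝ) < Δ := by exact_mod_cast hΔ0
  have hεΔ : 4 ≤ ε * Δ := by
    have h1 : 4 / ε ≤ (⌈4 / ε⌉₊ : ℝ) := Nat.le_ceil _
    have h2 : ((⌈4 / ε⌉₊ : ℕ) : ℝ) ≤ Δ := by
      have : ⌈4 / ε⌉₊ ≤ Δ := by
        have : ⌈4 / ε⌉₊ ≤ Δ1 := by rw [hΔ1]; exact le_max_right _ _
        omega
      exact_mod_cast this
    have h3 : 4 / ε ≤ Δ := h1.trans h2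
    rw [div_le_iff₀ hε] at h3
    linarith
  rcases Nat.eq_zero_or_pos (Fintype.card V) with hn | hn
  · refine ⟨0, ?_, ?_⟩
    · have h2 : (Δ1 : ℝ) + 1 ≤ max ((g : ℝ) + 3) (Δ1 + 1) := le_max_right _ _
      have h3 : 0 ≤ ε * Δ := by positivity
      push_cast
      have h4 : (0 : ℝ) ≤ Δ1 := by positivity
      have : 0 ≤ max ((g : ℝ) + 3) (Δ1 + 1) * (1 + Real.log (Fintype.card V)) := by
        apply mul_nonneg <;> linarith
      linarith
    · have : IsEmpty V := Fintype.card_eq_zero_iff.1 hn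
      exact ⟨fun v => (this.false v).elim, fun _ => 0, fun u => (this.false u).elim⟩
  have hnR : (1 : ℝ) ≤ Fintype.card V := by exact_mod_cast hn
  obtain ⟨b, hb⟩ : ∃ b : ℝ, b = (g + 1) / g := ⟨_, rfl⟩
  have hb1 : 1 ≤ b := by
    rw [hb, le_div_iff₀ (by linarith)]; linarith
  have hb0 : 0 < b := by linarith
  obtain ⟨h, hh⟩ : ∃ h : ℕ, h = ⌊ε / 2 * Δ⌋₊ := ⟨_, rfl⟩
  have hh1 : (h : ℝ) ≤ ε / 2 * Δ := by rw [hh]; exact Nat.floor_le (by positivity)
  have hh2 : ε / 4 * Δ ≤ h := by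
    have : ε / 2 * Δ < h + 1 := by rw [hh]; exact Nat.lt_floor_add_one _
    linarith
  have hhΔ : (h : ℝ) ≤ Δ := by nlinarith
  obtain ⟨κ', hκ'⟩ : ∃ κ' : ℝ, κ' = (1 / (g + 1)) * J / (2 * Δ) := ⟨_, rfl⟩
  have hκ0 : 0 < κ' := by rw [hκ']; positivity
  have hκ1 : κ' * h ≤ 1 := by
    rw [hκ']
    have h1 : (1 : ℝ) / (g + 1) * J ≤ 1 := by
      rw [one_div, inv_mul_le_iff₀ (by positivity)]; linarith
    calc (1 / ((g : ℝ) + 1)) * J / (2 * Δ) * h ≤ 1 / (2 * Δ) * Δ := by gcongr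
      _ = 1 / 2 := by field_simp
      _ ≤ 1 := by norm_num
  have hstep : ∀ U : Finset V, ∃ S ⊆ U, Acyc A S ∧ Phi A b (U \ S) ≤ Phi A b U -
      κ' * ∑ v, b ^ (nb A v ∩ U).card * (nb A v ∩ U).card := by
    intro U
    rw [hb, hκ']
    exact step (A := A) hΔ0 hΔ (J := J) (C := C) hg1 hgC (hW V A Δ hΔΔ0 has hΔ) U
  obtain ⟨q, hq⟩ : ∃ q : ℕ, q = ⌈ε / 2 * Δ⌉₊ := ⟨_, rfl⟩
  have hq1 : ε / 2 * Δ ≤ q := by rw [hq]; exact Nat.le_ceil _
  have hq2 : (q : ℝ) ≤ ε / 2 * Δ + 1 := by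
    rw [hq]; exact (Nat.ceil_lt_add_one (by positivity)).le
  obtain ⟨U', hU', hPhi, hcol⟩ := iterate (A := A) hb1 hκ0.le hκ1 rfl hstep q univ
  -- the potential is small
  have hPhi0 : Phi A b univ ≤ Fintype.card V * b ^ Δ := by
    unfold Phi
    calc ∑ v, b ^ (nb A v ∩ univ).card ≤ ∑ _v : V, b ^ Δ := by
          apply Finset.sum_le_sum
          intro v _
          apply pow_le_pow_right₀ hb1
          exact (Finset.card_le_card Finset.inter_subset_left).trans (hΔ v)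
      _ = _ := by rw [Finset.sum_const, Finset.card_univ, nsmul_eq_mul]
  have hdecay : (1 - κ' * h) ^ q * b ^ Δ ≤ 1 := by
    have h1 : (1 - κ' * h) ^ q ≤ Real.exp (-(κ' * h * q)) := by
      calc (1 - κ' * h) ^ q ≤ (Real.exp (-(κ' * h))) ^ q := by
            apply pow_le_pow_left₀ (by linarith)
            have := Real.add_one_le_exp (-(κ' * h))
            linarith
        _ = _ := by rw [← Real.exp_nat_mul]; congr 1; ring
    have h2 : b ^ Δ ≤ Real.exp (Δ * (1 / g)) := by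
      calc b ^ Δ ≤ (Real.exp (1 / g)) ^ Δ := by
            apply pow_le_pow_left₀ hb0.le
            have h3 : b = 1 / g + 1 := by rw [hb]; field_simp; ring
            rw [h3]
            exact Real.add_one_le_exp _
        _ = _ := by rw [← Real.exp_nat_mul]
    have h3 : (Δ : ℝ) * (1 / g) ≤ κ' * h * q := by
      have h4 : κ' * (ε / 4 * Δ) * (ε / 2 * Δ) ≤ κ' * h * q := by gcongr
      have h5 : 32 ≤ J * ε ^ 2 := by
        rw [div_le_iff₀ (by positivity)] at hJε; exact hJε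
      have h6 : (Δ : ℝ) * (2 / (g + 1)) ≤ κ' * (ε / 4 * Δ) * (ε / 2 * Δ) := by
        have h7 : κ' * (ε / 4 * Δ) * (ε / 2 * Δ) = Δ * (J * ε ^ 2 / 16 / (g + 1)) := by
          rw [hκ']; field_simp; ring
        rw [h7]
        gcongr
        linarith
      have h8 : (Δ : ℝ) * (1 / g) ≤ Δ * (2 / (g + 1)) := by
        apply mul_le_mul_of_nonneg_left _ hΔR.le
        rw [div_le_div_iff₀ (by linarith) (by linarith)]
        linarith
      linarith
    calc (1 - κ' * h) ^ q * b ^ Δ ≤ Real.exp (-(κ' * h * q)) * Real.exp (Δ * (1 / g)) := by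
          gcongr
      _ = Real.exp (-(κ' * h * q) + Δ * (1 / g)) := by rw [Real.exp_add]
      _ ≤ Real.exp 0 := by apply Real.exp_le_exp.2; linarith
      _ = 1 := Real.exp_zero
  have hbh : (1 : ℝ) ≤ b ^ h := one_le_pow₀ hb1
  have hPhi' : Phi A b U' ≤ 2 * Fintype.card V * b ^ h := by
    have hpw : 0 ≤ (1 - κ' * h) ^ q := pow_nonneg (by linarith) _
    have h1 : (1 - κ' * h) ^ q * (Phi A b univ - Fintype.card V * b ^ h) ≤
        Fintype.card V := by
      calc (1 - κ' * h) ^ q * (Phi A b univ - Fintype.card V * b ^ h)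
          ≤ (1 - κ' * h) ^ q * (Fintype.card V * b ^ Δ) := by
            apply mul_le_mul_of_nonneg_left _ hpw
            have : (0 : ℝ) ≤ Fintype.card V * b ^ h := by positivity
            linarith
        _ = Fintype.card V * ((1 - κ' * h) ^ q * b ^ Δ) := by ring
        _ ≤ Fintype.card V * 1 := by gcongr
        _ = _ := mul_one _
    have h2 : (Fintype.card V : ℝ) ≤ Fintype.card V * b ^ h :=
      le_mul_of_one_le_right (by positivity) hbh
    linarith
  obtain ⟨D, hD⟩ : ∃ D : ℕ, D = h + ⌊(g + 1) * Real.log (2 * Fintype.card V)⌋₊ := ⟨_, rfl⟩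
  have hlog2n : 0 ≤ Real.log (2 * Fintype.card V) := Real.log_nonneg (by linarith)
  have hdeg : ∀ v ∈ U', (nb A v ∩ U').card ≤ D := by
    intro v _
    have h1 : b ^ (nb A v ∩ U').card ≤ 2 * Fintype.card V * b ^ h := by
      refine le_trans ?_ hPhi'
      unfold Phi
      exact Finset.single_le_sum (f := fun v => b ^ (nb A v ∩ U').card)
        (fun v _ => by positivity) (mem_univ v)
    rcases le_or_gt (nb A v ∩ U').card h with hle | hgt
    · omega
    have h2 : b ^ ((nb A v ∩ U').card - h) ≤ 2 * Fintype.card V := by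
      have h3 : b ^ (nb A v ∩ U').card = b ^ ((nb A v ∩ U').card - h) * b ^ h := by
        rw [← pow_add]; congr 1; omega
      rw [h3] at h1
      exact le_of_mul_le_mul_right h1 (by positivity)
    have h3 : (((nb A v ∩ U').card - h : ℕ) : ℝ) * Real.log b ≤
        Real.log (2 * Fintype.card V) := by
      rw [← Real.log_pow]
      exact Real.log_le_log (by positivity) h2
    have h4 : 1 / ((g : ℝ) + 1) ≤ Real.log b := by
      have h5 : Real.log b⁻¹ ≤ b⁻¹ - 1 := Real.log_le_sub_one_of_pos (by positivity)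
      rw [Real.log_inv] at h5
      have h6 : b⁻¹ - 1 = - (1 / ((g : ℝ) + 1)) := by
        rw [hb]; field_simp; ring
      linarith
    have h5 : (((nb A v ∩ U').card - h : ℕ) : ℝ) ≤ (g + 1) * Real.log (2 * Fintype.card V) := by
      have h6 : (((nb A v ∩ U').card - h : ℕ) : ℝ) * (1 / ((g : ℝ) + 1)) ≤
          Real.log (2 * Fintype.card V) :=
        le_trans (mul_le_mul_of_nonneg_left h4 (by positivity)) h3
      rw [mul_one_div, div_le_iff₀ (by positivity)] at h6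
      linarith
    have h6 : (nb A v ∩ U').card - h ≤ ⌊(g + 1) * Real.log (2 * Fintype.card V)⌋₊ :=
      Nat.le_floor h5
    omega
  refine ⟨D + 1 + q, ?_, hcol (D + 1) (greedy_col hirr hdeg)⟩
  have h1 : ((⌊(g + 1) * Real.log (2 * Fintype.card V)⌋₊ : ℕ) : ℝ) ≤
      (g + 1) * Real.log (2 * Fintype.card V) := Nat.floor_le (by positivity)
  have h2 : Real.log (2 * Fintype.card V) = Real.log 2 + Real.log (Fintype.card V) :=
    Real.log_mul (by norm_num) (by positivity)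
  have h3 : Real.log 2 ≤ 1 := by
    have := Real.log_two_lt_d9
    linarith
  have h4 : ((D + 1 + q : ℕ) : ℝ) ≤ ε * Δ + ((g : ℝ) + 3) * (1 + Real.log (Fintype.card V)) := by
    have h1' : ((⌊(g + 1) * Real.log (2 * Fintype.card V)⌋₊ : ℕ) : ℝ) ≤
        (g + 1) * (1 + Real.log (Fintype.card V)) := by
      refine h1.trans ?_
      rw [h2]
      gcongr
    have h5 : ((g : ℝ) + 3) * (1 + Real.log (Fintype.card V)) =
        (g + 1) * (1 + Real.log (Fintype.card V)) + 2 + 2 * Real.log (Fintype.card V) := by ring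
    rw [hD, h5]
    push_cast
    linarith
  refine h4.trans ?_
  have h5 : (g : ℝ) + 3 ≤ max ((g : ℝ) + 3) (Δ1 + 1) := le_max_left _ _
  have h6 : 0 ≤ 1 + Real.log (Fintype.card V) := by linarith
  have := mul_le_mul_of_nonneg_right h5 h6
  linarith

end Pool.MP_e50225_co
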