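import Pool.Agent.MP_e50225_co.Local

namespace Pool.MP_e50225_co

set_option linter.unusedSectionVars false

open Finset
open scoped Classical

/-- the final algebra on one scale -/
lemma scale_alg {n Δ T J e q B b K y' : ℝ} (hn : 0 < n) (hΔ : 0 < Δ) (hT : T = n / Δ)
    (hJ : 1 ≤ J) (he : e ≤ J * T) (hq : q ≤ T / 16) (hB : 0 < B) (hb : 0 < b)
    (hy : y' = B * b / Δ) (hK : 0 < K)
    (hcmp : n * y' ≤ (K * b) * e + 2 * y' * (Δ / (16 * J + 1) * e + Δ * q))
    (hBK : 2 * K * J < B) : False := by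
  have hT0 : 0 < T := by rw [hT]; positivity
  have hy0 : 0 < y' := by rw [hy]; positivity
  have hnT : n = T * Δ := by rw [hT]; field_simp
  have h9 : Δ / (16 * J + 1) * e ≤ n / 16 := by
    rw [div_mul_eq_mul_div, div_le_iff₀ (by positivity)]
    calc Δ * e ≤ Δ * (J * T) := by gcongr
      _ = n / 16 * (16 * J) := by rw [hnT]; ring
      _ ≤ n / 16 * (16 * J + 1) := by gcongr; linarith
  have h10 : Δ * q ≤ n / 16 := by
    calc Δ * q ≤ Δ * (T / 16) := by gcongr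
      _ = n / 16 := by rw [hnT]; ring
  have h11 : n * y' * (3 / 4) ≤ (K * b) * e := by
    have ha : 2 * y' * (Δ / (16 * J + 1) * e + Δ * q) ≤ 2 * y' * (n / 16 + n / 16) := by
      gcongr
    have hb' : 2 * y' * (n / 16 + n / 16) = n * y' * (1 / 4) := by ring
    have hc : n * y' * (3 / 4) = n * y' - n * y' * (1 / 4) := by ring
    rw [hc]
    linarith only [ha, hb', hcmp]
  have h12 : n * y' * (3 / 4) ≤ (K * b) * (J * T) := h11.trans (by gcongr)
  rw [hy, hnT] at h12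
  have h13 : (T * b) * (B * (3 / 4)) ≤ (T * b) * (K * J) := by
    have e1' : T * Δ * (B * b / Δ) * (3 / 4) = (T * b) * (B * (3 / 4)) := by field_simp
    rw [e1'] at h12
    linarith only [h12]
  have h14 := le_of_mul_le_mul_left h13 (by positivity)
  have h15 : 0 < K * J := by positivity
  linarith only [h14, h15, hBK]

section

variable {V : Type} [Fintype V] [DecidableEq V] {A : V → V → Prop} {L : ℕ}

lemma scale_contra (has : ∀ u v, A u v → ¬ A v u) {Δ : ℕ} (hΔ : ∀ v, (nb A v).card ≤ Δ)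
    {J P k0 s B B1 m m' : ℕ} (hJ : 1 ≤ J) (hk0 : k0 = 16 * J) (hP : P = 2 * (k0 + 1) * k0 + 1)
    (hs : 256 * P * J ≤ s) (hBlog : 1152 ≤ Real.log B) (hBK : 2 * K1 k0 * J < B)
    (hm : m = 3 ^ (k0 + 1) * m') (hL : L = B * m) (hL0 : 0 < L) (hB1 : B = B1 ^ s)
    (hΔB : B ^ (P + 1) * 4 ^ (k0 + 1) ≤ Δ) (hn : 0 < Fintype.card V) {y y1 : ℝ}
    (hy : y = B ^ P / (Δ * L)) (hy1 : y1 = B1 ^ P / (Δ * L))
    (hle : E1 A L y / Z A L y ≤ J * (Fintype.card V / Δ))
    (hge : (1 - 1 / s) * (E1 A L y / Z A L y) ≤ E1 A L y1 / Z A L y1) : False := by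
  have hirr : ∀ v, ¬ A v v := fun v h => has v v h h
  have hs0 : 0 < s := by
    have : 0 < 256 * P * J := by rw [hP]; positivity
    omega
  have hB0 : 0 < B := by
    rcases Nat.eq_zero_or_pos B with h | h
    · subst h; simp at hL; omega
    · exact h
  have hB10 : 0 < B1 := by
    rcases Nat.eq_zero_or_pos B1 with h | h
    · subst h
      rw [zero_pow hs0.ne'] at hB1
      omega
    · exact h
  have hΔ0 : 0 < Δ := by
    have : 0 < B ^ (P + 1) * 4 ^ (k0 + 1) := by positivity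
    omega
  have hBR : (0 : ℝ) < B := by exact_mod_cast hB0
  have hB1R : (0 : ℝ) < B1 := by exact_mod_cast hB10
  have hΔR : (0 : ℝ) < Δ := by exact_mod_cast hΔ0
  have hLR : (0 : ℝ) < L := by exact_mod_cast hL0
  have hsR : (0 : ℝ) < s := by exact_mod_cast hs0
  have hnR : (0 : ℝ) < Fintype.card V := by exact_mod_cast hn
  have hJR : (1 : ℝ) ≤ J := by exact_mod_cast hJ
  have hy0 : 0 < y := by rw [hy]; positivity
  have hy10 : 0 < y1 := by rw [hy1]; positivity
  have hZ := Z_pos (A := A) (L := L) hy0.le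
  have hlogB : 0 < Real.log B := by linarith
  -- entropy
  have hent := entropy_ineq (A := A) (L := L) (r := m) (E := (B : ℝ)) hirr hΔ0 hL0 hΔ
    (by exact_mod_cast hB0) (by rw [hL]; push_cast; linarith [mul_comm (B : ℝ) m]) hy0 hy10
  set e := E1 A L y / Z A L y with he
  set e1 := E1 A L y1 / Z A L y1 with he1
  set q := EQ A L m y / Z A L y with hq
  set T : ℝ := (Fintype.card V : ℝ) / Δ with hT
  have hT0 : 0 < T := by positivity
  have he0 : 0 ≤ e := div_nonneg (E1_nonneg hy0.le) hZ.le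
  have hl1 : Real.log (y * (Δ * L)) = P * Real.log B := by
    rw [hy, div_mul_cancel₀ _ (by positivity), Real.log_pow]
  have hlB : Real.log B = s * Real.log B1 := by
    rw [hB1]; push_cast; rw [Real.log_pow]
  have hl2 : Real.log (y / y1) = (1 - 1 / s) * (P * Real.log B) := by
    have : y / y1 = (B : ℝ) ^ P / (B1 : ℝ) ^ P := by
      rw [hy, hy1]; field_simp
    rw [this, Real.log_div (by positivity) (by positivity), Real.log_pow, Real.log_pow, hlB]
    field_simp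
  have hPR : (0 : ℝ) < P := by
    have : 0 < P := by rw [hP]; positivity
    exact_mod_cast this
  have hs1 : (1 : ℝ) / s ≤ 1 := by
    rw [div_le_one hsR]; exact_mod_cast hs0
  rw [hl1, hl2] at hent
  have hPl : 0 < P * Real.log B := by positivity
  have h1 : e1 * ((1 - 1 / s) * (P * Real.log B)) ≥
      (1 - 1 / s) * e * ((1 - 1 / s) * (P * Real.log B)) := by
    apply mul_le_mul_of_nonneg_right hge
    apply mul_nonneg (by linarith) hPl.le
  have h2 : Real.log B / 4 * q ≤ Real.log B / 4 * (8 * P * e / s) + 9 * T := by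
    have h3 : e * (P * Real.log B) - (1 - 1 / s) * e * ((1 - 1 / s) * (P * Real.log B)) ≤
        Real.log B / 4 * (8 * P * e / s) := by
      have e1' : e * (P * Real.log B) - (1 - 1 / s) * e * ((1 - 1 / s) * (P * Real.log B)) =
          Real.log B / 4 * (8 * P * e / s) - e * (P * Real.log B) * (1 / s) ^ 2 := by
        field_simp
        ring
      rw [e1']
      have : 0 ≤ e * (P * Real.log B) * (1 / s) ^ 2 := by positivity
      linarith
    linarith
  have h4 : q ≤ T / 16 := by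
    have h5 : 8 * P * e / s ≤ T / 32 := by
      rw [div_le_iff₀ hsR]
      have h6 : (256 * P * J : ℝ) ≤ s := by exact_mod_cast hs
      calc 8 * P * e ≤ 8 * P * (J * T) := by gcongr
        _ = T / 32 * (256 * P * J) := by ring
        _ ≤ T / 32 * s := by gcongr
    have h7 : 9 * T ≤ Real.log B / 4 * (T / 32) := by nlinarith
    have h8 : Real.log B / 4 * q ≤ Real.log B / 4 * (T / 16) := by
      have : Real.log B / 4 * (8 * P * e / s) ≤ Real.log B / 4 * (T / 32) := by gcongr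
      linarith
    exact le_of_mul_le_mul_left h8 (by positivity)
  -- comparison
  have hLy : L * y = B ^ P / Δ := by rw [hy]; field_simp
  have hΔBR : (B : ℝ) ^ (P + 1) * 4 ^ (k0 + 1) ≤ Δ := by exact_mod_cast hΔB
  have hcmp := global_compare (A := A) has hΔ hy0 (k0 := k0) hm hL hL0 (by
    rw [hLy, ← mul_div_assoc, div_le_one hΔR]
    calc (B : ℝ) * 4 ^ (k0 + 1) * B ^ P = B ^ (P + 1) * 4 ^ (k0 + 1) := by ring
      _ ≤ Δ := hΔBR)
  set n : ℝ := (Fintype.card V : ℝ) with hnn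
  have hE1 : E1 A L y = e * Z A L y := by rw [he]; field_simp
  have hEQ : EQ A L m y = q * Z A L y := by rw [hq]; field_simp
  rw [hE1, hEQ] at hcmp
  have hcmp2 : n * (L * y) ≤ (K1 k0 * (B : ℝ) ^ (2 * (k0 + 1) * k0)) * e +
      2 * (L * y) * (Δ / (k0 + 1) * e + Δ * q) := by
    have e1' : (K1 k0 * (B : ℝ) ^ (2 * (k0 + 1) * k0)) * (e * Z A L y) +
      2 * (L * y) * (Δ / (k0 + 1) * (e * Z A L y) + Δ * (q * Z A L y)) =
      ((K1 k0 * (B : ℝ) ^ (2 * (k0 + 1) * k0)) * e +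
      2 * (L * y) * (Δ / (k0 + 1) * e + Δ * q)) * Z A L y := by ring
    rw [e1'] at hcmp
    exact le_of_mul_le_mul_right hcmp hZ
  have hK1 := K1_pos k0
  have hLy2 : L * y = B * (B : ℝ) ^ (2 * (k0 + 1) * k0) / Δ := by
    rw [hLy, hP, pow_succ]; ring
  have hk : (k0 : ℝ) = 16 * J := by exact_mod_cast hk0
  rw [hk] at hcmp2
  exact scale_alg hnR hΔR hT hJR hle h4 hBR (by positivity) hLy2 hK1 hcmp2 hBK

/-- The core theorem: for large degree, some activity `y` has `L y ≤ Cmax / Δ` and expected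
number of particles at least `J n / Δ`. -/
theorem core (J : ℕ) (hJ : 1 ≤ J) : ∃ (Cmax : ℝ) (Δ0 L : ℕ), 0 < L ∧ 0 < Δ0 ∧ 0 < Cmax ∧
    ∀ (V : Type) [Fintype V] [DecidableEq V] (A : V → V → Prop) (Δ : ℕ), Δ0 ≤ Δ →
      (∀ u v, A u v → ¬ A v u) → (∀ v, (nb A v).card ≤ Δ) →
      ∃ y : ℝ, 0 < y ∧ L * y ≤ Cmax / Δ ∧
        J * (Fintype.card V / Δ) * Z A L y ≤ E1 A L y := by
  obtain ⟨k0, hk0⟩ : ∃ k0, k0 = 16 * J := ⟨_, rfl⟩
  obtain ⟨P, hP⟩ : ∃ P, P = 2 * (k0 + 1) * k0 + 1 := ⟨_, rfl⟩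
  obtain ⟨s, hs⟩ : ∃ s, s = 256 * P * J := ⟨_, rfl⟩
  have hP0 : 0 < P := by rw [hP]; positivity
  have hs2 : 2 ≤ s := by
    rw [hs]
    have : 1 ≤ P * J := Nat.mul_pos hP0 hJ
    nlinarith
  -- choice of `B0`
  obtain ⟨B0, hB01, hB02⟩ : ∃ B0 : ℕ, Real.exp 1152 ≤ B0 ∧ 2 * K1 k0 * J < B0 := by
    obtain ⟨N, hN⟩ := exists_nat_gt (max (Real.exp 1152) (2 * K1 k0 * J))
    exact ⟨N, (le_max_left _ _).trans hN.le, lt_of_le_of_lt (le_max_right _ _) hN⟩
  have hB00 : 0 < B0 := by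
    have : (0 : ℝ) < B0 := lt_of_lt_of_le (Real.exp_pos _) hB01
    exact_mod_cast this
  have hB0R : (1 : ℝ) ≤ B0 := by exact_mod_cast hB00
  -- choice of the number of scales
  obtain ⟨ρ, hρ⟩ : ∃ ρ : ℝ, ρ = 1 - 1 / s := ⟨_, rfl⟩
  have hsR : (2 : ℝ) ≤ s := by exact_mod_cast hs2
  have hρ0 : 0 ≤ ρ := by
    rw [hρ, sub_nonneg, div_le_one (by linarith)]; linarith
  have hρ1 : ρ < 1 := by
    rw [hρ]
    have : (0 : ℝ) < 1 / s := by positivity
    linarith
  obtain ⟨δ0, hδ0⟩ : ∃ δ0 : ℝ, δ0 = (B0 : ℝ) ^ P * Real.exp (-(2 * (B0 : ℝ) ^ P)) := ⟨_, rfl⟩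
  have hδ0pos : 0 < δ0 := by rw [hδ0]; positivity
  have hJR : (0 : ℝ) < J := by exact_mod_cast hJ
  obtain ⟨I, hI⟩ := exists_pow_lt_of_lt_one (div_pos hδ0pos hJR) hρ1
  have hI' : ρ ^ I * J < δ0 := by rwa [lt_div_iff₀ hJR] at hI
  -- the scales
  let Bi : ℕ → ℕ := fun i => B0 ^ (s ^ i)
  have hBi_pos : ∀ i, 0 < Bi i := fun i => by positivity
  have hBi_mono : ∀ i j, i ≤ j → Bi i ≤ Bi j := by
    intro i j hij
    apply Nat.pow_le_pow_right hB00
    exact Nat.pow_le_pow_right (by omega) hij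
  have hBi_ge : ∀ i, B0 ≤ Bi i := by
    intro i
    calc B0 = B0 ^ 1 := (pow_one _).symm
      _ ≤ B0 ^ (s ^ i) := Nat.pow_le_pow_right hB00 (Nat.one_le_pow _ _ (by omega))
  obtain ⟨L, hL⟩ : ∃ L, L = Bi I * 3 ^ (k0 + 1) := ⟨_, rfl⟩
  have hL0 : 0 < L := by rw [hL]; have := hBi_pos I; positivity
  have hLR : (0 : ℝ) < L := by exact_mod_cast hL0
  refine ⟨(Bi I : ℝ) ^ P, Bi I ^ (P + 1) * 4 ^ (k0 + 1), L, hL0, ?_, ?_, ?_⟩
  · have := hBi_pos I; positivity
  · have : (0 : ℝ) < Bi I := by exact_mod_cast hBi_pos I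
    positivity
  intro V _ _ A Δ hΔΔ has hΔ
  have hirr : ∀ v, ¬ A v v := fun v h => has v v h h
  have hΔ0 : 0 < Δ := by
    have : 0 < Bi I ^ (P + 1) * 4 ^ (k0 + 1) := by have := hBi_pos I; positivity
    omega
  have hΔR : (0 : ℝ) < Δ := by exact_mod_cast hΔ0
  let yi : ℕ → ℝ := fun i => (Bi i : ℝ) ^ P / (Δ * L)
  have hyi : ∀ i, 0 < yi i := by
    intro i
    have : (0 : ℝ) < Bi i := by exact_mod_cast hBi_pos i
    positivity
  have hLyi : ∀ i, L * yi i = (Bi i : ℝ) ^ P / Δ := by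
    intro i; simp only [yi]; field_simp
  have hLyi_le : ∀ i ≤ I, L * yi i ≤ (Bi I : ℝ) ^ P / Δ := by
    intro i hi
    rw [hLyi]
    have : (Bi i : ℝ) ≤ Bi I := by exact_mod_cast hBi_mono i I hi
    gcongr
  by_contra hcon
  push Not at hcon
  have hbad : ∀ i ≤ I, E1 A L (yi i) < J * (Fintype.card V / Δ) * Z A L (yi i) :=
    fun i hi => hcon (yi i) (hyi i) (hLyi_le i hi)
  have hn : 0 < Fintype.card V := by
    rcases Nat.eq_zero_or_pos (Fintype.card V) with h | h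
    · have h1 := hbad 0 (Nat.zero_le _)
      rw [h] at h1
      simp only [Nat.cast_zero, zero_div, mul_zero, zero_mul] at h1
      exact absurd (E1_nonneg (A := A) (L := L) (hyi 0).le) (not_le.2 h1)
    · exact h
  have hnR : (0 : ℝ) < Fintype.card V := by exact_mod_cast hn
  have hbad' : ∀ i ≤ I, E1 A L (yi i) / Z A L (yi i) < J * (Fintype.card V / Δ) := by
    intro i hi
    rw [div_lt_iff₀ (Z_pos (hyi i).le)]
    exact hbad i hi
  -- the recursion
  have hrec : ∀ i < I, E1 A L (yi i) / Z A L (yi i) ≤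
      ρ * (E1 A L (yi (i + 1)) / Z A L (yi (i + 1))) := by
    intro i hi
    by_contra hlt
    push Not at hlt
    have hle := (hbad' (i + 1) (by omega)).le
    have hdiv : s ^ (i + 1) ≤ s ^ I := Nat.pow_le_pow_right (by omega) (by omega)
    refine scale_contra (A := A) (L := L) has hΔ (J := J) (P := P) (k0 := k0) (s := s)
      (B := Bi (i + 1)) (B1 := Bi i) (m := 3 ^ (k0 + 1) * B0 ^ (s ^ I - s ^ (i + 1)))
      (m' := B0 ^ (s ^ I - s ^ (i + 1))) hJ hk0 hP (le_of_eq hs.symm) ?_ ?_ rfl ?_ hL0 ?_ ?_ hn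
      (y := yi (i + 1)) (y1 := yi i) rfl rfl hle ?_
    · rw [Real.le_log_iff_exp_le (by exact_mod_cast hBi_pos (i + 1))]
      exact hB01.trans (by exact_mod_cast hBi_ge (i + 1))
    · exact lt_of_lt_of_le hB02 (by exact_mod_cast hBi_ge (i + 1))
    · rw [hL]
      simp only [Bi]
      have : B0 ^ (s ^ I) = B0 ^ (s ^ (i + 1)) * B0 ^ (s ^ I - s ^ (i + 1)) := by
        rw [← pow_add]; congr 1; omega
      rw [this]; ring
    · simp only [Bi]
      rw [← pow_mul, pow_succ]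
    · refine le_trans ?_ hΔΔ
      have := hBi_mono (i + 1) I (by omega)
      gcongr
    · rw [← hρ]; exact hlt.le
  have hind : ∀ j ≤ I, E1 A L (yi 0) / Z A L (yi 0) ≤
      ρ ^ j * (E1 A L (yi j) / Z A L (yi j)) := by
    intro j
    induction j with
    | zero => intro _; simp
    | succ j ih =>
      intro hj
      calc E1 A L (yi 0) / Z A L (yi 0) ≤ ρ ^ j * (E1 A L (yi j) / Z A L (yi j)) :=
            ih (by omega)
        _ ≤ ρ ^ j * (ρ * (E1 A L (yi (j + 1)) / Z A L (yi (j + 1)))) := by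
            apply mul_le_mul_of_nonneg_left (hrec j (by omega)) (by positivity)
        _ = _ := by ring
  -- base lower bound
  have hbase : δ0 * (Fintype.card V / Δ) ≤ E1 A L (yi 0) / Z A L (yi 0) := by
    have h1 := E1_lower (A := A) (L := L) hirr hΔ (hyi 0).le
    have hZ := Z_pos (A := A) (L := L) (hyi 0).le
    rw [hLyi 0] at h1
    have hB0e : Bi 0 = B0 := by simp [Bi]
    rw [hB0e] at h1
    have hC : (0 : ℝ) < (B0 : ℝ) ^ P := by positivity
    have h2 : (1 + (B0 : ℝ) ^ P / Δ) ^ (Δ + 1) ≤ Real.exp (2 * (B0 : ℝ) ^ P) := by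
      calc (1 + (B0 : ℝ) ^ P / Δ) ^ (Δ + 1) ≤ (Real.exp ((B0 : ℝ) ^ P / Δ)) ^ (Δ + 1) := by
            apply pow_le_pow_left₀ (by positivity)
            have := Real.add_one_le_exp ((B0 : ℝ) ^ P / Δ)
            linarith
        _ = Real.exp ((Δ + 1 : ℕ) * ((B0 : ℝ) ^ P / Δ)) := by rw [← Real.exp_nat_mul]
        _ ≤ _ := by
            apply Real.exp_le_exp.2
            have h3 : (1 : ℝ) ≤ Δ := by exact_mod_cast hΔ0
            have h4 : ((Δ + 1 : ℕ) : ℝ) * ((B0 : ℝ) ^ P / Δ) =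
                (B0 : ℝ) ^ P + (B0 : ℝ) ^ P / Δ := by
              push_cast; field_simp
            rw [h4]
            have h5 : (B0 : ℝ) ^ P / Δ ≤ (B0 : ℝ) ^ P := div_le_self hC.le h3
            linarith
    have h3 : (Fintype.card V : ℝ) * ((B0 : ℝ) ^ P / Δ) * Z A L (yi 0) ≤
        Real.exp (2 * (B0 : ℝ) ^ P) * E1 A L (yi 0) :=
      h1.trans (mul_le_mul_of_nonneg_right h2 (E1_nonneg (hyi 0).le))
    rw [le_div_iff₀ hZ, hδ0, Real.exp_neg]
    have he := Real.exp_pos (2 * (B0 : ℝ) ^ P)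
    have e1' : (B0 : ℝ) ^ P * (Real.exp (2 * (B0 : ℝ) ^ P))⁻¹ * (Fintype.card V / Δ) *
        Z A L (yi 0) = (Real.exp (2 * (B0 : ℝ) ^ P))⁻¹ *
        ((Fintype.card V : ℝ) * ((B0 : ℝ) ^ P / Δ) * Z A L (yi 0)) := by ring
    rw [e1', inv_mul_le_iff₀ he]
    exact h3
  have hfin := hind I le_rfl
  have hlast := hbad' I le_rfl
  have hT : (0 : ℝ) < Fintype.card V / Δ := by positivity
  have h1 : δ0 * (Fintype.card V / Δ) ≤ ρ ^ I * (J * (Fintype.card V / Δ)) :=
    hbase.trans (hfin.trans (mul_le_mul_of_nonneg_left hlast.le (by positivity)))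
  have h2 : δ0 ≤ ρ ^ I * J := by
    have : δ0 * (Fintype.card V / Δ) ≤ (ρ ^ I * J) * (Fintype.card V / Δ) := by linarith
    exact le_of_mul_le_mul_right this hT
  linarith

end

end Pool.MP_e50225_co
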