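import Pool.Agent.MP_e50225_co.Basic

namespace Pool.MP_e50225_co

set_option linter.unusedSectionVars false

open Finset
open scoped Classical

/-- Jensen's inequality for `exp`, in logarithmic form. -/
lemma jensen_exp {ι : Type*} (s : Finset ι) (p g : ι → ℝ) (hp : ∀ i ∈ s, 0 ≤ p i)
    (hP : 0 < ∑ i ∈ s, p i) :
    (∑ i ∈ s, p i * g i) / (∑ i ∈ s, p i) ≤
      Real.log ((∑ i ∈ s, p i * Real.exp (g i)) / (∑ i ∈ s, p i)) := by
  set P := ∑ i ∈ s, p i with hPdef
  set a := (∑ i ∈ s, p i * g i) / P with ha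
  have h1 : Real.exp a * P ≤ ∑ i ∈ s, p i * Real.exp (g i) := by
    have h2 : ∀ i ∈ s, p i * (Real.exp a * (1 + (g i - a))) ≤ p i * Real.exp (g i) := by
      intro i hi
      apply mul_le_mul_of_nonneg_left _ (hp i hi)
      have h3 : 1 + (g i - a) ≤ Real.exp (g i - a) := by
        have := Real.add_one_le_exp (g i - a)
        linarith
      calc Real.exp a * (1 + (g i - a)) ≤ Real.exp a * Real.exp (g i - a) :=
            mul_le_mul_of_nonneg_left h3 (Real.exp_pos a).le
        _ = Real.exp (g i) := by rw [← Real.exp_add]; ring_nf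
    have h4 := Finset.sum_le_sum h2
    have h5 : ∑ i ∈ s, p i * (Real.exp a * (1 + (g i - a))) =
        Real.exp a * (P + ∑ i ∈ s, p i * g i - a * P) := by
      have : ∀ i ∈ s, p i * (Real.exp a * (1 + (g i - a))) =
          Real.exp a * (p i + p i * g i - a * p i) := by
        intro i _; ring
      rw [Finset.sum_congr rfl this, ← Finset.mul_sum, Finset.sum_sub_distrib,
        Finset.sum_add_distrib, ← Finset.mul_sum]
    rw [h5] at h4
    have h6 : a * P = ∑ i ∈ s, p i * g i := by
      rw [ha]; field_simp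
    rw [h6] at h4
    have h7 : P + ∑ i ∈ s, p i * g i - ∑ i ∈ s, p i * g i = P := by ring
    rwa [h7] at h4
  rw [Real.le_log_iff_exp_le]
  · rwa [le_div_iff₀ hP]
  · apply div_pos _ hP
    exact lt_of_lt_of_le (mul_pos (Real.exp_pos a) hP) h1

section

variable {V : Type} [Fintype V] [DecidableEq V] {A : V → V → Prop} {L : ℕ}

/-- Two labels at distance less than `r`. -/
def Near (r : ℕ) (i j : Fin L) : Prop := (i : ℕ) < j + r ∧ (j : ℕ) < i + r

/-- The set of occupied sites with an occupied neighbour at label distance less than `r`. -/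
noncomputable def Q (A : V → V → Prop) (r : ℕ) (c : Cfg V L) : Finset V :=
  univ.filter (fun u => ∃ i, c u = some i ∧ ∃ w ∈ nb A u, ∃ j, c w = some j ∧ Near r i j)

/-- occupied by a label near to the label of a neighbour in `R` -/
def Cl (A : V → V → Prop) (r : ℕ) (R : Finset V) (c : Cfg V L) (u : V) (x : Option (Fin L)) :
    Prop :=
  ∃ i, x = some i ∧ ∃ w ∈ nb A u, w ∈ R ∧ ∃ j, c w = some j ∧ Near r i j

noncomputable def qR (A : V → V → Prop) (r : ℕ) (R : Finset V) (c : Cfg V L) : Finset V :=
  univ.filter (fun u => u ∉ R ∧ Cl A r R c u (c u))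

lemma card_near_le (r : ℕ) (j : Fin L) : (univ.filter (fun i : Fin L => Near r i j)).card ≤ 2 * r := by
  have h : ((univ.filter (fun i : Fin L => Near r i j)).image (fun i : Fin L => (i : ℕ))) ⊆
      Finset.Ico (j + 1 - r) (j + r) := by
    intro x hx
    simp only [mem_image, mem_filter, mem_univ, true_and] at hx
    obtain ⟨i, ⟨h1, h2⟩, rfl⟩ := hx
    rw [mem_Ico]
    omega
  have h2 := Finset.card_le_card h
  rw [Finset.card_image_of_injective _ Fin.val_injective, Nat.card_Ico] at h2
  omega

lemma card_cl_le (r : ℕ) (R : Finset V) (σ : Cfg V L) (u : V) :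
    (univ.filter (fun i : Fin L => Cl A r R σ u (some i))).card ≤
      2 * r * (nb A u ∩ supp σ).card := by
  have h : univ.filter (fun i : Fin L => Cl A r R σ u (some i)) ⊆
      (nb A u ∩ supp σ).biUnion
        (fun w => univ.filter (fun i : Fin L => ∃ j, σ w = some j ∧ Near r i j)) := by
    intro i hi
    simp only [mem_filter, mem_univ, true_and] at hi
    obtain ⟨i', h1, w, hw, hwR, j, hj, hn⟩ := hi
    have : i' = i := by simpa using h1.symm
    subst this
    simp only [mem_biUnion, mem_inter, mem_filter, mem_univ, true_and]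
    exact ⟨w, ⟨hw, mem_supp_iff.2 ⟨j, hj⟩⟩, j, hj, hn⟩
  refine (Finset.card_le_card h).trans ?_
  refine (Finset.card_biUnion_le).trans ?_
  rw [mul_comm, ← smul_eq_mul]
  apply Finset.sum_le_card_nsmul
  intro w hw
  rw [mem_inter, mem_supp_iff] at hw
  obtain ⟨_, j, hj⟩ := hw
  refine le_trans (Finset.card_le_card ?_) (card_near_le r j)
  intro i hi
  simp only [mem_filter, mem_univ, true_and] at hi ⊢
  obtain ⟨j', hj', hn⟩ := hi
  rw [hj] at hj'
  have : j = j' := by simpa using hj'
  rw [this]; exact hn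

lemma sum_card_nb_inter_le {Δ : ℕ} (hΔ : ∀ v, (nb A v).card ≤ Δ) (T : Finset V) :
    ∑ u, (nb A u ∩ T).card ≤ Δ * T.card := by
  have h1 : ∀ u, (nb A u ∩ T).card = ∑ w ∈ T, if w ∈ nb A u then 1 else 0 := by
    intro u
    rw [Finset.sum_boole, Finset.filter_mem_eq_inter, Finset.inter_comm]
    simp
  calc ∑ u, (nb A u ∩ T).card = ∑ u, ∑ w ∈ T, if w ∈ nb A u then 1 else 0 :=
        Finset.sum_congr rfl (fun u _ => h1 u)
    _ = ∑ w ∈ T, ∑ u, if w ∈ nb A u then 1 else 0 := Finset.sum_comm
    _ = ∑ w ∈ T, (nb A w).card := by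
        apply Finset.sum_congr rfl
        intro w _
        rw [Finset.sum_boole]
        simp only [Nat.cast_id]
        congr 1
        ext u
        simp [mem_nb_comm (v := u) (w := w)]
    _ ≤ T.card • Δ := Finset.sum_le_card_nsmul _ _ _ (fun w _ => hΔ w)
    _ = Δ * T.card := by rw [smul_eq_mul, mul_comm]

/-- sum over all configurations of `z^|c|` -/
lemma sum_all (z : ℝ) : ∑ c : Cfg V L, z ^ (supp c).card = (1 + L * z) ^ Fintype.card V := by
  have h := Finset.prod_univ_sum (fun _ : V => (univ : Finset (Option (Fin L))))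
    (fun _ x => wt z x)
  rw [Fintype.piFinset_univ] at h
  simp only [sum_wt, Finset.prod_const, Finset.card_univ] at h
  rw [h]
  apply Finset.sum_congr rfl
  intro c _
  exact pow_card_supp z c

/-- The single-site factor. -/
lemma site_factor {r : ℕ} {y E : ℝ} (hy0 : 0 < y) (hE : 1 ≤ E) (R : Finset V) (σ : Cfg V L)
    (v : V) :
    ∑ x : Option (Fin L), (wt y x * if v ∉ R ∧ Cl A r R σ v x then E else 1) ≤
      Real.exp (L * y + 2 * (r * E) * y * (nb A v ∩ supp σ).card) := by
  rw [Fintype.sum_option]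
  have h0 : (wt y (none : Option (Fin L)) *
      if v ∉ R ∧ Cl A r R σ v none then E else 1) = 1 := by
    have : ¬ Cl A r R σ v none := by
      rintro ⟨i, h, _⟩; simp at h
    simp [wt, this]
  rw [h0]
  have hyE : 0 ≤ y * E := by positivity
  have hyE' : y ≤ y * E := by nlinarith
  have h1 : ∑ i : Fin L, (wt y (some i) *
      if v ∉ R ∧ Cl A r R σ v (some i) then E else 1) ≤
      ∑ i : Fin L, (y + if Cl A r R σ v (some i) then y * E else 0) := by
    apply Finset.sum_le_sum
    intro i _
    have hw : wt y (some i) = y := by simp [wt]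
    rw [hw]
    by_cases h1 : Cl A r R σ v (some i)
    · simp only [h1, and_true, if_true]
      split_ifs <;> linarith
    · simp [h1]
  have h2 : ∑ i : Fin L, (y + if Cl A r R σ v (some i) then y * E else 0) =
      L * y + (univ.filter (fun i : Fin L => Cl A r R σ v (some i))).card * (y * E) := by
    rw [Finset.sum_add_distrib, Finset.sum_const, Finset.card_univ, Fintype.card_fin,
      nsmul_eq_mul, ← Finset.sum_filter, Finset.sum_const, nsmul_eq_mul]
  have h3 : ((univ.filter (fun i : Fin L => Cl A r R σ v (some i))).card : ℝ) ≤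
      2 * r * (nb A v ∩ supp σ).card := by
    exact_mod_cast card_cl_le r R σ v
  have h4 : ((univ.filter (fun i : Fin L => Cl A r R σ v (some i))).card : ℝ) * (y * E) ≤
      2 * (r * E) * y * (nb A v ∩ supp σ).card := by
    calc _ ≤ (2 * r * (nb A v ∩ supp σ).card) * (y * E) :=
          mul_le_mul_of_nonneg_right h3 (by positivity)
      _ = _ := by ring
  have h5 := Real.add_one_le_exp (L * y + 2 * (r * E) * y * (nb A v ∩ supp σ).card : ℝ)
  linarith

/-- rewriting the summand on the fiber as a product -/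
lemma fiber_rewrite {r : ℕ} {y E : ℝ} (R : Finset V) (σ : Cfg V L)
    (hσ : ∀ v ∈ Rᶜ, σ v = none) :
    ∑ c ∈ univ.filter (fun c : Cfg V L => er Rᶜ c = σ),
        y ^ (supp c).card * E ^ (qR A r R c).card =
      (∏ v ∈ Rᶜ, ∑ x : Option (Fin L),
            (wt y x * if v ∉ R ∧ Cl A r R σ v x then E else 1)) * y ^ (supp σ).card := by
  calc ∑ c ∈ univ.filter (fun c : Cfg V L => er Rᶜ c = σ),
          y ^ (supp c).card * E ^ (qR A r R c).card
        = ∑ c ∈ univ.filter (fun c : Cfg V L => er Rᶜ c = σ),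
            ∏ v, (wt y (c v) * if v ∉ R ∧ Cl A r R σ v (c v) then E else 1) := by
          apply Finset.sum_congr rfl
          intro c hc
          simp only [mem_filter, mem_univ, true_and] at hc
          rw [Finset.prod_mul_distrib, ← pow_card_supp]
          congr 1
          rw [Finset.prod_ite]
          simp only [Finset.prod_const, one_pow, mul_one]
          congr 2
          unfold qR
          apply Finset.filter_congr
          intro v _
          have hRc : ∀ w ∈ R, c w = σ w := by
            intro w hw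
            rw [← hc, er_of_not_mem]
            simp [hw]
          unfold Cl
          constructor
          · rintro ⟨h1, i, h2, w, h3, h4, j, h5, h6⟩
            exact ⟨h1, i, h2, w, h3, h4, j, by rw [← hRc w h4]; exact h5, h6⟩
          · rintro ⟨h1, i, h2, w, h3, h4, j, h5, h6⟩
            exact ⟨h1, i, h2, w, h3, h4, j, by rw [hRc w h4]; exact h5, h6⟩
      _ = (∏ v ∈ Rᶜ, ∑ x : Option (Fin L),
            (wt y x * if v ∉ R ∧ Cl A r R σ v x then E else 1)) *
          ∏ v ∈ (Rᶜ)ᶜ, (wt y (σ v) * if v ∉ R ∧ Cl A r R σ v (σ v) then E else 1) :=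
          sum_fiber_prod Rᶜ σ hσ
            (fun v x => wt y x * if v ∉ R ∧ Cl A r R σ v x then E else 1)
      _ = (∏ v ∈ Rᶜ, ∑ x : Option (Fin L),
            (wt y x * if v ∉ R ∧ Cl A r R σ v x then E else 1)) * y ^ (supp σ).card := by
          congr 1
          rw [← pow_card_supp_off y Rᶜ σ hσ]
          apply Finset.prod_congr rfl
          intro v hv
          have : v ∈ R := by simpa using hv
          simp [this]

/-- The fiber bound. -/
lemma fiber_split {Δ r : ℕ} (hΔ : ∀ v, (nb A v).card ≤ Δ)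
    {y E : ℝ} (hy0 : 0 < y) (hE : 1 ≤ E) (hrE : (r * E) * y * Δ ≤ 1) (R : Finset V)
    (σ : Cfg V L) (hσ : ∀ v ∈ Rᶜ, σ v = none) :
    ∑ c ∈ univ.filter (fun c : Cfg V L => er Rᶜ c = σ),
        y ^ (supp c).card * E ^ (qR A r R c).card ≤
      Real.exp (Fintype.card V * (L * y)) * (y * Real.exp 2) ^ (supp σ).card := by
  rw [fiber_rewrite R σ hσ]
  have h1 : (∑ v, ((nb A v ∩ supp σ).card : ℝ)) ≤ Δ * (supp σ).card := by
    exact_mod_cast sum_card_nb_inter_le hΔ (supp σ)
  have h2 : 2 * (r * E) * y * ∑ v, ((nb A v ∩ supp σ).card : ℝ) ≤ 2 * (supp σ).card := by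
    calc 2 * (r * E) * y * ∑ v, ((nb A v ∩ supp σ).card : ℝ)
        ≤ 2 * (r * E) * y * (Δ * (supp σ).card) := by
          apply mul_le_mul_of_nonneg_left h1
          positivity
      _ = 2 * ((r * E) * y * Δ) * (supp σ).card := by ring
      _ ≤ 2 * 1 * (supp σ).card := by gcongr
      _ = 2 * (supp σ).card := by ring
  have h3 : ∏ v ∈ Rᶜ, ∑ x : Option (Fin L),
            (wt y x * if v ∉ R ∧ Cl A r R σ v x then E else 1) ≤
      ∏ v ∈ Rᶜ, Real.exp (L * y + 2 * (r * E) * y * (nb A v ∩ supp σ).card) := by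
    apply Finset.prod_le_prod
    · intro v _
      apply Finset.sum_nonneg
      intro x _
      apply mul_nonneg
      · unfold wt; split_ifs <;> positivity
      · split_ifs <;> linarith
    · intro v _
      exact site_factor hy0 hE R σ v
  have h4 : ∏ v ∈ Rᶜ, Real.exp (L * y + 2 * (r * E) * y * (nb A v ∩ supp σ).card) ≤
      Real.exp (Fintype.card V * (L * y)) * Real.exp 2 ^ (supp σ).card := by
    rw [← Real.exp_sum, ← Real.exp_nat_mul, ← Real.exp_add]
    apply Real.exp_le_exp.2
    calc ∑ v ∈ Rᶜ, (L * y + 2 * (r * E) * y * (nb A v ∩ supp σ).card)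
        ≤ ∑ v, (L * y + 2 * (r * E) * y * (nb A v ∩ supp σ).card) := by
          apply Finset.sum_le_sum_of_subset_of_nonneg (Finset.subset_univ _)
          intro v _ _
          positivity
      _ = Fintype.card V * (L * y) + 2 * (r * E) * y * ∑ v, ((nb A v ∩ supp σ).card : ℝ) := by
          rw [Finset.sum_add_distrib, Finset.mul_sum, Finset.sum_const,
            Finset.card_univ, nsmul_eq_mul]
      _ ≤ _ := by linarith
  calc _ ≤ (Real.exp (Fintype.card V * (L * y)) * Real.exp 2 ^ (supp σ).card) *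
        y ^ (supp σ).card := mul_le_mul_of_nonneg_right (h3.trans h4) (by positivity)
    _ = _ := by rw [mul_pow]; ring

lemma exp_two_le : Real.exp 2 ≤ 8 := by
  have h := Real.exp_one_lt_d9
  have : Real.exp 2 = Real.exp 1 * Real.exp 1 := by rw [← Real.exp_add]; norm_num
  rw [this]
  nlinarith [Real.exp_pos 1]

/-- The key estimate for a fixed split of the vertices. -/
lemma fixed_split {Δ r : ℕ} (hΔ0 : 0 < Δ) (hL : 0 < L) (hΔ : ∀ v, (nb A v).card ≤ Δ)
    {E : ℝ} (hE : 1 ≤ E) (hrE : r * E ≤ L) (R : Finset V) :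
    ∑ c : Cfg V L, (1 / (Δ * L : ℝ)) ^ (supp c).card * E ^ (qR A r R c).card ≤
      Real.exp (9 * (Fintype.card V / Δ)) := by
  have hΔR : (0 : ℝ) < Δ := by exact_mod_cast hΔ0
  have hLR : (0 : ℝ) < L := by exact_mod_cast hL
  obtain ⟨y, hy⟩ : ∃ y : ℝ, y = 1 / (Δ * L : ℝ) := ⟨_, rfl⟩
  rw [← hy]
  have hy0 : 0 < y := by rw [hy]; positivity
  have hyL : L * y = 1 / Δ := by rw [hy]; field_simp
  have hcond : (r * E) * y * Δ ≤ 1 := by
    calc (r * E) * y * Δ ≤ L * y * Δ := by gcongr
      _ = 1 := by rw [hyL]; field_simp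
  -- decomposition
  have hdec : ∑ c : Cfg V L, y ^ (supp c).card * E ^ (qR A r R c).card =
      ∑ σ ∈ univ.filter (fun σ : Cfg V L => ∀ v ∈ Rᶜ, σ v = none),
        ∑ c ∈ univ.filter (fun c : Cfg V L => er Rᶜ c = σ),
          y ^ (supp c).card * E ^ (qR A r R c).card := by
    symm
    apply Finset.sum_fiberwise_of_maps_to
    intro c _
    simp only [mem_filter, mem_univ, true_and]
    intro v hv
    exact er_of_mem hv
  rw [hdec]
  have hfib : ∀ σ ∈ univ.filter (fun σ : Cfg V L => ∀ v ∈ Rᶜ, σ v = none),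
      ∑ c ∈ univ.filter (fun c : Cfg V L => er Rᶜ c = σ),
          y ^ (supp c).card * E ^ (qR A r R c).card ≤
        Real.exp (Fintype.card V * (L * y)) * (y * Real.exp 2) ^ (supp σ).card := by
    intro σ hσ
    simp only [mem_filter, mem_univ, true_and] at hσ
    exact fiber_split hΔ hy0 hE hcond R σ hσ
  refine (Finset.sum_le_sum hfib).trans ?_
  rw [← Finset.mul_sum]
  calc Real.exp (Fintype.card V * (L * y)) *
        ∑ σ ∈ univ.filter (fun σ : Cfg V L => ∀ v ∈ Rᶜ, σ v = none),
        (y * Real.exp 2) ^ (supp σ).card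
      ≤ Real.exp (Fintype.card V * (L * y)) *
        ∑ σ : Cfg V L, (y * Real.exp 2) ^ (supp σ).card := by
        apply mul_le_mul_of_nonneg_left _ (Real.exp_pos _).le
        apply Finset.sum_le_sum_of_subset_of_nonneg (Finset.filter_subset _ _)
        intro c _ _
        positivity
    _ = Real.exp (Fintype.card V * (L * y)) *
        (1 + L * (y * Real.exp 2)) ^ Fintype.card V := by rw [sum_all]
    _ ≤ Real.exp (Fintype.card V * (L * y)) * (Real.exp (8 / Δ)) ^ Fintype.card V := by
        apply mul_le_mul_of_nonneg_left _ (Real.exp_pos _).le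
        apply pow_le_pow_left₀ (by positivity)
        have h9 : L * (y * Real.exp 2) ≤ 8 / Δ := by
          rw [← mul_assoc, hyL]
          rw [div_mul_eq_mul_div, one_mul]
          gcongr
          exact exp_two_le
        have := Real.add_one_le_exp (8 / Δ : ℝ)
        linarith
    _ = Real.exp (9 * (Fintype.card V / Δ)) := by
        rw [← Real.exp_nat_mul, ← Real.exp_add, hyL]
        congr 1
        ring

/-- The number of sets separating `u` (outside) from `w` (inside). -/
lemma card_sep {u w : V} (h : u ≠ w) :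
    4 * (univ.filter (fun R : Finset V => u ∉ R ∧ w ∈ R)).card = 2 ^ Fintype.card V := by
  have h1 : univ.filter (fun R : Finset V => u ∉ R ∧ w ∈ R) = Finset.Icc {w} ({u}ᶜ) := by
    ext R
    simp only [mem_filter, mem_univ, true_and, mem_Icc, singleton_subset_iff]
    constructor
    · rintro ⟨h1, h2⟩
      refine ⟨h2, ?_⟩
      intro x hx
      simp only [mem_compl, mem_singleton]
      rintro rfl
      exact h1 hx
    · rintro ⟨h1, h2⟩
      refine ⟨?_, h1⟩
      intro hu
      have := h2 hu
      simp at this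
  rw [h1, Finset.card_Icc_finset]
  · rw [Finset.card_compl, Finset.card_singleton, Finset.card_singleton]
    have h2 : 2 ≤ Fintype.card V := by
      have := Finset.card_le_univ ({u, w} : Finset V)
      rwa [Finset.card_pair h] at this
    have h3 : Fintype.card V = (Fintype.card V - 1 - 1) + 2 := by omega
    conv_rhs => rw [h3]
    rw [pow_add]
    ring
  · intro x hx
    simp only [mem_singleton] at hx
    subst hx
    simpa using h.symm

/-- Averaging over the random split recovers a quarter of the near pairs. -/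
lemma avg_split (hirr : ∀ v, ¬ A v v) (r : ℕ) (c : Cfg V L) :
    (2 ^ Fintype.card V : ℝ) * (Q A r c).card ≤
      4 * ∑ R : Finset V, ((qR A r R c).card : ℝ) := by
  have h1 : ∀ u ∈ Q A r c, (2 ^ Fintype.card V : ℕ) ≤
      4 * (univ.filter (fun R : Finset V => u ∈ qR A r R c)).card := by
    intro u hu
    simp only [Q, mem_filter, mem_univ, true_and] at hu
    obtain ⟨i, hi, w, hw, j, hj, hn⟩ := hu
    have huw : u ≠ w := by
      rintro rfl
      rw [mem_nb] at hw
      exact hirr u (by tauto)
    rw [← card_sep huw]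
    apply Nat.mul_le_mul_left
    apply Finset.card_le_card
    intro R hR
    simp only [mem_filter, mem_univ, true_and] at hR ⊢
    simp only [qR, mem_filter, mem_univ, true_and]
    exact ⟨hR.1, i, hi, w, hw, hR.2, j, hj, hn⟩
  have h2 : (∑ R : Finset V, (qR A r R c).card) =
      ∑ u, (univ.filter (fun R : Finset V => u ∈ qR A r R c)).card := by
    have : ∀ R : Finset V, (qR A r R c).card = ∑ u, if u ∈ qR A r R c then 1 else 0 := by
      intro R
      rw [Finset.sum_boole]
      simp
    simp only [this]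
    rw [Finset.sum_comm]
    apply Finset.sum_congr rfl
    intro u _
    rw [Finset.sum_boole]
    simp
  have h3 : 2 ^ Fintype.card V * (Q A r c).card ≤ 4 * ∑ R : Finset V, (qR A r R c).card := by
    rw [h2, Finset.mul_sum, mul_comm, ← smul_eq_mul]
    calc (Q A r c).card • 2 ^ Fintype.card V
        ≤ ∑ u ∈ Q A r c, 4 * (univ.filter (fun R : Finset V => u ∈ qR A r R c)).card :=
          Finset.card_nsmul_le_sum _ _ _ h1
      _ ≤ _ := Finset.sum_le_sum_of_subset (Finset.subset_univ _)
  exact_mod_cast h3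

/-- exponential moment of the number of near particles, all configurations -/
lemma exp_moment {Δ r : ℕ} (hirr : ∀ v, ¬ A v v) (hΔ0 : 0 < Δ) (hL : 0 < L)
    (hΔ : ∀ v, (nb A v).card ≤ Δ) {E : ℝ} (hE : 1 ≤ E) (hrE : r * E ≤ L) :
    ∑ c ∈ vc A L, (1 / (Δ * L : ℝ)) ^ (supp c).card *
        Real.exp (Real.log E / 4 * (Q A r c).card) ≤
      Real.exp (9 * (Fintype.card V / Δ)) := by
  have hE0 : 0 < E := by linarith
  have hcard : (Fintype.card (Finset V) : ℝ) = 2 ^ Fintype.card V := by
    rw [Fintype.card_finset]; push_cast; rfl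
  have hpos : (0 : ℝ) < 2 ^ Fintype.card V := by positivity
  -- pointwise Jensen
  have h1 : ∀ c : Cfg V L, (2 ^ Fintype.card V : ℝ) * Real.exp (Real.log E / 4 * (Q A r c).card) ≤
      ∑ R : Finset V, E ^ (qR A r R c).card := by
    intro c
    have hj := jensen_exp (univ : Finset (Finset V)) (fun _ => (1 : ℝ))
      (fun R => Real.log E * (qR A r R c).card) (fun _ _ => zero_le_one)
      (by rw [Finset.sum_const, Finset.card_univ, nsmul_eq_mul, mul_one, hcard]; exact hpos)
    simp only [one_mul, Finset.sum_const, Finset.card_univ, nsmul_eq_mul, mul_one, hcard] at hj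
    rw [← Finset.mul_sum] at hj
    have h2 : ∀ R : Finset V, Real.exp (Real.log E * (qR A r R c).card) =
        E ^ (qR A r R c).card := by
      intro R
      rw [mul_comm, Real.exp_nat_mul, Real.exp_log hE0]
    simp only [h2] at hj
    have hs : 0 < (∑ R : Finset V, E ^ (qR A r R c).card) / 2 ^ Fintype.card V := by
      apply div_pos _ hpos
      apply Finset.sum_pos
      · intro R _; positivity
      · exact ⟨∅, mem_univ _⟩
    rw [Real.le_log_iff_exp_le hs, le_div_iff₀ hpos] at hj
    refine le_trans ?_ hj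
    rw [mul_comm]
    apply mul_le_mul_of_nonneg_right _ hpos.le
    apply Real.exp_le_exp.2
    have h4 := avg_split hirr r c
    have hlog : 0 ≤ Real.log E := Real.log_nonneg hE
    rw [le_div_iff₀ hpos]
    nlinarith
  have h2 : (2 ^ Fintype.card V : ℝ) * ∑ c ∈ vc A L, (1 / (Δ * L : ℝ)) ^ (supp c).card *
        Real.exp (Real.log E / 4 * (Q A r c).card) ≤
      (2 ^ Fintype.card V : ℝ) * Real.exp (9 * (Fintype.card V / Δ)) := by
    calc (2 ^ Fintype.card V : ℝ) * ∑ c ∈ vc A L, (1 / (Δ * L : ℝ)) ^ (supp c).card *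
        Real.exp (Real.log E / 4 * (Q A r c).card)
        = ∑ c ∈ vc A L, (1 / (Δ * L : ℝ)) ^ (supp c).card *
          ((2 ^ Fintype.card V : ℝ) * Real.exp (Real.log E / 4 * (Q A r c).card)) := by
          rw [Finset.mul_sum]
          apply Finset.sum_congr rfl
          intro c _
          ring
      _ ≤ ∑ c ∈ vc A L, (1 / (Δ * L : ℝ)) ^ (supp c).card *
          ∑ R : Finset V, E ^ (qR A r R c).card := by
          apply Finset.sum_le_sum
          intro c _
          apply mul_le_mul_of_nonneg_left (h1 c)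
          positivity
      _ ≤ ∑ c : Cfg V L, (1 / (Δ * L : ℝ)) ^ (supp c).card *
          ∑ R : Finset V, E ^ (qR A r R c).card := by
          apply Finset.sum_le_sum_of_subset_of_nonneg (Finset.subset_univ _)
          intro c _ _
          positivity
      _ = ∑ R : Finset V, ∑ c : Cfg V L, (1 / (Δ * L : ℝ)) ^ (supp c).card *
            E ^ (qR A r R c).card := by
          rw [Finset.sum_comm]
          apply Finset.sum_congr rfl
          intro c _
          rw [Finset.mul_sum]
      _ ≤ ∑ _R : Finset V, Real.exp (9 * (Fintype.card V / Δ)) :=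
          Finset.sum_le_sum (fun R _ => fixed_split hΔ0 hL hΔ hE hrE R)
      _ = _ := by
          rw [Finset.sum_const, Finset.card_univ, nsmul_eq_mul, hcard]
  exact le_of_mul_le_mul_left h2 hpos

/-- Mean number of near particles. -/
noncomputable def EQ (A : V → V → Prop) (L r : ℕ) (y : ℝ) : ℝ :=
  ∑ c ∈ vc A L, y ^ (supp c).card * (Q A r c).card

/-- Lower bound for the free energy. -/
lemma log_Z_ge {y y1 : ℝ} (hy1 : 0 < y1) (hy : 0 < y) :
    E1 A L y1 / Z A L y1 * Real.log (y / y1) ≤ Real.log (Z A L y) := by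
  have hj := jensen_exp (vc A L) (fun c => y1 ^ (supp c).card)
    (fun c => (supp c).card * Real.log (y / y1)) (fun _ _ => by positivity)
    (Z_pos hy1.le)
  have hyy : 0 < y / y1 := by positivity
  have h1 : ∑ c ∈ vc A L, y1 ^ (supp c).card * ((supp c).card * Real.log (y / y1)) =
      E1 A L y1 * Real.log (y / y1) := by
    unfold E1
    rw [Finset.sum_mul]
    apply Finset.sum_congr rfl
    intro c _
    ring
  have h2 : ∑ c ∈ vc A L, y1 ^ (supp c).card * Real.exp ((supp c).card * Real.log (y / y1)) =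
      Z A L y := by
    unfold Z
    apply Finset.sum_congr rfl
    intro c _
    rw [Real.exp_nat_mul, Real.exp_log hyy, ← mul_pow]
    congr 1
    field_simp
  simp only [h1, h2] at hj
  have h3 : (∑ c ∈ vc A L, y1 ^ (supp c).card) = Z A L y1 := rfl
  rw [h3] at hj
  calc E1 A L y1 / Z A L y1 * Real.log (y / y1) = E1 A L y1 * Real.log (y / y1) / Z A L y1 := by
        ring
    _ ≤ Real.log (Z A L y / Z A L y1) := hj
    _ ≤ Real.log (Z A L y) := by
        apply Real.log_le_log
        · exact div_pos (Z_pos hy.le) (Z_pos hy1.le)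
        · exact div_le_self (Z_pos hy.le).le (Z_ge_one hy1.le)

/-- The entropy inequality. -/
lemma entropy_ineq {Δ r : ℕ} (hirr : ∀ v, ¬ A v v) (hΔ0 : 0 < Δ) (hL : 0 < L)
    (hΔ : ∀ v, (nb A v).card ≤ Δ) {E : ℝ} (hE : 1 ≤ E) (hrE : r * E ≤ L)
    {y y1 : ℝ} (hy : 0 < y) (hy1 : 0 < y1) :
    Real.log E / 4 * (EQ A L r y / Z A L y) ≤
      E1 A L y / Z A L y * Real.log (y * (Δ * L)) - E1 A L y1 / Z A L y1 * Real.log (y / y1)
        + 9 * (Fintype.card V / Δ) := by
  have hΔR : (0 : ℝ) < Δ := by exact_mod_cast hΔ0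
  have hLR : (0 : ℝ) < L := by exact_mod_cast hL
  have hyy : 0 < y * (Δ * L : ℝ) := by positivity
  have hj := jensen_exp (vc A L) (fun c => y ^ (supp c).card)
    (fun c => Real.log E / 4 * (Q A r c).card - (supp c).card * Real.log (y * (Δ * L)))
    (fun _ _ => by positivity) (Z_pos hy.le)
  have h1 : ∑ c ∈ vc A L, y ^ (supp c).card *
      (Real.log E / 4 * (Q A r c).card - (supp c).card * Real.log (y * (Δ * L))) =
      Real.log E / 4 * EQ A L r y - E1 A L y * Real.log (y * (Δ * L)) := by
    unfold EQ E1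
    rw [Finset.sum_mul, Finset.mul_sum, ← Finset.sum_sub_distrib]
    apply Finset.sum_congr rfl
    intro c _
    ring
  have h2 : ∑ c ∈ vc A L, y ^ (supp c).card *
      Real.exp (Real.log E / 4 * (Q A r c).card - (supp c).card * Real.log (y * (Δ * L))) ≤
      Real.exp (9 * (Fintype.card V / Δ)) := by
    refine le_trans (le_of_eq ?_) (exp_moment hirr hΔ0 hL hΔ hE hrE)
    apply Finset.sum_congr rfl
    intro c _
    rw [Real.exp_sub, Real.exp_nat_mul, Real.exp_log hyy, mul_pow, one_div, inv_pow]
    have : y ^ (supp c).card ≠ 0 := by positivity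
    field_simp
  have h3 : (∑ c ∈ vc A L, y ^ (supp c).card) = Z A L y := rfl
  simp only [h1, h3] at hj
  have hZ := Z_pos (A := A) (L := L) hy.le
  have h4 : Real.log ((∑ c ∈ vc A L, y ^ (supp c).card *
      Real.exp (Real.log E / 4 * (Q A r c).card - (supp c).card * Real.log (y * (Δ * L)))) /
      Z A L y) ≤ 9 * (Fintype.card V / Δ) - Real.log (Z A L y) := by
    have hs : 0 < ∑ c ∈ vc A L, y ^ (supp c).card *
      Real.exp (Real.log E / 4 * (Q A r c).card - (supp c).card * Real.log (y * (Δ * L))) := by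
      apply Finset.sum_pos
      · intro c _; positivity
      · exact ⟨_, mem_vc.2 (empty_valid (A := A) (V := V) (L := L))⟩
    rw [Real.log_div hs.ne' hZ.ne']
    have := Real.log_le_log hs h2
    rw [Real.log_exp] at this
    linarith
  have h5 := log_Z_ge (A := A) (L := L) hy1 hy
  have h6 : (Real.log E / 4 * EQ A L r y - E1 A L y * Real.log (y * (Δ * L))) / Z A L y =
      Real.log E / 4 * (EQ A L r y / Z A L y) - E1 A L y / Z A L y * Real.log (y * (Δ * L)) := by
    ring
  rw [h6] at hj
  linarith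

end

end Pool.MP_e50225_co
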