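import Pool.Agent.MP_e50225_co.Prob
import Pool.Agent.MP_e50225_co.State

/-!
# Module Extract, core part: from a final state to the local rule.
-/

set_option autoImplicit false

namespace Pool.Agent.MP_e50225_co

open Finset

namespace Extract

variable {V : Type} [Fintype V] [DecidableEq V]

lemma mem_nbr {G : SimpleGraph V} {u v : V} : u ∈ nbr G v ↔ G.Adj v u := by
  classical
  unfold nbr
  simp

lemma bg_und {D : V → V → Prop} {x : V → ℕ} {u v : V} (h : (bg D x).Adj u v) :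
    (und D).Adj u v := by
  refine ⟨h.1, ?_⟩
  rcases h.2 with h | h
  · exact Or.inl h.1
  · exact Or.inr h.1

lemma self_mem_ball (G : SimpleGraph V) (r : ℕ) (v : V) : v ∈ ball G r v := by
  induction r with
  | zero => simp [ball]
  | succ r ih => rw [ball]; exact Finset.mem_union_left _ ih

lemma ball_mono (G : SimpleGraph V) (r : ℕ) (v : V) : ball G r v ⊆ ball G (r + 1) v := by
  rw [ball]
  exact Finset.subset_union_left

lemma ball_nbr (G : SimpleGraph V) (r : ℕ) {u v : V} (h : u ∈ nbr G v) :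
    ball G r u ⊆ ball G (r + 1) v := by
  induction r with
  | zero =>
    intro w hw
    have : w = u := by simpa [ball] using hw
    rw [this, ball]
    apply Finset.mem_union_right
    rw [Finset.mem_biUnion]
    exact ⟨v, by simp [ball], h⟩
  | succ r ih =>
    intro w hw
    rw [ball, Finset.mem_union, Finset.mem_biUnion] at hw
    rw [ball, Finset.mem_union, Finset.mem_biUnion]
    rcases hw with hw | ⟨a, ha, hw⟩
    · exact Or.inl (ih hw)
    · exact Or.inr ⟨a, ih ha, hw⟩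

open Classical in
/-- The final random set. -/
def JF (D : V → V → Prop) {Δ b L : ℕ} {δ c : ℝ} {k : ℕ} {p : ℝ} (S : St D Δ b L δ c k p) (d : ℕ)
    (ω : V → S.Λ) (v : V) : Prop :=
  S.J ω v ∧
  ((nbr (bg D (fun w => (S.x (ω w) : ℕ))) v).filter (fun u => S.J ω u)).card ≤ 24 * d ∧
  ¬ ∃ u w, S.J ω u ∧ S.J ω w ∧ (bg D (fun w => (S.x (ω w) : ℕ))).Adj v u ∧
    (bg D (fun w => (S.x (ω w) : ℕ))).Adj v w ∧ (bg D (fun w => (S.x (ω w) : ℕ))).Adj u w

lemma upper_set (D : V → V → Prop) {Δ b L : ℕ} {δ c : ℝ} {k : ℕ} {p : ℝ}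
    (S : St D Δ b L δ c k p) (hL : 0 < L) (Q : Finset V) :
    pr (fun ω : V → S.Λ => (∀ q ∈ Q, S.J ω q) ∧ (∀ q ∈ Q, ∀ q' ∈ Q, q ≠ q' → ¬ S.R ω q q')) ≤
      p ^ Q.card := by
  have : Nonempty (Fin L) := ⟨⟨0, hL⟩⟩
  have h := S.upper Q (fun _ => True)
  rw [pr_true, mul_one] at h
  refine le_trans (pr_mono ?_) h
  intro ω hω
  exact ⟨hω.1, hω.2, trivial⟩

lemma upper_dense_set (D : V → V → Prop) {Δ b L : ℕ} {δ c : ℝ} {k : ℕ} {p : ℝ}
    (S : St D Δ b L δ c k p) (hL : 0 < L) (Q : Finset V)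
    (hQ : ∃ u ∈ Q, ∃ v ∈ Q, u ≠ v ∧ c * Δ ≤ ((nbr (und D) u ∩ nbr (und D) v).card : ℝ)) :
    pr (fun ω : V → S.Λ => (∀ q ∈ Q, S.J ω q) ∧ (∀ q ∈ Q, ∀ q' ∈ Q, q ≠ q' → ¬ S.R ω q q')) ≤
      (1 - c / 16) ^ k * p ^ Q.card := by
  have : Nonempty (Fin L) := ⟨⟨0, hL⟩⟩
  have h := S.upper_dense Q (fun _ => True) hQ
  rw [pr_true, mul_one] at h
  refine le_trans (pr_mono ?_) h
  intro ω hω
  exact ⟨hω.1, hω.2, trivial⟩

/-- pairs -/
lemma pair_le (D : V → V → Prop) {Δ b L : ℕ} {δ c : ℝ} {k : ℕ} {p : ℝ}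
    (S : St D Δ b L δ c k p) (hL : 0 < L) (u v : V) :
    pr (fun ω : V → S.Λ => S.J ω v ∧ S.J ω u ∧
      (bg D (fun w => (S.x (ω w) : ℕ))).Adj v u) ≤ p ^ 2 := by
  by_cases huv : v = u
  · have h0 : pr (fun ω : V → S.Λ => S.J ω v ∧ S.J ω u ∧
        (bg D (fun w => (S.x (ω w) : ℕ))).Adj v u) = 0 := by
      rw [← pr_false (Ω := V → S.Λ)]
      apply pr_congr
      intro ω
      constructor
      · intro h
        exact h.2.2.1 huv
      · exact fun h => h.elim
    rw [h0]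
    positivity
  · have h := upper_set D S hL {v, u}
    rw [Finset.card_pair huv] at h
    refine le_trans (pr_mono ?_) h
    intro ω hω
    have hR := S.notR ω v u hω.1 hω.2.1 hω.2.2
    have hR' : ¬ S.R ω u v := fun h => hR (S.symmR ω u v h)
    refine ⟨?_, ?_⟩
    · intro q hq
      rcases Finset.mem_insert.mp hq with hq | hq
      · rw [hq]; exact hω.1
      · rw [Finset.mem_singleton.mp hq]; exact hω.2.1
    · intro q hq q' hq' hne
      rcases Finset.mem_insert.mp hq with hq | hq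
      · rcases Finset.mem_insert.mp hq' with hq' | hq'
        · exact absurd (hq.trans hq'.symm) hne
        · rw [hq, Finset.mem_singleton.mp hq']; exact hR
      · rcases Finset.mem_insert.mp hq' with hq' | hq'
        · rw [hq', Finset.mem_singleton.mp hq]; exact hR'
        · exact absurd ((Finset.mem_singleton.mp hq).trans (Finset.mem_singleton.mp hq').symm) hne

/-- the event used for triangles -/
lemma tri_event (D : V → V → Prop) {Δ b L : ℕ} {δ c : ℝ} {k : ℕ} {p : ℝ}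
    (S : St D Δ b L δ c k p) (u v w : V) (ω : V → S.Λ)
    (hω : S.J ω v ∧ S.J ω u ∧ S.J ω w ∧ (bg D (fun w => (S.x (ω w) : ℕ))).Adj v u ∧
      (bg D (fun w => (S.x (ω w) : ℕ))).Adj v w ∧ (bg D (fun w => (S.x (ω w) : ℕ))).Adj u w) :
    (∀ q ∈ ({v, u, w} : Finset V), S.J ω q) ∧
      (∀ q ∈ ({v, u, w} : Finset V), ∀ q' ∈ ({v, u, w} : Finset V), q ≠ q' → ¬ S.R ω q q') := by
  obtain ⟨hv, hu, hw, hvu, hvw, huw⟩ := hω
  have h1 := S.notR ω v u hv hu hvu
  have h2 := S.notR ω v w hv hw hvw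
  have h3 := S.notR ω u w hu hw huw
  have h1' : ¬ S.R ω u v := fun h => h1 (S.symmR ω u v h)
  have h2' : ¬ S.R ω w v := fun h => h2 (S.symmR ω w v h)
  have h3' : ¬ S.R ω w u := fun h => h3 (S.symmR ω w u h)
  refine ⟨?_, ?_⟩
  · intro q hq
    simp only [Finset.mem_insert, Finset.mem_singleton] at hq
    rcases hq with rfl | rfl | rfl <;> assumption
  · intro q hq q' hq' hne
    simp only [Finset.mem_insert, Finset.mem_singleton] at hq hq'
    rcases hq with hq | hq | hq <;> rcases hq' with hq' | hq' | hq' <;>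
      rw [hq, hq'] <;> first | assumption | exact absurd (hq.trans hq'.symm) hne

lemma main_lower (D : V → V → Prop) {Δ b L : ℕ} {δ c : ℝ} {k : ℕ} {p : ℝ}
    (S : St D Δ b L δ c k p) (hL : 0 < L) (d : ℕ) (hd : 1 ≤ d) (hp : 0 < p)
    (hdeg : ∀ v, (nbr (und D) v).card ≤ Δ)
    (hlow : (d : ℝ) ≤ Δ * p) (hup : (Δ : ℝ) * p ≤ 3 * d)
    (hδ : ((k : ℝ) + 1) * δ ≤ 1 / 4) (hc : c * (144 * (d : ℝ) ^ 2) = 1) (hc0 : 0 < c)
    (hk : (1 - c / 16) ^ k ≤ c) (v : V) :
    p / 2 ≤ pr (fun ω : V → S.Λ => JF D S d ω v) := by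
  classical
  have hd' : (1 : ℝ) ≤ d := by exact_mod_cast hd
  set B : (V → S.Λ) → SimpleGraph V := fun ω => bg D (fun w => (S.x (ω w) : ℕ)) with hB
  -- too many conflict neighbours
  have hmany : pr (fun ω : V → S.Λ => S.J ω v ∧ ((24 * d : ℕ) : ℝ) ≤
      (((nbr (und D) v).filter (fun u => S.J ω u ∧ (B ω).Adj v u)).card : ℝ)) ≤ p / 8 := by
    have hpos : (0 : ℝ) < ((24 * d : ℕ) : ℝ) := by
      have : 0 < 24 * d := by omega
      exact_mod_cast this
    refine (markov_and (f := fun ω : V → S.Λ =>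
      (((nbr (und D) v).filter (fun u => S.J ω u ∧ (B ω).Adj v u)).card : ℝ))
      (fun ω => Nat.cast_nonneg _) (fun ω => S.J ω v) hpos).trans ?_
    have h1 := avg_card_filter_and (nbr (und D) v) (fun u (ω : V → S.Λ) => S.J ω u ∧ (B ω).Adj v u)
      (fun ω => S.J ω v)
    rw [div_le_iff₀ hpos]
    have h2 : avg (fun ω : V → S.Λ => if S.J ω v then
        (((nbr (und D) v).filter (fun u => S.J ω u ∧ (B ω).Adj v u)).card : ℝ) else 0) ≤
        Δ * p ^ 2 := by
      rw [h1]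
      have h3 : ∀ u ∈ nbr (und D) v, pr (fun ω : V → S.Λ => S.J ω v ∧ S.J ω u ∧ (B ω).Adj v u) ≤
          p ^ 2 := fun u _ => pair_le D S hL u v
      refine (Finset.sum_le_card_nsmul _ _ _ h3).trans ?_
      rw [nsmul_eq_mul]
      apply mul_le_mul_of_nonneg_right _ (by positivity)
      exact_mod_cast hdeg v
    have h4 : (Δ : ℝ) * p ^ 2 ≤ p / 8 * ((24 * d : ℕ) : ℝ) := by
      push_cast
      nlinarith
    refine le_trans (le_of_eq ?_) (h2.trans h4)
    congr 1
  -- triangles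
  have htri : pr (fun ω : V → S.Λ => S.J ω v ∧ ∃ u w, S.J ω u ∧ S.J ω w ∧ (B ω).Adj v u ∧
      (B ω).Adj v w ∧ (B ω).Adj u w) ≤ p / 8 := by
    have h1 : pr (fun ω : V → S.Λ => S.J ω v ∧ ∃ u w, S.J ω u ∧ S.J ω w ∧ (B ω).Adj v u ∧
        (B ω).Adj v w ∧ (B ω).Adj u w) ≤
        pr (fun ω : V → S.Λ => ∃ u ∈ nbr (und D) v, ∃ w ∈ nbr (und D) u ∩ nbr (und D) v,
          (S.J ω v ∧ S.J ω u ∧ S.J ω w ∧ (B ω).Adj v u ∧ (B ω).Adj v w ∧ (B ω).Adj u w)) := by
      apply pr_mono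
      rintro ω ⟨hv, u, w, hu, hw, hvu, hvw, huw⟩
      refine ⟨u, mem_nbr.mpr (bg_und hvu), w, ?_, hv, hu, hw, hvu, hvw, huw⟩
      rw [Finset.mem_inter]
      exact ⟨mem_nbr.mpr (bg_und huw), mem_nbr.mpr (bg_und hvw)⟩
    refine h1.trans ((pr_exists_le _ _).trans ?_)
    have h2 : ∀ u ∈ nbr (und D) v, pr (fun ω : V → S.Λ => ∃ w ∈ nbr (und D) u ∩ nbr (und D) v,
        (S.J ω v ∧ S.J ω u ∧ S.J ω w ∧ (B ω).Adj v u ∧ (B ω).Adj v w ∧ (B ω).Adj u w)) ≤
        Δ * (2 * c) * p ^ 3 := by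
      intro u hu
      refine (pr_exists_le _ _).trans ?_
      have hcardQ : ∀ w ∈ nbr (und D) u ∩ nbr (und D) v, ({v, u, w} : Finset V).card = 3 := by
        intro w hw
        rw [Finset.mem_inter, mem_nbr, mem_nbr] at hw
        rw [mem_nbr] at hu
        exact Finset.card_eq_three.mpr ⟨v, u, w, hu.1, hw.2.1, hw.1.1, rfl⟩
      by_cases hdense : c * Δ ≤ ((nbr (und D) u ∩ nbr (und D) v).card : ℝ)
      · have h3 : ∀ w ∈ nbr (und D) u ∩ nbr (und D) v, pr (fun ω : V → S.Λ =>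
            (S.J ω v ∧ S.J ω u ∧ S.J ω w ∧ (B ω).Adj v u ∧ (B ω).Adj v w ∧ (B ω).Adj u w)) ≤
            c * p ^ 3 := by
          intro w hw
          have h4 := upper_dense_set D S hL {v, u, w} ⟨u, by simp, v, by simp,
            (mem_nbr.mp hu).1.symm, hdense⟩
          rw [hcardQ w hw] at h4
          refine le_trans (pr_mono ?_) (h4.trans ?_)
          · intro ω hω
            exact tri_event D S u v w ω hω
          · exact mul_le_mul_of_nonneg_right hk (by positivity)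
        refine (Finset.sum_le_card_nsmul _ _ _ h3).trans ?_
        rw [nsmul_eq_mul]
        have h5 : ((nbr (und D) u ∩ nbr (und D) v).card : ℝ) ≤ Δ := by
          exact_mod_cast (Finset.card_le_card Finset.inter_subset_left).trans (hdeg u)
        calc ((nbr (und D) u ∩ nbr (und D) v).card : ℝ) * (c * p ^ 3) ≤ Δ * (c * p ^ 3) :=
              mul_le_mul_of_nonneg_right h5 (by positivity)
          _ ≤ Δ * (2 * c) * p ^ 3 := by
              have : 0 ≤ (Δ : ℝ) * (c * p ^ 3) := by positivity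
              linarith
      · push Not at hdense
        have h3 : ∀ w ∈ nbr (und D) u ∩ nbr (und D) v, pr (fun ω : V → S.Λ =>
            (S.J ω v ∧ S.J ω u ∧ S.J ω w ∧ (B ω).Adj v u ∧ (B ω).Adj v w ∧ (B ω).Adj u w)) ≤
            p ^ 3 := by
          intro w hw
          have h4 := upper_set D S hL {v, u, w}
          rw [hcardQ w hw] at h4
          refine le_trans (pr_mono ?_) h4
          intro ω hω
          exact tri_event D S u v w ω hω
        refine (Finset.sum_le_card_nsmul _ _ _ h3).trans ?_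
        rw [nsmul_eq_mul]
        calc ((nbr (und D) u ∩ nbr (und D) v).card : ℝ) * p ^ 3 ≤ (c * Δ) * p ^ 3 :=
              mul_le_mul_of_nonneg_right hdense.le (by positivity)
          _ ≤ Δ * (2 * c) * p ^ 3 := by
              have : 0 ≤ (c * Δ) * p ^ 3 := by positivity
              linarith
    refine (Finset.sum_le_card_nsmul _ _ _ h2).trans ?_
    rw [nsmul_eq_mul]
    calc ((nbr (und D) v).card : ℝ) * (Δ * (2 * c) * p ^ 3) ≤ Δ * (Δ * (2 * c) * p ^ 3) := by
          apply mul_le_mul_of_nonneg_right _ (by positivity)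
          exact_mod_cast hdeg v
      _ = (Δ * p) ^ 2 * (2 * c * p) := by ring
      _ ≤ (3 * d) ^ 2 * (2 * c * p) := by
          apply mul_le_mul_of_nonneg_right _ (by positivity)
          exact pow_le_pow_left₀ (by positivity) hup 2
      _ = c * (144 * (d : ℝ) ^ 2) * (p / 8) := by ring
      _ = p / 8 := by rw [hc, one_mul]
  -- combine
  have hJ : pr (fun ω : V → S.Λ => S.J ω v) ≤ pr (fun ω : V → S.Λ => JF D S d ω v) +
      (pr (fun ω : V → S.Λ => S.J ω v ∧ ((24 * d : ℕ) : ℝ) ≤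
        (((nbr (und D) v).filter (fun u => S.J ω u ∧ (B ω).Adj v u)).card : ℝ)) +
      pr (fun ω : V → S.Λ => S.J ω v ∧ ∃ u w, S.J ω u ∧ S.J ω w ∧ (B ω).Adj v u ∧
        (B ω).Adj v w ∧ (B ω).Adj u w)) := by
    refine le_trans (pr_mono ?_) ((pr_or_le _ _).trans (add_le_add_right (pr_or_le _ _) _))
    intro ω hv
    by_cases h1 : ((24 * d : ℕ) : ℝ) ≤
        (((nbr (und D) v).filter (fun u => S.J ω u ∧ (B ω).Adj v u)).card : ℝ)
    · exact Or.inr (Or.inl ⟨hv, h1⟩)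
    · by_cases h2 : ∃ u w, S.J ω u ∧ S.J ω w ∧ (B ω).Adj v u ∧ (B ω).Adj v w ∧ (B ω).Adj u w
      · exact Or.inr (Or.inr ⟨hv, h2⟩)
      · left
        refine ⟨hv, ?_, h2⟩
        rw [not_le] at h1
        have h3 : ((nbr (und D) v).filter (fun u => S.J ω u ∧ (B ω).Adj v u)).card < 24 * d := by
          exact_mod_cast h1
        refine le_trans (Finset.card_le_card ?_) h3.le
        intro u hu
        rw [Finset.mem_filter, mem_nbr] at hu
        rw [Finset.mem_filter, mem_nbr]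
        exact ⟨bg_und hu.1, hu.2, hu.1⟩
  have hlowS := S.lower v
  have h34 : 3 / 4 * p ≤ pr (fun ω : V → S.Λ => S.J ω v) := by
    refine le_trans ?_ hlowS
    apply mul_le_mul_of_nonneg_right _ hp.le
    linarith
  linarith

end Extract

open Extract Classical in
theorem rule_of_state {V : Type} [Fintype V] [DecidableEq V] (D : V → V → Prop) {Δ b L : ℕ}
    {δ c : ℝ} {k : ℕ} {p : ℝ}
    (S : St D Δ b L δ c k p) (hL : 0 < L) (d : ℕ) (hd : 1 ≤ d) (hp : 0 < p)
    (hdeg : ∀ v, (nbr (und D) v).card ≤ Δ)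
    (hlow : (d : ℝ) ≤ Δ * p) (hup : (Δ : ℝ) * p ≤ 3 * d)
    (hδ : ((k : ℝ) + 1) * δ ≤ 1 / 4) (hc : c * (144 * (d : ℝ) ^ 2) = 1) (hc0 : 0 < c)
    (hk : (1 - c / 16) ^ k ≤ c) :
    ∃ (Λ : Type) (_ : Fintype Λ) (_ : Nonempty Λ) (x : Λ → ℕ) (J : (V → Λ) → V → Prop),
      (∀ v ω ω', (∀ u ∈ ball (und D) (2 * k + 3) v, ω u = ω' u) → (J ω v ↔ J ω' v)) ∧
      (∀ v, (d : ℝ) / (2 * Δ) ≤ pr (fun ω : V → Λ => J ω v)) ∧
      (∀ ω v, J ω v → ((nbr (bg D (fun w => x (ω w))) v).filter (fun u => J ω u)).card ≤ 24 * d) ∧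
      (∀ ω u v w, J ω u → J ω v → J ω w → (bg D (fun w => x (ω w))).Adj u v →
        (bg D (fun w => x (ω w))).Adj v w → ¬ (bg D (fun w => x (ω w))).Adj u w) ∧
      (∀ ω w, ((nbr (und D) w).filter (fun u => J ω u)).card ≤ b) := by
  refine ⟨S.Λ, S.fin, S.ne, fun l => (S.x l : ℕ), JF D S d, ?_, ?_, ?_, ?_, ?_⟩
  · -- locality
    have key : ∀ (v : V) (ω ω' : V → S.Λ), (∀ u ∈ ball (und D) (2 * k + 3) v, ω u = ω' u) →
        (JF D S d ω v → JF D S d ω' v) := by
      intro v ω ω' h hJ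
      have hvv : ω v = ω' v := h v (self_mem_ball _ _ _)
      have hSJv : S.J ω v ↔ S.J ω' v := S.loc v ω ω' (fun u hu => h u (ball_mono _ _ _ hu))
      have hSJ : ∀ u ∈ nbr (und D) v, (S.J ω u ↔ S.J ω' u) := by
        intro u hu
        exact S.loc u ω ω' (fun w hw => h w (ball_nbr _ _ hu hw))
      have hlab : ∀ u ∈ nbr (und D) v, ω u = ω' u := fun u hu =>
        h u (ball_nbr _ _ hu (self_mem_ball _ _ _))
      have hadj : ∀ u, (bg D (fun w => (S.x (ω w) : ℕ))).Adj v u ↔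
          (bg D (fun w => (S.x (ω' w) : ℕ))).Adj v u := by
        intro u
        constructor
        · intro hh
          have hu := hlab u (mem_nbr.mpr (bg_und hh))
          unfold bg at hh ⊢
          simp only at hh ⊢
          rwa [← hu, ← hvv]
        · intro hh
          have hu := hlab u (mem_nbr.mpr (bg_und hh))
          unfold bg at hh ⊢
          simp only at hh ⊢
          rwa [hu, hvv]
      refine ⟨hSJv.mp hJ.1, ?_, ?_⟩
      · refine le_trans (Finset.card_le_card ?_) hJ.2.1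
        intro u hu
        rw [Finset.mem_filter, mem_nbr] at hu ⊢
        have hadj' := (hadj u).mpr hu.1
        exact ⟨hadj', (hSJ u (mem_nbr.mpr (bg_und hadj'))).mpr hu.2⟩
      · rintro ⟨u, w, hu, hw, hvu, hvw, huw⟩
        apply hJ.2.2
        have hvu' := (hadj u).mpr hvu
        have hvw' := (hadj w).mpr hvw
        have hun := mem_nbr.mpr (bg_und hvu')
        have hwn := mem_nbr.mpr (bg_und hvw')
        refine ⟨u, w, (hSJ u hun).mpr hu, (hSJ w hwn).mpr hw, hvu', hvw', ?_⟩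
        have h1 := hlab u hun
        have h2 := hlab w hwn
        unfold bg at huw ⊢
        simp only at huw ⊢
        rwa [h1, h2]
    intro v ω ω' h
    exact ⟨key v ω ω' h, key v ω' ω (fun u hu => (h u hu).symm)⟩
  · intro v
    have h := main_lower D S hL d hd hp hdeg hlow hup hδ hc hc0 hk v
    refine le_trans ?_ h
    have hd' : (1 : ℝ) ≤ d := by exact_mod_cast hd
    have hΔ : (0 : ℝ) < Δ := by
      rcases Nat.eq_zero_or_pos Δ with h0 | h0
      · rw [h0] at hlow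
        simp at hlow
        omega
      · exact_mod_cast h0
    rw [div_le_div_iff₀ (by positivity) (by norm_num)]
    linarith
  · intro ω v hJ
    refine le_trans (Finset.card_le_card ?_) hJ.2.1
    intro u hu
    rw [Finset.mem_filter] at hu ⊢
    exact ⟨hu.1, hu.2.1⟩
  · intro ω u v w hu hv hw huv hvw huw
    exact hu.2.2 ⟨v, w, hv.1, hw.1, huv, huw, hvw⟩
  · intro ω w
    refine le_trans (Finset.card_le_card ?_) (S.cap ω w)
    intro u hu
    rw [Finset.mem_filter] at hu ⊢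
    exact ⟨hu.1, hu.2.1⟩

/-- Parameters: `exists_rule` from a final state. -/
theorem exists_params (d : ℕ) (hd : 1 ≤ d) : ∃ (c : ℝ) (k : ℕ) (δ : ℝ), 1 ≤ k ∧ 0 < δ ∧ δ ≤ 1 ∧
    0 < c ∧ c ≤ 1 ∧ ((k : ℝ) + 1) * δ ≤ 1 / 4 ∧ c * (144 * (d : ℝ) ^ 2) = 1 ∧
    (1 - c / 16) ^ k ≤ c := by
  have hd' : (1 : ℝ) ≤ d := by exact_mod_cast hd
  have hd2 : (1 : ℝ) ≤ (d : ℝ) ^ 2 := one_le_pow₀ hd'
  set c : ℝ := 1 / (144 * (d : ℝ) ^ 2) with hc
  have hc0 : 0 < c := by positivity
  have hc1 : c ≤ 1 := by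
    rw [hc, div_le_one (by positivity)]
    linarith
  obtain ⟨k, hk⟩ := exists_pow_lt_of_lt_one hc0 (by linarith : 1 - c / 16 < 1)
  refine ⟨c, k + 1, 1 / (4 * ((k : ℝ) + 2)), by omega, by positivity, ?_, hc0, hc1, ?_, ?_, ?_⟩
  · rw [div_le_one (by positivity)]
    have : (0 : ℝ) ≤ k := Nat.cast_nonneg k
    linarith
  · push_cast
    apply le_of_eq
    field_simp
    ring
  · rw [hc]; field_simp
  · refine le_trans ?_ hk.le
    rw [pow_succ]
    have h1 : (0 : ℝ) ≤ (1 - c / 16) ^ k := pow_nonneg (by linarith) k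
    nlinarith

end Pool.Agent.MP_e50225_co
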