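import Pool.Agent.MP_e50225_co.Weighted

namespace Pool.MP_e50225_co

set_option linter.unusedSectionVars false

open Finset
open scoped Classical

section minimax

variable {V : Type} [Fintype V] [DecidableEq V]

/-- The coverage vector of a weighting of acyclic sets. -/
noncomputable def cov (A : V → V → Prop) :
    ({S : Finset V // Acyc A S} → ℝ) →ₗ[ℝ] (V → ℝ) where
  toFun p v := ∑ S, (if v ∈ S.1 then p S else 0)
  map_add' p q := by
    ext v
    simp only [Pi.add_apply]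
    rw [← Finset.sum_add_distrib]
    apply Finset.sum_congr rfl
    intro S _
    split_ifs <;> simp
  map_smul' a p := by
    ext v
    simp only [Pi.smul_apply, smul_eq_mul, RingHom.id_apply]
    rw [Finset.mul_sum]
    apply Finset.sum_congr rfl
    intro S _
    split_ifs <;> simp

/-- LP duality for covering by acyclic sets. -/
lemma minimax (A : V → V → Prop) {δ : ℝ}
    (h : ∀ w : V → ℝ, (∀ v, 0 ≤ w v) → ∃ S : Finset V, Acyc A S ∧
      δ * ∑ v, w v ≤ ∑ v ∈ S, w v) :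
    ∃ p : {S : Finset V // Acyc A S} → ℝ, (∀ S, 0 ≤ p S) ∧ ∑ S, p S = 1 ∧
      ∀ v, δ ≤ ∑ S, (if v ∈ S.1 then p S else 0) := by
  set K : Set (V → ℝ) := (cov A) '' (stdSimplex ℝ {S : Finset V // Acyc A S}) with hK
  set T : Set (V → ℝ) := {x | ∀ v, δ ≤ x v} with hT
  have hKc : Convex ℝ K := (convex_stdSimplex ℝ _).linear_image (cov A)
  have hKk : IsCompact K :=
    (isCompact_stdSimplex ℝ _).image (LinearMap.continuous_of_finiteDimensional (cov A))
  have hTc : Convex ℝ T := by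
    intro x hx y hy a b ha hb hab v
    have h1 : δ ≤ x v := hx v
    have h2 : δ ≤ y v := hy v
    simp only [Pi.add_apply, Pi.smul_apply, smul_eq_mul]
    have h3 := mul_le_mul_of_nonneg_left h1 ha
    have h4 := mul_le_mul_of_nonneg_left h2 hb
    have h5 : δ = a * δ + b * δ := by rw [← add_mul, hab, one_mul]
    linarith
  have hTk : IsClosed T := by
    have : T = ⋂ v, {x : V → ℝ | δ ≤ x v} := by
      ext x; simp [hT]
    rw [this]
    apply isClosed_iInter
    intro v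
    exact isClosed_le continuous_const (continuous_apply v)
  by_cases hdisj : Disjoint K T
  · exfalso
    obtain ⟨f, u, v', hu, huv, hv⟩ := geometric_hahn_banach_compact_closed hKc hKk hTc hTk hdisj
    set w : V → ℝ := fun i => f (Pi.single i 1) with hw
    have hf : ∀ x : V → ℝ, f x = ∑ i, x i * w i := by
      intro x
      have hx : x = ∑ i, x i • (Pi.single i (1 : ℝ) : V → ℝ) := by
        ext j
        simp [Finset.sum_apply, Pi.single_apply]
      conv_lhs => rw [hx]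
      rw [map_sum]
      simp [hw]
    have hw0 : ∀ i, 0 ≤ w i := by
      intro i
      by_contra hneg
      push Not at hneg
      have h1 : ∀ s : ℝ, 0 ≤ s → v' < f (fun j => δ + s * (Pi.single i (1 : ℝ) : V → ℝ) j) := by
        intro s hs
        apply hv
        intro j
        have : 0 ≤ s * (Pi.single i (1 : ℝ) : V → ℝ) j := by
          apply mul_nonneg hs
          by_cases hj : j = i
          · subst hj; simp
          · simp [hj]
        linarith
      have h2 : ∀ s : ℝ, f (fun j => δ + s * (Pi.single i (1 : ℝ) : V → ℝ) j) =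
          δ * (∑ j, w j) + s * w i := by
        intro s
        rw [hf]
        have : ∀ j, (δ + s * (Pi.single i (1 : ℝ) : V → ℝ) j) * w j =
            δ * w j + s * ((Pi.single i (1 : ℝ) : V → ℝ) j * w j) := by intro j; ring
        simp only [this]
        rw [Finset.sum_add_distrib, ← Finset.mul_sum, ← Finset.mul_sum]
        congr 2
        simp [Pi.single_apply]
      have h3 := h1 (max 0 ((v' - δ * (∑ j, w j)) / w i)) (le_max_left _ _)
      rw [h2] at h3
      have h4 : max 0 ((v' - δ * (∑ j, w j)) / w i) * w i ≤ v' - δ * (∑ j, w j) := by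
        have h5 := le_max_right 0 ((v' - δ * (∑ j, w j)) / w i)
        have h6 := mul_le_mul_of_nonpos_right h5 hneg.le
        rwa [div_mul_cancel₀ _ hneg.ne] at h6
      linarith
    obtain ⟨S, hS, hSw⟩ := h w hw0
    have h1 : f (cov A (Pi.single ⟨S, hS⟩ 1)) < u := by
      apply hu
      refine ⟨Pi.single ⟨S, hS⟩ 1, ?_, rfl⟩
      exact single_mem_stdSimplex ℝ _
    have h2 : f (cov A (Pi.single ⟨S, hS⟩ 1)) = ∑ v ∈ S, w v := by
      rw [hf]
      have h3 : ∀ v, (cov A (Pi.single ⟨S, hS⟩ 1)) v = if v ∈ S then 1 else 0 := by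
        intro v
        change ∑ S' : {S : Finset V // Acyc A S}, (if v ∈ S'.1 then
          (Pi.single ⟨S, hS⟩ (1 : ℝ) : {S : Finset V // Acyc A S} → ℝ) S' else 0) = _
        rw [Finset.sum_eq_single ⟨S, hS⟩]
        · simp
        · intro b _ hb
          simp [hb]
        · intro h; exact absurd (mem_univ _) h
      simp only [h3, ite_mul, one_mul, zero_mul]
      rw [Finset.sum_ite_mem, Finset.univ_inter]
    have h3 : v' < f (fun _ => δ) := hv _ (fun _ => le_rfl)
    have h4 : f (fun _ => δ) = δ * ∑ v, w v := by rw [hf, Finset.mul_sum]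
    linarith
  · rw [Set.not_disjoint_iff] at hdisj
    obtain ⟨x, ⟨p, hp, rfl⟩, hxT⟩ := hdisj
    exact ⟨p, hp.1, hp.2, hxT⟩

/-- From natural to real weights. -/
lemma real_weights {A : V → V → Prop} {δ : ℝ} (hδ : 0 ≤ δ)
    (h : ∀ w : V → ℕ, ∃ S : Finset V, Acyc A S ∧
      δ * ∑ v, (w v : ℝ) ≤ ∑ v ∈ S, (w v : ℝ)) (w : V → ℝ) (hw : ∀ v, 0 ≤ w v) :
    ∃ S : Finset V, Acyc A S ∧ δ * ∑ v, w v ≤ ∑ v ∈ S, w v := by
  by_contra hcon
  push Not at hcon
  -- the gap
  have hne : (univ.filter (fun S : Finset V => Acyc A S)).Nonempty := by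
    refine ⟨∅, ?_⟩
    rw [mem_filter]
    exact ⟨mem_univ _, fun _ => 0, by simp⟩
  obtain ⟨S0, hS0, hmax⟩ := Finset.exists_max_image
    (univ.filter (fun S : Finset V => Acyc A S)) (fun S => ∑ v ∈ S, w v) hne
  rw [mem_filter] at hS0
  have hgap := hcon S0 hS0.2
  set g := δ * ∑ v, w v - ∑ v ∈ S0, w v with hg
  have hg0 : 0 < g := by rw [hg]; linarith
  obtain ⟨N, hN⟩ := exists_nat_gt (δ * Fintype.card V / g)
  have hN0 : (0 : ℝ) < N := lt_of_le_of_lt (by positivity) hN
  obtain ⟨S, hS, hSw⟩ := h (fun v => ⌊N * w v⌋₊)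
  have h1 : ∀ v, ((⌊N * w v⌋₊ : ℕ) : ℝ) ≤ N * w v := fun v =>
    Nat.floor_le (mul_nonneg hN0.le (hw v))
  have h2 : ∀ v, N * w v - 1 ≤ ((⌊N * w v⌋₊ : ℕ) : ℝ) := fun v => by
    have := Nat.lt_floor_add_one (N * w v)
    linarith
  have h3 : ∑ v ∈ S, ((⌊N * w v⌋₊ : ℕ) : ℝ) ≤ N * ∑ v ∈ S0, w v := by
    calc ∑ v ∈ S, ((⌊N * w v⌋₊ : ℕ) : ℝ) ≤ ∑ v ∈ S, N * w v :=
          Finset.sum_le_sum (fun v _ => h1 v)
      _ = N * ∑ v ∈ S, w v := by rw [Finset.mul_sum]
      _ ≤ _ := mul_le_mul_of_nonneg_left (hmax S (mem_filter.2 ⟨mem_univ _, hS⟩)) hN0.le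
  have h4 : N * ∑ v, w v - Fintype.card V ≤ ∑ v, ((⌊N * w v⌋₊ : ℕ) : ℝ) := by
    calc N * ∑ v, w v - Fintype.card V = ∑ v, (N * w v - 1) := by
          rw [Finset.sum_sub_distrib, Finset.mul_sum, Finset.sum_const, Finset.card_univ,
            nsmul_eq_mul, mul_one]
      _ ≤ _ := Finset.sum_le_sum (fun v _ => h2 v)
  have h5 : δ * (N * ∑ v, w v - Fintype.card V) ≤ N * ∑ v ∈ S0, w v :=
    (mul_le_mul_of_nonneg_left h4 hδ).trans (hSw.trans h3)
  rw [div_lt_iff₀ hg0] at hN
  have h6 : (N : ℝ) * g ≤ δ * Fintype.card V := by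
    rw [hg]
    linarith [h5]
  linarith

end minimax

/-- The fractional dichromatic number of oriented graphs is `o(Δ)`. -/
theorem fractional (ε : ℝ) (hε : 0 < ε) : ∃ N : ℕ, ∀ (V : Type) [Fintype V] [DecidableEq V]
    (A : V → V → Prop) (Δ : ℕ), N ≤ Δ → (∀ u v, A u v → ¬ A v u) →
    (∀ v, (nb A v).card ≤ Δ) →
    ∃ p : Finset V → ℝ, (∀ S, 0 ≤ p S) ∧ (∀ S, p S ≠ 0 → Acyc A S) ∧
      ∑ S, p S = ε * Δ ∧ ∀ v, 1 ≤ ∑ S, (if v ∈ S then p S else 0) := by
  obtain ⟨J, hJ⟩ : ∃ J : ℕ, J = ⌈1 / ε⌉₊ := ⟨_, rfl⟩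
  have hJε : 1 / ε ≤ J := by rw [hJ]; exact Nat.le_ceil _
  have hJ1 : 1 ≤ J := by
    rw [hJ]; exact Nat.one_le_iff_ne_zero.2 (Nat.ceil_pos.2 (by positivity)).ne'
  obtain ⟨C, Δ0, hC0, hΔ00, hW⟩ := weighted J hJ1
  refine ⟨Δ0, ?_⟩
  intro V _ _ A Δ hΔΔ has hΔ
  have hΔ0 : 0 < Δ := by omega
  have hΔR : (0 : ℝ) < Δ := by exact_mod_cast hΔ0
  obtain ⟨δ, hδ⟩ : ∃ δ : ℝ, δ = 1 / (ε * Δ) := ⟨_, rfl⟩
  have hδ0 : 0 < δ := by rw [hδ]; positivity
  have hδJ : δ ≤ J / Δ := by
    rw [hδ, ← div_div]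
    gcongr
  have hnat : ∀ w : V → ℕ, ∃ S : Finset V, Acyc A S ∧
      δ * ∑ v, (w v : ℝ) ≤ ∑ v ∈ S, (w v : ℝ) := by
    intro w
    obtain ⟨Ω, _, p, S, hp0, hp1, hac, _, hwt, _⟩ := hW V A Δ hΔΔ has hΔ w
    by_contra hcon
    push Not at hcon
    have h1 : ∃ ω, 0 < p ω := by
      by_contra h2
      push Not at h2
      have : ∑ ω, p ω ≤ 0 := Finset.sum_nonpos (fun ω _ => h2 ω)
      linarith
    obtain ⟨ω0, hω0⟩ := h1
    have h2 : ∑ ω, p ω * ∑ v ∈ S ω, (w v : ℝ) < ∑ ω, p ω * (δ * ∑ v, (w v : ℝ)) := by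
      apply Finset.sum_lt_sum
      · intro ω _
        exact mul_le_mul_of_nonneg_left (hcon (S ω) (hac ω)).le (hp0 ω)
      · exact ⟨ω0, mem_univ _, mul_lt_mul_of_pos_left (hcon (S ω0) (hac ω0)) hω0⟩
    rw [← Finset.sum_mul, hp1, one_mul] at h2
    have h3 : δ * ∑ v, (w v : ℝ) ≤ J / Δ * ∑ v, (w v : ℝ) := by
      apply mul_le_mul_of_nonneg_right hδJ
      exact Finset.sum_nonneg (fun v _ => by positivity)
    linarith
  obtain ⟨p, hp0, hp1, hpc⟩ := minimax A (fun w hw => real_weights hδ0.le hnat w hw)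
  have hεΔ : 0 < ε * Δ := by positivity
  refine ⟨fun S => if h : Acyc A S then ε * Δ * p ⟨S, h⟩ else 0, ?_, ?_, ?_, ?_⟩
  · intro S
    dsimp only
    split_ifs with h
    · exact mul_nonneg hεΔ.le (hp0 _)
    · exact le_rfl
  · intro S hS
    by_contra h
    exact hS (by simp [h])
  · have h1 : ∑ S : Finset V, (if h : Acyc A S then ε * Δ * p ⟨S, h⟩ else 0) =
        ∑ S : {S : Finset V // Acyc A S}, ε * Δ * p S := by
      rw [← Finset.sum_filter_add_sum_filter_not univ (fun S : Finset V => Acyc A S)]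
      have h2 : ∑ S ∈ univ.filter (fun S : Finset V => ¬ Acyc A S),
          (if h : Acyc A S then ε * Δ * p ⟨S, h⟩ else 0) = 0 := by
        apply Finset.sum_eq_zero
        intro S hS
        rw [mem_filter] at hS
        simp [hS.2]
      rw [h2, add_zero]
      rw [Finset.sum_subtype (univ.filter (fun S : Finset V => Acyc A S))
        (p := fun S => Acyc A S) (by intro S; simp)]
      apply Finset.sum_congr rfl
      intro S _
      simp [S.2]
    rw [h1, ← Finset.mul_sum, hp1, mul_one]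
  · intro v
    have h1 : ∑ S : Finset V, (if v ∈ S then
        (if h : Acyc A S then ε * Δ * p ⟨S, h⟩ else 0) else 0) =
        ∑ S : {S : Finset V // Acyc A S}, (if v ∈ S.1 then ε * Δ * p S else 0) := by
      rw [← Finset.sum_filter_add_sum_filter_not univ (fun S : Finset V => Acyc A S)]
      have h2 : ∑ S ∈ univ.filter (fun S : Finset V => ¬ Acyc A S), (if v ∈ S then
          (if h : Acyc A S then ε * Δ * p ⟨S, h⟩ else 0) else 0) = 0 := by
        apply Finset.sum_eq_zero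
        intro S hS
        rw [mem_filter] at hS
        simp [hS.2]
      rw [h2, add_zero]
      rw [Finset.sum_subtype (univ.filter (fun S : Finset V => Acyc A S))
        (p := fun S => Acyc A S) (by intro S; simp)]
      apply Finset.sum_congr rfl
      intro S _
      simp [S.2]
    rw [h1]
    have h2 : ∑ S : {S : Finset V // Acyc A S}, (if v ∈ S.1 then ε * Δ * p S else 0) =
        ε * Δ * ∑ S : {S : Finset V // Acyc A S}, (if v ∈ S.1 then p S else 0) := by
      rw [Finset.mul_sum]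
      apply Finset.sum_congr rfl
      intro S _
      split_ifs <;> simp
    rw [h2]
    have h3 := mul_le_mul_of_nonneg_left (hpc v) hεΔ.le
    have h4 : ε * Δ * δ = 1 := by rw [hδ]; field_simp
    linarith

end Pool.MP_e50225_co
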