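import Pool.Agent.MP_e50225_co.Colour
import Pool.Agent.MP_e50225_co.Fractional

namespace Pool.MP_e50225_co

set_option linter.unusedSectionVars false

open Finset
open scoped Classical

section fair

variable {V : Type} [Fintype V] [DecidableEq V] {A : V → V → Prop}

/-- weighted potential -/
noncomputable def Phiw (A : V → V → Prop) (om : V → ℕ) (b : ℝ) (U : Finset V) : ℝ :=
  ∑ v, (om v * b ^ (nb A v ∩ U).card)

/-- One step of the colouring process, weighted version. -/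
lemma step_w (om : V → ℕ) {Δ : ℕ} (hΔ0 : 0 < Δ) (hΔ : ∀ v, (nb A v).card ≤ Δ) {J C : ℝ} {g : ℕ}
    (hg : 0 < g) (hgC : C ^ 2 ≤ J * (g + 1))
    (hW : ∀ w : V → ℕ, ∃ (Ω : Type) (_ : Fintype Ω) (p : Ω → ℝ) (S : Ω → Finset V),
        (∀ ω, 0 ≤ p ω) ∧ ∑ ω, p ω = 1 ∧ (∀ ω, Acyc A (S ω)) ∧ (∀ ω, ∀ v ∈ S ω, w v ≠ 0) ∧
        (J / Δ * ∑ v, (w v : ℝ) ≤ ∑ ω, p ω * ∑ v ∈ S ω, (w v : ℝ)) ∧
        ∀ u u', u ≠ u' → ∑ ω, (if u ∈ S ω ∧ u' ∈ S ω then p ω else 0) ≤ (C / Δ) ^ 2)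
    (U : Finset V) :
    ∃ S ⊆ U, Acyc A S ∧ Phiw A om ((g + 1) / g) (U \ S) ≤ Phiw A om ((g + 1) / g) U -
      (1 / (g + 1)) * J / (2 * Δ) *
        ∑ v, (om v * ((g + 1) / g : ℝ) ^ (nb A v ∩ U).card) * (nb A v ∩ U).card := by
  have hΔR : (0 : ℝ) < Δ := by exact_mod_cast hΔ0
  have hgR : (0 : ℝ) < g := by exact_mod_cast hg
  obtain ⟨b, hb⟩ : ∃ b : ℝ, b = (g + 1) / g := ⟨_, rfl⟩
  obtain ⟨δ, hδ⟩ : ∃ δ : ℝ, δ = 1 / (g + 1) := ⟨_, rfl⟩
  rw [← hb, ← hδ]
  have hb0 : 0 < b := by rw [hb]; positivity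
  have hδ0 : 0 < δ := by rw [hδ]; positivity
  have hδ1 : δ ≤ 1 := by rw [hδ, div_le_one (by positivity)]; linarith
  have hbδ : b * (1 - δ) = 1 := by rw [hb, hδ]; field_simp; ring
  have hδC : δ * C ^ 2 ≤ J := by
    rw [hδ, one_div, inv_mul_le_iff₀ (by positivity)]; linarith
  obtain ⟨X, hX⟩ : ∃ X : V → ℕ, X = fun v =>
    om v * ((g + 1) ^ (nb A v ∩ U).card * g ^ (Δ - (nb A v ∩ U).card)) := ⟨_, rfl⟩
  have hdΔ : ∀ v, (nb A v ∩ U).card ≤ Δ := fun v =>
    (Finset.card_le_card Finset.inter_subset_left).trans (hΔ v)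
  have hXb : ∀ v, (X v : ℝ) = g ^ Δ * (om v * b ^ (nb A v ∩ U).card) := by
    intro v
    rw [hX, hb, div_pow]
    push_cast
    have : (g : ℝ) ^ Δ = g ^ (nb A v ∩ U).card * g ^ (Δ - (nb A v ∩ U).card) := by
      rw [← pow_add]; congr 1; have := hdΔ v; omega
    rw [this]
    field_simp
  obtain ⟨w, hw⟩ : ∃ w : V → ℕ, w = fun u => if u ∈ U then ∑ v ∈ nb A u, X v else 0 := ⟨_, rfl⟩
  obtain ⟨Ω, _, p, S, hp0, hp1, hac, hsub, hwt, hpair⟩ := hW w
  have hSU : ∀ ω, S ω ⊆ U := by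
    intro ω v hv
    have := hsub ω v hv
    by_contra h
    rw [hw] at this
    simp [h] at this
  have hwR : ∀ u ∈ U, (w u : ℝ) = g ^ Δ * ∑ v ∈ nb A u, (om v * b ^ (nb A v ∩ U).card) := by
    intro u hu
    rw [hw]
    simp only [hu, if_true]
    push_cast
    rw [Finset.mul_sum]
    exact Finset.sum_congr rfl (fun v _ => hXb v)
  have hgΔ : (0 : ℝ) < g ^ Δ := by positivity
  -- the weight inequality in terms of `b`
  obtain ⟨D, hD⟩ : ∃ D : ℝ, D = ∑ v, (om v * b ^ (nb A v ∩ U).card) * (nb A v ∩ U).card := ⟨_, rfl⟩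
  have hwtot : ∑ v, (w v : ℝ) = g ^ Δ * D := by
    have h1 : ∑ v, (w v : ℝ) = ∑ v ∈ U, (w v : ℝ) := by
      symm
      apply Finset.sum_subset (Finset.subset_univ _)
      intro v _ hv
      rw [hw]; simp [hv]
    rw [h1, Finset.sum_congr rfl hwR, ← Finset.mul_sum, exch, hD]
  have hwS : ∀ ω, ∑ v ∈ S ω, (w v : ℝ) =
      g ^ Δ * ∑ v, (om v * b ^ (nb A v ∩ U).card) * (nb A v ∩ S ω).card := by
    intro ω
    rw [Finset.sum_congr rfl (fun u hu => hwR u (hSU ω hu)), ← Finset.mul_sum, exch]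
  have hkey : J / Δ * D ≤ ∑ ω, p ω * ∑ v, (om v * b ^ (nb A v ∩ U).card) * (nb A v ∩ S ω).card := by
    rw [hwtot] at hwt
    simp only [hwS] at hwt
    have h1 : ∑ ω, p ω * (g ^ Δ * ∑ v, (om v * b ^ (nb A v ∩ U).card) * (nb A v ∩ S ω).card) =
        g ^ Δ * ∑ ω, p ω * ∑ v, (om v * b ^ (nb A v ∩ U).card) * (nb A v ∩ S ω).card := by
      rw [Finset.mul_sum]
      apply Finset.sum_congr rfl
      intro ω _; ring
    rw [h1] at hwt
    have h2 : J / Δ * (g ^ Δ * D) = g ^ Δ * (J / Δ * D) := by ring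
    rw [h2] at hwt
    exact le_of_mul_le_mul_left hwt hgΔ
  have hpairs : ∀ v, ∑ ω, p ω * (((nb A v ∩ S ω).card : ℝ) * ((nb A v ∩ S ω).card - 1)) ≤
      ((nb A v ∩ U).card : ℝ) ^ 2 * (C / Δ) ^ 2 :=
    fun v => pair_sum hSU hpair (by positivity) (nb A v)
  -- pointwise bound
  have hpt : ∀ ω, Phiw A om b (U \ S ω) ≤ ∑ v, (om v * b ^ (nb A v ∩ U).card) *
      (1 - (nb A v ∩ S ω).card * δ +
        (((nb A v ∩ S ω).card : ℝ) * ((nb A v ∩ S ω).card - 1)) / 2 * δ ^ 2) := by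
    intro ω
    unfold Phiw
    apply Finset.sum_le_sum
    intro v _
    have h1 : (nb A v ∩ (U \ S ω)).card + (nb A v ∩ S ω).card = (nb A v ∩ U).card := by
      have h2 : nb A v ∩ (U \ S ω) = (nb A v ∩ U) \ (nb A v ∩ S ω) := by
        ext a; simp only [mem_inter, mem_sdiff]; tauto
      rw [h2]
      exact Finset.card_sdiff_add_card_eq_card
        (Finset.inter_subset_inter_left (hSU ω))
    have h3 : b ^ (nb A v ∩ (U \ S ω)).card =
        b ^ (nb A v ∩ U).card * (1 - δ) ^ (nb A v ∩ S ω).card := by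
      rw [← h1, pow_add, mul_assoc, ← mul_pow, hbδ, one_pow, mul_one]
    rw [h3, ← mul_assoc]
    exact mul_le_mul_of_nonneg_left (bonf hδ0.le hδ1 _) (by positivity)
  have havg : ∑ ω, p ω * Phiw A om b (U \ S ω) ≤ Phiw A om b U - δ * J / (2 * Δ) * D := by
    calc ∑ ω, p ω * Phiw A om b (U \ S ω)
        ≤ ∑ ω, p ω * ∑ v, (om v * b ^ (nb A v ∩ U).card) *
          (1 - (nb A v ∩ S ω).card * δ +
          (((nb A v ∩ S ω).card : ℝ) * ((nb A v ∩ S ω).card - 1)) / 2 * δ ^ 2) :=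
          Finset.sum_le_sum (fun ω _ => mul_le_mul_of_nonneg_left (hpt ω) (hp0 ω))
      _ = Phiw A om b U - δ * (∑ ω, p ω * ∑ v, (om v * b ^ (nb A v ∩ U).card) * (nb A v ∩ S ω).card) +
          δ ^ 2 / 2 * ∑ v, (om v * b ^ (nb A v ∩ U).card) *
            ∑ ω, p ω * (((nb A v ∩ S ω).card : ℝ) * ((nb A v ∩ S ω).card - 1)) := by
          have e1 : ∀ ω, p ω * ∑ v, (om v * b ^ (nb A v ∩ U).card) *
              (1 - (nb A v ∩ S ω).card * δ +
              (((nb A v ∩ S ω).card : ℝ) * ((nb A v ∩ S ω).card - 1)) / 2 * δ ^ 2) =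
              p ω * Phiw A om b U - δ * (p ω * ∑ v, (om v * b ^ (nb A v ∩ U).card) * (nb A v ∩ S ω).card) +
              δ ^ 2 / 2 * ∑ v, (om v * b ^ (nb A v ∩ U).card) *
                (p ω * (((nb A v ∩ S ω).card : ℝ) * ((nb A v ∩ S ω).card - 1))) := by
            intro ω
            unfold Phiw
            simp only [Finset.mul_sum]
            rw [← Finset.sum_sub_distrib, ← Finset.sum_add_distrib]
            apply Finset.sum_congr rfl
            intro v _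
            ring
          simp only [e1]
          rw [Finset.sum_add_distrib, Finset.sum_sub_distrib, ← Finset.sum_mul, hp1, one_mul,
            ← Finset.mul_sum, ← Finset.mul_sum, Finset.sum_comm]
          congr 2
          apply Finset.sum_congr rfl
          intro v _
          rw [Finset.mul_sum]
      _ ≤ Phiw A om b U - δ * (J / Δ * D) + δ ^ 2 / 2 * ∑ v, (om v * b ^ (nb A v ∩ U).card) *
            (((nb A v ∩ U).card : ℝ) ^ 2 * (C / Δ) ^ 2) := by
          have h1 := mul_le_mul_of_nonneg_left hkey hδ0.le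
          have h2 : ∑ v, (om v * b ^ (nb A v ∩ U).card) *
            ∑ ω, p ω * (((nb A v ∩ S ω).card : ℝ) * ((nb A v ∩ S ω).card - 1)) ≤
            ∑ v, (om v * b ^ (nb A v ∩ U).card) * (((nb A v ∩ U).card : ℝ) ^ 2 * (C / Δ) ^ 2) :=
            Finset.sum_le_sum (fun v _ => mul_le_mul_of_nonneg_left (hpairs v) (by positivity))
          have h3 := mul_le_mul_of_nonneg_left h2 (show 0 ≤ δ ^ 2 / 2 by positivity)
          linarith
      _ ≤ Phiw A om b U - δ * (J / Δ * D) + δ ^ 2 / 2 * (C ^ 2 / Δ * D) := by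
          have h1 : ∑ v, (om v * b ^ (nb A v ∩ U).card) * (((nb A v ∩ U).card : ℝ) ^ 2 * (C / Δ) ^ 2) ≤
              C ^ 2 / Δ * D := by
            rw [hD, Finset.mul_sum]
            apply Finset.sum_le_sum
            intro v _
            have h2 : ((nb A v ∩ U).card : ℝ) ≤ Δ := by exact_mod_cast hdΔ v
            have h3 : ((nb A v ∩ U).card : ℝ) ^ 2 * (C / Δ) ^ 2 ≤
                C ^ 2 / Δ * (nb A v ∩ U).card := by
              have : ((nb A v ∩ U).card : ℝ) ^ 2 * (C / Δ) ^ 2 =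
                  C ^ 2 / Δ * (nb A v ∩ U).card * ((nb A v ∩ U).card / Δ) := by
                field_simp
              rw [this]
              apply mul_le_of_le_one_right (by positivity)
              rw [div_le_one hΔR]; exact h2
            calc (om v * b ^ (nb A v ∩ U).card) * (((nb A v ∩ U).card : ℝ) ^ 2 * (C / Δ) ^ 2)
                ≤ (om v * b ^ (nb A v ∩ U).card) * (C ^ 2 / Δ * (nb A v ∩ U).card) := by gcongr
              _ = _ := by ring
          gcongr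
      _ ≤ Phiw A om b U - δ * J / (2 * Δ) * D := by
          have hD0 : 0 ≤ D := by
            rw [hD]; exact Finset.sum_nonneg (fun v _ => by positivity)
          have h1 : δ ^ 2 / 2 * (C ^ 2 / Δ * D) ≤ δ / 2 * (J / Δ * D) := by
            calc δ ^ 2 / 2 * (C ^ 2 / Δ * D) = δ / 2 * ((δ * C ^ 2) * (D / Δ)) := by ring
              _ ≤ δ / 2 * (J * (D / Δ)) := by gcongr
              _ = _ := by ring
          have h2 : δ * (J / Δ * D) = δ / 2 * (J / Δ * D) + δ * J / (2 * Δ) * D := by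
            field_simp; ring
          linarith
  obtain ⟨ω, hω⟩ := exists_le_avg hp0 hp1 havg
  refine ⟨S ω, hSU ω, hac ω, ?_⟩
  rw [← hD]
  exact hω


/-- Iterating the weighted step. -/
lemma iterate_w (om : V → ℕ) {b κ' a : ℝ} {h : ℕ} (hb : 1 ≤ b) (hκ : 0 ≤ κ') (hκ1 : κ' * h ≤ 1)
    (ha : a = (∑ v, (om v : ℝ)) * b ^ h)
    (hstep : ∀ U : Finset V, ∃ S ⊆ U, Acyc A S ∧ Phiw A om b (U \ S) ≤ Phiw A om b U -
      κ' * ∑ v, (om v * b ^ (nb A v ∩ U).card) * (nb A v ∩ U).card) (q : ℕ) :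
    ∀ U : Finset V, ∃ U' ⊆ U, Phiw A om b U' - a ≤ (1 - κ' * h) ^ q * (Phiw A om b U - a) ∧
      ∀ (R : Finset V) (k : ℕ), Col A (U' \ R) k → Col A (U \ R) (k + q) := by
  induction q with
  | zero => intro U; exact ⟨U, Finset.Subset.refl _, by simp, fun R k hk => hk⟩
  | succ q ih =>
    intro U
    obtain ⟨S, hSU, hac, hS⟩ := hstep U
    obtain ⟨U', hU', h1, h2⟩ := ih (U \ S)
    refine ⟨U', hU'.trans Finset.sdiff_subset, ?_, ?_⟩
    · have h3 : (h : ℝ) * (Phiw A om b U - a) ≤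
          ∑ v, (om v * b ^ (nb A v ∩ U).card) * (nb A v ∩ U).card := by
        have h4 : (h : ℝ) * (Phiw A om b U - a) =
            ∑ v, om v * ((h : ℝ) * (b ^ (nb A v ∩ U).card - b ^ h)) := by
          unfold Phiw
          rw [ha, Finset.sum_mul, ← Finset.sum_sub_distrib, Finset.mul_sum]
          apply Finset.sum_congr rfl
          intro v _
          ring
        rw [h4]
        apply Finset.sum_le_sum
        intro v _
        rw [mul_assoc]
        apply mul_le_mul_of_nonneg_left _ (by positivity)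
        have hb0 : 0 < b ^ (nb A v ∩ U).card := by positivity
        rcases le_or_gt h (nb A v ∩ U).card with hle | hlt
        · have h5 : (h : ℝ) ≤ (nb A v ∩ U).card := by exact_mod_cast hle
          have h6 : (0 : ℝ) < b ^ h := by positivity
          have h7 : (h : ℝ) * (b ^ (nb A v ∩ U).card - b ^ h) ≤
              h * b ^ (nb A v ∩ U).card := by
            apply mul_le_mul_of_nonneg_left _ (by positivity)
            linarith
          nlinarith
        · have h5 : b ^ (nb A v ∩ U).card ≤ b ^ h := pow_le_pow_right₀ hb hlt.le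
          have h6 : (h : ℝ) * (b ^ (nb A v ∩ U).card - b ^ h) ≤ 0 := by
            apply mul_nonpos_of_nonneg_of_nonpos (by positivity) (by linarith)
          have h7 : 0 ≤ b ^ (nb A v ∩ U).card * ((nb A v ∩ U).card : ℝ) := by positivity
          linarith
      have h8 : Phiw A om b (U \ S) - a ≤ (1 - κ' * h) * (Phiw A om b U - a) := by
        have := mul_le_mul_of_nonneg_left h3 hκ
        nlinarith
      calc Phiw A om b U' - a ≤ (1 - κ' * h) ^ q * (Phiw A om b (U \ S) - a) := h1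
        _ ≤ (1 - κ' * h) ^ q * ((1 - κ' * h) * (Phiw A om b U - a)) := by
            apply mul_le_mul_of_nonneg_left h8
            apply pow_nonneg; linarith
        _ = _ := by ring
    · intro R k hk
      have h3 := h2 R k hk
      rw [sdiff_right_comm] at h3
      exact h3.add_acyc hac

lemma Col.mono {U : Finset V} {k l : ℕ} (h : Col A U k) (hkl : k ≤ l) : Col A U l := by
  obtain ⟨c, f, hc⟩ := h
  refine ⟨fun v => Fin.castLE hkl (c v), f, ?_⟩
  intro u hu v hv hA huv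
  exact hc u hu v hv hA (Fin.castLE_injective hkl huv)

/-- Coverage operator for a family of sets. -/
noncomputable def covP (P : Finset V → Prop) :
    ({S : Finset V // P S} → ℝ) →ₗ[ℝ] (V → ℝ) where
  toFun p v := ∑ S, (if v ∈ S.1 then p S else 0)
  map_add' p q := by
    ext v
    simp only [Pi.add_apply]
    rw [← Finset.sum_add_distrib]
    apply Finset.sum_congr rfl
    intro S _
    split_ifs <;> simp
  map_smul' a p := by
    ext v
    simp only [Pi.smul_apply, smul_eq_mul, RingHom.id_apply]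
    rw [Finset.mul_sum]
    apply Finset.sum_congr rfl
    intro S _
    split_ifs <;> simp

/-- LP duality for covering by sets of a family. -/
lemma minimaxP (P : Finset V → Prop) {δ : ℝ}
    (h : ∀ w : V → ℝ, (∀ v, 0 ≤ w v) → ∃ S : Finset V, P S ∧
      δ * ∑ v, w v ≤ ∑ v ∈ S, w v) :
    ∃ p : {S : Finset V // P S} → ℝ, (∀ S, 0 ≤ p S) ∧ ∑ S, p S = 1 ∧
      ∀ v, δ ≤ ∑ S, (if v ∈ S.1 then p S else 0) := by
  set K : Set (V → ℝ) := (covP P) '' (stdSimplex ℝ {S : Finset V // P S}) with hK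
  set T : Set (V → ℝ) := {x | ∀ v, δ ≤ x v} with hT
  have hKc : Convex ℝ K := (convex_stdSimplex ℝ _).linear_image (covP P)
  have hKk : IsCompact K :=
    (isCompact_stdSimplex ℝ _).image (LinearMap.continuous_of_finiteDimensional (covP P))
  have hTc : Convex ℝ T := by
    intro x hx y hy a b ha hb hab v
    have h1 : δ ≤ x v := hx v
    have h2 : δ ≤ y v := hy v
    simp only [Pi.add_apply, Pi.smul_apply, smul_eq_mul]
    have h3 := mul_le_mul_of_nonneg_left h1 ha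
    have h4 := mul_le_mul_of_nonneg_left h2 hb
    have h5 : δ = a * δ + b * δ := by rw [← add_mul, hab, one_mul]
    linarith
  have hTk : IsClosed T := by
    have : T = ⋂ v, {x : V → ℝ | δ ≤ x v} := by
      ext x; simp [hT]
    rw [this]
    apply isClosed_iInter
    intro v
    exact isClosed_le continuous_const (continuous_apply v)
  by_cases hdisj : Disjoint K T
  · exfalso
    obtain ⟨f, u, v', hu, huv, hv⟩ := geometric_hahn_banach_compact_closed hKc hKk hTc hTk hdisj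
    set w : V → ℝ := fun i => f (Pi.single i 1) with hw
    have hf : ∀ x : V → ℝ, f x = ∑ i, x i * w i := by
      intro x
      have hx : x = ∑ i, x i • (Pi.single i (1 : ℝ) : V → ℝ) := by
        ext j
        simp [Finset.sum_apply, Pi.single_apply]
      conv_lhs => rw [hx]
      rw [map_sum]
      simp [hw]
    have hw0 : ∀ i, 0 ≤ w i := by
      intro i
      by_contra hneg
      push Not at hneg
      have h1 : ∀ s : ℝ, 0 ≤ s → v' < f (fun j => δ + s * (Pi.single i (1 : ℝ) : V → ℝ) j) := by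
        intro s hs
        apply hv
        intro j
        have : 0 ≤ s * (Pi.single i (1 : ℝ) : V → ℝ) j := by
          apply mul_nonneg hs
          by_cases hj : j = i
          · subst hj; simp
          · simp [hj]
        linarith
      have h2 : ∀ s : ℝ, f (fun j => δ + s * (Pi.single i (1 : ℝ) : V → ℝ) j) =
          δ * (∑ j, w j) + s * w i := by
        intro s
        rw [hf]
        have : ∀ j, (δ + s * (Pi.single i (1 : ℝ) : V → ℝ) j) * w j =
            δ * w j + s * ((Pi.single i (1 : ℝ) : V → ℝ) j * w j) := by intro j; ring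
        simp only [this]
        rw [Finset.sum_add_distrib, ← Finset.mul_sum, ← Finset.mul_sum]
        congr 2
        simp [Pi.single_apply]
      have h3 := h1 (max 0 ((v' - δ * (∑ j, w j)) / w i)) (le_max_left _ _)
      rw [h2] at h3
      have h4 : max 0 ((v' - δ * (∑ j, w j)) / w i) * w i ≤ v' - δ * (∑ j, w j) := by
        have h5 := le_max_right 0 ((v' - δ * (∑ j, w j)) / w i)
        have h6 := mul_le_mul_of_nonpos_right h5 hneg.le
        rwa [div_mul_cancel₀ _ hneg.ne] at h6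
      linarith
    obtain ⟨S, hS, hSw⟩ := h w hw0
    have h1 : f (covP P (Pi.single ⟨S, hS⟩ 1)) < u := by
      apply hu
      refine ⟨Pi.single ⟨S, hS⟩ 1, ?_, rfl⟩
      exact single_mem_stdSimplex ℝ _
    have h2 : f (covP P (Pi.single ⟨S, hS⟩ 1)) = ∑ v ∈ S, w v := by
      rw [hf]
      have h3 : ∀ v, (covP P (Pi.single ⟨S, hS⟩ 1)) v = if v ∈ S then 1 else 0 := by
        intro v
        change ∑ S' : {S : Finset V // P S}, (if v ∈ S'.1 then
          (Pi.single ⟨S, hS⟩ (1 : ℝ) : {S : Finset V // P S} → ℝ) S' else 0) = _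
        rw [Finset.sum_eq_single ⟨S, hS⟩]
        · simp
        · intro b _ hb
          simp [hb]
        · intro h; exact absurd (mem_univ _) h
      simp only [h3, ite_mul, one_mul, zero_mul]
      rw [Finset.sum_ite_mem, Finset.univ_inter]
    have h3 : v' < f (fun _ => δ) := hv _ (fun _ => le_rfl)
    have h4 : f (fun _ => δ) = δ * ∑ v, w v := by rw [hf, Finset.mul_sum]
    linarith
  · rw [Set.not_disjoint_iff] at hdisj
    obtain ⟨x, ⟨p, hp, rfl⟩, hxT⟩ := hdisj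
    exact ⟨p, hp.1, hp.2, hxT⟩

/-- From natural to real weights. -/
lemma real_weightsP {P : Finset V → Prop} (hP : ∃ S, P S) {δ : ℝ} (hδ : 0 ≤ δ)
    (h : ∀ w : V → ℕ, ∃ S : Finset V, P S ∧
      δ * ∑ v, (w v : ℝ) ≤ ∑ v ∈ S, (w v : ℝ)) (w : V → ℝ) (hw : ∀ v, 0 ≤ w v) :
    ∃ S : Finset V, P S ∧ δ * ∑ v, w v ≤ ∑ v ∈ S, w v := by
  by_contra hcon
  push Not at hcon
  have hne : (univ.filter (fun S : Finset V => P S)).Nonempty := by
    obtain ⟨S, hS⟩ := hP
    exact ⟨S, mem_filter.2 ⟨mem_univ _, hS⟩⟩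
  obtain ⟨S0, hS0, hmax⟩ := Finset.exists_max_image
    (univ.filter (fun S : Finset V => P S)) (fun S => ∑ v ∈ S, w v) hne
  rw [mem_filter] at hS0
  have hgap := hcon S0 hS0.2
  set g := δ * ∑ v, w v - ∑ v ∈ S0, w v with hg
  have hg0 : 0 < g := by rw [hg]; linarith
  obtain ⟨N, hN⟩ := exists_nat_gt (δ * Fintype.card V / g)
  have hN0 : (0 : ℝ) < N := lt_of_le_of_lt (by positivity) hN
  obtain ⟨S, hS, hSw⟩ := h (fun v => ⌊N * w v⌋₊)
  have h1 : ∀ v, ((⌊N * w v⌋₊ : ℕ) : ℝ) ≤ N * w v := fun v =>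
    Nat.floor_le (mul_nonneg hN0.le (hw v))
  have h2 : ∀ v, N * w v - 1 ≤ ((⌊N * w v⌋₊ : ℕ) : ℝ) := fun v => by
    have := Nat.lt_floor_add_one (N * w v)
    linarith
  have h3 : ∑ v ∈ S, ((⌊N * w v⌋₊ : ℕ) : ℝ) ≤ N * ∑ v ∈ S0, w v := by
    calc ∑ v ∈ S, ((⌊N * w v⌋₊ : ℕ) : ℝ) ≤ ∑ v ∈ S, N * w v :=
          Finset.sum_le_sum (fun v _ => h1 v)
      _ = N * ∑ v ∈ S, w v := by rw [Finset.mul_sum]
      _ ≤ _ := mul_le_mul_of_nonneg_left (hmax S (mem_filter.2 ⟨mem_univ _, hS⟩)) hN0.le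
  have h4 : N * ∑ v, w v - Fintype.card V ≤ ∑ v, ((⌊N * w v⌋₊ : ℕ) : ℝ) := by
    calc N * ∑ v, w v - Fintype.card V = ∑ v, (N * w v - 1) := by
          rw [Finset.sum_sub_distrib, Finset.mul_sum, Finset.sum_const, Finset.card_univ,
            nsmul_eq_mul, mul_one]
      _ ≤ _ := Finset.sum_le_sum (fun v _ => h2 v)
  have h5 : δ * (N * ∑ v, w v - Fintype.card V) ≤ N * ∑ v ∈ S0, w v :=
    (mul_le_mul_of_nonneg_left h4 hδ).trans (hSw.trans h3)
  rw [div_lt_iff₀ hg0] at hN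
  have h6 : (N : ℝ) * g ≤ δ * Fintype.card V := by
    rw [hg]
    linarith [h5]
  linarith

end fair

/-- Weighted almost-colouring theorem. -/
theorem main_fair (ε : ℝ) (hε : 0 < ε) : ∃ (δ : ℝ) (N : ℕ), 0 < δ ∧ 0 < N ∧
    ∀ (V : Type) [Fintype V] [DecidableEq V]
    (A : V → V → Prop) (Δ : ℕ), N ≤ Δ → (∀ u v, A u v → ¬ A v u) → (∀ v, (nb A v).card ≤ Δ) →
    ∀ om : V → ℕ, ∃ S : Finset V, Col A S ⌊ε * Δ⌋₊ ∧
      (1 - Real.exp (-(δ * Δ))) * ∑ v, (om v : ℝ) ≤ ∑ v ∈ S, (om v : ℝ) := by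
  -- reduce to `ε ≤ 1`
  wlog hε1 : ε ≤ 1 generalizing ε
  · push Not at hε1
    obtain ⟨δ, N, hδ, hN, h⟩ := this 1 one_pos le_rfl
    refine ⟨δ, N, hδ, hN, ?_⟩
    intro V _ _ A Δ hNΔ has hΔ om
    obtain ⟨S, hS, hS2⟩ := h V A Δ hNΔ has hΔ om
    refine ⟨S, hS.mono ?_, hS2⟩
    apply Nat.floor_mono
    gcongr
  obtain ⟨J, hJ⟩ : ∃ J : ℕ, J = ⌈256 / ε ^ 2⌉₊ := ⟨_, rfl⟩
  have hJε : 256 / ε ^ 2 ≤ J := by rw [hJ]; exact Nat.le_ceil _
  have hJ1 : 1 ≤ J := by
    rw [hJ]; exact Nat.one_le_iff_ne_zero.2 (Nat.ceil_pos.2 (by positivity)).ne'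
  have hJR : (1 : ℝ) ≤ J := by exact_mod_cast hJ1
  obtain ⟨C, Δ0, hC0, hΔ00, hW⟩ := weighted J hJ1
  obtain ⟨g, hg⟩ : ∃ g : ℕ, g = ⌈C ^ 2⌉₊ + J := ⟨_, rfl⟩
  have hg1 : 1 ≤ g := by omega
  have hgR : (1 : ℝ) ≤ g := by exact_mod_cast hg1
  have hgJ : (J : ℝ) ≤ g := by
    have : J ≤ g := by omega
    exact_mod_cast this
  have hgC : C ^ 2 ≤ J * (g + 1) := by
    have h1 : C ^ 2 ≤ (⌈C ^ 2⌉₊ : ℝ) := Nat.le_ceil _
    have h2 : ((⌈C ^ 2⌉₊ : ℕ) : ℝ) ≤ g := by
      have : ⌈C ^ 2⌉₊ ≤ g := by omega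
      exact_mod_cast this
    nlinarith
  obtain ⟨δ0, hδ0⟩ : ∃ δ0 : ℝ, δ0 = 1 / ((g : ℝ) + 1) := ⟨_, rfl⟩
  have hδ0pos : 0 < δ0 := by rw [hδ0]; positivity
  obtain ⟨δ, hδ⟩ : ∃ δ : ℝ, δ = δ0 * ε / 32 := ⟨_, rfl⟩
  have hδpos : 0 < δ := by rw [hδ]; positivity
  obtain ⟨N, hN⟩ : ∃ N : ℕ, N = max Δ0 (max ⌈16 / ε⌉₊ ⌈1 / δ⌉₊) := ⟨_, rfl⟩
  have hN1 : Δ0 ≤ N := by rw [hN]; exact le_max_left _ _
  have hN2 : 16 / ε ≤ N := by
    have h1 : 16 / ε ≤ (⌈16 / ε⌉₊ : ℝ) := Nat.le_ceil _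
    have h2 : ⌈16 / ε⌉₊ ≤ N := by
      rw [hN]; exact (le_max_left _ _).trans (le_max_right _ _)
    have h3 : ((⌈16 / ε⌉₊ : ℕ) : ℝ) ≤ N := by exact_mod_cast h2
    linarith
  have hN3 : 1 / δ ≤ N := by
    have h1 : 1 / δ ≤ (⌈1 / δ⌉₊ : ℝ) := Nat.le_ceil _
    have h2 : ⌈1 / δ⌉₊ ≤ N := by
      rw [hN]; exact (le_max_right _ _).trans (le_max_right _ _)
    have h3 : ((⌈1 / δ⌉₊ : ℕ) : ℝ) ≤ N := by exact_mod_cast h2
    linarith
  refine ⟨δ, N, hδpos, by omega, ?_⟩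
  intro V _ _ A Δ hNΔ has hΔ om
  have hirr : ∀ v, ¬ A v v := fun v h => has v v h h
  have hΔΔ0 : Δ0 ≤ Δ := by omega
  have hΔ0 : 0 < Δ := by omega
  have hΔR : (0 : ℝ) < Δ := by exact_mod_cast hΔ0
  have hNΔR : (N : ℝ) ≤ Δ := by exact_mod_cast hNΔ
  have hεΔ : 16 ≤ ε * Δ := by
    have h3 : 16 / ε ≤ Δ := by linarith
    rw [div_le_iff₀ hε] at h3
    linarith
  have hδΔ : 1 ≤ δ * Δ := by
    have h3 : 1 / δ ≤ Δ := by linarith
    rw [div_le_iff₀ hδpos] at h3
    linarith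
  obtain ⟨b, hb⟩ : ∃ b : ℝ, b = (g + 1) / g := ⟨_, rfl⟩
  have hb1 : 1 ≤ b := by
    rw [hb, le_div_iff₀ (by linarith)]; linarith
  have hb0 : 0 < b := by linarith
  obtain ⟨h, hh⟩ : ∃ h : ℕ, h = ⌊ε / 8 * Δ⌋₊ := ⟨_, rfl⟩
  have hh1 : (h : ℝ) ≤ ε / 8 * Δ := by rw [hh]; exact Nat.floor_le (by positivity)
  have hh2 : ε / 16 * Δ ≤ h := by
    have : ε / 8 * Δ < h + 1 := by rw [hh]; exact Nat.lt_floor_add_one _
    linarith
  have hhΔ : (h : ℝ) ≤ Δ := by nlinarith
  obtain ⟨κ', hκ'⟩ : ∃ κ' : ℝ, κ' = (1 / (g + 1)) * J / (2 * Δ) := ⟨_, rfl⟩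
  have hκ0 : 0 < κ' := by rw [hκ']; positivity
  have hκ1 : κ' * h ≤ 1 := by
    rw [hκ']
    have h1 : (1 : ℝ) / (g + 1) * J ≤ 1 := by
      rw [one_div, inv_mul_le_iff₀ (by positivity)]; linarith
    calc (1 / ((g : ℝ) + 1)) * J / (2 * Δ) * h ≤ 1 / (2 * Δ) * Δ := by gcongr
      _ = 1 / 2 := by field_simp
      _ ≤ 1 := by norm_num
  have hstep : ∀ U : Finset V, ∃ S ⊆ U, Acyc A S ∧ Phiw A om b (U \ S) ≤ Phiw A om b U -
      κ' * ∑ v, (om v * b ^ (nb A v ∩ U).card) * (nb A v ∩ U).card := by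
    intro U
    rw [hb, hκ']
    exact step_w (A := A) om hΔ0 hΔ (J := J) (C := C) hg1 hgC (hW V A Δ hΔΔ0 has hΔ) U
  obtain ⟨q, hq⟩ : ∃ q : ℕ, q = ⌈ε / 4 * Δ⌉₊ := ⟨_, rfl⟩
  have hq1 : ε / 4 * Δ ≤ q := by rw [hq]; exact Nat.le_ceil _
  have hq2 : (q : ℝ) ≤ ε / 4 * Δ + 1 := by
    rw [hq]; exact (Nat.ceil_lt_add_one (by positivity)).le
  obtain ⟨U', hU', hPhi, hcol⟩ := iterate_w (A := A) om hb1 hκ0.le hκ1 rfl hstep q univ
  obtain ⟨W, hWdef⟩ : ∃ W : ℝ, W = ∑ v, (om v : ℝ) := ⟨_, rfl⟩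
  have hW0 : 0 ≤ W := by rw [hWdef]; exact Finset.sum_nonneg (fun v _ => by positivity)
  rw [← hWdef] at hPhi
  have hPhi0 : Phiw A om b univ ≤ W * b ^ Δ := by
    unfold Phiw
    rw [hWdef, Finset.sum_mul]
    apply Finset.sum_le_sum
    intro v _
    apply mul_le_mul_of_nonneg_left _ (by positivity)
    apply pow_le_pow_right₀ hb1
    exact (Finset.card_le_card Finset.inter_subset_left).trans (hΔ v)
  have hdecay : (1 - κ' * h) ^ q * b ^ Δ ≤ 1 := by
    have h1 : (1 - κ' * h) ^ q ≤ Real.exp (-(κ' * h * q)) := by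
      calc (1 - κ' * h) ^ q ≤ (Real.exp (-(κ' * h))) ^ q := by
            apply pow_le_pow_left₀ (by linarith)
            have := Real.add_one_le_exp (-(κ' * h))
            linarith
        _ = _ := by rw [← Real.exp_nat_mul]; congr 1; ring
    have h2 : b ^ Δ ≤ Real.exp (Δ * (1 / g)) := by
      calc b ^ Δ ≤ (Real.exp (1 / g)) ^ Δ := by
            apply pow_le_pow_left₀ hb0.le
            have h3 : b = 1 / g + 1 := by rw [hb]; field_simp; ring
            rw [h3]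
            exact Real.add_one_le_exp _
        _ = _ := by rw [← Real.exp_nat_mul]
    have h3 : (Δ : ℝ) * (1 / g) ≤ κ' * h * q := by
      have h4 : κ' * (ε / 16 * Δ) * (ε / 4 * Δ) ≤ κ' * h * q := by gcongr
      have h5 : 256 ≤ J * ε ^ 2 := by
        rw [div_le_iff₀ (by positivity)] at hJε; exact hJε
      have h6 : (Δ : ℝ) * (2 / (g + 1)) ≤ κ' * (ε / 16 * Δ) * (ε / 4 * Δ) := by
        have h7 : κ' * (ε / 16 * Δ) * (ε / 4 * Δ) = Δ * (J * ε ^ 2 / 128 / (g + 1)) := by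
          rw [hκ']; field_simp; ring
        rw [h7]
        gcongr
        linarith
      have h8 : (Δ : ℝ) * (1 / g) ≤ Δ * (2 / (g + 1)) := by
        apply mul_le_mul_of_nonneg_left _ hΔR.le
        rw [div_le_div_iff₀ (by linarith) (by linarith)]
        linarith
      linarith
    calc (1 - κ' * h) ^ q * b ^ Δ ≤ Real.exp (-(κ' * h * q)) * Real.exp (Δ * (1 / g)) := by
          gcongr
      _ = Real.exp (-(κ' * h * q) + Δ * (1 / g)) := by rw [Real.exp_add]
      _ ≤ Real.exp 0 := by apply Real.exp_le_exp.2; linarith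
      _ = 1 := Real.exp_zero
  have hbh : (1 : ℝ) ≤ b ^ h := one_le_pow₀ hb1
  have hPhi' : Phiw A om b U' ≤ 2 * W * b ^ h := by
    have hpw : 0 ≤ (1 - κ' * h) ^ q := pow_nonneg (by linarith) _
    have h1 : (1 - κ' * h) ^ q * (Phiw A om b univ - W * b ^ h) ≤ W := by
      calc (1 - κ' * h) ^ q * (Phiw A om b univ - W * b ^ h)
          ≤ (1 - κ' * h) ^ q * (W * b ^ Δ) := by
            apply mul_le_mul_of_nonneg_left _ hpw
            have : (0 : ℝ) ≤ W * b ^ h := by positivity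
            linarith
        _ = W * ((1 - κ' * h) ^ q * b ^ Δ) := by ring
        _ ≤ W * 1 := by gcongr
        _ = _ := mul_one _
    have h2 : W ≤ W * b ^ h := le_mul_of_one_le_right hW0 hbh
    linarith
  -- the bad set
  obtain ⟨R, hR⟩ : ∃ R : Finset V, R = U'.filter (fun v => 2 * h < (nb A v ∩ U').card) :=
    ⟨_, rfl⟩
  have hRw : (∑ v ∈ R, (om v : ℝ)) * b ^ (2 * h) ≤ 2 * W * b ^ h := by
    refine le_trans ?_ hPhi'
    unfold Phiw
    rw [Finset.sum_mul]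
    calc ∑ v ∈ R, (om v : ℝ) * b ^ (2 * h) ≤ ∑ v ∈ R, om v * b ^ (nb A v ∩ U').card := by
          apply Finset.sum_le_sum
          intro v hv
          rw [hR, mem_filter] at hv
          apply mul_le_mul_of_nonneg_left _ (by positivity)
          exact pow_le_pow_right₀ hb1 hv.2.le
      _ ≤ _ := by
          apply Finset.sum_le_sum_of_subset_of_nonneg (Finset.subset_univ _)
          intro v _ _
          positivity
  have hRw' : (∑ v ∈ R, (om v : ℝ)) ≤ W * Real.exp (-(δ * Δ)) := by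
    have hbh0 : 0 < b ^ h := by positivity
    have h1 : (∑ v ∈ R, (om v : ℝ)) * b ^ h ≤ 2 * W := by
      have h2 : (∑ v ∈ R, (om v : ℝ)) * b ^ (2 * h) =
          ((∑ v ∈ R, (om v : ℝ)) * b ^ h) * b ^ h := by
        rw [two_mul, pow_add]; ring
      rw [h2] at hRw
      exact le_of_mul_le_mul_right hRw hbh0
    -- lower bound for `b ^ h`
    have h4 : Real.exp δ0 ≤ b := by
      have h5 : b⁻¹ = 1 - δ0 := by
        rw [hb, hδ0]; field_simp; ring
      have h6 : 1 - δ0 ≤ Real.exp (-δ0) := by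
        have := Real.add_one_le_exp (-δ0)
        linarith
      rw [← h5, Real.exp_neg] at h6
      exact (inv_le_inv₀ hb0 (Real.exp_pos _)).1 h6
    have h7 : Real.exp (2 * (δ * Δ)) ≤ b ^ h := by
      calc Real.exp (2 * (δ * Δ)) = Real.exp (δ0 * (ε / 16 * Δ)) := by
            rw [hδ]; congr 1; ring
        _ ≤ Real.exp (h * δ0) := by
            apply Real.exp_le_exp.2
            rw [mul_comm]
            gcongr
        _ = Real.exp δ0 ^ h := by rw [Real.exp_nat_mul]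
        _ ≤ b ^ h := by gcongr
    have h8 : 2 ≤ Real.exp (δ * Δ) := by
      have := Real.add_one_le_exp (δ * Δ)
      linarith
    have hs0 : 0 ≤ ∑ v ∈ R, (om v : ℝ) := Finset.sum_nonneg (fun v _ => by positivity)
    have h9 : (∑ v ∈ R, (om v : ℝ)) * (Real.exp (δ * Δ) * Real.exp (δ * Δ)) ≤
        Real.exp (δ * Δ) * W := by
      have h10 : Real.exp (δ * Δ) * Real.exp (δ * Δ) = Real.exp (2 * (δ * Δ)) := by
        rw [← Real.exp_add]; congr 1; ring
      rw [h10]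
      calc (∑ v ∈ R, (om v : ℝ)) * Real.exp (2 * (δ * Δ))
          ≤ (∑ v ∈ R, (om v : ℝ)) * b ^ h := by gcongr
        _ ≤ 2 * W := h1
        _ ≤ _ := by gcongr
    rw [Real.exp_neg, ← div_eq_mul_inv, le_div_iff₀ (Real.exp_pos _)]
    have h11 : Real.exp (δ * Δ) * ((∑ v ∈ R, (om v : ℝ)) * Real.exp (δ * Δ)) ≤
        Real.exp (δ * Δ) * W := by linarith
    exact le_of_mul_le_mul_left h11 (Real.exp_pos _)
  refine ⟨univ \ R, ?_, ?_⟩
  · have hgr : Col A (U' \ R) (2 * h + 1) := by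
      apply greedy_col hirr
      intro v hv
      rw [mem_sdiff] at hv
      have h1 : ¬ (2 * h < (nb A v ∩ U').card) := by
        intro h2
        exact hv.2 (by rw [hR, mem_filter]; exact ⟨hv.1, h2⟩)
      have h2 : (nb A v ∩ (U' \ R)).card ≤ (nb A v ∩ U').card :=
        Finset.card_le_card (Finset.inter_subset_inter_left Finset.sdiff_subset)
      omega
    refine (hcol R (2 * h + 1) hgr).mono ?_
    apply Nat.le_floor
    push_cast
    linarith
  · have h1 : ∑ v ∈ univ \ R, (om v : ℝ) = W - ∑ v ∈ R, (om v : ℝ) := by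
      rw [hWdef, ← Finset.sum_sdiff (Finset.subset_univ R)]
      ring
    rw [h1, ← hWdef]
    linarith

/-- The fair almost-colouring theorem: a random partial colouring with at most `ε Δ` colours in
which every vertex is uncoloured with exponentially small probability. -/
theorem fair_colouring (ε : ℝ) (hε : 0 < ε) : ∃ (δ : ℝ) (N : ℕ), 0 < δ ∧
    ∀ (V : Type) [Fintype V] [DecidableEq V]
    (A : V → V → Prop) (Δ : ℕ), N ≤ Δ → (∀ u v, A u v → ¬ A v u) → (∀ v, (nb A v).card ≤ Δ) →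
    ∃ p : Finset V → ℝ, (∀ S, 0 ≤ p S) ∧ ∑ S, p S = 1 ∧
      (∀ S, p S ≠ 0 → Col A S ⌊ε * Δ⌋₊) ∧
      ∀ v, ∑ S, (if v ∈ S then 0 else p S) ≤ Real.exp (-(δ * Δ)) := by
  obtain ⟨δ, N, hδ, hN, h⟩ := main_fair ε hε
  refine ⟨δ, N, hδ, ?_⟩
  intro V _ _ A Δ hNΔ has hΔ
  have hexp : Real.exp (-(δ * Δ)) ≤ 1 := by
    rw [Real.exp_le_one_iff]
    have : 0 ≤ δ * Δ := by positivity
    linarith
  have hne : ∃ S, Col A S ⌊ε * Δ⌋₊ := by
    obtain ⟨S, hS, _⟩ := h V A Δ hNΔ has hΔ (fun _ => 0)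
    exact ⟨S, hS⟩
  obtain ⟨p, hp0, hp1, hpc⟩ := minimaxP (fun S => Col A S ⌊ε * Δ⌋₊)
    (fun w hw => real_weightsP hne (by linarith) (h V A Δ hNΔ has hΔ) w hw)
  have hsum : ∀ F : {S : Finset V // Col A S ⌊ε * Δ⌋₊} → ℝ,
      ∑ S : Finset V, (if hS : Col A S ⌊ε * Δ⌋₊ then F ⟨S, hS⟩ else 0) = ∑ S, F S := by
    intro F
    rw [← Finset.sum_filter_add_sum_filter_not univ (fun S : Finset V => Col A S ⌊ε * Δ⌋₊)]
    have h2 : ∑ S ∈ univ.filter (fun S : Finset V => ¬ Col A S ⌊ε * Δ⌋₊),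
        (if hS : Col A S ⌊ε * Δ⌋₊ then F ⟨S, hS⟩ else 0) = 0 := by
      apply Finset.sum_eq_zero
      intro S hS
      rw [mem_filter] at hS
      simp [hS.2]
    rw [h2, add_zero]
    rw [Finset.sum_subtype (univ.filter (fun S : Finset V => Col A S ⌊ε * Δ⌋₊))
      (p := fun S => Col A S ⌊ε * Δ⌋₊) (by intro S; simp)]
    apply Finset.sum_congr rfl
    intro S _
    simp [S.2]
  refine ⟨fun S => if hS : Col A S ⌊ε * Δ⌋₊ then p ⟨S, hS⟩ else 0, ?_, ?_, ?_, ?_⟩
  · intro S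
    dsimp only
    split_ifs with hS
    · exact hp0 _
    · exact le_rfl
  · rw [hsum]; exact hp1
  · intro S hS
    by_contra hn
    exact hS (by simp [hn])
  · intro v
    have h1 : ∑ S : Finset V, (if v ∈ S then 0 else
        (if hS : Col A S ⌊ε * Δ⌋₊ then p ⟨S, hS⟩ else 0)) =
        ∑ S : Finset V, (if hS : Col A S ⌊ε * Δ⌋₊ then
          (if v ∈ S then 0 else p ⟨S, hS⟩) else 0) := by
      apply Finset.sum_congr rfl
      intro S _
      split_ifs <;> rfl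
    rw [h1, hsum (fun S => if v ∈ S.1 then 0 else p S)]
    have h2 : ∑ S : {S : Finset V // Col A S ⌊ε * Δ⌋₊}, (if v ∈ S.1 then 0 else p S) +
        ∑ S : {S : Finset V // Col A S ⌊ε * Δ⌋₊}, (if v ∈ S.1 then p S else 0) = 1 := by
      rw [← Finset.sum_add_distrib, ← hp1]
      apply Finset.sum_congr rfl
      intro S _
      split_ifs <;> simp
    have h3 := hpc v
    linarith

end Pool.MP_e50225_co
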