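/-
MP_e50225_co : list colouring from small colour degrees (helper19).
-/
import Pool.Agent.MP_e50225_co.Greedy
import Pool.Agent.MP_e50225_co.LLLProduct

set_option autoImplicit false

namespace Pool.Agent.MP_e50225_co

open Finset

namespace ListCompletion

/-- Probability that two given coordinates take given values. -/
lemma pr_two {V : Type*} [Fintype V] [DecidableEq V] (m : ℕ) (hm : 0 < m) (u v : V) (huv : u ≠ v)
    (a b : Fin m) :
    pr (fun ω : V → Fin m => ω u = a ∧ ω v = b) = (1 / (m : ℝ)) ^ 2 := by
  have h := pr_slots (I := V) (W := V) m hm {u, v} id Function.injective_id.injOn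
    (fun w => if w = u then a else b)
  rw [Finset.card_pair huv] at h
  rw [← h]
  apply pr_congr
  intro ω
  simp [huv.symm]

open Classical in
/-- Lists of size `m` in which every colour is shared with at most `m / 8` neighbours. -/
theorem list_completion_eq {V : Type} [Fintype V] [DecidableEq V] (H : SimpleGraph V) (q m : ℕ)
    (hm : 1 ≤ m) (L : V → Finset (Fin q)) (hL : ∀ v, (L v).card = m)
    (hdeg : ∀ v, ∀ c ∈ L v, 8 * ((nbr H v).filter (fun u => c ∈ L u)).card ≤ m) :
    ∃ col : V → Fin q, (∀ v, col v ∈ L v) ∧ ∀ u v, H.Adj u v → col u ≠ col v := by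
  let e : ∀ v, Fin m ≃ L v := fun v => ((L v).equivFinOfCardEq (hL v)).symm
  rcases Nat.lt_or_ge m 2 with hm2 | hm2
  · -- lists of size one: no conflicts at all
    refine ⟨fun v => (e v ⟨0, hm⟩ : Fin q), fun v => (e v ⟨0, hm⟩).2, ?_⟩
    intro u v huv heq
    change (e u ⟨0, hm⟩ : Fin q) = (e v ⟨0, hm⟩ : Fin q) at heq
    have h1 := hdeg u (e u ⟨0, hm⟩ : Fin q) (e u ⟨0, hm⟩).2
    have h2 : v ∈ (nbr H u).filter (fun w => ((e u ⟨0, hm⟩ : Fin q)) ∈ L w) := by
      rw [Finset.mem_filter, Assembly.mem_nbr]
      exact ⟨huv, by rw [heq]; exact (e v ⟨0, hm⟩).2⟩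
    have h3 := Finset.card_pos.2 ⟨v, h2⟩
    omega
  · let rk : V → ℕ := fun v => (Fintype.equivFin V v : ℕ)
    have hrk : Function.Injective rk := fun a b h => (Fintype.equivFin V).injective (Fin.ext h)
    let ι := {x : V × V × Fin q // rk x.1 < rk x.2.1 ∧ H.Adj x.1 x.2.1 ∧
      x.2.2 ∈ L x.1 ∧ x.2.2 ∈ L x.2.1}
    let A : ι → (V → Fin m) → Prop := fun x ω =>
      ω x.1.1 = (e x.1.1).symm ⟨x.1.2.2, x.2.2.2.1⟩ ∧
      ω x.1.2.1 = (e x.1.2.1).symm ⟨x.1.2.2, x.2.2.2.2⟩
    have hne : Nonempty (Fin m) := ⟨⟨0, by omega⟩⟩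
    obtain ⟨ω, hω⟩ := lll_product (ι := ι) (κ := V) (α := Fin m) A
      (fun x => {x.1.1, x.1.2.1}) (by
        intro x ω ω' h
        have h1 := h x.1.1 (by simp)
        have h2 := h x.1.2.1 (by simp)
        simp only [A, h1, h2])
      ((1 / (m : ℝ)) ^ 2) (m * m / 4) (by
        have : 2 * 2 ≤ m * m := Nat.mul_le_mul hm2 hm2
        omega) (by
        intro x
        have key : ∀ w, 8 * ((L w).biUnion (fun c =>
            ((nbr H w).filter (fun z => c ∈ L z)).image
              (fun z => if rk w < rk z then (w, z, c) else (z, w, c)))).card ≤ m * m := by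
          intro w
          calc 8 * ((L w).biUnion (fun c => ((nbr H w).filter (fun z => c ∈ L z)).image
              (fun z => if rk w < rk z then (w, z, c) else (z, w, c)))).card
              ≤ 8 * ∑ c ∈ L w, (((nbr H w).filter (fun z => c ∈ L z)).image
              (fun z => if rk w < rk z then (w, z, c) else (z, w, c))).card :=
                Nat.mul_le_mul_left _ Finset.card_biUnion_le
            _ ≤ 8 * ∑ c ∈ L w, ((nbr H w).filter (fun z => c ∈ L z)).card :=
                Nat.mul_le_mul_left _ (Finset.sum_le_sum (fun c _ => Finset.card_image_le))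
            _ = ∑ c ∈ L w, 8 * ((nbr H w).filter (fun z => c ∈ L z)).card := Finset.mul_sum _ _ _
            _ ≤ ∑ c ∈ L w, m := Finset.sum_le_sum (fun c hc => hdeg w c hc)
            _ = m * m := by rw [Finset.sum_const, hL w, smul_eq_mul]
        have hsub : (Finset.univ.filter (fun y : ι =>
            ¬ Disjoint ({x.1.1, x.1.2.1} : Finset V) {y.1.1, y.1.2.1})).map
              (Function.Embedding.subtype _) ⊆
            ((L x.1.1).biUnion (fun c => ((nbr H x.1.1).filter (fun z => c ∈ L z)).image
              (fun z => if rk x.1.1 < rk z then (x.1.1, z, c) else (z, x.1.1, c)))) ∪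
            ((L x.1.2.1).biUnion (fun c => ((nbr H x.1.2.1).filter (fun z => c ∈ L z)).image
              (fun z => if rk x.1.2.1 < rk z then (x.1.2.1, z, c) else (z, x.1.2.1, c)))) := by
          intro y hy
          rw [Finset.mem_map] at hy
          obtain ⟨y', hy', rfl⟩ := hy
          rw [Finset.mem_filter] at hy'
          obtain ⟨⟨u', v', c'⟩, h1, h2, h3, h4⟩ := y'
          simp only at h1 h2 h3 h4
          have hgen : ∀ w, w = u' ∨ w = v' → ((u', v', c') : V × V × Fin q) ∈
              ((L w).biUnion (fun c => ((nbr H w).filter (fun z => c ∈ L z)).image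
              (fun z => if rk w < rk z then (w, z, c) else (z, w, c)))) := by
            intro w hw
            rw [Finset.mem_biUnion]
            rcases hw with rfl | rfl
            · refine ⟨c', h3, ?_⟩
              rw [Finset.mem_image]
              refine ⟨v', ?_, by rw [if_pos h1]⟩
              rw [Finset.mem_filter, Assembly.mem_nbr]
              exact ⟨h2, h4⟩
            · refine ⟨c', h4, ?_⟩
              rw [Finset.mem_image]
              refine ⟨u', ?_, by rw [if_neg (by omega)]⟩
              rw [Finset.mem_filter, Assembly.mem_nbr]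
              exact ⟨h2.symm, h3⟩
          have h5 := hy'.2
          rw [Finset.not_disjoint_iff] at h5
          obtain ⟨w, hw1, hw2⟩ := h5
          simp only [Finset.mem_insert, Finset.mem_singleton] at hw1 hw2
          rw [Finset.mem_union]
          rcases hw1 with hw1 | hw1
          · left
            rw [← hw1]
            exact hgen w hw2
          · right
            rw [← hw1]
            exact hgen w hw2
        have h6 := Finset.card_le_card hsub
        rw [Finset.card_map] at h6
        have h7 := h6.trans (Finset.card_union_le _ _)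
        have h8 := key x.1.1
        have h9 := key x.1.2.1
        rw [Nat.le_div_iff_mul_le (by norm_num)]
        omega)
      (by positivity) (by
        intro x
        have hx : x.1.1 ≠ x.1.2.1 := x.2.2.1.ne
        exact (pr_two m (by omega) _ _ hx _ _).le) (by
        have hmR : (0 : ℝ) < m := by positivity
        have h1 : ((m * m / 4 : ℕ) : ℝ) ≤ (m : ℝ) * m / 4 := by
          have := @Nat.cast_div_le ℝ _ _ _ (m * m) 4
          push_cast at this
          exact this
        calc 4 * (1 / (m : ℝ)) ^ 2 * ((m * m / 4 : ℕ) : ℝ)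
            ≤ 4 * (1 / (m : ℝ)) ^ 2 * ((m : ℝ) * m / 4) :=
              mul_le_mul_of_nonneg_left h1 (by positivity)
          _ = 1 := by field_simp)
    refine ⟨fun v => (e v (ω v) : Fin q), fun v => (e v (ω v)).2, ?_⟩
    have hord : ∀ u v, rk u < rk v → H.Adj u v → (e u (ω u) : Fin q) ≠ (e v (ω v) : Fin q) := by
      intro u v hr huv heq
      have hcu : (e u (ω u) : Fin q) ∈ L u := (e u (ω u)).2
      have hcv : (e u (ω u) : Fin q) ∈ L v := by rw [heq]; exact (e v (ω v)).2
      apply hω ⟨(u, v, (e u (ω u) : Fin q)), hr, huv, hcu, hcv⟩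
      simp only [A]
      constructor
      · rw [Equiv.eq_symm_apply]
      · rw [Equiv.eq_symm_apply]
        exact Subtype.ext heq.symm
    intro u v huv
    rcases lt_trichotomy (rk u) (rk v) with h | h | h
    · exact hord u v h huv
    · exact absurd (hrk h) huv.ne
    · exact (hord v u h huv.symm).symm

open Classical in
/-- Lists of size at least `m` in which every colour is shared with at most `m / 8` neighbours. -/
theorem list_completion {V : Type} [Fintype V] [DecidableEq V] (H : SimpleGraph V) (q m : ℕ)
    (hm : 1 ≤ m) (L : V → Finset (Fin q)) (hL : ∀ v, m ≤ (L v).card)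
    (hdeg : ∀ v, ∀ c ∈ L v, 8 * ((nbr H v).filter (fun u => c ∈ L u)).card ≤ m) :
    ∃ col : V → Fin q, (∀ v, col v ∈ L v) ∧ ∀ u v, H.Adj u v → col u ≠ col v := by
  have h : ∀ v, ∃ M : Finset (Fin q), M ⊆ L v ∧ M.card = m := fun v =>
    Finset.exists_subset_card_eq (hL v)
  choose M hM1 hM2 using h
  obtain ⟨col, h1, h2⟩ := list_completion_eq H q m hm M hM2 (by
    intro v c hc
    refine le_trans (Nat.mul_le_mul_left _ (Finset.card_le_card ?_)) (hdeg v c (hM1 v hc))
    intro u hu
    rw [Finset.mem_filter] at hu ⊢
    exact ⟨hu.1, hM1 u hu.2⟩)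
  exact ⟨col, fun v => hM1 v (h1 v), h2⟩

end ListCompletion

end Pool.Agent.MP_e50225_co
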