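import Pool.Agent.MP_e50225_co.Entropy

namespace Pool.MP_e50225_co

set_option linter.unusedSectionVars false

open Finset
open scoped Classical

section

variable {V : Type} [Fintype V] [DecidableEq V] {A : V → V → Prop} {L : ℕ}

/-- The label `i` may be placed at `u` in the presence of `σ`. -/
def Allowed (A : V → V → Prop) (σ : Cfg V L) (u : V) (i : Fin L) : Prop :=
  ∀ w j, σ w = some j → (A u w → i < j) ∧ (A w u → j < i)

/-- All labels of the block `j` may be placed at `u`. -/
def LooseAt (A : V → V → Prop) (σ : Cfg V L) (m j : ℕ) (u : V) : Prop :=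
  ∀ i : Fin L, j * m ≤ (i : ℕ) → (i : ℕ) < (j + 1) * m → Allowed A σ u i

def Loose (A : V → V → Prop) (σ : Cfg V L) (B m : ℕ) (u : V) : Prop :=
  ∃ j < B, LooseAt A σ m j u

/-- An occupied site of the erased region which is not loose is near to a neighbour. -/
lemma mem_Q_of_not_loose {B m : ℕ} (hm : 0 < m) (hL : L = B * m) {c : Cfg V L} (hc : Valid A c)
    (D : Finset V) {u : V} (hu : u ∈ supp c) (hl : ¬ Loose A (er D c) B m u) :
    u ∈ Q A m c := by
  obtain ⟨i, hi⟩ := mem_supp_iff.1 hu
  by_contra hQ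
  apply hl
  refine ⟨(i : ℕ) / m, ?_, ?_⟩
  · rw [Nat.div_lt_iff_lt_mul hm, ← hL]
    exact i.2
  · intro i' h1 h2 w j hj
    have hi1 : (i : ℕ) / m * m ≤ i := Nat.div_mul_le_self _ _
    have hi2 : (i : ℕ) < ((i : ℕ) / m + 1) * m := by
      rw [add_mul, one_mul]; exact Nat.lt_div_mul_add hm
    rw [add_mul, one_mul] at h2 hi2
    have hwj : c w = some j := by
      unfold er at hj
      split_ifs at hj
      exact hj
    have hnn : ∀ _ : w ∈ nb A u, ¬ Near m i j := by
      intro hw hn
      apply hQ
      simp only [Q, mem_filter, mem_univ, true_and]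
      exact ⟨i, hi, w, hw, j, hwj, hn⟩
    constructor
    · intro hA
      have h3 := hnn (mem_nb.2 (Or.inl hA))
      have h4 := hc u w i j hA hi hwj
      unfold Near at h3
      rw [Fin.lt_def] at h4 ⊢
      omega
    · intro hA
      have h3 := hnn (mem_nb.2 (Or.inr hA))
      have h4 := hc w u j i hA hwj hi
      unfold Near at h3
      rw [Fin.lt_def] at h4 ⊢
      omega

/-- Valid configurations of exactly `k` particles on `U` with labels in `[a, a+m)`. -/
noncomputable def pl (A : V → V → Prop) (L : ℕ) (U : Finset V) (a m k : ℕ) : Finset (Cfg V L) :=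
  univ.filter (fun c => Valid A c ∧ (supp c).card = k ∧
    ∀ v i, c v = some i → v ∈ U ∧ a ≤ (i : ℕ) ∧ (i : ℕ) < a + m)

lemma mem_pl {U : Finset V} {a m k : ℕ} {c : Cfg V L} : c ∈ pl A L U a m k ↔
    Valid A c ∧ (supp c).card = k ∧
      ∀ v i, c v = some i → v ∈ U ∧ a ≤ (i : ℕ) ∧ (i : ℕ) < a + m := by
  simp [pl]

lemma update_inj {s : Finset (Cfg V L)} (v : V) (i : Fin L) (h : ∀ c ∈ s, c v = none) :
    Set.InjOn (fun c : Cfg V L => Function.update c v (some i)) s := by
  intro c hc c' hc' hcc
  ext1 w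
  by_cases hw : w = v
  · subst hw
    rw [h c hc, h c' hc']
  · have := congrFun hcc w
    simpa [Function.update_of_ne hw] using this

/-- one step of the recursion -/
lemma pl_step (has : ∀ u v, A u v → ¬ A v u) {k : ℕ} {U : Finset V} {a M : ℕ} {v : V}
    (hv : v ∈ U) {i : Fin L} (hi1 : a + M ≤ i) (hi2 : (i : ℕ) < a + 2 * M) {F : ℕ}
    (IH : ∀ (U' : Finset V) (a' : ℕ), 4 ^ k ≤ U'.card → a' + M ≤ L →
      (U'.card * M) ^ k ≤ F * (pl A L U' a' M k).card)
    (hU : 4 ^ (k + 1) ≤ U.card) (haL : a + 3 * M ≤ L) :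
    (U.card * M) ^ k ≤
      4 ^ k * F * ((pl A L U a (3 * M) (k + 1)).filter (fun c => c v = some i)).card := by
  have hirr : ∀ v, ¬ A v v := fun v h => has v v h h
  set Up := U.filter (fun u => u ≠ v ∧ ¬ A u v) with hUp
  set Dn := U.filter (fun u => u ≠ v ∧ ¬ A v u) with hDn
  have hcov : U ⊆ insert v (Up ∪ Dn) := by
    intro u hu
    rw [mem_insert, mem_union, hUp, hDn, mem_filter, mem_filter]
    by_cases h : u = v
    · left; exact h
    · right
      by_cases h1 : A u v
      · right; exact ⟨hu, h, has u v h1⟩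
      · left; exact ⟨hu, h, h1⟩
  have hcard : U.card ≤ Up.card + Dn.card + 1 := by
    calc U.card ≤ (insert v (Up ∪ Dn)).card := Finset.card_le_card hcov
      _ ≤ (Up ∪ Dn).card + 1 := Finset.card_insert_le _ _
      _ ≤ _ := by
        have := Finset.card_union_le Up Dn
        omega
  have h4 : 1 ≤ 4 ^ k := Nat.one_le_pow _ _ (by norm_num)
  have h5 : 4 ^ (k + 1) = 4 * 4 ^ k := by ring
  -- general conclusion from a good half
  have key : ∀ (U' : Finset V) (a' : ℕ), U.card ≤ 4 * U'.card → 4 ^ k ≤ U'.card → a' + M ≤ L →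
      ((pl A L U' a' M k).card ≤
        ((pl A L U a (3 * M) (k + 1)).filter (fun c => c v = some i)).card) →
      (U.card * M) ^ k ≤
      4 ^ k * F * ((pl A L U a (3 * M) (k + 1)).filter (fun c => c v = some i)).card := by
    intro U' a' h1 h2 h3 hle
    calc (U.card * M) ^ k ≤ (4 * U'.card * M) ^ k := by gcongr
      _ = 4 ^ k * (U'.card * M) ^ k := by rw [mul_assoc, mul_pow]
      _ ≤ 4 ^ k * (F * (pl A L U' a' M k).card) := Nat.mul_le_mul_left _ (IH U' a' h2 h3)
      _ ≤ 4 ^ k * (F * ((pl A L U a (3 * M) (k + 1)).filter (fun c => c v = some i)).card) := by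
          gcongr
      _ = _ := by ring
  rcases le_or_gt (U.card) (2 * Up.card + 1) with h | h
  · -- use `Up` and the top block
    apply key Up (a + 2 * M) (by omega) (by omega) (by omega)
    have hno : ∀ c ∈ pl A L Up (a + 2 * M) M k, c v = none := by
      intro c hc
      by_contra hne
      obtain ⟨j, hj⟩ := Option.ne_none_iff_exists'.1 hne
      have := ((mem_pl.1 hc).2.2 v j hj).1
      rw [hUp, mem_filter] at this
      exact this.2.1 rfl
    rw [← Finset.card_image_of_injOn (update_inj v i hno)]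
    apply Finset.card_le_card
    intro c hc
    rw [mem_image] at hc
    obtain ⟨c', hc', rfl⟩ := hc
    have hc'2 := mem_pl.1 hc'
    rw [mem_filter, mem_pl]
    refine ⟨⟨?_, ?_, ?_⟩, by simp⟩
    · intro p q s t hA hp hq
      by_cases hpv : p = v
      · subst hpv
        by_cases hqv : q = p
        · subst hqv; exact absurd hA (hirr _)
        · rw [Function.update_of_ne hqv] at hq
          rw [Function.update_self] at hp
          have hs : i = s := by simpa using hp
          subst hs
          have := (hc'2.2.2 q t hq).2.1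
          rw [Fin.lt_def]
          omega
      · rw [Function.update_of_ne hpv] at hp
        by_cases hqv : q = v
        · subst hqv
          have := (hc'2.2.2 p s hp).1
          rw [hUp, mem_filter] at this
          exact absurd hA this.2.2
        · rw [Function.update_of_ne hqv] at hq
          exact hc'2.1 p q s t hA hp hq
    · rw [card_supp_update c' v i (hno c' hc'), hc'2.2.1]
    · intro w s hw
      by_cases hwv : w = v
      · subst hwv
        rw [Function.update_self] at hw
        have hs : i = s := by simpa using hw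
        subst hs
        exact ⟨hv, by omega, by omega⟩
      · rw [Function.update_of_ne hwv] at hw
        have h6 := hc'2.2.2 w s hw
        rw [hUp, mem_filter] at h6
        exact ⟨h6.1.1, by omega, by omega⟩
  · -- use `Dn` and the bottom block
    apply key Dn a (by omega) (by omega) (by omega)
    have hno : ∀ c ∈ pl A L Dn a M k, c v = none := by
      intro c hc
      by_contra hne
      obtain ⟨j, hj⟩ := Option.ne_none_iff_exists'.1 hne
      have := ((mem_pl.1 hc).2.2 v j hj).1
      rw [hDn, mem_filter] at this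
      exact this.2.1 rfl
    rw [← Finset.card_image_of_injOn (update_inj v i hno)]
    apply Finset.card_le_card
    intro c hc
    rw [mem_image] at hc
    obtain ⟨c', hc', rfl⟩ := hc
    have hc'2 := mem_pl.1 hc'
    rw [mem_filter, mem_pl]
    refine ⟨⟨?_, ?_, ?_⟩, by simp⟩
    · intro p q s t hA hp hq
      by_cases hpv : p = v
      · subst hpv
        by_cases hqv : q = p
        · subst hqv; exact absurd hA (hirr _)
        · rw [Function.update_of_ne hqv] at hq
          have := (hc'2.2.2 q t hq).1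
          rw [hDn, mem_filter] at this
          exact absurd hA this.2.2
      · rw [Function.update_of_ne hpv] at hp
        by_cases hqv : q = v
        · subst hqv
          rw [Function.update_self] at hq
          have hs : i = t := by simpa using hq
          subst hs
          have := (hc'2.2.2 p s hp).2.2
          rw [Fin.lt_def]
          omega
        · rw [Function.update_of_ne hqv] at hq
          exact hc'2.1 p q s t hA hp hq
    · rw [card_supp_update c' v i (hno c' hc'), hc'2.2.1]
    · intro w s hw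
      by_cases hwv : w = v
      · subst hwv
        rw [Function.update_self] at hw
        have hs : i = s := by simpa using hw
        subst hs
        exact ⟨hv, by omega, by omega⟩
      · rw [Function.update_of_ne hwv] at hw
        have h6 := hc'2.2.2 w s hw
        rw [hDn, mem_filter] at h6
        exact ⟨h6.1.1, by omega, by omega⟩

lemma card_mid {a M : ℕ} (haL : a + 3 * M ≤ L) :
    (univ.filter (fun i : Fin L => a + M ≤ (i : ℕ) ∧ (i : ℕ) < a + 2 * M)).card = M := by
  have h : (univ.filter (fun i : Fin L => a + M ≤ (i : ℕ) ∧ (i : ℕ) < a + 2 * M)).image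
      (fun i : Fin L => (i : ℕ)) = Finset.Ico (a + M) (a + 2 * M) := by
    ext x
    simp only [mem_image, mem_filter, mem_univ, true_and, mem_Ico]
    constructor
    · rintro ⟨i, h, rfl⟩; exact h
    · intro h
      exact ⟨⟨x, by omega⟩, h, rfl⟩
  have h2 := congrArg Finset.card h
  rw [Finset.card_image_of_injective _ Fin.val_injective, Nat.card_Ico] at h2
  omega

/-- Counting: there are many valid placements of `k` particles in a block. -/
lemma pl_count (has : ∀ u v, A u v → ¬ A v u) (k : ℕ) :
    ∀ (m' : ℕ) (U : Finset V) (a : ℕ), 4 ^ k ≤ U.card → a + 3 ^ k * m' ≤ L →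
      (U.card * (3 ^ k * m')) ^ k ≤
        (k.factorial * 12 ^ (k ^ 2)) * (pl A L U a (3 ^ k * m') k).card := by
  induction k with
  | zero =>
    intro m' U a _ _
    have : (fun _ => none : Cfg V L) ∈ pl A L U a (3 ^ 0 * m') 0 := by
      rw [mem_pl]
      refine ⟨empty_valid, ?_, ?_⟩
      · rw [Finset.card_eq_zero]; ext v; simp [supp]
      · intro v i h; simp at h
    have h2 : 1 ≤ (pl A L U a (3 ^ 0 * m') 0).card := Finset.card_pos.2 ⟨_, this⟩
    simpa using h2
  | succ k IH =>
    intro m' U a hU haL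
    have e3 : 3 ^ (k + 1) * m' = 3 * (3 ^ k * m') := by ring
    rw [e3] at haL ⊢
    set M := 3 ^ k * m' with hM
    set P := pl A L U a (3 * M) (k + 1) with hP
    -- double counting
    have hdc : (k + 1) * P.card = ∑ v, ∑ i : Fin L, (P.filter (fun c => c v = some i)).card := by
      have h1 : ∀ c ∈ P, (supp c).card = ∑ v, ∑ i : Fin L, if c v = some i then 1 else 0 := by
        intro c _
        rw [Finset.card_eq_sum_ones, ← Finset.sum_filter_add_sum_filter_not univ (fun v => c v ≠ none)]
        have h2 : ∑ v ∈ univ.filter (fun v => ¬ c v ≠ none), ∑ i : Fin L,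
            (if c v = some i then 1 else 0) = 0 := by
          apply Finset.sum_eq_zero
          intro v hv
          have : c v = none := by simpa using hv
          simp [this]
        rw [h2, add_zero]
        unfold supp
        apply Finset.sum_congr rfl
        intro v hv
        have hv' : c v ≠ none := by simpa using hv
        obtain ⟨i, hi⟩ := Option.ne_none_iff_exists'.1 hv'
        rw [hi]
        simp
      calc (k + 1) * P.card = ∑ c ∈ P, (supp c).card := by
            rw [Finset.sum_congr rfl (fun c hc => (mem_pl.1 hc).2.1), Finset.sum_const,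
              smul_eq_mul, mul_comm]
        _ = ∑ c ∈ P, ∑ v, ∑ i : Fin L, (if c v = some i then 1 else 0) :=
            Finset.sum_congr rfl h1
        _ = ∑ v, ∑ i : Fin L, ∑ c ∈ P, (if c v = some i then 1 else 0) := by
            rw [Finset.sum_comm]
            apply Finset.sum_congr rfl
            intro v _
            rw [Finset.sum_comm]
        _ = _ := by
            apply Finset.sum_congr rfl
            intro v _
            apply Finset.sum_congr rfl
            intro i _
            rw [Finset.sum_boole]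
            simp
    have hstep : ∀ v ∈ U, ∀ i ∈ univ.filter
        (fun i : Fin L => a + M ≤ (i : ℕ) ∧ (i : ℕ) < a + 2 * M),
        (U.card * M) ^ k ≤ 4 ^ k * (k.factorial * 12 ^ (k ^ 2)) *
          (P.filter (fun c => c v = some i)).card := by
      intro v hv i hi
      rw [mem_filter] at hi
      exact pl_step has hv hi.2.1 hi.2.2 (fun U' a' h1 h2 => IH m' U' a' h1 h2) hU haL
    have hsum : (U.card * M) * (U.card * M) ^ k ≤
        4 ^ k * (k.factorial * 12 ^ (k ^ 2)) * ((k + 1) * P.card) := by
      rw [hdc]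
      calc (U.card * M) * (U.card * M) ^ k
          = ∑ v ∈ U, ∑ i ∈ univ.filter
              (fun i : Fin L => a + M ≤ (i : ℕ) ∧ (i : ℕ) < a + 2 * M), (U.card * M) ^ k := by
            rw [Finset.sum_const, Finset.sum_const, card_mid haL, smul_eq_mul, smul_eq_mul,
              mul_assoc]
        _ ≤ ∑ v ∈ U, ∑ i ∈ univ.filter
              (fun i : Fin L => a + M ≤ (i : ℕ) ∧ (i : ℕ) < a + 2 * M),
              4 ^ k * (k.factorial * 12 ^ (k ^ 2)) * (P.filter (fun c => c v = some i)).card :=
            Finset.sum_le_sum (fun v hv => Finset.sum_le_sum (fun i hi => hstep v hv i hi))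
        _ ≤ ∑ v, ∑ i : Fin L,
              4 ^ k * (k.factorial * 12 ^ (k ^ 2)) * (P.filter (fun c => c v = some i)).card := by
            refine (Finset.sum_le_sum (fun v _ =>
              Finset.sum_le_sum_of_subset (Finset.filter_subset _ _))).trans ?_
            exact Finset.sum_le_sum_of_subset (Finset.subset_univ _)
        _ = _ := by
            simp only [← Finset.mul_sum]
    calc (U.card * (3 * M)) ^ (k + 1) = 3 ^ (k + 1) * ((U.card * M) * (U.card * M) ^ k) := by
          rw [← pow_succ', ← mul_pow]; congr 1; ring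
      _ ≤ 3 ^ (k + 1) * (4 ^ k * (k.factorial * 12 ^ (k ^ 2)) * ((k + 1) * P.card)) :=
          Nat.mul_le_mul_left _ hsum
      _ = ((k + 1).factorial * (3 * 12 ^ k * 12 ^ (k ^ 2))) * P.card := by
          have e12 : (12 : ℕ) ^ k = 3 ^ k * 4 ^ k := by rw [← mul_pow]; norm_num
          rw [Nat.factorial_succ, e12]; ring
      _ ≤ ((k + 1).factorial * 12 ^ ((k + 1) ^ 2)) * P.card := by
          apply Nat.mul_le_mul_right
          apply Nat.mul_le_mul_left
          calc 3 * 12 ^ k * 12 ^ (k ^ 2) ≤ 12 ^ (1 + k) * 12 ^ k * 12 ^ (k ^ 2) := by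
                have h1 : 3 ≤ 12 ^ (1 + k) := by
                  calc 3 ≤ 12 ^ 1 := by norm_num
                    _ ≤ 12 ^ (1 + k) := Nat.pow_le_pow_right (by norm_num) (by omega)
                gcongr
            _ = 12 ^ ((k + 1) ^ 2) := by
                rw [← pow_add, ← pow_add]; congr 1; ring

/-- the fiber weight -/
noncomputable def W (A : V → V → Prop) (x : V) (y : ℝ) (σ : Cfg V L) : ℝ :=
  ∑ c ∈ (vc A L).filter (fun c => er (insert x (nb A x)) c = σ), y ^ (supp c).card

lemma not_mem_nb_self (hirr : ∀ v, ¬ A v v) (x : V) : x ∉ nb A x := by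
  rw [mem_nb]; have := hirr x; tauto

/-- Lower bound for the fiber weight from placements in a block. -/
lemma W_lower {x : V} {y : ℝ} (hy : 0 < y) {σ : Cfg V L}
    (hσ : σ ∈ vcOff A L (insert x (nb A x))) (m j k : ℕ) :
    y ^ (supp σ).card * y ^ k *
      (pl A L ((nb A x).filter (LooseAt A σ m j)) (j * m) m k).card ≤ W A x y σ := by
  have hσ2 := mem_vcOff.1 hσ
  have hσn : ∀ v ∈ nb A x, σ v = none := fun v hv => hσ2.2 v (mem_insert_of_mem hv)
  have hσx : σ x = none := hσ2.2 x (mem_insert_self _ _)
  set P := pl A L ((nb A x).filter (LooseAt A σ m j)) (j * m) m k with hP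
  let f : Cfg V L → Cfg V L := fun c' v => if v ∈ nb A x then c' v else σ v
  have hout : ∀ c' ∈ P, ∀ v, v ∉ nb A x → c' v = none := by
    intro c' hc' v hv
    by_contra hne
    obtain ⟨i, hi⟩ := Option.ne_none_iff_exists'.1 hne
    have := ((mem_pl.1 hc').2.2 v i hi).1
    rw [mem_filter] at this
    exact hv this.1
  have hinj : Set.InjOn f P := by
    intro c hc c' hc' hcc
    ext1 v
    by_cases hv : v ∈ nb A x
    · have := congrFun hcc v
      simpa [f, hv] using this
    · rw [hout c hc v hv, hout c' hc' v hv]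
  have hcard : ∀ c' ∈ P, (supp (f c')).card = (supp σ).card + k := by
    intro c' hc'
    have h1 : supp (f c') = supp σ ∪ supp c' := by
      ext v
      rw [mem_union, mem_supp, mem_supp, mem_supp]
      by_cases hv : v ∈ nb A x
      · simp [f, hv, hσn v hv]
      · simp [f, hv, hout c' hc' v hv]
    rw [h1, Finset.card_union_of_disjoint, (mem_pl.1 hc').2.1]
    rw [Finset.disjoint_left]
    intro v hv hv'
    rw [mem_supp] at hv hv'
    by_cases hvn : v ∈ nb A x
    · exact hv (hσn v hvn)
    · exact hv' (hout c' hc' v hvn)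
  have hmem : ∀ c' ∈ P, f c' ∈ (vc A L).filter (fun c => er (insert x (nb A x)) c = σ) := by
    intro c' hc'
    have hc2 := mem_pl.1 hc'
    rw [mem_filter, mem_vc]
    refine ⟨?_, ?_⟩
    · intro u v s t hA hu hv
      by_cases hun : u ∈ nb A x <;> by_cases hvn : v ∈ nb A x
      · simp only [f, hun, hvn, if_true] at hu hv
        exact hc2.1 u v s t hA hu hv
      · simp only [f, hun, hvn, if_true, if_false] at hu hv
        have h1 := hc2.2.2 u s hu
        rw [mem_filter] at h1
        have h2 := h1.1.2 s h1.2.1 (by rw [add_mul, one_mul]; exact h1.2.2)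
        exact (h2 v t hv).1 hA
      · simp only [f, hun, hvn, if_true, if_false] at hu hv
        have h1 := hc2.2.2 v t hv
        rw [mem_filter] at h1
        have h2 := h1.1.2 t h1.2.1 (by rw [add_mul, one_mul]; exact h1.2.2)
        exact (h2 u s hu).2 hA
      · simp only [f, hun, hvn, if_false] at hu hv
        exact hσ2.1 u v s t hA hu hv
    · ext1 v
      by_cases hv : v ∈ insert x (nb A x)
      · rw [er_of_mem hv, hσ2.2 v hv]
      · rw [er_of_not_mem hv]
        rw [mem_insert, not_or] at hv
        simp [f, hv.2]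
  calc y ^ (supp σ).card * y ^ k * P.card = ∑ c' ∈ P, y ^ (supp (f c')).card := by
        rw [Finset.sum_congr rfl (fun c' hc' => by rw [hcard c' hc'])]
        rw [Finset.sum_const, nsmul_eq_mul, pow_add]
        ring
    _ = ∑ c ∈ P.image f, y ^ (supp c).card := by
        rw [Finset.sum_image hinj]
    _ ≤ W A x y σ := by
        unfold W
        apply Finset.sum_le_sum_of_subset_of_nonneg
        · intro c hc
          rw [mem_image] at hc
          obtain ⟨c', hc', rfl⟩ := hc
          exact hmem c' hc'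
        · intro c _ _
          positivity

/-- The number of loose neighbours. -/
noncomputable def looseSet (A : V → V → Prop) (x : V) (σ : Cfg V L) (B m : ℕ) : Finset V :=
  (nb A x).filter (Loose A σ B m)

lemma exists_block {x : V} {σ : Cfg V L} {B m : ℕ} :
    (looseSet A x σ B m).card = 0 ∨
      ∃ j < B, (looseSet A x σ B m).card ≤ B * ((nb A x).filter (LooseAt A σ m j)).card := by
  by_cases h0 : (looseSet A x σ B m).card = 0
  · left; exact h0
  right
  by_contra hcon
  push Not at hcon
  have hsub : looseSet A x σ B m ⊆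
      (Finset.range B).biUnion (fun j => (nb A x).filter (LooseAt A σ m j)) := by
    intro u hu
    unfold looseSet at hu
    rw [mem_filter] at hu
    obtain ⟨hu1, j, hj, hl⟩ := hu
    rw [mem_biUnion]
    exact ⟨j, mem_range.2 hj, mem_filter.2 ⟨hu1, hl⟩⟩
  have h1 : (looseSet A x σ B m).card ≤
      ∑ j ∈ Finset.range B, ((nb A x).filter (LooseAt A σ m j)).card :=
    (Finset.card_le_card hsub).trans Finset.card_biUnion_le
  have hB : 0 < B := by
    by_contra hB
    have : B = 0 := by omega
    subst this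
    simp at h1
    exact h0 (by rw [h1]; simp)
  have h2 : B * ∑ j ∈ Finset.range B, ((nb A x).filter (LooseAt A σ m j)).card <
      B * (looseSet A x σ B m).card := by
    rw [Finset.mul_sum]
    calc ∑ j ∈ Finset.range B, B * ((nb A x).filter (LooseAt A σ m j)).card
        < ∑ _j ∈ Finset.range B, (looseSet A x σ B m).card := by
          apply Finset.sum_lt_sum_of_nonempty
          · exact ⟨0, mem_range.2 hB⟩
          · intro j hj
            exact hcon j (mem_range.1 hj)
      _ = _ := by rw [Finset.sum_const, Finset.card_range, smul_eq_mul]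
  have h3 := Nat.mul_le_mul_left B h1
  omega

/-- The lower bound for the fiber weight in terms of the number of loose neighbours. -/
lemma W_lower' (has : ∀ u v, A u v → ¬ A v u) {x : V} {y : ℝ} (hy : 0 < y) {σ : Cfg V L}
    (hσ : σ ∈ vcOff A L (insert x (nb A x))) {B m k m' : ℕ} (hm : m = 3 ^ k * m')
    (hL : L = B * m) (hB : 0 < B)
    (hu : B * 4 ^ k ≤ (looseSet A x σ B m).card) :
    y ^ (supp σ).card * (L * y * (looseSet A x σ B m).card / B ^ 2) ^ k ≤
      (k.factorial * 12 ^ (k ^ 2) : ℕ) * W A x y σ := by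
  rcases exists_block (A := A) (x := x) (σ := σ) (B := B) (m := m) with h0 | ⟨j, hj, hcard⟩
  · rw [h0] at hu
    have : 0 < B * 4 ^ k := by positivity
    omega
  have h1 : 4 ^ k ≤ ((nb A x).filter (LooseAt A σ m j)).card := by
    have := hu.trans hcard
    exact Nat.le_of_mul_le_mul_left this hB
  have hjL : j * m + m ≤ L := by
    rw [hL]
    calc j * m + m = (j + 1) * m := by ring
      _ ≤ B * m := Nat.mul_le_mul_right _ hj
  have h2 := pl_count (A := A) (L := L) has k m' ((nb A x).filter (LooseAt A σ m j)) (j * m) h1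
    (by rw [← hm]; exact hjL)
  rw [← hm] at h2
  have h3 := W_lower hy hσ m j k
  set N := ((nb A x).filter (LooseAt A σ m j)).card with hN
  set P := (pl A L ((nb A x).filter (LooseAt A σ m j)) (j * m) m k).card with hP
  set u := (looseSet A x σ B m).card with hu'
  have h2R : ((N : ℝ) * m) ^ k ≤ ((k.factorial * 12 ^ (k ^ 2) : ℕ) : ℝ) * P := by
    exact_mod_cast h2
  have hBR : (0 : ℝ) < B := by exact_mod_cast hB
  have h4 : L * y * u / B ^ 2 ≤ y * (N * m) := by
    rw [div_le_iff₀ (by positivity)]
    have h5 : (u : ℝ) ≤ B * N := by exact_mod_cast hcard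
    have h6 : (L : ℝ) = B * m := by exact_mod_cast hL
    rw [h6]
    calc (B : ℝ) * m * y * u ≤ B * m * y * (B * N) := by gcongr
      _ = _ := by ring
  calc y ^ (supp σ).card * (L * y * u / B ^ 2) ^ k
      ≤ y ^ (supp σ).card * (y * (N * m)) ^ k := by gcongr
    _ = y ^ (supp σ).card * y ^ k * (N * m) ^ k := by rw [mul_pow]; ring
    _ ≤ y ^ (supp σ).card * y ^ k * (((k.factorial * 12 ^ (k ^ 2) : ℕ) : ℝ) * P) := by gcongr
    _ = ((k.factorial * 12 ^ (k ^ 2) : ℕ) : ℝ) * (y ^ (supp σ).card * y ^ k * P) := by ring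
    _ ≤ _ := by gcongr

/-- Bad configurations at `x`. -/
def Bad (A : V → V → Prop) (B m k0 : ℕ) (x : V) (c : Cfg V L) : Prop :=
  k0 < (supp c ∩ nb A x).card ∨
    ∃ u ∈ supp c ∩ nb A x, ¬ Loose A (er (insert x (nb A x)) c) B m u

/-- The weight of the fiber over `σ` with a prescribed trace `T` on the neighbourhood. -/
lemma fiber_trace {x : V} (hx : x ∉ nb A x) {y : ℝ} {σ : Cfg V L}
    (hσ : ∀ v ∈ insert x (nb A x), σ v = none) {T : Finset V} (hT : T ⊆ nb A x) :
    ∑ c ∈ univ.filter (fun c : Cfg V L => er (insert x (nb A x)) c = σ),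
      (if supp c ∩ nb A x = T then y ^ (supp c).card else 0) =
      y ^ (supp σ).card * ((1 + L * y) * (L * y) ^ T.card) := by
  let g : V → Option (Fin L) → ℝ := fun v z =>
    if v ∈ T then (if z = none then 0 else y)
    else if v ∈ nb A x then (if z = none then 1 else 0) else wt y z
  have hg : ∀ c : Cfg V L, (if supp c ∩ nb A x = T then y ^ (supp c).card else 0) =
      ∏ v, g v (c v) := by
    intro c
    split_ifs with h
    · rw [pow_card_supp]
      apply Finset.prod_congr rfl
      intro v _
      by_cases hvT : v ∈ T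
      · have : v ∈ supp c := by
          rw [← h, mem_inter] at hvT; exact hvT.1
        have : c v ≠ none := mem_supp.1 this
        simp [g, hvT, this, wt]
      · by_cases hvn : v ∈ nb A x
        · have : c v = none := by
            by_contra hne
            apply hvT
            rw [← h, mem_inter]
            exact ⟨mem_supp.2 hne, hvn⟩
          simp [g, hvT, hvn, this, wt]
        · simp [g, hvT, hvn]
    · symm
      have : ∃ v, ¬ (v ∈ supp c ∩ nb A x ↔ v ∈ T) := by
        by_contra hcon
        push Not at hcon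
        exact h (Finset.ext hcon)
      obtain ⟨v, hv⟩ := this
      apply Finset.prod_eq_zero (mem_univ v)
      by_cases hvT : v ∈ T
      · have h1 : ¬ v ∈ supp c := by
          intro h1
          exact hv ⟨fun _ => hvT, fun _ => mem_inter.2 ⟨h1, hT hvT⟩⟩
        have h2 : c v = none := by
          by_contra hne; exact h1 (mem_supp.2 hne)
        simp [g, hvT, h2]
      · have h1 : v ∈ supp c ∩ nb A x := by
          by_contra h1
          exact hv ⟨fun h => absurd h h1, fun h => absurd h hvT⟩
        rw [mem_inter] at h1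
        have h2 : c v ≠ none := mem_supp.1 h1.1
        simp [g, hvT, h1.2, h2]
  rw [Finset.sum_congr rfl (fun c _ => hg c)]
  rw [sum_fiber_prod _ σ hσ g, mul_comm]
  congr 1
  · rw [← pow_card_supp_off y _ σ hσ]
    apply Finset.prod_congr rfl
    intro v hv
    rw [mem_compl, mem_insert, not_or] at hv
    have : v ∉ T := fun h => hv.2 (hT h)
    simp [g, this, hv.2]
  · rw [Finset.prod_insert hx]
    congr 1
    · have : x ∉ T := fun h => hx (hT h)
      simp only [g, this, hx, if_false]
      exact sum_wt y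
    · have h1 : ∀ v ∈ nb A x, ∑ z, g v z = if v ∈ T then L * y else 1 := by
        intro v hv
        rw [Fintype.sum_option]
        by_cases hvT : v ∈ T
        · simp [g, hvT]
        · simp [g, hvT, hv]
      rw [Finset.prod_congr rfl h1, Finset.prod_ite]
      simp only [Finset.prod_const, one_pow, mul_one]
      congr 2
      rw [Finset.filter_mem_eq_inter]
      exact Finset.inter_eq_right.2 hT

lemma sum_small_subsets {U : Finset V} {z : ℝ} (hz : 0 ≤ z) (k0 : ℕ) :
    ∑ T ∈ U.powerset.filter (fun T => T.card ≤ k0), z ^ T.card ≤ (1 + z * U.card) ^ k0 := by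
  rw [Finset.sum_filter]
  have h1 := Finset.sum_powerset_apply_card (x := U) (fun j => if j ≤ k0 then z ^ j else 0)
  rw [h1]
  have h2 : ∑ j ∈ Finset.range (U.card + 1), U.card.choose j • (if j ≤ k0 then z ^ j else 0) ≤
      ∑ j ∈ Finset.range (k0 + 1), (k0.choose j : ℝ) * (z * U.card) ^ j := by
    calc ∑ j ∈ Finset.range (U.card + 1), U.card.choose j • (if j ≤ k0 then z ^ j else 0)
        ≤ ∑ j ∈ Finset.range (U.card + 1), (if j ≤ k0 then
            (k0.choose j : ℝ) * (z * U.card) ^ j else 0) := by
          apply Finset.sum_le_sum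
          intro j _
          split_ifs with hj
          · rw [nsmul_eq_mul]
            have h3 : (U.card.choose j : ℝ) ≤ (U.card : ℝ) ^ j := by
              exact_mod_cast Nat.choose_le_pow U.card j
            have h4 : (1 : ℝ) ≤ k0.choose j := by
              exact_mod_cast Nat.choose_pos hj
            calc (U.card.choose j : ℝ) * z ^ j ≤ (U.card : ℝ) ^ j * z ^ j := by gcongr
              _ = 1 * (z * U.card) ^ j := by rw [mul_pow]; ring
              _ ≤ _ := by gcongr
          · simp
      _ ≤ ∑ j ∈ Finset.range (U.card + 1 + (k0 + 1)), (if j ≤ k0 then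
            (k0.choose j : ℝ) * (z * U.card) ^ j else 0) := by
          apply Finset.sum_le_sum_of_subset_of_nonneg
          · intro j hj; rw [mem_range] at hj ⊢; omega
          · intro j _ _; split_ifs <;> positivity
      _ = ∑ j ∈ Finset.range (k0 + 1), (k0.choose j : ℝ) * (z * U.card) ^ j := by
          rw [← Finset.sum_filter]
          apply Finset.sum_congr
          · ext j; simp only [mem_filter, mem_range]; omega
          · intro _ _; rfl
  refine h2.trans (le_of_eq ?_)
  rw [add_comm (1 : ℝ), add_pow]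
  apply Finset.sum_congr rfl
  intro j _
  rw [one_pow, mul_one, mul_comm]

/-- Upper bound for the good part of the fiber weight. -/
lemma good_le (hirr : ∀ v, ¬ A v v) {x : V} {y : ℝ} (hy : 0 < y) {σ : Cfg V L}
    (hσ : σ ∈ vcOff A L (insert x (nb A x))) (B m k0 : ℕ) :
    ∑ c ∈ ((vc A L).filter (fun c => er (insert x (nb A x)) c = σ)).filter
      (fun c => ¬ Bad A B m k0 x c), y ^ (supp c).card ≤
      y ^ (supp σ).card * ((1 + L * y) * (1 + L * y * (looseSet A x σ B m).card) ^ k0) := by
  have hσ2 := mem_vcOff.1 hσ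
  have hx := not_mem_nb_self hirr x
  set U := looseSet A x σ B m with hU
  have hUsub : U ⊆ nb A x := Finset.filter_subset _ _
  calc ∑ c ∈ ((vc A L).filter (fun c => er (insert x (nb A x)) c = σ)).filter
        (fun c => ¬ Bad A B m k0 x c), y ^ (supp c).card
      ≤ ∑ c ∈ ((vc A L).filter (fun c => er (insert x (nb A x)) c = σ)).filter
        (fun c => ¬ Bad A B m k0 x c), ∑ T ∈ U.powerset.filter (fun T => T.card ≤ k0),
          (if supp c ∩ nb A x = T then y ^ (supp c).card else 0) := by
        apply Finset.sum_le_sum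
        intro c hc
        rw [mem_filter, mem_filter] at hc
        obtain ⟨⟨_, hc2⟩, hc3⟩ := hc
        unfold Bad at hc3
        push Not at hc3
        rw [Finset.sum_ite_eq]
        have : supp c ∩ nb A x ∈ U.powerset.filter (fun T => T.card ≤ k0) := by
          rw [mem_filter, mem_powerset]
          refine ⟨?_, hc3.1⟩
          intro u hu
          rw [hU]
          unfold looseSet
          rw [mem_filter]
          refine ⟨(mem_inter.1 hu).2, ?_⟩
          have := hc3.2 u hu
          rwa [hc2] at this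
        rw [if_pos this]
    _ ≤ ∑ c ∈ univ.filter (fun c : Cfg V L => er (insert x (nb A x)) c = σ),
          ∑ T ∈ U.powerset.filter (fun T => T.card ≤ k0),
          (if supp c ∩ nb A x = T then y ^ (supp c).card else 0) := by
        apply Finset.sum_le_sum_of_subset_of_nonneg
        · intro c hc
          rw [mem_filter, mem_filter] at hc
          exact mem_filter.2 ⟨mem_univ _, hc.1.2⟩
        · intro c _ _
          apply Finset.sum_nonneg
          intro T _
          split_ifs <;> positivity
    _ = ∑ T ∈ U.powerset.filter (fun T => T.card ≤ k0),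
          y ^ (supp σ).card * ((1 + L * y) * (L * y) ^ T.card) := by
        rw [Finset.sum_comm]
        apply Finset.sum_congr rfl
        intro T hT
        rw [mem_filter, mem_powerset] at hT
        exact fiber_trace hx hσ2.2 (hT.1.trans hUsub)
    _ = y ^ (supp σ).card * ((1 + L * y) *
          ∑ T ∈ U.powerset.filter (fun T => T.card ≤ k0), (L * y) ^ T.card) := by
        rw [← Finset.mul_sum, ← Finset.mul_sum]
    _ ≤ _ := by
        have := sum_small_subsets (U := U) (z := L * y) (by positivity) k0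
        gcongr

/-- the algebra of the local comparison -/
lemma local_algebra {s lam u B a Wt G b : ℝ} {k0 : ℕ} (hs : 0 < s) (hlam : 0 < lam)
    (hlam1 : lam ≤ 1) (hu0 : 0 ≤ u) (hB : 1 ≤ B) (ha : 1 ≤ a)
    (h1 : B * 4 ^ (k0 + 1) ≤ u → s * (lam * u / B ^ 2) ^ (k0 + 1) ≤ a * Wt)
    (h2 : G ≤ s * ((1 + lam) * (1 + lam * u) ^ k0)) (h3 : Wt ≤ G + b) (hb0 : 0 ≤ b)
    (h4 : B * 4 ^ (k0 + 1) * lam ≤ 1) :
    Wt ≤ (4 * (8 * a * 2 ^ k0) ^ k0 * B ^ (2 * (k0 + 1) * k0)) * s + 2 * b := by
  by_contra hcon
  push Not at hcon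
  set K := 4 * (8 * a * 2 ^ k0) ^ k0 * B ^ (2 * (k0 + 1) * k0) with hK
  have hK0 : 0 < K := by positivity
  have hKs : 0 < K * s := by positivity
  have hW : Wt < 2 * G := by linarith
  have hlu : 0 ≤ lam * u := by positivity
  have hG : Wt < 4 * s * (1 + lam * u) ^ k0 := by
    have : (1 + lam) * (1 + lam * u) ^ k0 ≤ 2 * (1 + lam * u) ^ k0 := by
      have : 0 ≤ (1 + lam * u) ^ k0 := by positivity
      nlinarith
    nlinarith
  -- it is enough to bound `Wt ≤ K s`
  have hWK : K * s < Wt := by linarith
  rcases le_or_gt (lam * u) 1 with hle | hgt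
  · have h5 : (1 + lam * u) ^ k0 ≤ 2 ^ k0 := pow_le_pow_left₀ (by positivity) (by linarith) k0
    have h6 : (2 : ℝ) ^ k0 ≤ (8 * a * 2 ^ k0) ^ k0 * B ^ (2 * (k0 + 1) * k0) := by
      have h7 : (2 : ℝ) ≤ 8 * a * 2 ^ k0 := by
        have : (1 : ℝ) ≤ 2 ^ k0 := one_le_pow₀ (by norm_num)
        nlinarith
      calc (2 : ℝ) ^ k0 ≤ (8 * a * 2 ^ k0) ^ k0 := pow_le_pow_left₀ (by norm_num) h7 k0
        _ = (8 * a * 2 ^ k0) ^ k0 * 1 := by ring
        _ ≤ _ := by
          apply mul_le_mul_of_nonneg_left (one_le_pow₀ hB) (by positivity)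
    have h8 : 4 * s * (1 + lam * u) ^ k0 ≤ K * s := by
      rw [hK]
      nlinarith
    linarith
  · -- large case
    have hu : B * 4 ^ (k0 + 1) ≤ u := by
      have : B * 4 ^ (k0 + 1) * lam ≤ u * lam := by linarith
      exact le_of_mul_le_mul_right this hlam
    have h5 := h1 hu
    have h6 : (1 + lam * u) ^ k0 ≤ (2 * (lam * u)) ^ k0 :=
      pow_le_pow_left₀ (by positivity) (by linarith) k0
    have h7 : Wt < 4 * s * (2 * (lam * u)) ^ k0 := by
      refine lt_of_lt_of_le hG ?_
      gcongr
    have hlu0 : 0 < lam * u := by linarith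
    have h8 : s * (lam * u / B ^ 2) ^ (k0 + 1) < a * (4 * s * (2 * (lam * u)) ^ k0) := by
      refine lt_of_le_of_lt h5 ?_
      gcongr
    have h9 : lam * u < 4 * a * 2 ^ k0 * B ^ (2 * (k0 + 1)) := by
      have e1 : s * (lam * u / B ^ 2) ^ (k0 + 1) =
          (s * (lam * u) ^ k0) * ((lam * u) / B ^ (2 * (k0 + 1))) := by
        rw [div_pow, ← pow_mul, pow_succ]; ring
      have e2 : a * (4 * s * (2 * (lam * u)) ^ k0) =
          (s * (lam * u) ^ k0) * (4 * a * 2 ^ k0) := by
        rw [mul_pow]; ring
      rw [e1, e2] at h8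
      have h10 := lt_of_mul_lt_mul_left h8 (by positivity)
      rwa [div_lt_iff₀ (by positivity)] at h10
    have h10 : 4 * s * (2 * (lam * u)) ^ k0 ≤ K * s := by
      have : (2 * (lam * u)) ^ k0 ≤ (8 * a * 2 ^ k0 * B ^ (2 * (k0 + 1))) ^ k0 := by
        apply pow_le_pow_left₀ (by positivity)
        nlinarith
      calc 4 * s * (2 * (lam * u)) ^ k0
          ≤ 4 * s * (8 * a * 2 ^ k0 * B ^ (2 * (k0 + 1))) ^ k0 := by gcongr
        _ = K * s := by rw [hK, mul_pow, ← pow_mul]; ring
    linarith

/-- The constant of the local comparison. -/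
noncomputable def K1 (k0 : ℕ) : ℝ :=
  4 * (8 * (((k0 + 1).factorial * 12 ^ ((k0 + 1) ^ 2) : ℕ) : ℝ) * 2 ^ k0) ^ k0

lemma K1_pos (k0 : ℕ) : 0 < K1 k0 := by
  unfold K1
  have : 0 < (k0 + 1).factorial := Nat.factorial_pos _
  positivity

/-- Local comparison on one fiber. -/
lemma fiber_compare (has : ∀ u v, A u v → ¬ A v u) {x : V} {y : ℝ} (hy : 0 < y)
    {σ : Cfg V L} (hσ : σ ∈ vcOff A L (insert x (nb A x))) {B m k0 m' : ℕ}
    (hm : m = 3 ^ (k0 + 1) * m') (hL : L = B * m) (hB : 0 < B) (hL0 : 0 < L)
    (h4 : (B : ℝ) * 4 ^ (k0 + 1) * (L * y) ≤ 1) :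
    W A x y σ ≤ (K1 k0 * (B : ℝ) ^ (2 * (k0 + 1) * k0)) * y ^ (supp σ).card +
      2 * ∑ c ∈ ((vc A L).filter (fun c => er (insert x (nb A x)) c = σ)).filter
        (fun c => Bad A B m k0 x c), y ^ (supp c).card := by
  have hirr : ∀ v, ¬ A v v := fun v h => has v v h h
  have hBR : (1 : ℝ) ≤ B := by exact_mod_cast hB
  have hLR : (0 : ℝ) < L := by exact_mod_cast hL0
  have hfac : 1 ≤ (k0 + 1).factorial * 12 ^ ((k0 + 1) ^ 2) := by
    have : 0 < (k0 + 1).factorial := Nat.factorial_pos _
    have : 0 < (k0 + 1).factorial * 12 ^ ((k0 + 1) ^ 2) := by positivity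
    omega
  have hlam1 : L * y ≤ 1 := by
    have : (1 : ℝ) ≤ B * 4 ^ (k0 + 1) := by
      have : (1 : ℝ) ≤ 4 ^ (k0 + 1) := one_le_pow₀ (by norm_num)
      nlinarith
    have h5 : 0 < L * y := by positivity
    nlinarith
  refine local_algebra (s := y ^ (supp σ).card) (lam := L * y)
    (u := ((looseSet A x σ B m).card : ℝ)) (B := (B : ℝ))
    (a := (((k0 + 1).factorial * 12 ^ ((k0 + 1) ^ 2) : ℕ) : ℝ)) (Wt := W A x y σ)
    (G := ∑ c ∈ ((vc A L).filter (fun c => er (insert x (nb A x)) c = σ)).filter
      (fun c => ¬ Bad A B m k0 x c), y ^ (supp c).card) (by positivity) (by positivity) hlam1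
    (by positivity) hBR (by exact_mod_cast hfac) ?_ (good_le hirr hy hσ B m k0) ?_
    (Finset.sum_nonneg (fun c _ => by positivity)) h4
  · intro hu
    have hu' : B * 4 ^ (k0 + 1) ≤ (looseSet A x σ B m).card := by exact_mod_cast hu
    exact W_lower' has hy hσ hm hL hB hu'
  · unfold W
    rw [← Finset.sum_filter_add_sum_filter_not _ (fun c => Bad A B m k0 x c)]
    linarith

/-- Global comparison at the vertex `x`. -/
lemma vertex_compare (has : ∀ u v, A u v → ¬ A v u) (x : V) {y : ℝ} (hy : 0 < y)
    {B m k0 m' : ℕ}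
    (hm : m = 3 ^ (k0 + 1) * m') (hL : L = B * m) (hB : 0 < B) (hL0 : 0 < L)
    (h4 : (B : ℝ) * 4 ^ (k0 + 1) * (L * y) ≤ 1) :
    (L * y) * Z A L y ≤ (K1 k0 * (B : ℝ) ^ (2 * (k0 + 1) * k0)) *
        (∑ c ∈ (vc A L).filter (fun c => x ∈ supp c), y ^ (supp c).card) +
      2 * (L * y) * ∑ c ∈ (vc A L).filter (fun c => Bad A B m k0 x c), y ^ (supp c).card := by
  have hirr : ∀ v, ¬ A v v := fun v h => has v v h h
  have hLR : (0 : ℝ) < L := by exact_mod_cast hL0
  have hBR : (0 : ℝ) < B := by exact_mod_cast hB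
  set K := K1 k0 * (B : ℝ) ^ (2 * (k0 + 1) * k0) with hK
  have hK0 : 0 < K := by have := K1_pos k0; positivity
  have h1 : Z A L y = ∑ σ ∈ vcOff A L (insert x (nb A x)), W A x y σ := by
    unfold Z W
    exact sum_fiber _ _
  have h2 : ∑ c ∈ (vc A L).filter (fun c => Bad A B m k0 x c), y ^ (supp c).card =
      ∑ σ ∈ vcOff A L (insert x (nb A x)),
        ∑ c ∈ ((vc A L).filter (fun c => er (insert x (nb A x)) c = σ)).filter
        (fun c => Bad A B m k0 x c), y ^ (supp c).card := by
    have := sum_fiber (A := A) (L := L) (insert x (nb A x))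
      (fun c => if Bad A B m k0 x c then y ^ (supp c).card else 0)
    rw [← Finset.sum_filter] at this
    rw [this]
    apply Finset.sum_congr rfl
    intro σ _
    exact (Finset.sum_filter _ _).symm
  have h3 : Z A L y ≤ K * (∑ σ ∈ vcOff A L (insert x (nb A x)), y ^ (supp σ).card) +
      2 * ∑ c ∈ (vc A L).filter (fun c => Bad A B m k0 x c), y ^ (supp c).card := by
    rw [h1, h2, Finset.mul_sum, Finset.mul_sum, ← Finset.sum_add_distrib]
    apply Finset.sum_le_sum
    intro σ hσ
    exact fiber_compare has hy hσ hm hL hB hL0 h4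
  have h5 := off_le_occ (A := A) (L := L) hirr x hy.le
  calc (L * y) * Z A L y
      ≤ (L * y) * (K * (∑ σ ∈ vcOff A L (insert x (nb A x)), y ^ (supp σ).card) +
      2 * ∑ c ∈ (vc A L).filter (fun c => Bad A B m k0 x c), y ^ (supp c).card) := by
        gcongr
    _ = K * ((L * y) * (∑ σ ∈ vcOff A L (insert x (nb A x)), y ^ (supp σ).card)) +
      2 * (L * y) * ∑ c ∈ (vc A L).filter (fun c => Bad A B m k0 x c), y ^ (supp c).card := by
        ring
    _ ≤ _ := by gcongr

/-- Sum over vertices of the bad indicator. -/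
lemma sum_bad_le {Δ : ℕ} (hΔ : ∀ v, (nb A v).card ≤ Δ) {B m k0 : ℕ} (hm : 0 < m)
    (hL : L = B * m) {y : ℝ} (hy : 0 < y) :
    ∑ x, ∑ c ∈ (vc A L).filter (fun c => Bad A B m k0 x c), y ^ (supp c).card ≤
      Δ / (k0 + 1) * E1 A L y + Δ * EQ A L m y := by
  have h1 : ∑ x, ∑ c ∈ (vc A L).filter (fun c => Bad A B m k0 x c), y ^ (supp c).card =
      ∑ c ∈ vc A L, y ^ (supp c).card * (univ.filter (fun x => Bad A B m k0 x c)).card := by
    simp only [Finset.sum_filter]
    rw [Finset.sum_comm]
    apply Finset.sum_congr rfl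
    intro c _
    rw [← Finset.sum_filter, Finset.sum_const, nsmul_eq_mul]
    ring
  rw [h1]
  unfold E1 EQ
  rw [Finset.mul_sum, Finset.mul_sum, ← Finset.sum_add_distrib]
  apply Finset.sum_le_sum
  intro c hc
  have hk : (0 : ℝ) < k0 + 1 := by positivity
  have h2 : ((univ.filter (fun x => Bad A B m k0 x c)).card : ℝ) ≤
      Δ / (k0 + 1) * (supp c).card + Δ * (Q A m c).card := by
    have h3 : ∀ x, (if Bad A B m k0 x c then (1 : ℝ) else 0) ≤
        ((nb A x ∩ supp c).card : ℝ) / (k0 + 1) + (nb A x ∩ Q A m c).card := by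
      intro x
      split_ifs with h
      · rcases h with h | ⟨u, hu, hl⟩
        · have : (1 : ℝ) ≤ ((nb A x ∩ supp c).card : ℝ) / (k0 + 1) := by
            rw [le_div_iff₀ hk, one_mul, Finset.inter_comm]
            exact_mod_cast h
          have h0 : (0 : ℝ) ≤ (nb A x ∩ Q A m c).card := by positivity
          linarith
        · rw [mem_inter] at hu
          have hQ := mem_Q_of_not_loose hm hL (mem_vc.1 hc) (insert x (nb A x)) hu.1 hl
          have : 1 ≤ (nb A x ∩ Q A m c).card :=
            Finset.card_pos.2 ⟨u, mem_inter.2 ⟨hu.2, hQ⟩⟩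
          have : (1 : ℝ) ≤ (nb A x ∩ Q A m c).card := by exact_mod_cast this
          have h0 : (0 : ℝ) ≤ ((nb A x ∩ supp c).card : ℝ) / (k0 + 1) := by positivity
          linarith
      · positivity
    have h4 : ((univ.filter (fun x => Bad A B m k0 x c)).card : ℝ) =
        ∑ x, (if Bad A B m k0 x c then (1 : ℝ) else 0) := by
      rw [Finset.sum_boole]
    have h5 : (∑ x, ((nb A x ∩ supp c).card : ℝ)) ≤ Δ * (supp c).card := by
      exact_mod_cast sum_card_nb_inter_le hΔ (supp c)
    have h6 : (∑ x, ((nb A x ∩ Q A m c).card : ℝ)) ≤ Δ * (Q A m c).card := by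
      exact_mod_cast sum_card_nb_inter_le hΔ (Q A m c)
    rw [h4]
    calc ∑ x, (if Bad A B m k0 x c then (1 : ℝ) else 0)
        ≤ ∑ x, (((nb A x ∩ supp c).card : ℝ) / (k0 + 1) + (nb A x ∩ Q A m c).card) :=
          Finset.sum_le_sum (fun x _ => h3 x)
      _ = (∑ x, ((nb A x ∩ supp c).card : ℝ)) / (k0 + 1) +
            ∑ x, ((nb A x ∩ Q A m c).card : ℝ) := by
          rw [Finset.sum_add_distrib, Finset.sum_div]
      _ ≤ (Δ * (supp c).card) / (k0 + 1) + Δ * (Q A m c).card := by gcongr
      _ = _ := by ring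
  calc y ^ (supp c).card * ((univ.filter (fun x => Bad A B m k0 x c)).card : ℝ)
      ≤ y ^ (supp c).card * (Δ / (k0 + 1) * (supp c).card + Δ * (Q A m c).card) := by gcongr
    _ = _ := by ring

/-- The global comparison. -/
lemma global_compare (has : ∀ u v, A u v → ¬ A v u) {Δ : ℕ} (hΔ : ∀ v, (nb A v).card ≤ Δ)
    {y : ℝ} (hy : 0 < y) {B m k0 m' : ℕ}
    (hm : m = 3 ^ (k0 + 1) * m') (hL : L = B * m) (hL0 : 0 < L)
    (h4 : (B : ℝ) * 4 ^ (k0 + 1) * (L * y) ≤ 1) :
    Fintype.card V * (L * y) * Z A L y ≤ (K1 k0 * (B : ℝ) ^ (2 * (k0 + 1) * k0)) * E1 A L y +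
      2 * (L * y) * (Δ / (k0 + 1) * E1 A L y + Δ * EQ A L m y) := by
  have hB : 0 < B := by
    rcases Nat.eq_zero_or_pos B with h | h
    · subst h; simp at hL; omega
    · exact h
  have hm0 : 0 < m := by
    rcases Nat.eq_zero_or_pos m with h | h
    · rw [h] at hL; simp at hL; omega
    · exact h
  have hLR : (0 : ℝ) < L := by exact_mod_cast hL0
  have h1 := sum_bad_le (A := A) hΔ (k0 := k0) hm0 hL hy
  calc Fintype.card V * (L * y) * Z A L y = ∑ _x : V, (L * y) * Z A L y := by
        rw [Finset.sum_const, Finset.card_univ, nsmul_eq_mul]; ring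
    _ ≤ ∑ x : V, ((K1 k0 * (B : ℝ) ^ (2 * (k0 + 1) * k0)) *
        (∑ c ∈ (vc A L).filter (fun c => x ∈ supp c), y ^ (supp c).card) +
      2 * (L * y) * ∑ c ∈ (vc A L).filter (fun c => Bad A B m k0 x c), y ^ (supp c).card) :=
        Finset.sum_le_sum (fun x _ => vertex_compare has x hy hm hL hB hL0 h4)
    _ = (K1 k0 * (B : ℝ) ^ (2 * (k0 + 1) * k0)) * E1 A L y +
      2 * (L * y) * ∑ x, ∑ c ∈ (vc A L).filter (fun c => Bad A B m k0 x c),
        y ^ (supp c).card := by
        rw [Finset.sum_add_distrib, ← Finset.mul_sum, ← Finset.mul_sum, sum_occ]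
        rfl
    _ ≤ _ := by gcongr

end

end Pool.MP_e50225_co
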