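import Pool.Agent.MP_e50225_co.Core

namespace Pool.MP_e50225_co

set_option linter.unusedSectionVars false

open Finset
open scoped Classical

/-- A set of vertices induces an acyclic digraph. -/
def Acyc {V : Type} (A : V → V → Prop) (S : Finset V) : Prop :=
  ∃ f : V → ℕ, ∀ u ∈ S, ∀ v ∈ S, A u v → f u < f v

section blowup

variable {V : Type} [Fintype V] [DecidableEq V]

/-- vertices of the blow-up -/
abbrev VH (w : V → ℕ) : Type := Σ v : V, Fin (w v)

/-- arcs of the blow-up -/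
def AH (A : V → V → Prop) (w d : V → ℕ) (M : ℕ) (p q : VH w) : Prop :=
  A p.1 q.1 ∧ ∃ t < M, t / d p.1 = (p.2 : ℕ) ∧ t / d q.1 = (q.2 : ℕ)

/-- section of a configuration of the blow-up -/
noncomputable def sec (w d : V → ℕ) {L : ℕ} (c : Cfg (VH w) L) (t : ℕ) : Finset V :=
  univ.filter (fun v => ∃ h : t / d v < w v, c ⟨v, ⟨t / d v, h⟩⟩ ≠ none)

lemma mem_sec {w d : V → ℕ} {L : ℕ} {c : Cfg (VH w) L} {t : ℕ} {v : V} :
    v ∈ sec w d c t ↔ ∃ h : t / d v < w v, c ⟨v, ⟨t / d v, h⟩⟩ ≠ none := by simp [sec]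

lemma sec_acyc {A : V → V → Prop} {w d : V → ℕ} {M L : ℕ} {c : Cfg (VH w) L}
    (hc : Valid (AH A w d M) c) {t : ℕ} (ht : t < M) : Acyc A (sec w d c t) := by
  refine ⟨fun v => if h : t / d v < w v then
    ((c ⟨v, ⟨t / d v, h⟩⟩).elim 0 (fun i => (i : ℕ))) else 0, ?_⟩
  intro u hu v hv hA
  obtain ⟨h1, h2⟩ := mem_sec.1 hu
  obtain ⟨h3, h4⟩ := mem_sec.1 hv
  obtain ⟨i, hi⟩ := Option.ne_none_iff_exists'.1 h2
  obtain ⟨j, hj⟩ := Option.ne_none_iff_exists'.1 h4
  have := hc ⟨u, ⟨t / d u, h1⟩⟩ ⟨v, ⟨t / d v, h3⟩⟩ i j ⟨hA, t, ht, rfl, rfl⟩ hi hj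
  simp only [h1, h3, dif_pos, hi, hj, Option.elim]
  exact this

/-- number of copies of `u` adjacent to a given copy of `v` -/
lemma card_copies {w d : V → ℕ} {M : ℕ} (hd : ∀ v, 0 < d v) (hdw : ∀ v, w v ≠ 0 → d v * w v = M)
    {u v : V} (hv : w v ≠ 0) (a : ℕ) :
    (univ.filter (fun b : Fin (w u) => ∃ t < M, t / d v = a ∧ t / d u = (b : ℕ))).card * w v ≤
      2 * w v + w u := by
  have h1 : ((univ.filter (fun b : Fin (w u) => ∃ t < M, t / d v = a ∧ t / d u = (b : ℕ))).image
      (fun b : Fin (w u) => (b : ℕ))) ⊆ Finset.Icc (a * d v / d u) (((a + 1) * d v - 1) / d u) := by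
    intro x hx
    simp only [mem_image, mem_filter, mem_univ, true_and] at hx
    obtain ⟨b, ⟨t, _, h2, h3⟩, rfl⟩ := hx
    rw [mem_Icc, ← h3]
    have h4 : a * d v ≤ t := by rw [← h2]; exact Nat.div_mul_le_self _ _
    have h5 : t < (a + 1) * d v := by
      rw [← Nat.div_lt_iff_lt_mul (hd v), h2]; omega
    exact ⟨Nat.div_le_div_right h4, Nat.div_le_div_right (by omega)⟩
  have h2 := Finset.card_le_card h1
  rw [Finset.card_image_of_injective _ Fin.val_injective, Nat.card_Icc] at h2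
  have h3 : ((a + 1) * d v - 1) / d u ≤ a * d v / d u + d v / d u + 1 := by
    have h4 : (a + 1) * d v - 1 ≤ a * d v + d v := by rw [add_mul, one_mul]; omega
    refine (Nat.div_le_div_right h4).trans ?_
    rw [Nat.add_div (hd u)]
    generalize a * d v / d u = Y
    generalize d v / d u = D
    split_ifs <;> omega
  have h4 : (univ.filter (fun b : Fin (w u) => ∃ t < M, t / d v = a ∧ t / d u = (b : ℕ))).card ≤
      2 + d v / d u := by
    generalize ((a + 1) * d v - 1) / d u = X at h2 h3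
    generalize a * d v / d u = Y at h2 h3
    generalize d v / d u = D at h3 ⊢
    omega
  rcases Nat.eq_zero_or_pos (w u) with hu | hu
  · have : (univ.filter (fun b : Fin (w u) =>
        ∃ t < M, t / d v = a ∧ t / d u = (b : ℕ))).card = 0 := by
      rw [Finset.card_eq_zero]
      ext b
      have := b.2
      omega
    rw [this]; omega
  · have h5 : d v / d u * w v ≤ w u := by
      have h6 : d u * (d v / d u * w v) ≤ d u * w u := by
        calc d u * (d v / d u * w v) = (d v / d u * d u) * w v := by ring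
          _ ≤ d v * w v := Nat.mul_le_mul_right _ (Nat.div_mul_le_self _ _)
          _ = d u * w u := by rw [hdw v hv, hdw u (by omega)]
      exact Nat.le_of_mul_le_mul_left h6 (hd u)
    calc _ ≤ (2 + d v / d u) * w v := Nat.mul_le_mul_right _ h4
      _ = 2 * w v + d v / d u * w v := by ring
      _ ≤ _ := by omega

/-- degrees in the blow-up -/
lemma card_nb_AH {A : V → V → Prop} {w d : V → ℕ} {M Δ : ℕ} (hd : ∀ v, 0 < d v)
    (hdw : ∀ v, w v ≠ 0 → d v * w v = M) (hΔ : ∀ v, (nb A v).card ≤ Δ)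
    (hw : ∀ v, w v ≠ 0 → ∑ u ∈ nb A v, w u ≤ 2 * Δ * w v) (p : VH w) :
    (nb (AH A w d M) p).card ≤ 4 * Δ := by
  obtain ⟨v, a⟩ := p
  have hv : w v ≠ 0 := by have := a.2; omega
  have h1 : nb (AH A w d M) ⟨v, a⟩ ⊆ (nb A v).sigma
      (fun u => univ.filter (fun b : Fin (w u) => ∃ t < M, t / d v = a ∧ t / d u = (b : ℕ))) := by
    rintro ⟨u, b⟩ hq
    rw [mem_nb] at hq
    rw [mem_sigma, mem_filter, mem_nb]
    rcases hq with ⟨h1, t, ht, h2, h3⟩ | ⟨h1, t, ht, h2, h3⟩
    · exact ⟨Or.inl h1, mem_univ _, t, ht, h2, h3⟩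
    · exact ⟨Or.inr h1, mem_univ _, t, ht, h3, h2⟩
  have h2 := Finset.card_le_card h1
  rw [Finset.card_sigma] at h2
  have h3 : (nb (AH A w d M) ⟨v, a⟩).card * w v ≤ 4 * Δ * w v := by
    calc (nb (AH A w d M) ⟨v, a⟩).card * w v
        ≤ (∑ u ∈ nb A v, (univ.filter
          (fun b : Fin (w u) => ∃ t < M, t / d v = a ∧ t / d u = (b : ℕ))).card) * w v :=
          Nat.mul_le_mul_right _ h2
      _ = ∑ u ∈ nb A v, (univ.filter
          (fun b : Fin (w u) => ∃ t < M, t / d v = a ∧ t / d u = (b : ℕ))).card * w v := by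
          rw [Finset.sum_mul]
      _ ≤ ∑ u ∈ nb A v, (2 * w v + w u) :=
          Finset.sum_le_sum (fun u _ => card_copies hd hdw hv a)
      _ = (nb A v).card * (2 * w v) + ∑ u ∈ nb A v, w u := by
          rw [Finset.sum_add_distrib, Finset.sum_const, smul_eq_mul]
      _ ≤ Δ * (2 * w v) + 2 * Δ * w v := by
          have := hΔ v
          have := hw v hv
          gcongr
      _ = 4 * Δ * w v := by ring
  exact Nat.le_of_mul_le_mul_right h3 (by omega)

/-- averaging over sections -/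
lemma sum_sec {w d : V → ℕ} {M L : ℕ} (hd : ∀ v, 0 < d v)
    (hdw : ∀ v, w v ≠ 0 → d v * w v = M) (c : Cfg (VH w) L) :
    M * (supp c).card ≤ ∑ t ∈ Finset.range M, ∑ v ∈ sec w d c t, w v := by
  have h1 : ∑ t ∈ Finset.range M, ∑ v ∈ sec w d c t, w v =
      ∑ v, w v * ((Finset.range M).filter (fun t => v ∈ sec w d c t)).card := by
    have : ∀ t, ∑ v ∈ sec w d c t, w v = ∑ v, if v ∈ sec w d c t then w v else 0 := by
      intro t
      rw [Finset.sum_ite_mem, Finset.univ_inter]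
    simp only [this]
    rw [Finset.sum_comm]
    apply Finset.sum_congr rfl
    intro v _
    rw [← Finset.sum_filter, Finset.sum_const, smul_eq_mul, mul_comm]
  have h2 : (supp c).card = ∑ v, (univ.filter (fun a : Fin (w v) => c ⟨v, a⟩ ≠ none)).card := by
    have : supp c = (univ : Finset V).sigma
        (fun v => univ.filter (fun a : Fin (w v) => c ⟨v, a⟩ ≠ none)) := by
      ext ⟨v, a⟩
      simp [mem_supp]
    rw [this, Finset.card_sigma]
  rw [h1, h2, Finset.mul_sum]
  apply Finset.sum_le_sum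
  intro v _
  rcases Nat.eq_zero_or_pos (w v) with hv | hv
  · have : (univ.filter (fun a : Fin (w v) => c ⟨v, a⟩ ≠ none)).card = 0 := by
      rw [Finset.card_eq_zero]
      ext a
      have := a.2
      omega
    rw [this]; omega
  · have h3 : (univ.filter (fun a : Fin (w v) => c ⟨v, a⟩ ≠ none)).card * d v ≤
        ((Finset.range M).filter (fun t => v ∈ sec w d c t)).card := by
      have h4 : ((univ.filter (fun a : Fin (w v) => c ⟨v, a⟩ ≠ none)) ×ˢ
          Finset.range (d v)).card = (univ.filter (fun a : Fin (w v) => c ⟨v, a⟩ ≠ none)).card *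
          d v := by rw [Finset.card_product, Finset.card_range]
      rw [← h4]
      apply Finset.card_le_card_of_injOn (fun p : Fin (w v) × ℕ => (p.1 : ℕ) * d v + p.2)
      · rintro ⟨a, r⟩ hp
        simp only [coe_product, Set.mem_prod, mem_coe, mem_filter, mem_univ, true_and,
          mem_range] at hp
        simp only [mem_range, coe_filter, Set.mem_ofPred_eq]
        have hdiv : ((a : ℕ) * d v + r) / d v = a := by
          rw [mul_comm, Nat.mul_add_div (hd v), Nat.div_eq_of_lt hp.2, add_zero]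
        refine ⟨?_, ?_⟩
        · rw [← hdw v (by omega)]
          calc (a : ℕ) * d v + r < (a : ℕ) * d v + d v := by omega
            _ = (a + 1) * d v := by ring
            _ ≤ w v * d v := Nat.mul_le_mul_right _ a.2
            _ = d v * w v := by ring
        · rw [mem_sec]
          refine ⟨by rw [hdiv]; exact a.2, ?_⟩
          have : (⟨((a : ℕ) * d v + r) / d v, by rw [hdiv]; exact a.2⟩ : Fin (w v)) = a := by
            ext; exact hdiv
          rw [this]
          exact hp.1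
      · rintro ⟨a, r⟩ hp ⟨a', r'⟩ hp' heq
        simp only [coe_product, Set.mem_prod, mem_coe, mem_filter, mem_univ, true_and,
          mem_range] at hp hp'
        simp only at heq
        have h5 : ((a : ℕ) * d v + r) / d v = a := by
          rw [mul_comm, Nat.mul_add_div (hd v), Nat.div_eq_of_lt hp.2, add_zero]
        have h6 : ((a' : ℕ) * d v + r') / d v = a' := by
          rw [mul_comm, Nat.mul_add_div (hd v), Nat.div_eq_of_lt hp'.2, add_zero]
        have h7 : (a : ℕ) = a' := by rw [← h5, ← h6, heq]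
        have h8 : a = a' := Fin.ext h7
        subst h8
        simp only [Prod.mk.injEq, true_and]
        omega
    calc M * (univ.filter (fun a : Fin (w v) => c ⟨v, a⟩ ≠ none)).card
        = w v * ((univ.filter (fun a : Fin (w v) => c ⟨v, a⟩ ≠ none)).card * d v) := by
          rw [← hdw v (by omega)]; ring
      _ ≤ _ := Nat.mul_le_mul_left _ h3

end blowup

section weighted

variable {V : Type} [Fintype V] [DecidableEq V]

/-- the truncated weights carry half of the mass -/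
lemma half_mass {A : V → V → Prop} {Δ : ℕ} (hΔ0 : 0 < Δ) (hΔ : ∀ v, (nb A v).card ≤ Δ)
    (w : V → ℕ) :
    ∑ v, w v ≤ 2 * ∑ v, (if ∑ u ∈ nb A v, w u ≤ 2 * Δ * w v then w v else 0) := by
  have h1 : ∑ v, ∑ u ∈ nb A v, w u ≤ Δ * ∑ v, w v := by
    have e1 : ∀ v, ∑ u ∈ nb A v, w u = ∑ u, if u ∈ nb A v then w u else 0 := by
      intro v; rw [Finset.sum_ite_mem, Finset.univ_inter]
    simp only [e1]
    rw [Finset.sum_comm, Finset.mul_sum]
    apply Finset.sum_le_sum
    intro u _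
    have e2 : ∀ v, (if u ∈ nb A v then w u else 0) = if v ∈ nb A u then w u else 0 := by
      intro v
      simp only [mem_nb_comm (v := v) (w := u)]
    simp only [e2]
    rw [Finset.sum_ite_mem, Finset.univ_inter, Finset.sum_const, smul_eq_mul]
    exact Nat.mul_le_mul_right _ (hΔ u)
  have h2 : ∀ v, 2 * Δ * w v ≤ 2 * Δ * (if ∑ u ∈ nb A v, w u ≤ 2 * Δ * w v then w v else 0) +
      ∑ u ∈ nb A v, w u := by
    intro v
    split_ifs with h
    · omega
    · rw [mul_zero, zero_add]; omega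
  have h3 : 2 * Δ * ∑ v, w v ≤
      2 * Δ * ∑ v, (if ∑ u ∈ nb A v, w u ≤ 2 * Δ * w v then w v else 0) + Δ * ∑ v, w v := by
    calc 2 * Δ * ∑ v, w v = ∑ v, 2 * Δ * w v := by rw [Finset.mul_sum]
      _ ≤ ∑ v, (2 * Δ * (if ∑ u ∈ nb A v, w u ≤ 2 * Δ * w v then w v else 0) +
            ∑ u ∈ nb A v, w u) := Finset.sum_le_sum (fun v _ => h2 v)
      _ = 2 * Δ * ∑ v, (if ∑ u ∈ nb A v, w u ≤ 2 * Δ * w v then w v else 0) +
            ∑ v, ∑ u ∈ nb A v, w u := by rw [Finset.sum_add_distrib, ← Finset.mul_sum]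
      _ ≤ _ := by omega
  have h4 : Δ * ∑ v, w v ≤
      Δ * (2 * ∑ v, (if ∑ u ∈ nb A v, w u ≤ 2 * Δ * w v then w v else 0)) := by
    generalize (∑ v, (if ∑ u ∈ nb A v, w u ≤ 2 * Δ * w v then w v else 0)) = X at h3 ⊢
    generalize ∑ v, w v = Y at h3 ⊢
    nlinarith
  exact Nat.le_of_mul_le_mul_left h4 hΔ0

end weighted

/-- Weighted version of the core theorem, with a bound on pair correlations. -/
theorem weighted (J : ℕ) (hJ : 1 ≤ J) : ∃ (C : ℝ) (Δ0 : ℕ), 0 < C ∧ 0 < Δ0 ∧
    ∀ (V : Type) [Fintype V] [DecidableEq V] (A : V → V → Prop) (Δ : ℕ), Δ0 ≤ Δ →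
      (∀ u v, A u v → ¬ A v u) → (∀ v, (nb A v).card ≤ Δ) → ∀ w : V → ℕ,
      ∃ (Ω : Type) (_ : Fintype Ω) (p : Ω → ℝ) (S : Ω → Finset V),
        (∀ ω, 0 ≤ p ω) ∧ ∑ ω, p ω = 1 ∧ (∀ ω, Acyc A (S ω)) ∧ (∀ ω, ∀ v ∈ S ω, w v ≠ 0) ∧
        (J / Δ * ∑ v, (w v : ℝ) ≤ ∑ ω, p ω * ∑ v ∈ S ω, (w v : ℝ)) ∧
        ∀ u u', u ≠ u' → ∑ ω, (if u ∈ S ω ∧ u' ∈ S ω then p ω else 0) ≤ (C / Δ) ^ 2 := by
  obtain ⟨C, Δ0, L, hL0, hΔ00, hC0, hcore⟩ := core (8 * J) (by omega)
  refine ⟨C, Δ0, hC0, hΔ00, ?_⟩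
  intro V _ _ A Δ hΔΔ has hΔ w
  have hΔ0 : 0 < Δ := by omega
  have hΔR : (0 : ℝ) < Δ := by exact_mod_cast hΔ0
  obtain ⟨w', hw'⟩ : ∃ w' : V → ℕ, w' = fun v =>
    if ∑ u ∈ nb A v, w u ≤ 2 * Δ * w v then w v else 0 := ⟨_, rfl⟩
  have hw'le : ∀ v, w' v ≤ w v := by
    intro v; rw [hw']; dsimp only; split_ifs <;> omega
  have hhalf : ∑ v, w v ≤ 2 * ∑ v, w' v := by
    have := half_mass hΔ0 hΔ w
    rw [hw']; exact this
  have hw'cond : ∀ v, w' v ≠ 0 → ∑ u ∈ nb A v, w' u ≤ 2 * Δ * w' v := by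
    intro v hv
    have h1 : ∑ u ∈ nb A v, w u ≤ 2 * Δ * w v ∧ w' v = w v := by
      rw [hw'] at hv ⊢
      dsimp only at hv ⊢
      split_ifs at hv ⊢ with h
      · exact ⟨h, rfl⟩
      · exact absurd rfl hv
    rw [h1.2]
    exact (Finset.sum_le_sum (fun u _ => hw'le u)).trans h1.1
  obtain ⟨M, hM⟩ : ∃ M, M = ∏ v, max (w' v) 1 := ⟨_, rfl⟩
  have hM0 : 0 < M := by
    rw [hM]; exact Finset.prod_pos (fun v _ => by omega)
  obtain ⟨d, hd'⟩ : ∃ d : V → ℕ, d = fun v => M / max (w' v) 1 := ⟨_, rfl⟩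
  have hdvd : ∀ v, max (w' v) 1 ∣ M := by
    intro v; rw [hM]; exact Finset.dvd_prod_of_mem (fun v => max (w' v) 1) (mem_univ v)
  have hd : ∀ v, 0 < d v := by
    intro v
    rw [hd']
    exact Nat.div_pos (Nat.le_of_dvd hM0 (hdvd v)) (by omega)
  have hdw : ∀ v, w' v ≠ 0 → d v * w' v = M := by
    intro v hv
    rw [hd']
    dsimp only
    have : max (w' v) 1 = w' v := by omega
    rw [this]
    exact Nat.div_mul_cancel (by rw [← this]; exact hdvd v)
  obtain ⟨AA, hAA⟩ : ∃ AA : VH w' → VH w' → Prop, AA = AH A w' d M := ⟨_, rfl⟩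
  have hasA : ∀ p q, AA p q → ¬ AA q p := by
    intro p q h1 h2
    rw [hAA] at h1 h2
    exact has _ _ h1.1 h2.1
  obtain ⟨y, hy0, hyC, hyE⟩ := hcore (VH w') AA (4 * Δ) (by omega) hasA (by
    rw [hAA]; exact card_nb_AH hd hdw hΔ hw'cond)
  have hZ := Z_pos (A := AA) (L := L) hy0.le
  have hMR : (0 : ℝ) < M := by exact_mod_cast hM0
  have hacyc : ∀ c : Cfg (VH w') L, Valid AA c → ∀ t < M, Acyc A (sec w' d c t) := by
    intro c hc t ht
    rw [hAA] at hc
    exact sec_acyc hc ht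
  refine ⟨{c // c ∈ vc AA L} × Fin M, inferInstance,
    fun ω => y ^ (supp ω.1.1).card / (Z AA L y * M),
    fun ω => sec w' d ω.1.1 ω.2, ?_, ?_, ?_, ?_, ?_, ?_⟩
  · intro ω; positivity
  · rw [Fintype.sum_prod_type]
    simp only [Finset.sum_const, Finset.card_univ, Fintype.card_fin, nsmul_eq_mul]
    rw [← Finset.mul_sum, ← Finset.sum_div]
    have : (∑ c : {c // c ∈ vc AA L}, y ^ (supp c.1).card) = Z AA L y := by
      unfold Z
      exact Finset.sum_coe_sort (vc AA L) (fun c => y ^ (supp c).card)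
    rw [this]
    field_simp
  · intro ω
    exact hacyc ω.1.1 (mem_vc.1 ω.1.2) ω.2 ω.2.2
  · intro ω v hv
    obtain ⟨h, _⟩ := mem_sec.1 hv
    have h1 := hw'le v
    have h2 : 0 < w' v := Nat.lt_of_le_of_lt (Nat.zero_le _) h
    omega
  · -- expected weight
    have h1 : ∑ ω : {c // c ∈ vc AA L} × Fin M, y ^ (supp ω.1.1).card / (Z AA L y * M) *
        ∑ v ∈ sec w' d ω.1.1 ω.2, (w v : ℝ) ≥
        E1 AA L y / Z AA L y := by
      rw [Fintype.sum_prod_type]
      have h2 : ∀ c : {c // c ∈ vc AA L}, y ^ (supp c.1).card * (supp c.1).card / Z AA L y ≤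
          ∑ t : Fin M, y ^ (supp c.1).card / (Z AA L y * M) *
          ∑ v ∈ sec w' d c.1 t, (w v : ℝ) := by
        intro c
        rw [← Finset.mul_sum]
        have h3 := sum_sec hd hdw c.1
        have h4 : (M : ℝ) * (supp c.1).card ≤ ∑ t : Fin M, ∑ v ∈ sec w' d c.1 t, (w v : ℝ) := by
          have h5 : (M : ℝ) * (supp c.1).card ≤
              ∑ t ∈ Finset.range M, ∑ v ∈ sec w' d c.1 t, (w' v : ℝ) := by exact_mod_cast h3
          rw [Finset.sum_range (fun t => ∑ v ∈ sec w' d c.1 t, (w' v : ℝ))] at h5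
          refine h5.trans ?_
          apply Finset.sum_le_sum
          intro t _
          apply Finset.sum_le_sum
          intro v _
          exact_mod_cast hw'le v
        calc y ^ (supp c.1).card * (supp c.1).card / Z AA L y
            = y ^ (supp c.1).card / (Z AA L y * M) * (M * (supp c.1).card) := by
              field_simp
          _ ≤ _ := mul_le_mul_of_nonneg_left h4 (by positivity)
      calc ∑ c : {c // c ∈ vc AA L}, ∑ t : Fin M, y ^ (supp c.1).card / (Z AA L y * M) *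
          ∑ v ∈ sec w' d c.1 t, (w v : ℝ)
          ≥ ∑ c : {c // c ∈ vc AA L}, y ^ (supp c.1).card * (supp c.1).card / Z AA L y :=
            Finset.sum_le_sum (fun c _ => h2 c)
        _ = E1 AA L y / Z AA L y := by
            rw [← Finset.sum_div]
            congr 1
            unfold E1
            exact Finset.sum_coe_sort (vc AA L) (fun c => y ^ (supp c).card * (supp c).card)
    refine le_trans ?_ h1
    rw [le_div_iff₀ hZ]
    refine le_trans ?_ hyE
    apply mul_le_mul_of_nonneg_right _ hZ.le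
    have hcard : (Fintype.card (VH w') : ℝ) = ∑ v, (w' v : ℝ) := by
      rw [Fintype.card_sigma]
      push_cast
      simp
    rw [hcard]
    have hhalfR : (∑ v, (w v : ℝ)) ≤ 2 * ∑ v, (w' v : ℝ) := by exact_mod_cast hhalf
    push_cast
    calc (J : ℝ) / Δ * ∑ v, (w v : ℝ) ≤ J / Δ * (2 * ∑ v, (w' v : ℝ)) := by gcongr
      _ = 8 * J * ((∑ v, (w' v : ℝ)) / (4 * Δ)) := by field_simp; ring
  · -- pair correlations
    intro u u' huu
    rw [Fintype.sum_prod_type, Finset.sum_comm]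
    have h1 : ∀ t : Fin M, ∑ c : {c // c ∈ vc AA L},
        (if u ∈ sec w' d c.1 t ∧ u' ∈ sec w' d c.1 t then
          y ^ (supp c.1).card / (Z AA L y * M) else 0) ≤ (C / Δ) ^ 2 / M := by
      intro t
      rw [Finset.sum_coe_sort (vc AA L) (fun c =>
        if u ∈ sec w' d c t ∧ u' ∈ sec w' d c t then y ^ (supp c).card / (Z AA L y * M) else 0)]
      by_cases hu : (t : ℕ) / d u < w' u
      · by_cases hu' : (t : ℕ) / d u' < w' u'
        · have hne : (⟨u, ⟨t / d u, hu⟩⟩ : VH w') ≠ ⟨u', ⟨t / d u', hu'⟩⟩ := by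
            intro h
            exact huu (congrArg Sigma.fst h)
          have h2 := pair_bound (A := AA) (L := L) hne hy0.le
          have h3 : ∑ c ∈ vc AA L, (if u ∈ sec w' d c t ∧ u' ∈ sec w' d c t then
              y ^ (supp c).card / (Z AA L y * M) else 0) =
              (∑ c ∈ (vc AA L).filter (fun c => (⟨u, ⟨t / d u, hu⟩⟩ : VH w') ∈ supp c ∧
                (⟨u', ⟨t / d u', hu'⟩⟩ : VH w') ∈ supp c), y ^ (supp c).card) /
              (Z AA L y * M) := by
            rw [Finset.sum_filter, Finset.sum_div]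
            apply Finset.sum_congr rfl
            intro c _
            have h4 : (u ∈ sec w' d c t ∧ u' ∈ sec w' d c t) ↔
                ((⟨u, ⟨t / d u, hu⟩⟩ : VH w') ∈ supp c ∧
                (⟨u', ⟨t / d u', hu'⟩⟩ : VH w') ∈ supp c) := by
              rw [mem_sec, mem_sec, mem_supp, mem_supp]
              constructor
              · rintro ⟨⟨_, h5⟩, ⟨_, h6⟩⟩; exact ⟨h5, h6⟩
              · rintro ⟨h5, h6⟩; exact ⟨⟨hu, h5⟩, ⟨hu', h6⟩⟩
            by_cases h7 : u ∈ sec w' d c t ∧ u' ∈ sec w' d c t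
            · rw [if_pos h7, if_pos (h4.1 h7)]
            · rw [if_neg h7, if_neg (fun h => h7 (h4.2 h)), zero_div]
          rw [h3, div_le_iff₀ (by positivity)]
          refine h2.trans ?_
          have h5 : (L : ℝ) * y ≤ C / Δ := by
            refine hyC.trans ?_
            push_cast
            apply div_le_div_of_nonneg_left hC0.le hΔR
            linarith
          have h6 : ((L : ℝ) * y) ^ 2 ≤ (C / Δ) ^ 2 := by gcongr
          calc ((L : ℝ) * y) ^ 2 * Z AA L y ≤ (C / Δ) ^ 2 * Z AA L y :=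
                mul_le_mul_of_nonneg_right h6 hZ.le
            _ = (C / Δ) ^ 2 / M * (Z AA L y * M) := by field_simp
        · rw [Finset.sum_eq_zero]
          · positivity
          · intro c _
            rw [if_neg]
            rintro ⟨_, h⟩
            obtain ⟨h2, _⟩ := mem_sec.1 h
            exact hu' h2
      · rw [Finset.sum_eq_zero]
        · positivity
        · intro c _
          rw [if_neg]
          rintro ⟨h, _⟩
          obtain ⟨h2, _⟩ := mem_sec.1 h
          exact hu h2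
    calc ∑ t : Fin M, ∑ c : {c // c ∈ vc AA L},
        (if u ∈ sec w' d c.1 t ∧ u' ∈ sec w' d c.1 t then
          y ^ (supp c.1).card / (Z AA L y * M) else 0)
        ≤ ∑ _t : Fin M, (C / Δ) ^ 2 / M := Finset.sum_le_sum (fun t _ => h1 t)
      _ = (C / Δ) ^ 2 := by
          rw [Finset.sum_const, Finset.card_univ, Fintype.card_fin, nsmul_eq_mul]
          field_simp

end Pool.MP_e50225_co
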